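import Pool.Agent.T2h80.F5.Stm

set_option autoImplicit false

/-!
# ALG: a class of order dividing five gives two generators
-/

namespace Pool.Agent.T2h80.F5

open Finset NumberField

namespace ALGaux

variable {K : Type} [Field K] [NumberField K]

theorem th_sq (d : ℕ) : th d * th d = th d := by
  unfold th
  rcases Nat.mod_two_eq_zero_or_one d with h | h <;> rw [h] <;> norm_num

theorem four_n0 (d : ℕ) (hd : d % 4 = 0 ∨ d % 4 = 3) : 4 * n0 d - th d ^ 2 = (d : ℤ) := by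
  unfold n0 th
  rcases hd with h | h
  · have h2 : d % 2 = 0 := by omega
    rw [h2]
    push_cast
    omega
  · have h2 : d % 2 = 1 := by omega
    rw [h2]
    push_cast
    omega

/-- the norm form is nonnegative -/
theorem nf_nonneg (d : ℕ) (hd : d % 4 = 0 ∨ d % 4 = 3) (x u : ℤ) :
    0 ≤ x ^ 2 + th d * x * u + n0 d * u ^ 2 := by
  have h := four_n0 d hd
  have h4 : 4 * (x ^ 2 + th d * x * u + n0 d * u ^ 2) = (2 * x + th d * u) ^ 2 + (d : ℤ) * u ^ 2 := by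
    rw [← h]; ring
  have : 0 ≤ (2 * x + th d * u) ^ 2 + (d : ℤ) * u ^ 2 := by positivity
  linarith

/-- the coordinate of a multiple of an integer -/
theorem coord_dvd {d : ℕ} {ω : 𝓞 K} {σ : 𝓞 K →+* 𝓞 K} (hQ : IsQ K d ω σ) (n : ℕ) (x y : ℤ)
    (J : Ideal (𝓞 K))
    (h : Ideal.span {((x : ℤ) : 𝓞 K) + (y : 𝓞 K) * ω} = Ideal.span {((n : ℕ) : 𝓞 K)} * J) :
    (n : ℤ) ∣ y := by
  have h1 : ((x : ℤ) : 𝓞 K) + (y : 𝓞 K) * ω ∈ Ideal.span {((n : ℕ) : 𝓞 K)} := by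
    have h2 : ((x : ℤ) : 𝓞 K) + (y : 𝓞 K) * ω ∈ Ideal.span {((x : ℤ) : 𝓞 K) + (y : 𝓞 K) * ω} :=
      Ideal.mem_span_singleton_self _
    rw [h] at h2
    exact Ideal.mul_le_left (I := Ideal.span {((n : ℕ) : 𝓞 K)}) (J := J) h2
  obtain ⟨z, hz⟩ := Ideal.mem_span_singleton.mp h1
  obtain ⟨a, b, hab⟩ := hQ.2.2.1 z
  have h3 : (((x - n * a : ℤ)) : 𝓞 K) + ((y - n * b : ℤ) : 𝓞 K) * ω = 0 := by
    push_cast
    have := hz
    rw [hab] at this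
    linear_combination this
  have h4 := (hQ.2.2.2.1 _ _ h3).2
  exact ⟨b, by linarith⟩

omit [NumberField K] in
theorem map_span_sing (σ : 𝓞 K →+* 𝓞 K) (x : 𝓞 K) :
    (Ideal.span {x}).map σ = Ideal.span {σ x} := by
  rw [Ideal.map_span, Set.image_singleton]

theorem pow5_inj (I J : Ideal (𝓞 K)) (h : I ^ 5 = J ^ 5) : I = J := by
  have h1 : I ∣ J := (UniqueFactorizationMonoid.pow_dvd_pow_iff_dvd (n := 5) (by norm_num)).mp (by rw [h])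
  have h2 : J ∣ I := (UniqueFactorizationMonoid.pow_dvd_pow_iff_dvd (n := 5) (by norm_num)).mp (by rw [h])
  exact le_antisymm (Ideal.dvd_iff_le.mp h2) (Ideal.dvd_iff_le.mp h1)

/-- the data attached to a class -/
theorem main_exists (hMIN : S_MIN) (hSPL : S_SPL) (hCOP : S_COP) (d : ℕ)
    (hK2 : Module.finrank ℚ K = 2) (hdisc : discr K = -(d : ℤ)) (hd0 : 0 < d)
    (hd4 : d % 4 = 0 ∨ d % 4 = 3) (ω : 𝓞 K) (σ : 𝓞 K →+* 𝓞 K) (hQ : IsQ K d ω σ)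
    (c : ClassGroup (𝓞 K)) (hc : c ^ 5 = 1) :
    ∃ (t : ℕ × ℕ × ℕ × ℤ × ℤ × ℤ × ℤ) (Pf : Ideal (𝓞 K)) (hI : Pf ∈ nonZeroDivisors (Ideal (𝓞 K))),
      ClassGroup.mk0 ⟨Pf, hI⟩ = c ∧
      REL d t.1 t.2.1 t.2.2.1 t.2.2.2.1 t.2.2.2.2.1 t.2.2.2.2.2.1 t.2.2.2.2.2.2 ∧
      Ideal.span {((t.1 : ℕ) : 𝓞 K) *
        (((t.2.2.2.1 : ℤ) : 𝓞 K) + ((t.2.2.2.2.1 : ℤ) : 𝓞 K) * ω) ^ 2 *
        (((t.2.2.2.2.2.1 : ℤ) : 𝓞 K) + ((t.2.2.2.2.2.2 : ℤ) : 𝓞 K) * ω)} =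
      Ideal.span {((t.2.2.1 : ℕ) : 𝓞 K)} ^ 2 * Pf ^ 5 := by
  obtain ⟨Pf, hPf, hPfc, hPfn, hPfp⟩ := hMIN K d hK2 hdisc hd0 c
  obtain ⟨Af, hAf, hAfc, hAfn, hAfp⟩ := hMIN K d hK2 hdisc hd0 (c ^ 2)
  have hPf0 : Pf ≠ ⊥ := fun h => nonZeroDivisors.ne_zero hPf (by rw [h]; rfl)
  have hAf0 : Af ≠ ⊥ := fun h => nonZeroDivisors.ne_zero hAf (by rw [h]; rfl)
  obtain ⟨R, P, A, ρ, hS⟩ := hSPL K d ω σ hQ Pf Af hPf0 hAf0 hPfp hAfp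
  obtain ⟨_, _, _, _, hρ0, hR2, hRσ, hRn, hPfR, hAfR, _, hcop⟩ := id hS
  have hQ' := hQ
  obtain ⟨hω2, hσω, hrep, huni, hinv, hnorm, hxσ, hIσ, hnσ⟩ := hQ'
  have hP0 : P ≠ ⊥ := fun h => hPf0 (by rw [hPfR, h]; exact Ideal.mul_bot _)
  have hA0 : A ≠ ⊥ := fun h => hAf0 (by rw [hAfR, h]; exact Ideal.mul_bot _)
  have hR0 : R ≠ ⊥ := fun h => hPf0 (by rw [hPfR, h]; exact Ideal.bot_mul _)
  have hρ0' : ((ρ : ℕ) : 𝓞 K) ≠ 0 := by exact_mod_cast hρ0.ne'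
  have hspρ : (Ideal.span {((ρ : ℕ) : 𝓞 K)} : Ideal (𝓞 K)) ≠ ⊥ := by
    rw [Ne, Ideal.span_singleton_eq_bot]; exact hρ0'
  have hm0 : 0 < Ideal.absNorm P := Nat.pos_of_ne_zero (by rwa [Ne, Ideal.absNorm_eq_zero_iff])
  have ha0 : 0 < Ideal.absNorm A := Nat.pos_of_ne_zero (by rwa [Ne, Ideal.absNorm_eq_zero_iff])
  have hσinj : Function.Injective σ := fun x y h => by rw [← hinv x, h, hinv y]
  -- the conjugate ideals are not zero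
  have hAσ0 : Af.map σ ≠ ⊥ := by
    rw [Ne, ← Ideal.absNorm_eq_zero_iff, hnσ, Ideal.absNorm_eq_zero_iff]; exact hAf0
  have hAσmem : Af.map σ ∈ nonZeroDivisors (Ideal (𝓞 K)) := mem_nonZeroDivisors_of_ne_zero hAσ0
  -- class of the conjugate
  have hclσ : ClassGroup.mk0 ⟨Af.map σ, hAσmem⟩ * c ^ 2 = 1 := by
    rw [← hAfc, ← map_mul]
    have : (⟨Af.map σ, hAσmem⟩ : nonZeroDivisors (Ideal (𝓞 K))) * ⟨Af, hAf⟩ =
      ⟨Af.map σ * Af, mul_mem hAσmem hAf⟩ := rfl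
    rw [this, ClassGroup.mk0_eq_one_iff, mul_comm, hIσ]
    exact ⟨⟨_, rfl⟩⟩
  -- first principal ideal
  have hpr1 : (Pf ^ 2 * Af.map σ).IsPrincipal := by
    have hmem : Pf ^ 2 * Af.map σ ∈ nonZeroDivisors (Ideal (𝓞 K)) :=
      mul_mem (pow_mem hPf 2) hAσmem
    rw [← ClassGroup.mk0_eq_one_iff hmem]
    have : (⟨Pf ^ 2 * Af.map σ, hmem⟩ : nonZeroDivisors (Ideal (𝓞 K))) =
      ⟨Pf, hPf⟩ ^ 2 * ⟨Af.map σ, hAσmem⟩ := rfl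
    rw [this, map_mul, map_pow, hPfc, mul_comm]
    exact hclσ
  have hpr2 : (Af ^ 2 * Pf).IsPrincipal := by
    have hmem : Af ^ 2 * Pf ∈ nonZeroDivisors (Ideal (𝓞 K)) :=
      mul_mem (pow_mem hAf 2) hPf
    rw [← ClassGroup.mk0_eq_one_iff hmem]
    have : (⟨Af ^ 2 * Pf, hmem⟩ : nonZeroDivisors (Ideal (𝓞 K))) =
      ⟨Af, hAf⟩ ^ 2 * ⟨Pf, hPf⟩ := rfl
    rw [this, map_mul, map_pow, hPfc, hAfc, ← hc]
    rw [← pow_mul, ← pow_succ]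
  -- divide by ρ
  have key : ∀ I : Ideal (𝓞 K), (Ideal.span {((ρ : ℕ) : 𝓞 K)} * I).IsPrincipal → I.IsPrincipal := by
    intro I hI
    obtain ⟨⟨b, hb⟩⟩ := hI
    have hb' : Ideal.span {((ρ : ℕ) : 𝓞 K)} * I = Ideal.span {b} := hb
    have hmem : b ∈ Ideal.span {((ρ : ℕ) : 𝓞 K)} := by
      have h0 : b ∈ Ideal.span {b} := Ideal.mem_span_singleton_self b
      rw [← hb'] at h0
      exact Ideal.mul_le_left (I := Ideal.span {((ρ : ℕ) : 𝓞 K)}) (J := I) h0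
    obtain ⟨b', hb''⟩ := Ideal.mem_span_singleton.mp hmem
    refine ⟨⟨b', ?_⟩⟩
    have : Ideal.span {((ρ : ℕ) : 𝓞 K)} * I = Ideal.span {((ρ : ℕ) : 𝓞 K)} * Ideal.span {b'} := by
      rw [hb', hb'', Ideal.span_singleton_mul_span_singleton]
    exact mul_left_cancel₀ hspρ this
  have hpr1' : (P ^ 2 * A.map σ * R).IsPrincipal := by
    apply key
    have : Ideal.span {((ρ : ℕ) : 𝓞 K)} * (P ^ 2 * A.map σ * R) = Pf ^ 2 * Af.map σ := by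
      rw [← hR2, hPfR, hAfR, Ideal.map_mul, hRσ]; ring
    rw [this]; exact hpr1
  have hpr2' : (A ^ 2 * P * R).IsPrincipal := by
    apply key
    have : Ideal.span {((ρ : ℕ) : 𝓞 K)} * (A ^ 2 * P * R) = Af ^ 2 * Pf := by
      rw [← hR2, hPfR, hAfR]; ring
    rw [this]; exact hpr2
  -- coordinates with nonnegative second coordinate
  have coords : ∀ I : Ideal (𝓞 K), I.IsPrincipal → ∃ x u : ℤ, 0 ≤ u ∧
      Ideal.span {((x : ℤ) : 𝓞 K) + (u : 𝓞 K) * ω} = I := by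
    intro I hI
    obtain ⟨⟨b, hb⟩⟩ := hI
    have hb' : I = Ideal.span {b} := hb
    obtain ⟨x, u, hxu⟩ := hrep b
    rcases le_total 0 u with hu | hu
    · exact ⟨x, u, hu, by rw [hb', hxu]⟩
    · refine ⟨-x, -u, by linarith, ?_⟩
      rw [hb', hxu, ← Ideal.span_singleton_neg]
      congr 2
      push_cast
      ring
  obtain ⟨x₁, u₁, hu₁, h1⟩ := coords _ hpr1'
  obtain ⟨x₂, u₂, hu₂, h2⟩ := coords _ hpr2'
  -- norms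
  have hnrm : ∀ (x u : ℤ) (I : Ideal (𝓞 K)), Ideal.span {((x : ℤ) : 𝓞 K) + (u : 𝓞 K) * ω} = I →
      x ^ 2 + th d * x * u + n0 d * u ^ 2 = (Ideal.absNorm I : ℤ) := by
    intro x u I hI
    rw [← hI, Ideal.absNorm_span_singleton, hnorm, Int.natCast_natAbs,
      abs_of_nonneg (nf_nonneg d hd4 x u)]
  have hN1 := hnrm _ _ _ h1
  have hN2 := hnrm _ _ _ h2
  rw [map_mul, map_mul, map_pow, hnσ, hRn] at hN1
  rw [map_mul, map_mul, map_pow, hRn] at hN2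
  -- the element identities
  have hconj1 : ∀ x u : ℤ, σ (((x : ℤ) : 𝓞 K) + (u : 𝓞 K) * ω) =
      ((x : ℤ) : 𝓞 K) + (u : 𝓞 K) * ((th d : 𝓞 K) - ω) := by
    intro x u
    rw [map_add, map_mul, map_intCast, map_intCast, hσω]
  have h2σ : Ideal.span {((x₂ : ℤ) : 𝓞 K) + (u₂ : 𝓞 K) * ((th d : 𝓞 K) - ω)} =
      (A.map σ) ^ 2 * P.map σ * R := by
    rw [← hconj1, ← map_span_sing, h2, Ideal.map_mul, Ideal.map_mul, Ideal.map_pow, hRσ]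
  have hAA := hIσ A
  have hPP := hIσ P
  have hthsq : (th d : 𝓞 K) * (th d : 𝓞 K) = (th d : 𝓞 K) := by
    have := th_sq d
    exact_mod_cast congrArg (Int.cast : ℤ → 𝓞 K) this
  have hnat : ∀ p q : ℕ, Ideal.span {((p * q : ℕ) : 𝓞 K)} =
      Ideal.span {((p : ℕ) : 𝓞 K)} * Ideal.span {((q : ℕ) : 𝓞 K)} := by
    intro p q
    rw [Ideal.span_singleton_mul_span_singleton]
    push_cast
    rfl
  refine ⟨(ρ, Ideal.absNorm P, Ideal.absNorm A, x₁, u₁, x₂, u₂), Pf, hPf, hPfc, ?_, ?_⟩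
  · refine ⟨hρ0, hm0, ha0, hu₁, hu₂, hcop, hCOP K d ω σ hQ Pf Af R P A ρ hS x₁ u₁ x₂ u₂ h1 h2,
      ?_, ?_, ?_, ?_, ?_, ?_, ?_, ?_⟩
    · have : Ideal.absNorm Pf = ρ * Ideal.absNorm P := by rw [hPfR, map_mul, hRn]
      rw [← this]; exact hPfn
    · have : Ideal.absNorm Af = ρ * Ideal.absNorm A := by rw [hAfR, map_mul, hRn]
      rw [← this]; exact hAfn
    · rw [hN1]; push_cast; ring
    · rw [hN2]; push_cast; ring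
    · -- b g
      apply coord_dvd hQ _ (x₁ * x₂ - n0 d * u₁ * u₂) _ (P ^ 3 * A)
      have : (((x₁ * x₂ - n0 d * u₁ * u₂ : ℤ)) : 𝓞 K) +
          ((x₁ * u₂ + x₂ * u₁ + th d * u₁ * u₂ : ℤ) : 𝓞 K) * ω =
          (((x₁ : ℤ) : 𝓞 K) + (u₁ : 𝓞 K) * ω) * (((x₂ : ℤ) : 𝓞 K) + (u₂ : 𝓞 K) * ω) := by
        push_cast
        linear_combination (-(u₁ : 𝓞 K) * u₂) * hω2
      rw [this, ← Ideal.span_singleton_mul_span_singleton, h1, h2, hnat, ← hAA, ← hR2]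
      ring
    · -- b σ g
      apply coord_dvd hQ _ (x₁ * x₂ + th d * x₁ * u₂ + n0 d * u₁ * u₂) _ (P * (A.map σ) ^ 3)
      have : (((x₁ * x₂ + th d * x₁ * u₂ + n0 d * u₁ * u₂ : ℤ)) : 𝓞 K) +
          ((x₂ * u₁ - x₁ * u₂ : ℤ) : 𝓞 K) * ω =
          (((x₁ : ℤ) : 𝓞 K) + (u₁ : 𝓞 K) * ω) *
            (((x₂ : ℤ) : 𝓞 K) + (u₂ : 𝓞 K) * ((th d : 𝓞 K) - ω)) := by
        push_cast
        linear_combination ((u₁ : 𝓞 K) * u₂) * hω2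
      rw [this, ← Ideal.span_singleton_mul_span_singleton, h1, h2σ, hnat, ← hPP, ← hR2]
      ring
    · -- b σ g ^ 2
      apply coord_dvd hQ _ (x₁ * ((x₂ + th d * u₂) ^ 2 - n0 d * u₂ ^ 2) +
        n0 d * u₁ * (2 * x₂ * u₂ + th d * u₂ ^ 2)) _ (R * (A.map σ) ^ 5)
      have : (((x₁ * ((x₂ + th d * u₂) ^ 2 - n0 d * u₂ ^ 2) +
        n0 d * u₁ * (2 * x₂ * u₂ + th d * u₂ ^ 2) : ℤ)) : 𝓞 K) +
          ((u₁ * x₂ ^ 2 - 2 * x₁ * x₂ * u₂ - th d * x₁ * u₂ ^ 2 - n0 d * u₁ * u₂ ^ 2 : ℤ) : 𝓞 K) * ω =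
          (((x₁ : ℤ) : 𝓞 K) + (u₁ : 𝓞 K) * ω) *
            ((((x₂ : ℤ) : 𝓞 K) + (u₂ : 𝓞 K) * ((th d : 𝓞 K) - ω)) *
            (((x₂ : ℤ) : 𝓞 K) + (u₂ : 𝓞 K) * ((th d : 𝓞 K) - ω))) := by
        push_cast
        linear_combination (-(x₁ : 𝓞 K) * u₂ ^ 2 + u₁ * (2 * x₂ * u₂ + th d * u₂ ^ 2) - u₁ * u₂ ^ 2 * (ω + th d) + u₁ * th d * u₂ ^ 2) * hω2
      rw [this, ← Ideal.span_singleton_mul_span_singleton, ← Ideal.span_singleton_mul_span_singleton,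
        h1, h2σ, show ρ * Ideal.absNorm P ^ 2 = ρ * (Ideal.absNorm P * Ideal.absNorm P) by ring,
        hnat, hnat, ← hPP, ← hR2]
      ring
    · -- b ^ 2 g
      apply coord_dvd hQ _ (x₂ * (x₁ ^ 2 - n0 d * u₁ ^ 2) -
        n0 d * u₂ * (2 * x₁ * u₁ + th d * u₁ ^ 2)) _ (R * P ^ 5)
      have : (((x₂ * (x₁ ^ 2 - n0 d * u₁ ^ 2) -
        n0 d * u₂ * (2 * x₁ * u₁ + th d * u₁ ^ 2) : ℤ)) : 𝓞 K) +
          ((x₁ ^ 2 * u₂ + 2 * x₁ * x₂ * u₁ + 2 * th d * x₁ * u₁ * u₂ + th d * x₂ * u₁ ^ 2 +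
      th d * u₁ ^ 2 * u₂ - n0 d * u₁ ^ 2 * u₂ : ℤ) : 𝓞 K) * ω =
          ((((x₁ : ℤ) : 𝓞 K) + (u₁ : 𝓞 K) * ω) * (((x₁ : ℤ) : 𝓞 K) + (u₁ : 𝓞 K) * ω)) *
            (((x₂ : ℤ) : 𝓞 K) + (u₂ : 𝓞 K) * ω) := by
        push_cast
        linear_combination (-(x₂ : 𝓞 K) * u₁ ^ 2 - 2 * x₁ * u₁ * u₂ - th d * u₁ ^ 2 * u₂ - u₁ ^ 2 * u₂ * ω) * hω2 - u₁ ^ 2 * u₂ * ω * hthsq
      rw [this, ← Ideal.span_singleton_mul_span_singleton, ← Ideal.span_singleton_mul_span_singleton,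
        h1, h2, show ρ * Ideal.absNorm A ^ 2 = ρ * (Ideal.absNorm A * Ideal.absNorm A) by ring,
        hnat, hnat, ← hAA, ← hR2]
      ring
  · dsimp only
    rw [← Ideal.span_singleton_mul_span_singleton, ← Ideal.span_singleton_mul_span_singleton, sq,
      ← Ideal.span_singleton_mul_span_singleton, h1, h2, ← hAA, ← hR2, hPfR]
    ring

end ALGaux

open ALGaux in
/-- **ALG.** -/
theorem t_ALG (hOM : S_OM) (hMIN : S_MIN) (hSPL : S_SPL) (hCOP : S_COP) : S_ALG := by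
  intro K _ _ d hK2 hdisc hd0
  obtain ⟨hd4, ω, σ, hQ⟩ := hOM K d hK2 hdisc hd0
  refine ⟨hd4, ?_⟩
  choose f hf using fun c : {c : ClassGroup (𝓞 K) // c ^ 5 = 1} =>
    main_exists hMIN hSPL hCOP d hK2 hdisc hd0 hd4 ω σ hQ c.1 c.2
  refine ⟨f, ?_, fun c => ?_⟩
  · intro c c' hcc
    obtain ⟨Pf, hPf, hc, hrel, hP5⟩ := hf c
    obtain ⟨Pf', hPf', hc', -, hP5'⟩ := hf c'
    rw [← hcc, hP5] at hP5'
    have ha : 0 < (f c).2.2.1 := hrel.2.2.1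
    have hne : (Ideal.span {(((f c).2.2.1 : ℕ) : 𝓞 K)} ^ 2 : Ideal (𝓞 K)) ≠ 0 := by
      apply pow_ne_zero
      rw [Ne, Ideal.zero_eq_bot, Ideal.span_singleton_eq_bot]
      exact_mod_cast ha.ne'
    have h5 := mul_left_cancel₀ hne hP5'
    have hPP := pow5_inj _ _ h5
    apply Subtype.ext
    rw [← hc, ← hc']
    congr 1
    exact Subtype.ext hPP
  · obtain ⟨Pf, hPf, hc, hrel, hP5⟩ := hf c
    exact hrel

end Pool.Agent.T2h80.F5
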