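import Pool.Agent.T2h80.F5.AVG1

set_option autoImplicit false

namespace Pool.Agent.T2h80.F5

open Finset

namespace H97

theorem sum_DG (hDEG : S_DEG) (hDIV : S_DIV) (δ : ℝ) (hδ : 0 < δ) :
    ∃ C : ℝ, 0 < C ∧ ∀ G H V W ρ K L J R Y : ℕ,
  1 ≤ G → 1 ≤ H → 1 ≤ V → 1 ≤ W → 1 ≤ ρ → G ≤ Y → H ≤ Y → V ≤ Y → W ≤ Y → ρ ≤ Y → K ≤ Y → L ≤ Y →
  J ≤ Y → R ≤ Y →
  ∑ p ∈ GA G H, ∑ q ∈ LA V W, (CN (BD K L J R) (p.2 * p.1 * ρ) q.1 q.2 : ℝ) ≤
  C * ((Y : ℝ) ^ δ) ^ 3 * ((V : ℝ) * W * (1 + K + L + J + R) ^ 2) := by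
  classical
  obtain ⟨C₁, hC₁, h₁⟩ := hDEG δ hδ
  obtain ⟨C₂, hC₂, h₂⟩ := tau_bd hDIV δ hδ 64 (by norm_num) 4 (by norm_num)
  refine ⟨C₂ ^ 2 * C₁ * 5 ^ δ, by positivity, ?_⟩
  intro G H V W ρ K L J R Y hG hH hV hW hρ hGY hHY hVY hWY hρY hKY hLY hJY hRY
  have hY : 1 ≤ Y := hG.trans hGY
  have hY1 : (1 : ℝ) ≤ Y := by exact_mod_cast hY
  set T : ℝ := (Y : ℝ) ^ δ with hT
  have hT1 : 1 ≤ T := Real.one_le_rpow hY1 hδ.le
  -- exchange
  have e1 : ∑ p ∈ GA G H, ∑ q ∈ LA V W, (CN (BD K L J R) (p.2 * p.1 * ρ) q.1 q.2 : ℝ) =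
      ∑ x ∈ BD K L J R, ∑ q ∈ LA V W,
        (((GA G H).filter (fun p => PP (p.2 * p.1 * ρ) q.1 q.2 x)).card : ℝ) := by
    have h1 : ∀ p q : ℕ × ℕ, (CN (BD K L J R) (p.2 * p.1 * ρ) q.1 q.2 : ℝ) =
        ∑ x ∈ BD K L J R, if PP (p.2 * p.1 * ρ) q.1 q.2 x then (1 : ℝ) else 0 := by
      intro p q
      unfold CN
      rw [card_filter]
      push_cast
      rfl
    have h2 : ∀ (q : ℕ × ℕ) (x : ℤ × ℤ × ℤ × ℤ),
        (((GA G H).filter (fun p => PP (p.2 * p.1 * ρ) q.1 q.2 x)).card : ℝ) =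
        ∑ p ∈ GA G H, if PP (p.2 * p.1 * ρ) q.1 q.2 x then (1 : ℝ) else 0 := by
      intro q x
      rw [card_filter]
      push_cast
      rfl
    simp only [h1, h2]
    rw [sum_comm]
    conv_rhs => rw [sum_comm]
    refine sum_congr rfl fun q _ => ?_
    rw [sum_comm]
  rw [e1]
  have hx : ∀ x ∈ BD K L J R, ∀ q ∈ LA V W,
      (((GA G H).filter (fun p => PP (p.2 * p.1 * ρ) q.1 q.2 x)).card : ℝ) ≤ (C₂ * T) ^ 2 := by
    intro x hx q hq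
    obtain ⟨hxB, hxR⟩ := mem_filter.1 hx
    obtain ⟨b1, b2, b3, b4⟩ := mem_BX hKY hLY hJY hRY hxB
    rw [LA, mem_filter, mem_product, mem_Ico, mem_Ico] at hq
    obtain ⟨⟨⟨v1, v2⟩, w1, w2⟩, hc⟩ := hq
    have hv : |(q.1 : ℤ)| ≤ 2 * (Y : ℤ) := by
      rw [Nat.abs_cast]; omega
    have hw : |(q.2 : ℤ)| ≤ 2 * (Y : ℤ) := by
      rw [Nat.abs_cast]; omega
    have a1 := abs_G1 Y x.1 x.2.1 x.2.2.1 x.2.2.2 q.1 q.2 b2 b3 b4 hv hw
    have a2 := abs_G2 Y x.1 x.2.1 x.2.2.1 x.2.2.2 q.1 q.2 b1 b2 b3 hv hw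
    have key : ∀ n : ℤ, n ≠ 0 → |n| ≤ 64 * (Y : ℤ) ^ 4 →
        (∀ p ∈ (GA G H).filter (fun p => PP (p.2 * p.1 * ρ) q.1 q.2 x),
          ((p.2 * p.1 * ρ : ℕ) : ℤ) ∣ n) →
        (((GA G H).filter (fun p => PP (p.2 * p.1 * ρ) q.1 q.2 x)).card : ℝ) ≤
          (C₂ * T) ^ 2 := by
      intro n hn hnb hdv
      have c1 := card_pairs _ n hn (fun p hp => ⟨ρ, hdv p hp⟩)
      have c2 : (n.natAbs.divisors.card : ℝ) ≤ C₂ * T := by
        refine (h₂ Y _ hY (Nat.pos_of_ne_zero (Int.natAbs_ne_zero.2 hn)) ?_).1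
        have : ((n.natAbs : ℤ) : ℝ) ≤ ((64 * (Y : ℤ) ^ 4 : ℤ) : ℝ) := by
          rw [Int.cast_le, Int.natCast_natAbs]
          exact hnb
        push_cast at this
        simpa using this
      calc (((GA G H).filter (fun p => PP (p.2 * p.1 * ρ) q.1 q.2 x)).card : ℝ)
          ≤ (n.natAbs.divisors.card : ℝ) * (n.natAbs.divisors.card : ℝ) := by exact_mod_cast c1
        _ ≤ (C₂ * T) * (C₂ * T) := mul_le_mul c2 c2 (by positivity) (by positivity)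
        _ = (C₂ * T) ^ 2 := by ring
    by_cases hz1 : G1 x.1 x.2.1 x.2.2.1 x.2.2.2 q.1 q.2 = 0
    · by_cases hz2 : G2 x.1 x.2.1 x.2.2.1 x.2.2.2 q.1 q.2 = 0
      · have : (GA G H).filter (fun p => PP (p.2 * p.1 * ρ) q.1 q.2 x) = ∅ := by
          rw [filter_eq_empty_iff]
          intro p _ hp
          exact hp.2.2 ⟨hz1, hz2⟩
        rw [this]
        simp only [card_empty, Nat.cast_zero]
        positivity
      · exact key _ hz2 a2 (fun p hp => (mem_filter.1 hp).2.2.1)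
    · exact key _ hz1 a1 (fun p hp => (mem_filter.1 hp).2.1)
  have e2 : ∑ x ∈ BD K L J R, ∑ q ∈ LA V W,
        (((GA G H).filter (fun p => PP (p.2 * p.1 * ρ) q.1 q.2 x)).card : ℝ) ≤
      (BD K L J R).card * ((LA V W).card * (C₂ * T) ^ 2) := by
    calc _ ≤ ∑ x ∈ BD K L J R, ∑ q ∈ LA V W, (C₂ * T) ^ 2 :=
          sum_le_sum fun x hx' => sum_le_sum fun q hq' => hx x hx' q hq'
      _ = _ := by rw [sum_const, sum_const, nsmul_eq_mul, nsmul_eq_mul]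
  refine e2.trans ?_
  have d1 : ((BD K L J R).card : ℝ) ≤ C₁ * (5 ^ δ * T) * (1 + K + L + J + R) ^ 2 := by
    set Z : ℕ := 1 + K + L + J + R with hZ
    have hsub : BD K L J R ⊆ (BX Z Z Z Z).filter
        (fun x => RS x.1 x.2.1 x.2.2.1 x.2.2.2 = 0) := by
      intro x hx
      obtain ⟨hx1, hx2⟩ := mem_filter.1 hx
      rw [mem_filter]
      refine ⟨?_, hx2⟩
      unfold BX at hx1 ⊢
      rw [mem_product, mem_product, mem_product, mem_Icc, mem_Icc, mem_Icc, mem_Icc] at hx1 ⊢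
      omega
    have h1 := h₁ Z (by omega)
    have h2 : ((BD K L J R).card : ℝ) ≤ (((BX Z Z Z Z).filter
        (fun x => RS x.1 x.2.1 x.2.2.1 x.2.2.2 = 0)).card : ℝ) := by
      exact_mod_cast card_le_card hsub
    have hZ0 : (0 : ℝ) < (Z : ℝ) := by
      have : 0 < Z := by omega
      exact_mod_cast this
    have h3 : (Z : ℝ) ≤ 5 * Y := by
      have : Z ≤ 5 * Y := by omega
      exact_mod_cast this
    have h4 : (Z : ℝ) ^ δ ≤ 5 ^ δ * T := by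
      rw [hT, ← Real.mul_rpow (by norm_num) (by positivity)]
      exact Real.rpow_le_rpow hZ0.le h3 hδ.le
    rw [Real.rpow_add hZ0, Real.rpow_two] at h1
    have h5 : (Z : ℝ) = 1 + K + L + J + R := by rw [hZ]; push_cast; ring
    rw [← h5]
    calc ((BD K L J R).card : ℝ) ≤ C₁ * ((Z : ℝ) ^ 2 * (Z : ℝ) ^ δ) := h2.trans h1
      _ ≤ C₁ * ((Z : ℝ) ^ 2 * (5 ^ δ * T)) := by gcongr
      _ = C₁ * (5 ^ δ * T) * (Z : ℝ) ^ 2 := by ring
  have d2 : ((LA V W).card : ℝ) ≤ V * W := by exact_mod_cast card_LA V W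
  calc ((BD K L J R).card : ℝ) * ((LA V W).card * (C₂ * T) ^ 2)
      ≤ (C₁ * (5 ^ δ * T) * (1 + K + L + J + R) ^ 2) * (V * W * (C₂ * T) ^ 2) := by gcongr
    _ = C₂ ^ 2 * C₁ * 5 ^ δ * T ^ 3 * (V * W * (1 + K + L + J + R) ^ 2) := by ring

end H97

open H97 in
theorem t_AVG (hRES : S_RES) (hROO : S_ROO) (hDEG : S_DEG) (hCON : S_CON) (hRAD : S_RAD)
    (hDIV : S_DIV) : S_AVG := by
  classical
  intro ε hε
  obtain ⟨C₁, hC₁, h₁⟩ := sum_rad hDIV hRAD (ε / 3) (by positivity)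
  obtain ⟨C₂, hC₂, h₂⟩ := sum_ND hRES hROO hCON hDIV (ε / 3) (by positivity)
  obtain ⟨C₃, hC₃, h₃⟩ := sum_DG hDEG hDIV (ε / 3) (by positivity)
  refine ⟨Real.sqrt (C₁ * C₂) + Real.sqrt C₃, by positivity, ?_⟩
  intro G H V W ρ K L J R Y hG hH hV hW hρ hGY hHY hVY hWY hρY hKY hLY hJY hRY
  have hY : 1 ≤ Y := hG.trans hGY
  have hY1 : (1 : ℝ) ≤ Y := by exact_mod_cast hY
  set T : ℝ := (Y : ℝ) ^ (ε / 3) with hT
  have hT1 : 1 ≤ T := Real.one_le_rpow hY1 (by positivity)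
  have hTε : (Y : ℝ) ^ ε = T ^ 3 := by
    rw [hT, ← Real.rpow_natCast, ← Real.rpow_mul (by positivity)]
    congr 1
    push_cast
    ring
  have k₁ := h₁ G H Y hG hH hGY hHY
  have k₂ := h₂ G H V W ρ K L J R Y hG hH hV hW hρ hGY hHY hVY hWY hρY hKY hLY hJY hRY
  have k₃ := h₃ G H V W ρ K L J R Y hG hH hV hW hρ hGY hHY hVY hWY hρY hKY hLY hJY hRY
  set QQ : ℝ := (1 + K) * (1 + L) * (1 + J) * (1 + R) with hQQ
  have hQQ0 : 0 ≤ QQ := by positivity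
  -- rewrite the sum
  have e1 : ∑ g ∈ Ico G (2 * G), ∑ h ∈ Icc 1 H, ∑ v ∈ Ico V (2 * V),
      ∑ w ∈ (Ico W (2 * W)).filter (fun w => Nat.Coprime v w),
        Real.sqrt (KK K L J R (h * g * ρ) v w) =
      ∑ p ∈ GA G H, ∑ q ∈ LA V W, Real.sqrt (KK K L J R (p.2 * p.1 * ρ) q.1 q.2) := by
    rw [GA, sum_product]
    refine sum_congr rfl fun g _ => sum_congr rfl fun h _ => ?_
    rw [LA, sum_filter, sum_product]
    refine sum_congr rfl fun v _ => ?_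
    rw [sum_filter]
  rw [e1, ← sum_product']
  set Ω := GA G H ×ˢ LA V W with hΩ
  rw [← sum_product'] at k₂ k₃
  -- splitting
  have e2 : ∑ z ∈ Ω, Real.sqrt (KK K L J R (z.1.2 * z.1.1 * ρ) z.2.1 z.2.2) ≤
      ∑ z ∈ Ω, Real.sqrt (CN (BN K L J R) (z.1.2 * z.1.1 * ρ) z.2.1 z.2.2) +
      ∑ z ∈ Ω, Real.sqrt (CN (BD K L J R) (z.1.2 * z.1.1 * ρ) z.2.1 z.2.2) := by
    rw [← sum_add_distrib]
    refine sum_le_sum fun z _ => ?_
    have h1 : (KK K L J R (z.1.2 * z.1.1 * ρ) z.2.1 z.2.2 : ℝ) ≤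
        CN (BN K L J R) (z.1.2 * z.1.1 * ρ) z.2.1 z.2.2 +
        CN (BD K L J R) (z.1.2 * z.1.1 * ρ) z.2.1 z.2.2 := by
      exact_mod_cast KK_split K L J R _ _ _
    have sq2 : ∀ a b : ℝ, 0 ≤ a → 0 ≤ b → Real.sqrt (a + b) ≤ Real.sqrt a + Real.sqrt b := by
      intro a b ha hb
      rw [Real.sqrt_le_left (by positivity)]
      have u1 := Real.sq_sqrt ha
      have u2 := Real.sq_sqrt hb
      have u3 : 0 ≤ Real.sqrt a * Real.sqrt b := by positivity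
      nlinarith
    exact (Real.sqrt_le_sqrt h1).trans (sq2 _ _ (by positivity) (by positivity))
  refine e2.trans ?_
  have hcL : ((LA V W).card : ℝ) ≤ V * W := by exact_mod_cast card_LA V W
  -- non-degenerate part
  have n1 : ∑ z ∈ Ω, Real.sqrt (CN (BN K L J R) (z.1.2 * z.1.1 * ρ) z.2.1 z.2.2) ≤
      Real.sqrt (C₁ * C₂) * T ^ 3 * (Real.sqrt ((V : ℝ) * W) *
        Real.sqrt (((V : ℝ) * W + G * H * ρ) * QQ)) := by
    have a1 : ∑ z ∈ Ω, Real.sqrt (CN (BN K L J R) (z.1.2 * z.1.1 * ρ) z.2.1 z.2.2) =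
        ∑ z ∈ Ω, Real.sqrt (1 / (rad (z.1.2 * z.1.1 * ρ) : ℝ)) *
          Real.sqrt ((rad (z.1.2 * z.1.1 * ρ) : ℝ) *
            (CN (BN K L J R) (z.1.2 * z.1.1 * ρ) z.2.1 z.2.2 : ℝ)) := by
      refine sum_congr rfl fun z _ => ?_
      have hr : (0 : ℝ) < rad (z.1.2 * z.1.1 * ρ) := by exact_mod_cast rad_pos _
      rw [← Real.sqrt_mul (by positivity), ← mul_assoc, one_div, inv_mul_cancel₀ hr.ne',
        one_mul]
    rw [a1]
    refine (Real.sum_sqrt_mul_sqrt_le Ω (fun z => by positivity)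
      (fun z => by positivity)).trans ?_
    have a2 : ∑ z ∈ Ω, 1 / (rad (z.1.2 * z.1.1 * ρ) : ℝ) ≤ (V * W) * (C₁ * T ^ 2) := by
      rw [hΩ, sum_product]
      have a3 : ∀ p ∈ GA G H, ∑ q ∈ LA V W, 1 / (rad (p.2 * p.1 * ρ) : ℝ) ≤
          (V * W) * (1 / (rad (p.2 * p.1) : ℝ)) := by
        intro p hp
        rw [GA, mem_product, mem_Ico, mem_Icc] at hp
        obtain ⟨⟨g1, g2⟩, g3, g4⟩ := hp
        have hpg : 0 < p.1 := by omega
        have he0 : 0 < p.2 * p.1 * ρ := by positivity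
        have hr : (0 : ℝ) < rad (p.2 * p.1) := by exact_mod_cast rad_pos _
        have hr2 : (rad (p.2 * p.1) : ℝ) ≤ rad (p.2 * p.1 * ρ) := by
          exact_mod_cast rad_mono _ _ he0.ne' (Dvd.intro _ rfl)
        rw [sum_const, nsmul_eq_mul]
        refine mul_le_mul hcL (one_div_le_one_div_of_le hr hr2) (by positivity) (by positivity)
      refine (sum_le_sum a3).trans ?_
      rw [← mul_sum]
      exact mul_le_mul_of_nonneg_left k₁ (by positivity)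
    refine (mul_le_mul (Real.sqrt_le_sqrt a2) (Real.sqrt_le_sqrt k₂) (Real.sqrt_nonneg _)
      (Real.sqrt_nonneg _)).trans ?_
    rw [← Real.sqrt_mul (by positivity)]
    refine le_of_eq ?_
    have a4 : (V : ℝ) * W * (C₁ * T ^ 2) * (C₂ * T ^ 4 * ((V * W + G * H * ρ) * QQ)) =
        (C₁ * C₂) * (T ^ 3) ^ 2 * ((V * W) * ((V * W + G * H * ρ) * QQ)) := by ring
    rw [a4, Real.sqrt_mul (by positivity), Real.sqrt_mul (by positivity),
      Real.sqrt_sq (by positivity), Real.sqrt_mul (by positivity : (0 : ℝ) ≤ V * W)]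
  -- degenerate part
  have n2 : ∑ z ∈ Ω, Real.sqrt (CN (BD K L J R) (z.1.2 * z.1.1 * ρ) z.2.1 z.2.2) ≤
      Real.sqrt C₃ * T ^ 3 * (Real.sqrt ((G : ℝ) * H) * (V * W) * (1 + K + L + J + R)) := by
    have a1 : ∑ z ∈ Ω, Real.sqrt (CN (BD K L J R) (z.1.2 * z.1.1 * ρ) z.2.1 z.2.2) =
        ∑ z ∈ Ω, Real.sqrt ((fun _ => (1 : ℝ)) z) *
          Real.sqrt (CN (BD K L J R) (z.1.2 * z.1.1 * ρ) z.2.1 z.2.2 : ℝ) := by
      refine sum_congr rfl fun z _ => ?_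
      simp
    rw [a1]
    refine (Real.sum_sqrt_mul_sqrt_le Ω (fun z => by positivity)
      (fun z => by positivity)).trans ?_
    have a2 : ∑ z ∈ Ω, (fun _ => (1 : ℝ)) z ≤ (G * H) * (V * W) := by
      rw [sum_const, nsmul_eq_mul, mul_one, hΩ, card_product, card_GA]
      push_cast
      exact mul_le_mul_of_nonneg_left hcL (by positivity)
    refine (mul_le_mul (Real.sqrt_le_sqrt a2) (Real.sqrt_le_sqrt k₃) (Real.sqrt_nonneg _)
      (Real.sqrt_nonneg _)).trans ?_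
    rw [← Real.sqrt_mul (by positivity)]
    have a4 : (G : ℝ) * H * (V * W) * (C₃ * T ^ 3 * (V * W * (1 + K + L + J + R) ^ 2)) =
        C₃ * T ^ 3 * (G * H) * (V * W * (1 + K + L + J + R)) ^ 2 := by ring
    rw [a4, Real.sqrt_mul (by positivity), Real.sqrt_sq (by positivity),
      Real.sqrt_mul (by positivity), Real.sqrt_mul (by positivity)]
    have a5 : Real.sqrt (T ^ 3) ≤ T ^ 3 := by
      rw [Real.sqrt_le_left (by positivity)]
      have : 1 ≤ T ^ 3 := one_le_pow₀ hT1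
      nlinarith
    calc Real.sqrt C₃ * Real.sqrt (T ^ 3) * Real.sqrt ((G : ℝ) * H) *
          (V * W * (1 + K + L + J + R))
        ≤ Real.sqrt C₃ * T ^ 3 * Real.sqrt ((G : ℝ) * H) *
          (V * W * (1 + K + L + J + R)) := by gcongr
      _ = _ := by ring
  rw [hTε]
  have hA : 0 ≤ Real.sqrt ((V : ℝ) * W) * Real.sqrt (((V : ℝ) * W + G * H * ρ) * QQ) := by
    positivity
  have hB : 0 ≤ Real.sqrt ((G : ℝ) * H) * (V * W) * (1 + K + L + J + R) := by positivity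
  have hc1 : 0 ≤ Real.sqrt (C₁ * C₂) := Real.sqrt_nonneg _
  have hc3 : 0 ≤ Real.sqrt C₃ := Real.sqrt_nonneg _
  have hT3 : 0 ≤ T ^ 3 := by positivity
  set A := Real.sqrt ((V : ℝ) * W) * Real.sqrt (((V : ℝ) * W + G * H * ρ) * QQ)
  set B := Real.sqrt ((G : ℝ) * H) * (V * W) * (1 + K + L + J + R)
  have m1 : 0 ≤ Real.sqrt C₃ * T ^ 3 * A := by positivity
  have m2 : 0 ≤ Real.sqrt (C₁ * C₂) * T ^ 3 * B := by positivity
  calc _ ≤ Real.sqrt (C₁ * C₂) * T ^ 3 * A + Real.sqrt C₃ * T ^ 3 * B := add_le_add n1 n2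
    _ ≤ (Real.sqrt (C₁ * C₂) + Real.sqrt C₃) * T ^ 3 * (A + B) := by nlinarith

end Pool.Agent.T2h80.F5
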