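import Pool.Agent.T2h80.F5.DEG

set_option autoImplicit false

/-! Task AVG of project F5 (helper97). -/

namespace Pool.Agent.T2h80.F5

open Finset

namespace H97

/-- `e` divides both values, which are not both zero -/
def PP (e v w : ℕ) (x : ℤ × ℤ × ℤ × ℤ) : Prop :=
  (e : ℤ) ∣ G1 x.1 x.2.1 x.2.2.1 x.2.2.2 v w ∧ (e : ℤ) ∣ G2 x.1 x.2.1 x.2.2.1 x.2.2.2 v w ∧
    ¬ (G1 x.1 x.2.1 x.2.2.1 x.2.2.2 v w = 0 ∧ G2 x.1 x.2.1 x.2.2.1 x.2.2.2 v w = 0)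

open Classical in
/-- the number of `x ∈ B` with `PP` -/
noncomputable def CN (B : Finset (ℤ × ℤ × ℤ × ℤ)) (e v w : ℕ) : ℕ :=
  (B.filter (fun x => PP e v w x)).card

/-- the part of the box with non-zero resultant -/
noncomputable def BN (K L J R : ℕ) : Finset (ℤ × ℤ × ℤ × ℤ) :=
  (BX K L J R).filter (fun x => RS x.1 x.2.1 x.2.2.1 x.2.2.2 ≠ 0)

/-- the part of the box with zero resultant -/
noncomputable def BD (K L J R : ℕ) : Finset (ℤ × ℤ × ℤ × ℤ) :=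
  (BX K L J R).filter (fun x => RS x.1 x.2.1 x.2.2.1 x.2.2.2 = 0)

theorem KK_split (K L J R e v w : ℕ) : KK K L J R e v w ≤
    CN (BN K L J R) e v w + CN (BD K L J R) e v w := by
  classical
  unfold KK CN
  refine (card_le_card ?_).trans (card_union_le _ _)
  intro x hx
  rw [mem_filter] at hx
  rw [mem_union, mem_filter, mem_filter, BN, BD, mem_filter, mem_filter]
  by_cases h : RS x.1 x.2.1 x.2.2.1 x.2.2.2 = 0
  · exact Or.inr ⟨⟨hx.1, h⟩, hx.2⟩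
  · exact Or.inl ⟨⟨hx.1, h⟩, hx.2⟩

theorem rad_pos (n : ℕ) : 0 < rad n :=
  Finset.prod_pos fun p hp => (Nat.prime_of_mem_primeFactors hp).pos

theorem rad_le (n : ℕ) (hn : n ≠ 0) : rad n ≤ n :=
  Nat.le_of_dvd (Nat.pos_of_ne_zero hn) (Nat.prod_primeFactors_dvd n)

theorem rad_mono (m n : ℕ) (hn : n ≠ 0) (h : m ∣ n) : rad m ≤ rad n := by
  unfold rad
  have hsub : m.primeFactors ⊆ n.primeFactors := Nat.primeFactors_mono h hn
  exact prod_le_prod_of_subset_of_one_le' hsub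
    (fun _ hp _ => (Nat.prime_of_mem_primeFactors hp).one_le)

/-- the sum of `1 / rad (h g)` -/
theorem sum_rad (hDIV : S_DIV) (hRAD : S_RAD) (δ : ℝ) (hδ : 0 < δ) : ∃ C : ℝ, 0 < C ∧
    ∀ G H Y : ℕ, 1 ≤ G → 1 ≤ H → G ≤ Y → H ≤ Y →
    ∑ p ∈ (Ico G (2 * G)) ×ˢ (Icc 1 H), 1 / (rad (p.2 * p.1) : ℝ) ≤ C * ((Y : ℝ) ^ δ) ^ 2 := by
  classical
  obtain ⟨C₁, hC₁, h₁⟩ := tau_bd hDIV δ hδ 2 (by norm_num) 2 (by norm_num)
  obtain ⟨C₂, hC₂, h₂⟩ := hRAD (δ / 2) (by positivity)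
  refine ⟨C₁ * (C₂ * 2 ^ (δ / 2)), by positivity, fun G H Y hG hH hGY hHY => ?_⟩
  have hY : 1 ≤ Y := hG.trans hGY
  have hY1 : (1 : ℝ) ≤ Y := by exact_mod_cast hY
  set T : ℝ := (Y : ℝ) ^ δ with hT
  have hT1 : 1 ≤ T := Real.one_le_rpow hY1 hδ.le
  have hx : 1 ≤ 2 * G * H := by nlinarith
  have hxY : ((2 * G * H : ℕ) : ℝ) ≤ 2 * (Y : ℝ) ^ 2 := by
    have : 2 * G * H ≤ 2 * Y ^ 2 := by nlinarith [Nat.mul_le_mul hGY hHY]
    exact_mod_cast this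
  have e1 : ∑ p ∈ (Ico G (2 * G)) ×ˢ (Icc 1 H), 1 / (rad (p.2 * p.1) : ℝ) =
      ∑ n ∈ Icc 1 (2 * G * H), ∑ p ∈ ((Ico G (2 * G)) ×ˢ (Icc 1 H)).filter
        (fun p => p.2 * p.1 = n), 1 / (rad (p.2 * p.1) : ℝ) := by
    symm
    refine sum_fiberwise_of_maps_to ?_ _
    intro p hp
    rw [mem_product, mem_Ico, mem_Icc] at hp
    rw [mem_Icc]
    obtain ⟨⟨a1, a2⟩, a3, a4⟩ := hp
    constructor
    · have : 1 ≤ p.1 := hG.trans a1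
      nlinarith
    · have := Nat.mul_le_mul a4 a2.le
      nlinarith
  rw [e1]
  have e2 : ∀ n ∈ Icc 1 (2 * G * H), ∑ p ∈ ((Ico G (2 * G)) ×ˢ (Icc 1 H)).filter
        (fun p => p.2 * p.1 = n), 1 / (rad (p.2 * p.1) : ℝ) ≤ (C₁ * T) * (1 / (rad n : ℝ)) := by
    intro n hn
    rw [mem_Icc] at hn
    have e3 : ∑ p ∈ ((Ico G (2 * G)) ×ˢ (Icc 1 H)).filter
        (fun p => p.2 * p.1 = n), 1 / (rad (p.2 * p.1) : ℝ) =
        ∑ p ∈ ((Ico G (2 * G)) ×ˢ (Icc 1 H)).filter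
        (fun p => p.2 * p.1 = n), 1 / (rad n : ℝ) := by
      refine sum_congr rfl fun p hp => ?_
      rw [(mem_filter.1 hp).2]
    rw [e3, sum_const, nsmul_eq_mul]
    refine mul_le_mul_of_nonneg_right ?_ (by positivity)
    have e4 : (((Ico G (2 * G)) ×ˢ (Icc 1 H)).filter (fun p => p.2 * p.1 = n)).card ≤
        n.divisors.card := by
      refine card_le_card_of_injOn (fun p => p.1) ?_ ?_
      · intro p hp
        obtain ⟨-, hp2⟩ := mem_filter.1 (mem_coe.1 hp)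
        rw [mem_coe, Nat.mem_divisors]
        exact ⟨⟨p.2, by rw [← hp2, mul_comm]⟩, by omega⟩
      · intro p hp q hq hpq
        obtain ⟨hp1, hp2⟩ := mem_filter.1 (mem_coe.1 hp)
        obtain ⟨hq1, hq2⟩ := mem_filter.1 (mem_coe.1 hq)
        have hpq' : p.1 = q.1 := hpq
        rw [mem_product, mem_Ico] at hp1
        have hpos : 0 < p.1 := by omega
        refine Prod.ext hpq' ?_
        have : p.2 * p.1 = q.2 * p.1 := by rw [hp2, hpq', hq2]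
        exact Nat.eq_of_mul_eq_mul_right hpos this
    have e5 : ((n.divisors.card : ℕ) : ℝ) ≤ C₁ * T := by
      refine (h₁ Y n hY hn.1 ?_).1
      refine le_trans ?_ hxY
      exact_mod_cast hn.2
    have e6 : ((((Ico G (2 * G)) ×ˢ (Icc 1 H)).filter (fun p => p.2 * p.1 = n)).card : ℝ) ≤
        (n.divisors.card : ℝ) := by exact_mod_cast e4
    exact e6.trans e5
  refine (sum_le_sum e2).trans ?_
  rw [← mul_sum]
  have e7 := h₂ (2 * G * H) hx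
  have e8 : ((2 * G * H : ℕ) : ℝ) ^ (δ / 2) ≤ 2 ^ (δ / 2) * T := by
    calc ((2 * G * H : ℕ) : ℝ) ^ (δ / 2) ≤ (2 * (Y : ℝ) ^ 2) ^ (δ / 2) :=
          Real.rpow_le_rpow (by positivity) hxY (by positivity)
      _ = 2 ^ (δ / 2) * T := by
          rw [Real.mul_rpow (by norm_num) (by positivity), hT, ← Real.rpow_natCast,
            ← Real.rpow_mul (by positivity)]
          congr 2
          push_cast
          ring
  calc C₁ * T * ∑ n ∈ Icc 1 (2 * G * H), 1 / (rad n : ℝ)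
      ≤ C₁ * T * (C₂ * (2 ^ (δ / 2) * T)) := by
        refine mul_le_mul_of_nonneg_left (e7.trans ?_) (by positivity)
        exact mul_le_mul_of_nonneg_left e8 hC₂.le
    _ = C₁ * (C₂ * 2 ^ (δ / 2)) * T ^ 2 := by ring

theorem abs_RS (Y : ℕ) (k l j r : ℤ) (hk : |k| ≤ Y) (hl : |l| ≤ Y) (hj : |j| ≤ Y) (hr : |r| ≤ Y) :
    |RS k l j r| ≤ 19210 * (Y : ℤ) ^ 6 := by
  have m : ∀ (a b c d : ℕ), a + b + c + d = 6 → |k ^ a * l ^ b * j ^ c * r ^ d| ≤ (Y : ℤ) ^ 6 := by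
    intro a b c d h
    rw [abs_mul, abs_mul, abs_mul, abs_pow, abs_pow, abs_pow, abs_pow, ← h, pow_add, pow_add,
      pow_add]
    gcongr
  have t1 := abs_le.1 (m 3 0 0 3 rfl)
  have t2 := abs_le.1 (m 2 1 1 2 rfl)
  have t3 := abs_le.1 (m 1 2 2 1 rfl)
  have t4 := abs_le.1 (m 1 0 5 0 rfl)
  have t5 := abs_le.1 (m 0 5 0 1 rfl)
  have t6 := abs_le.1 (m 0 3 3 0 rfl)
  rw [abs_le]
  unfold RS
  constructor <;> nlinarith

theorem abs_G1 (Y : ℕ) (k l j r v w : ℤ) (hl : |l| ≤ Y) (hj : |j| ≤ Y) (hr : |r| ≤ Y)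
    (hv : |v| ≤ 2 * Y) (hw : |w| ≤ 2 * Y) : |G1 k l j r v w| ≤ 64 * (Y : ℤ) ^ 4 := by
  have m : ∀ (x : ℤ) (a b : ℕ), |x| ≤ Y → a + b = 3 → |x * v ^ a * w ^ b| ≤ 8 * (Y : ℤ) ^ 4 := by
    intro x a b hx h
    rw [abs_mul, abs_mul, abs_pow, abs_pow]
    calc |x| * |v| ^ a * |w| ^ b ≤ (Y : ℤ) * (2 * Y) ^ a * (2 * Y) ^ b := by gcongr
      _ = Y * (2 * Y) ^ (a + b) := by rw [pow_add]; ring
      _ = 8 * (Y : ℤ) ^ 4 := by rw [h]; ring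
  have t1 := abs_le.1 (m l 3 0 hl rfl)
  have t2 := abs_le.1 (m j 2 1 hj rfl)
  have t3 := abs_le.1 (m r 0 3 hr rfl)
  rw [abs_le]
  unfold G1
  constructor <;> nlinarith

theorem abs_G2 (Y : ℕ) (k l j r v w : ℤ) (hk : |k| ≤ Y) (hl : |l| ≤ Y) (hj : |j| ≤ Y)
    (hv : |v| ≤ 2 * Y) (hw : |w| ≤ 2 * Y) : |G2 k l j r v w| ≤ 64 * (Y : ℤ) ^ 4 := by
  have m : ∀ (x : ℤ) (a b : ℕ), |x| ≤ Y → a + b = 3 → |x * v ^ a * w ^ b| ≤ 8 * (Y : ℤ) ^ 4 := by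
    intro x a b hx h
    rw [abs_mul, abs_mul, abs_pow, abs_pow]
    calc |x| * |v| ^ a * |w| ^ b ≤ (Y : ℤ) * (2 * Y) ^ a * (2 * Y) ^ b := by gcongr
      _ = Y * (2 * Y) ^ (a + b) := by rw [pow_add]; ring
      _ = 8 * (Y : ℤ) ^ 4 := by rw [h]; ring
  have t1 := abs_le.1 (m k 3 0 hk rfl)
  have t2 := abs_le.1 (m l 1 2 hl rfl)
  have t3 := abs_le.1 (m j 0 3 hj rfl)
  rw [abs_le]
  unfold G2
  constructor <;> nlinarith

/-- pairs `(g, h)` both dividing a fixed integer -/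
theorem card_pairs (Γ : Finset (ℕ × ℕ)) (n : ℤ) (hn : n ≠ 0)
    (h : ∀ p ∈ Γ, ∃ ρ : ℕ, ((p.2 * p.1 * ρ : ℕ) : ℤ) ∣ n) :
    Γ.card ≤ n.natAbs.divisors.card * n.natAbs.divisors.card := by
  rw [← card_product]
  refine card_le_card fun p hp => ?_
  obtain ⟨ρ, hρ⟩ := h p hp
  have h1 : p.2 * p.1 * ρ ∣ n.natAbs := by
    rw [← Int.natCast_dvd]
    exact hρ
  rw [mem_product, Nat.mem_divisors, Nat.mem_divisors]
  exact ⟨⟨(Dvd.intro _ (by ring : p.1 * (p.2 * ρ) = _)).trans h1, Int.natAbs_ne_zero.2 hn⟩,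
    (Dvd.intro _ (by ring : p.2 * (p.1 * ρ) = _)).trans h1, Int.natAbs_ne_zero.2 hn⟩

/-- the index set of the pairs `(g, h)` -/
def GA (G H : ℕ) : Finset (ℕ × ℕ) := (Ico G (2 * G)) ×ˢ (Icc 1 H)

/-- the index set of the pairs `(v, w)` -/
def LA (V W : ℕ) : Finset (ℕ × ℕ) :=
  ((Ico V (2 * V)) ×ˢ (Ico W (2 * W))).filter (fun q => q.1.Coprime q.2)

theorem card_GA (G H : ℕ) : (GA G H).card = G * H := by
  rw [GA, card_product, Nat.card_Ico, Nat.card_Icc]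
  congr 1
  omega

theorem card_LA (V W : ℕ) : (LA V W).card ≤ V * W := by
  refine (card_filter_le _ _).trans ?_
  rw [card_product, Nat.card_Ico, Nat.card_Ico]
  have h1 : 2 * V - V = V := by omega
  have h2 : 2 * W - W = W := by omega
  rw [h1, h2]

theorem mem_BX {K L J R Y : ℕ} (hK : K ≤ Y) (hL : L ≤ Y) (hJ : J ≤ Y) (hR : R ≤ Y)
    {x : ℤ × ℤ × ℤ × ℤ} (hx : x ∈ BX K L J R) :
    |x.1| ≤ (Y : ℤ) ∧ |x.2.1| ≤ (Y : ℤ) ∧ |x.2.2.1| ≤ (Y : ℤ) ∧ |x.2.2.2| ≤ (Y : ℤ) := by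
  unfold BX at hx
  rw [mem_product, mem_product, mem_product, mem_Icc, mem_Icc, mem_Icc, mem_Icc] at hx
  obtain ⟨⟨a1, a2⟩, ⟨a3, a4⟩, ⟨a5, a6⟩, a7, a8⟩ := hx
  refine ⟨abs_le.2 ⟨?_, ?_⟩, abs_le.2 ⟨?_, ?_⟩, abs_le.2 ⟨?_, ?_⟩, abs_le.2 ⟨?_, ?_⟩⟩ <;> omega

theorem card_BX (K L J R : ℕ) : ((BX K L J R).card : ℝ) ≤
    16 * ((1 + K) * (1 + L) * (1 + J) * (1 + R)) := by
  have h1 : (BX K L J R).card = (2 * K + 1) * ((2 * L + 1) * ((2 * J + 1) * (2 * R + 1))) := by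
    unfold BX
    rw [card_product, card_product, card_product, card_I, card_I, card_I, card_I]
  rw [h1]
  push_cast
  have a1 : (2 * (K : ℝ) + 1) ≤ 2 * (1 + K) := by linarith
  have a2 : (2 * (L : ℝ) + 1) ≤ 2 * (1 + L) := by linarith
  have a3 : (2 * (J : ℝ) + 1) ≤ 2 * (1 + J) := by linarith
  have a4 : (2 * (R : ℝ) + 1) ≤ 2 * (1 + R) := by linarith
  calc (2 * (K : ℝ) + 1) * ((2 * L + 1) * ((2 * J + 1) * (2 * R + 1)))
      ≤ (2 * (1 + K)) * ((2 * (1 + L)) * ((2 * (1 + J)) * (2 * (1 + R)))) := by gcongr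
    _ = 16 * ((1 + K) * (1 + L) * (1 + J) * (1 + R)) := by ring

theorem sum_ND (hRES : S_RES) (hROO : S_ROO) (hCON : S_CON) (hDIV : S_DIV) (δ : ℝ) (hδ : 0 < δ) :
    ∃ C : ℝ, 0 < C ∧ ∀ G H V W ρ K L J R Y : ℕ,
  1 ≤ G → 1 ≤ H → 1 ≤ V → 1 ≤ W → 1 ≤ ρ → G ≤ Y → H ≤ Y → V ≤ Y → W ≤ Y → ρ ≤ Y → K ≤ Y → L ≤ Y →
  J ≤ Y → R ≤ Y →
  ∑ p ∈ GA G H, ∑ q ∈ LA V W,
    (rad (p.2 * p.1 * ρ) : ℝ) * (CN (BN K L J R) (p.2 * p.1 * ρ) q.1 q.2 : ℝ) ≤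
  C * ((Y : ℝ) ^ δ) ^ 4 * (((V : ℝ) * W + G * H * ρ) * ((1 + K) * (1 + L) * (1 + J) * (1 + R))) := by
  classical
  obtain ⟨C₁, hC₁, h₁⟩ := tau_bd hDIV δ hδ 2 (by norm_num) 3 (by norm_num)
  obtain ⟨C₂, hC₂, h₂⟩ := tau_bd hDIV δ hδ 19210 (by norm_num) 6 (by norm_num)
  obtain ⟨C₃, hC₃, h₃⟩ := hCON
  set C₄ : ℝ := 1 + 5 ^ δ / δ with hC₄
  have hC₄0 : 0 < C₄ := by positivity
  refine ⟨C₂ ^ 2 * C₁ * (32 + 60 * (C₃ * C₄)), by positivity, ?_⟩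
  intro G H V W ρ K L J R Y hG hH hV hW hρ hGY hHY hVY hWY hρY hKY hLY hJY hRY
  have hY : 1 ≤ Y := hG.trans hGY
  have hY1 : (1 : ℝ) ≤ Y := by exact_mod_cast hY
  set T : ℝ := (Y : ℝ) ^ δ with hT
  have hT1 : 1 ≤ T := Real.one_le_rpow hY1 hδ.le
  set QQ : ℝ := (1 + K) * (1 + L) * (1 + J) * (1 + R) with hQQ
  have hQQ0 : 0 ≤ QQ := by positivity
  -- exchange
  have e1 : ∑ p ∈ GA G H, ∑ q ∈ LA V W,
      (rad (p.2 * p.1 * ρ) : ℝ) * (CN (BN K L J R) (p.2 * p.1 * ρ) q.1 q.2 : ℝ) =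
      ∑ x ∈ BN K L J R, ∑ p ∈ GA G H, (rad (p.2 * p.1 * ρ) : ℝ) *
        (((LA V W).filter (fun q => PP (p.2 * p.1 * ρ) q.1 q.2 x)).card : ℝ) := by
    rw [sum_comm (s := BN K L J R)]
    refine sum_congr rfl fun p _ => ?_
    rw [← mul_sum, ← mul_sum]
    congr 1
    have h1 : ∀ q : ℕ × ℕ, (CN (BN K L J R) (p.2 * p.1 * ρ) q.1 q.2 : ℝ) =
        ∑ x ∈ BN K L J R, if PP (p.2 * p.1 * ρ) q.1 q.2 x then (1 : ℝ) else 0 := by
      intro q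
      unfold CN
      rw [card_filter]
      push_cast
      rfl
    have h2 : ∀ x : ℤ × ℤ × ℤ × ℤ,
        (((LA V W).filter (fun q => PP (p.2 * p.1 * ρ) q.1 q.2 x)).card : ℝ) =
        ∑ q ∈ LA V W, if PP (p.2 * p.1 * ρ) q.1 q.2 x then (1 : ℝ) else 0 := by
      intro x
      rw [card_filter]
      push_cast
      rfl
    simp only [h1, h2]
    rw [sum_comm]
  rw [e1]
  -- the bound for one `x`
  have hx : ∀ x ∈ BN K L J R, ∑ p ∈ GA G H, (rad (p.2 * p.1 * ρ) : ℝ) *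
        (((LA V W).filter (fun q => PP (p.2 * p.1 * ρ) q.1 q.2 x)).card : ℝ) ≤
      (C₂ * T) ^ 2 * (C₁ * T * (2 * G * H * ρ + 60 * (ct x.1 x.2.1 x.2.2.1 x.2.2.2 : ℝ) * V * W)) := by
    intro x hx
    obtain ⟨hxB, hxR⟩ := mem_filter.1 hx
    obtain ⟨b1, b2, b3, b4⟩ := mem_BX hKY hLY hJY hRY hxB
    have hRS := abs_RS Y x.1 x.2.1 x.2.2.1 x.2.2.2 b1 b2 b3 b4
    set M : ℝ := C₁ * T * (2 * G * H * ρ + 60 * (ct x.1 x.2.1 x.2.2.1 x.2.2.2 : ℝ) * V * W)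
      with hM
    have hM0 : 0 ≤ M := by positivity
    set Γ' := (GA G H).filter (fun p =>
      ((LA V W).filter (fun q => PP (p.2 * p.1 * ρ) q.1 q.2 x)).Nonempty) with hΓ'
    have s1 : ∑ p ∈ GA G H, (rad (p.2 * p.1 * ρ) : ℝ) *
        (((LA V W).filter (fun q => PP (p.2 * p.1 * ρ) q.1 q.2 x)).card : ℝ) =
        ∑ p ∈ Γ', (rad (p.2 * p.1 * ρ) : ℝ) *
        (((LA V W).filter (fun q => PP (p.2 * p.1 * ρ) q.1 q.2 x)).card : ℝ) := by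
      rw [hΓ', sum_filter]
      refine sum_congr rfl fun p _ => ?_
      by_cases hne : ((LA V W).filter (fun q => PP (p.2 * p.1 * ρ) q.1 q.2 x)).Nonempty
      · rw [if_pos hne]
      · rw [if_neg hne, not_nonempty_iff_eq_empty.1 hne]
        simp
    rw [s1]
    have s2 : ∀ p ∈ Γ', (rad (p.2 * p.1 * ρ) : ℝ) *
        (((LA V W).filter (fun q => PP (p.2 * p.1 * ρ) q.1 q.2 x)).card : ℝ) ≤ M := by
      intro p hp
      obtain ⟨hp1, -⟩ := mem_filter.1 hp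
      rw [GA, mem_product, mem_Ico, mem_Icc] at hp1
      obtain ⟨⟨g1, g2⟩, g3, g4⟩ := hp1
      have hpg : 0 < p.1 := by omega
      have he0 : 0 < p.2 * p.1 * ρ := by positivity
      have heb : p.2 * p.1 * ρ ≤ 2 * G * H * ρ := by
        have : p.2 * p.1 ≤ H * (2 * G) := Nat.mul_le_mul g4 g2.le
        calc p.2 * p.1 * ρ ≤ H * (2 * G) * ρ := Nat.mul_le_mul_right _ this
          _ = 2 * G * H * ρ := by ring
      have heY : p.2 * p.1 * ρ ≤ 2 * Y ^ 3 := by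
        refine heb.trans ?_
        calc 2 * G * H * ρ ≤ 2 * Y * Y * Y := by gcongr
          _ = 2 * Y ^ 3 := by ring
      have r1 := hROO x.1 x.2.1 x.2.2.1 x.2.2.2 (by
        rintro ⟨z1, z2, z3, z4⟩
        apply hxR
        rw [z1, z2, z3, z4]
        rfl) (p.2 * p.1 * ρ) V W he0 (by omega) (by omega)
        ((LA V W).filter (fun q => PP (p.2 * p.1 * ρ) q.1 q.2 x)) (by
        intro q hq
        obtain ⟨hq1, hq2⟩ := mem_filter.1 hq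
        rw [LA, mem_filter, mem_product, mem_Ico, mem_Ico] at hq1
        obtain ⟨⟨⟨v1, v2⟩, w1, w2⟩, hc⟩ := hq1
        exact ⟨v1, v2, w1, w2, hc, hq2.1, hq2.2.1⟩)
      have r2 : (((LA V W).filter (fun q => PP (p.2 * p.1 * ρ) q.1 q.2 x)).card : ℝ) *
          (rad (p.2 * p.1 * ρ) : ℝ) ≤ (3 : ℝ) ^ (p.2 * p.1 * ρ).primeFactors.card *
          ((rad (p.2 * p.1 * ρ) : ℝ) + 60 * (ct x.1 x.2.1 x.2.2.1 x.2.2.2 : ℝ) * V * W) := by
        exact_mod_cast r1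
      have r3 : (3 : ℝ) ^ (p.2 * p.1 * ρ).primeFactors.card ≤ C₁ * T :=
        (h₁ Y _ hY he0 (by exact_mod_cast heY)).2
      have r4 : (rad (p.2 * p.1 * ρ) : ℝ) ≤ 2 * G * H * ρ := by
        exact_mod_cast (rad_le _ he0.ne').trans heb
      rw [mul_comm]
      refine r2.trans ?_
      rw [hM]
      gcongr
    refine (sum_le_sum s2).trans ?_
    rw [sum_const, nsmul_eq_mul]
    refine mul_le_mul_of_nonneg_right ?_ hM0
    have c1 : Γ'.card ≤ (RS x.1 x.2.1 x.2.2.1 x.2.2.2).natAbs.divisors.card *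
        (RS x.1 x.2.1 x.2.2.1 x.2.2.2).natAbs.divisors.card := by
      refine card_pairs Γ' _ hxR fun p hp => ⟨ρ, ?_⟩
      obtain ⟨-, q, hq⟩ := mem_filter.1 hp
      obtain ⟨hq1, hq2⟩ := mem_filter.1 hq
      rw [LA, mem_filter, mem_product, mem_Ico, mem_Ico] at hq1
      obtain ⟨⟨⟨v1, v2⟩, w1, w2⟩, hc⟩ := hq1
      exact hRES _ _ _ _ q.1 q.2 _ (Nat.isCoprime_iff_coprime.2 hc) hq2.1 hq2.2.1
    have c2 : ((RS x.1 x.2.1 x.2.2.1 x.2.2.2).natAbs.divisors.card : ℝ) ≤ C₂ * T := by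
      refine (h₂ Y _ hY (Nat.pos_of_ne_zero (Int.natAbs_ne_zero.2 hxR)) ?_).1
      have : (((RS x.1 x.2.1 x.2.2.1 x.2.2.2).natAbs : ℤ) : ℝ) ≤
          ((19210 * (Y : ℤ) ^ 6 : ℤ) : ℝ) := by
        rw [Int.cast_le, Int.natCast_natAbs]
        exact hRS
      push_cast at this
      simpa using this
    calc (Γ'.card : ℝ) ≤ ((RS x.1 x.2.1 x.2.2.1 x.2.2.2).natAbs.divisors.card : ℝ) *
        ((RS x.1 x.2.1 x.2.2.1 x.2.2.2).natAbs.divisors.card : ℝ) := by exact_mod_cast c1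
      _ ≤ (C₂ * T) * (C₂ * T) := mul_le_mul c2 c2 (by positivity) (by positivity)
      _ = (C₂ * T) ^ 2 := by ring
  refine (sum_le_sum hx).trans ?_
  rw [← mul_sum, ← mul_sum, sum_add_distrib, sum_const, nsmul_eq_mul]
  have d1 : ((BN K L J R).card : ℝ) ≤ 16 * QQ := by
    have : ((BN K L J R).card : ℝ) ≤ ((BX K L J R).card : ℝ) := by
      exact_mod_cast card_filter_le _ _
    exact this.trans (card_BX K L J R)
  have d2 : ∑ x ∈ BN K L J R, 60 * (ct x.1 x.2.1 x.2.2.1 x.2.2.2 : ℝ) * V * W ≤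
      60 * (C₃ * (C₄ * T) * QQ) * V * W := by
    have h1 : ∑ x ∈ BN K L J R, 60 * (ct x.1 x.2.1 x.2.2.1 x.2.2.2 : ℝ) * V * W =
        60 * (∑ x ∈ BN K L J R, (ct x.1 x.2.1 x.2.2.1 x.2.2.2 : ℝ)) * V * W := by
      rw [mul_sum, sum_mul, sum_mul]
    rw [h1]
    have h2 := h₃ K L J R
    have h3 : 1 + Real.log (1 + K + L + J + R) ≤ C₄ * T := by
      have h4 : (1 + K + L + J + R : ℝ) ≤ 5 * Y := by
        have : 1 + K + L + J + R ≤ 5 * Y := by omega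
        exact_mod_cast this
      have h5 : Real.log (1 + K + L + J + R) ≤ (5 * Y : ℝ) ^ δ / δ :=
        (Real.log_le_log (by positivity) h4).trans (Real.log_le_rpow_div (by positivity) hδ)
      rw [Real.mul_rpow (by norm_num) (by positivity)] at h5
      rw [hC₄]
      have h6 : (5 : ℝ) ^ δ * (Y : ℝ) ^ δ / δ = 5 ^ δ / δ * T := by rw [hT]; ring
      rw [h6] at h5
      nlinarith
    have h7 : ∑ x ∈ BN K L J R, (ct x.1 x.2.1 x.2.2.1 x.2.2.2 : ℝ) ≤ C₃ * (C₄ * T) * QQ := by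
      refine h2.trans ?_
      gcongr
    gcongr
  calc (C₂ * T) ^ 2 * (C₁ * T * ((BN K L J R).card * (2 * G * H * ρ) +
        ∑ x ∈ BN K L J R, 60 * (ct x.1 x.2.1 x.2.2.1 x.2.2.2 : ℝ) * V * W))
      ≤ (C₂ * T) ^ 2 * (C₁ * T * ((16 * QQ) * (2 * G * H * ρ) +
        60 * (C₃ * (C₄ * T) * QQ) * V * W)) := by gcongr
    _ = C₂ ^ 2 * C₁ * T ^ 3 * QQ * (32 * (G * H * ρ) + 60 * (C₃ * C₄) * T * (V * W)) := by ring
    _ ≤ C₂ ^ 2 * C₁ * T ^ 3 * QQ * ((32 + 60 * (C₃ * C₄)) * T * (V * W + G * H * ρ)) := by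
        refine mul_le_mul_of_nonneg_left ?_ (by positivity)
        have q1 : 32 * ((G : ℝ) * H * ρ) ≤ 32 * T * (G * H * ρ) := by
          have : 0 ≤ (G : ℝ) * H * ρ := by positivity
          nlinarith
        have q2 : 0 ≤ 32 * T * ((V : ℝ) * W) := by positivity
        have q3 : 0 ≤ 60 * (C₃ * C₄) * T * ((G : ℝ) * H * ρ) := by positivity
        nlinarith
    _ = C₂ ^ 2 * C₁ * (32 + 60 * (C₃ * C₄)) * T ^ 4 * ((V * W + G * H * ρ) * QQ) := by ring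

end H97

end Pool.Agent.T2h80.F5
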