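import Pool.Agent.T2h80.F5.Stm

/-! Task BOX of project F5. -/

set_option autoImplicit false

namespace Pool.Agent.T2h80.F5

open Finset

namespace BoxAux

/-- the type of the tuples `(g, v, w, s, t, m)` -/
abbrev Tu : Type := ℕ × ℕ × ℕ × ℤ × ℤ × ℕ

/-- the conditions, with the pair `(e, f)` -/
def PC (ρ M A G V W : ℕ) (x : Tu) (p : ℤ × ℤ) : Prop :=
  G ≤ x.1 ∧ x.1 < 2 * G ∧ V ≤ x.2.1 ∧ x.2.1 < 2 * V ∧ W ≤ x.2.2.1 ∧ x.2.2.1 < 2 * W ∧
  x.2.1.Coprime x.2.2.1 ∧ x.1.Coprime (x.2.1 * x.2.2.1) ∧ x.1.Coprime ρ ∧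
  M ≤ x.2.2.2.2.2 ∧ x.2.2.2.2.2 < 2 * M ∧
  (ρ : ℤ) * x.2.2.2.1 ^ 2 ≤ 32 * M * V ^ 2 ∧ (ρ : ℤ) * M * x.2.2.2.2.1 ^ 2 ≤ 64 * A ^ 2 * V ^ 2 ∧
  Cong ρ x.2.1 x.2.2.1 x.2.2.2.1 x.2.2.2.2.1 x.2.2.2.2.2 ∧
  IsCoprime p.1 x.1 ∧ IsCoprime p.2 x.1 ∧ (x.1 : ℤ) ∣ ρ * x.2.2.2.2.2 - p.2 ^ 2 ∧
  (x.1 : ℤ) ∣ ρ * p.1 * x.2.2.2.1 - p.2 * (p.2 * x.2.2.1 + p.1 * x.2.1) ∧
  (x.1 : ℤ) ∣ ρ * p.2 * x.2.2.2.2.1 - p.1 * (p.1 * x.2.1 - p.2 * x.2.2.1)

/-- the residues of `s, t, m` modulo `g` are determined by those of `e, f` -/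
lemma det {g ρ v w s t m s' t' m' e f e' f' : ℤ} (hρ : IsCoprime ρ g) (he : IsCoprime e g)
    (hf : IsCoprime f g) (hee : g ∣ e - e') (hff : g ∣ f - f')
    (h1 : g ∣ ρ * m - f ^ 2) (h1' : g ∣ ρ * m' - f' ^ 2)
    (h2 : g ∣ ρ * e * s - f * (f * w + e * v)) (h2' : g ∣ ρ * e' * s' - f' * (f' * w + e' * v))
    (h3 : g ∣ ρ * f * t - e * (e * v - f * w)) (h3' : g ∣ ρ * f' * t' - e' * (e' * v - f' * w)) :
    g ∣ s - s' ∧ g ∣ t - t' ∧ g ∣ m - m' := by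
  obtain ⟨a, ha⟩ := hee
  obtain ⟨b, hb⟩ := hff
  have ee : e' = e - g * a := by linarith
  have ff : f' = f - g * b := by linarith
  obtain ⟨c1, hc1⟩ := h1
  obtain ⟨c1', hc1'⟩ := h1'
  obtain ⟨c2, hc2⟩ := h2
  obtain ⟨c2', hc2'⟩ := h2'
  obtain ⟨c3, hc3⟩ := h3
  obtain ⟨c3', hc3'⟩ := h3'
  refine ⟨?_, ?_, ?_⟩
  · have : g ∣ (ρ * e) * (s - s') := by
      have h : (ρ * e) * (s - s') = g * (c2 - c2' - ρ * a * s' + b * (f * w + e * v) +
          f' * (b * w + a * v)) := by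
        subst ee ff
        linear_combination hc2 - hc2'
      exact ⟨_, h⟩
    exact ((hρ.mul_left he).symm).dvd_of_dvd_mul_left this
  · have : g ∣ (ρ * f) * (t - t') := by
      have h : (ρ * f) * (t - t') = g * (c3 - c3' - ρ * b * t' + a * (e * v - f * w) +
          e' * (a * v - b * w)) := by
        subst ee ff
        linear_combination hc3 - hc3'
      exact ⟨_, h⟩
    exact ((hρ.mul_left hf).symm).dvd_of_dvd_mul_left this
  · have : g ∣ ρ * (m - m') := by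
      have h : ρ * (m - m') = g * (c1 - c1' + b * (f + f')) := by
        subst ff
        linear_combination hc1 - hc1'
      exact ⟨_, h⟩
    exact hρ.symm.dvd_of_dvd_mul_left this

/-- decomposition into fibres -/
lemma fibres (ρ M A G V W : ℕ) (hG : 0 < G) (B : ℕ → ℕ → ℕ → ℝ) (hB0 : ∀ g v w, 0 ≤ B g v w)
    (hB : ∀ g v w : ℕ, G ≤ g → g < 2 * G → V ≤ v → v < 2 * V → W ≤ w → w < 2 * W → v.Coprime w →
      g.Coprime (v * w) → ∀ σ τ μ : ℤ, ∀ F : Finset (ℤ × ℤ × ℤ),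
      (∀ x ∈ F, (ρ : ℤ) * x.1 ^ 2 ≤ 32 * M * V ^ 2 ∧ (ρ : ℤ) * M * x.2.1 ^ 2 ≤ 64 * A ^ 2 * V ^ 2 ∧
        (M : ℤ) ≤ x.2.2 ∧ x.2.2 < 2 * M ∧ (g : ℤ) ∣ x.1 - σ ∧ (g : ℤ) ∣ x.2.1 - τ ∧
        (g : ℤ) ∣ x.2.2 - μ ∧ Cong ρ v w x.1 x.2.1 x.2.2) → (F.card : ℝ) ≤ B g v w)
    (F : Finset Tu) (hF : ∀ x ∈ F, ∃ p : ℤ × ℤ, PC ρ M A G V W x p) :
    (F.card : ℝ) ≤ ∑ g ∈ Ico G (2 * G), ∑ v ∈ Ico V (2 * V),
      ∑ w ∈ (Ico W (2 * W)).filter (fun w => Nat.Coprime v w), 4 * (G : ℝ) ^ 2 * B g v w := by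
  classical
  choose! ef hef using hF
  set φ : Tu → ℕ × ℕ × ℕ × ℕ × ℕ := fun x =>
    (x.1, x.2.1, x.2.2.1, ((ef x).1 % x.1).toNat, ((ef x).2 % x.1).toNat) with hφ
  set U : Finset (ℕ × ℕ × ℕ × ℕ × ℕ) := Ico G (2 * G) ×ˢ Ico V (2 * V) ×ˢ Ico W (2 * W) ×ˢ
    range (2 * G) ×ˢ range (2 * G) with hU
  have hmaps : ∀ x ∈ F, φ x ∈ U := by
    intro x hx
    obtain ⟨h1, h2, h3, h4, h5, h6, -⟩ := hef x hx
    have hg : (0 : ℤ) < x.1 := by exact_mod_cast (lt_of_lt_of_le hG h1)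
    simp only [hφ, hU, Finset.mem_product, Finset.mem_Ico, Finset.mem_range]
    refine ⟨⟨h1, h2⟩, ⟨h3, h4⟩, ⟨h5, h6⟩, ?_, ?_⟩
    · have ha := Int.emod_lt_of_pos (ef x).1 hg
      have hb := Int.emod_nonneg (ef x).1 hg.ne'
      omega
    · have ha := Int.emod_lt_of_pos (ef x).2 hg
      have hb := Int.emod_nonneg (ef x).2 hg.ne'
      omega
  have hcard := Finset.card_eq_sum_card_fiberwise (f := φ) (s := F) (t := U) hmaps
  have hfib : ∀ u ∈ U, ((F.filter (fun x => φ x = u)).card : ℝ) ≤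
      if Nat.Coprime u.2.1 u.2.2.1 then B u.1 u.2.1 u.2.2.1 else 0 := by
    rintro ⟨g, v, w, a, b⟩ hu
    simp only
    rcases Finset.eq_empty_or_nonempty (F.filter (fun x => φ x = (g, v, w, a, b))) with he | hne
    · rw [he]
      simp only [Finset.card_empty, Nat.cast_zero]
      split_ifs
      · exact hB0 _ _ _
      · exact le_refl _
    · obtain ⟨x0, hx0⟩ := hne
      have hx0' := hx0
      rw [Finset.mem_filter] at hx0
      obtain ⟨hx0F, hx0φ⟩ := hx0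
      have hP0 := hef x0 hx0F
      have hx0' : x0.1 = g ∧ x0.2.1 = v ∧ x0.2.2.1 = w ∧ ((ef x0).1 % x0.1).toNat = a ∧
          ((ef x0).2 % x0.1).toNat = b := by
        simp only [hφ, Prod.mk.injEq] at hx0φ
        exact hx0φ
      obtain ⟨q1, q2, q3, q4, q5⟩ := hx0'
      obtain ⟨h1, h2, h3, h4, h5, h6, h7, h8, h9, h10, h11, h12, h13, h14, h15, h16, h17, h18, h19⟩ :=
        hP0
      rw [q1] at h1 h2 h8 h9 h15 h16 h17 h18 h19 q4 q5
      rw [q2] at h3 h4 h7 h8 h14 h18 h19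
      rw [q3] at h5 h6 h7 h8 h14 h18 h19
      rw [if_pos h7]
      have hg : (0 : ℤ) < g := by exact_mod_cast (lt_of_lt_of_le hG h1)
      set F3 : Finset (ℤ × ℤ × ℤ) := (F.filter (fun x => φ x = (g, v, w, a, b))).image
        (fun x : Tu => (x.2.2.2.1, x.2.2.2.2.1, (x.2.2.2.2.2 : ℤ))) with hF3
      have hcardF3 : F3.card = (F.filter (fun x => φ x = (g, v, w, a, b))).card := by
        rw [hF3]
        apply Finset.card_image_of_injOn
        rintro ⟨g1, v1, w1, s1, t1, m1⟩ hx ⟨g2, v2, w2, s2, t2, m2⟩ hy hxy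
        rw [Finset.mem_coe, Finset.mem_filter] at hx hy
        have hx2 := hx.2
        have hy2 := hy.2
        simp only [hφ, Prod.mk.injEq] at hx2 hy2 hxy
        obtain ⟨x1, x2, x3, -⟩ := hx2
        obtain ⟨y1, y2, y3, -⟩ := hy2
        obtain ⟨z1, z2, z3⟩ := hxy
        simp only [Prod.mk.injEq]
        exact ⟨x1.trans y1.symm, x2.trans y2.symm, x3.trans y3.symm, z1, z2, by exact_mod_cast z3⟩
      rw [← hcardF3]
      refine hB g v w h1 h2 h3 h4 h5 h6 h7 h8 x0.2.2.2.1 x0.2.2.2.2.1 x0.2.2.2.2.2 F3 ?_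
      intro y hy
      rw [hF3, Finset.mem_image] at hy
      obtain ⟨x, hx, rfl⟩ := hy
      rw [Finset.mem_filter] at hx
      obtain ⟨hxF, hxφ⟩ := hx
      have hx' : x.1 = g ∧ x.2.1 = v ∧ x.2.2.1 = w ∧ ((ef x).1 % x.1).toNat = a ∧
          ((ef x).2 % x.1).toNat = b := by
        simp only [hφ, Prod.mk.injEq] at hxφ
        exact hxφ
      obtain ⟨r1, r2, r3, r4, r5⟩ := hx'
      obtain ⟨k1, k2, k3, k4, k5, k6, k7, k8, k9, k10, k11, k12, k13, k14, k15, k16, k17, k18,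
        k19⟩ := hef x hxF
      rw [r1] at k1 k2 k8 k9 k15 k16 k17 k18 k19 r4 r5
      rw [r2] at k3 k4 k7 k8 k14 k18 k19
      rw [r3] at k5 k6 k7 k8 k14 k18 k19
      have hmod : ∀ y z : ℤ, (y % g).toNat = (z % g).toNat → (g : ℤ) ∣ y - z := by
        intro y z hyz
        have ha := Int.emod_nonneg y hg.ne'
        have hb := Int.emod_nonneg z hg.ne'
        have hc : y % g = z % g := by omega
        exact Int.ModEq.dvd (show z ≡ y [ZMOD g] from hc.symm)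
      have hde := hmod _ _ (r4.trans q4.symm)
      have hdf := hmod _ _ (r5.trans q5.symm)
      have hρg : IsCoprime (ρ : ℤ) (g : ℤ) := by
        rw [Nat.isCoprime_iff_coprime]
        exact k9.symm
      obtain ⟨d1, d2, d3⟩ := det hρg k15 k16 hde hdf k17 h17 k18 h18 k19 h19
      have w1 : (M : ℤ) ≤ (x.2.2.2.2.2 : ℤ) := by exact_mod_cast k10
      have w2 : (x.2.2.2.2.2 : ℤ) < 2 * (M : ℤ) := by exact_mod_cast k11
      exact ⟨k12, k13, w1, w2, d1, d2, d3, k14⟩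
  have hsum : (F.card : ℝ) ≤ ∑ u ∈ U, (if Nat.Coprime u.2.1 u.2.2.1 then B u.1 u.2.1 u.2.2.1 else 0) := by
    rw [hcard]
    push_cast
    exact Finset.sum_le_sum hfib
  refine hsum.trans (le_of_eq ?_)
  rw [hU, Finset.sum_product]
  refine Finset.sum_congr rfl fun g _ => ?_
  rw [Finset.sum_product]
  refine Finset.sum_congr rfl fun v _ => ?_
  rw [Finset.sum_product, Finset.sum_filter]
  refine Finset.sum_congr rfl fun w _ => ?_
  rw [Finset.sum_product]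
  simp only [Finset.sum_const, Finset.card_range, nsmul_eq_mul]
  push_cast
  split_ifs
  · ring
  · ring

lemma nn_eq {ρ M A G V : ℕ} (hρ : 0 < ρ) (hM : 0 < M) (hG : 0 < G) :
    nS ρ M G V * nT ρ M A G V = (A : ℝ) * V ^ 2 / (ρ * G ^ 2) := by
  have h1 : (0 : ℝ) < ρ := by exact_mod_cast hρ
  have h2 : (0 : ℝ) < M := by exact_mod_cast hM
  have h3 : (0 : ℝ) < G := by exact_mod_cast hG
  unfold nS nT
  rw [Real.sqrt_div h2.le, Real.sqrt_mul h1.le]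
  have e1 := Real.mul_self_sqrt h1.le
  have s1 : 0 < Real.sqrt (ρ : ℝ) := Real.sqrt_pos.mpr h1
  have s2 : 0 < Real.sqrt (M : ℝ) := Real.sqrt_pos.mpr h2
  rw [show (ρ : ℝ) * G ^ 2 = (Real.sqrt ρ * Real.sqrt ρ) * G ^ 2 by rw [e1]]
  field_simp

lemma real_main {n r m a g v w H S L Pi Sb C₁ C₂ C₃ : ℝ} (hn : 1 ≤ n) (hr : 1 ≤ r) (hm : 1 ≤ m)
    (ha : 1 ≤ a) (hg : 1 ≤ g) (hv : 1 ≤ v) (hw : 1 ≤ w) (hH : 0 ≤ H) (hHm : H * m ≤ 32 * (g * v ^ 3 * w))
    (hL : 0 ≤ L) (hPi : 0 ≤ Pi) (hSb : 0 ≤ Sb) (hC₁ : 0 ≤ C₁) (hC₂ : 0 ≤ C₂) (hC₃ : 0 ≤ C₃)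
    (hS : S ≤ C₃ * (Real.sqrt (v * w) * Real.sqrt ((v * w + g * H * r) * Pi) +
      Real.sqrt (g * H) * (v * w) * Sb))
    (h1 : r * g ^ 2 * v ^ 2 ≤ 64 * m) (h3 : r ^ 2 * m * a ≤ 2 * n)
    (h4 : m * Real.sqrt a / (v * Real.sqrt r) * Real.sqrt Pi ≤ C₂ * n / r)
    (h5 : g ^ 2 * v ^ 2 * w * Real.sqrt a / Real.sqrt r ≤ C₂ * n / r)
    (h6 : Real.sqrt (m * a / r) * Real.sqrt (v * w * g ^ 2) * Sb ≤ C₂ * n / r) :
    4 * g ^ 2 * (C₁ * (m / (g * v ^ 3 * w))) * (g * v * w * (a * v ^ 2 / (r * g ^ 2)) +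
      L * Real.sqrt (a * v ^ 2 / (r * g ^ 2)) * (g * v * w * H + S)) ≤
    (8 * C₁ + 128 * C₁ * C₂ * L + 208 * C₁ * C₂ * C₃ * L) * (n / r) := by
  have r0 : 0 < r := by linarith
  have m0 : 0 < m := by linarith
  have a0 : 0 < a := by linarith
  have g0 : 0 < g := by linarith
  have v0 : 0 < v := by linarith
  have w0 : 0 < w := by linarith
  have sr : 0 < Real.sqrt r := Real.sqrt_pos.mpr r0
  have sm : 0 < Real.sqrt m := Real.sqrt_pos.mpr m0
  have sa : 0 < Real.sqrt a := Real.sqrt_pos.mpr a0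
  have svw : 0 < Real.sqrt (v * w) := Real.sqrt_pos.mpr (by positivity)
  have er := Real.mul_self_sqrt r0.le
  have em := Real.mul_self_sqrt m0.le
  have ea := Real.mul_self_sqrt a0.le
  have evw := Real.mul_self_sqrt (show 0 ≤ v * w by positivity)
  have esq : Real.sqrt (a * v ^ 2 / (r * g ^ 2)) = v * Real.sqrt a / (g * Real.sqrt r) := by
    rw [Real.sqrt_div (by positivity), Real.sqrt_mul a0.le, Real.sqrt_mul r0.le,
      Real.sqrt_sq v0.le, Real.sqrt_sq g0.le]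
    ring
  rw [esq]
  -- first term
  have t1 : 4 * g ^ 2 * (C₁ * (m / (g * v ^ 3 * w))) * (g * v * w * (a * v ^ 2 / (r * g ^ 2))) =
      4 * C₁ * (m * a / r) := by
    field_simp
  have t1' : m * a / r ≤ 2 * (n / r) := by
    rw [← mul_div_assoc]
    refine div_le_div_of_nonneg_right ?_ r0.le
    have : m * a ≤ r ^ 2 * m * a := by
      have h : 1 ≤ r ^ 2 := one_le_pow₀ hr
      nlinarith [mul_pos m0 a0]
    linarith
  -- second term
  have t2 : 4 * g ^ 2 * (C₁ * (m / (g * v ^ 3 * w))) * (L * (v * Real.sqrt a / (g * Real.sqrt r)) *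
      (g * v * w * H)) = 4 * C₁ * L * (H * m / (g * v ^ 3 * w)) *
      (g ^ 2 * v ^ 2 * w * Real.sqrt a / Real.sqrt r) := by
    field_simp
  have t2' : H * m / (g * v ^ 3 * w) ≤ 32 := by
    rw [div_le_iff₀ (by positivity)]
    exact hHm
  have t2'' : 4 * C₁ * L * (H * m / (g * v ^ 3 * w)) *
      (g ^ 2 * v ^ 2 * w * Real.sqrt a / Real.sqrt r) ≤ 4 * C₁ * L * 32 * (C₂ * n / r) := by
    gcongr
  -- third term
  have t3 : 4 * g ^ 2 * (C₁ * (m / (g * v ^ 3 * w))) * (L * (v * Real.sqrt a / (g * Real.sqrt r)) *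
      S) = 4 * C₁ * L * (m * Real.sqrt a / (v ^ 2 * w * Real.sqrt r)) * S := by
    field_simp
  have hgH : g * H * r ≤ 2048 * (v * w) := by
    have e1 : g * H * r * m ≤ 32 * (g * v ^ 3 * w) * g * r := by nlinarith [mul_pos g0 r0]
    have e2 : 32 * (g * v ^ 3 * w) * g * r ≤ 2048 * (v * w) * m := by
      have : (r * g ^ 2 * v ^ 2) * (32 * (v * w)) ≤ 64 * m * (32 * (v * w)) := by gcongr
      nlinarith
    exact le_of_mul_le_mul_right (e1.trans e2) m0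
  have q1 : Real.sqrt ((v * w + g * H * r) * Pi) ≤ 46 * (Real.sqrt (v * w) * Real.sqrt Pi) := by
    rw [← Real.sqrt_mul (by positivity)]
    have : (46 : ℝ) = Real.sqrt (46 ^ 2) := by rw [Real.sqrt_sq (by norm_num)]
    rw [this, ← Real.sqrt_mul (by positivity)]
    apply Real.sqrt_le_sqrt
    have : (v * w + g * H * r) * Pi ≤ (2049 * (v * w)) * Pi := by
      gcongr
      linarith
    nlinarith [mul_nonneg (mul_pos v0 w0).le hPi]
  have q2 : Real.sqrt (g * H) ≤ 6 * (g * v * Real.sqrt (v * w) / Real.sqrt m) := by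
    rw [Real.sqrt_le_left (by positivity)]
    have e1 : (6 * (g * v * Real.sqrt (v * w) / Real.sqrt m)) ^ 2 = 36 * (g ^ 2 * v ^ 3 * w) / m := by
      have : (6 * (g * v * Real.sqrt (v * w) / Real.sqrt m)) ^ 2 =
          36 * (g ^ 2 * v ^ 2 * (Real.sqrt (v * w) * Real.sqrt (v * w))) /
            (Real.sqrt m * Real.sqrt m) := by
        field_simp
        ring
      rw [this, em, evw]
      ring
    rw [e1, le_div_iff₀ m0]
    nlinarith [mul_pos g0 (mul_pos (mul_pos (pow_pos v0 3) w0) g0)]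
  have t3a : 4 * C₁ * L * (m * Real.sqrt a / (v ^ 2 * w * Real.sqrt r)) * S ≤
      4 * C₁ * L * (m * Real.sqrt a / (v ^ 2 * w * Real.sqrt r)) *
      (C₃ * (Real.sqrt (v * w) * (46 * (Real.sqrt (v * w) * Real.sqrt Pi)) +
        6 * (g * v * Real.sqrt (v * w) / Real.sqrt m) * (v * w) * Sb)) := by
    refine mul_le_mul_of_nonneg_left (hS.trans ?_) (by positivity)
    gcongr
  have e6 : Real.sqrt (m * a / r) * Real.sqrt (v * w * g ^ 2) =
      Real.sqrt m * Real.sqrt a / Real.sqrt r * (Real.sqrt (v * w) * g) := by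
    rw [Real.sqrt_div (by positivity), Real.sqrt_mul m0.le, Real.sqrt_mul (by positivity),
      Real.sqrt_sq g0.le]
  rw [e6] at h6
  have t3b : 4 * C₁ * L * (m * Real.sqrt a / (v ^ 2 * w * Real.sqrt r)) *
      (C₃ * (Real.sqrt (v * w) * (46 * (Real.sqrt (v * w) * Real.sqrt Pi)) +
        6 * (g * v * Real.sqrt (v * w) / Real.sqrt m) * (v * w) * Sb)) =
      184 * C₁ * L * C₃ * (m * Real.sqrt a / (v * Real.sqrt r) * Real.sqrt Pi) +
      24 * C₁ * L * C₃ *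
        (Real.sqrt m * Real.sqrt a / Real.sqrt r * (Real.sqrt (v * w) * g) * Sb) := by
    have e1 : Real.sqrt (v * w) * (46 * (Real.sqrt (v * w) * Real.sqrt Pi)) =
        46 * (v * w) * Real.sqrt Pi := by
      calc _ = 46 * (Real.sqrt (v * w) * Real.sqrt (v * w)) * Real.sqrt Pi := by ring
        _ = _ := by rw [evw]
    rw [e1]
    have e2 : m = Real.sqrt m * Real.sqrt m := em.symm
    have e3 : m * Real.sqrt a / (v ^ 2 * w * Real.sqrt r) *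
        (6 * (g * v * Real.sqrt (v * w) / Real.sqrt m) * (v * w) * Sb) =
        6 * (Real.sqrt m * Real.sqrt a / Real.sqrt r * (Real.sqrt (v * w) * g) * Sb) := by
      nth_rewrite 1 [e2]
      field_simp
    have e4 : m * Real.sqrt a / (v ^ 2 * w * Real.sqrt r) * (46 * (v * w) * Real.sqrt Pi) =
        46 * (m * Real.sqrt a / (v * Real.sqrt r) * Real.sqrt Pi) := by
      field_simp
    calc _ = 4 * C₁ * L * C₃ * (m * Real.sqrt a / (v ^ 2 * w * Real.sqrt r) *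
          (46 * (v * w) * Real.sqrt Pi)) + 4 * C₁ * L * C₃ * (m * Real.sqrt a /
          (v ^ 2 * w * Real.sqrt r) *
          (6 * (g * v * Real.sqrt (v * w) / Real.sqrt m) * (v * w) * Sb)) := by ring
      _ = _ := by rw [e3, e4]; ring
  have t3c : 184 * C₁ * L * C₃ * (m * Real.sqrt a / (v * Real.sqrt r) * Real.sqrt Pi) +
      24 * C₁ * L * C₃ *
        (Real.sqrt m * Real.sqrt a / Real.sqrt r * (Real.sqrt (v * w) * g) * Sb) ≤
      184 * C₁ * L * C₃ * (C₂ * n / r) + 24 * C₁ * L * C₃ * (C₂ * n / r) := by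
    gcongr
  calc _ = 4 * g ^ 2 * (C₁ * (m / (g * v ^ 3 * w))) * (g * v * w * (a * v ^ 2 / (r * g ^ 2))) +
        4 * g ^ 2 * (C₁ * (m / (g * v ^ 3 * w))) * (L * (v * Real.sqrt a / (g * Real.sqrt r)) *
          (g * v * w * H)) +
        4 * g ^ 2 * (C₁ * (m / (g * v ^ 3 * w))) * (L * (v * Real.sqrt a / (g * Real.sqrt r)) *
          S) := by ring
    _ ≤ 4 * C₁ * (2 * (n / r)) + 4 * C₁ * L * 32 * (C₂ * n / r) +
        (184 * C₁ * L * C₃ * (C₂ * n / r) + 24 * C₁ * L * C₃ * (C₂ * n / r)) := by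
      rw [t1, t2, t3]
      have := mul_le_mul_of_nonneg_left t1' (show 0 ≤ 4 * C₁ by positivity)
      linarith [t3a.trans (t3b.le.trans t3c)]
    _ = _ := by ring

/-- crude bounds for the parameters -/
lemma crude {N ρ M A G V W : ℕ} (h : Par N ρ M A G V W) :
    ρ ≤ 2 * N ∧ M ≤ 2 * N ∧ A ≤ 2 * N ∧ G ≤ 256 * N ^ 3 ∧ V ≤ 256 * N ^ 3 ∧ W ≤ 256 * N ^ 3 := by
  obtain ⟨hN, hρ, hM, hA, hG, hV, hW, h1, h2, h3, h4, -⟩ := h
  have a1 : ρ * M ≤ 2 * N := (Nat.le_self_pow two_ne_zero _).trans h1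
  have a2 : ρ * A ≤ 2 * N := (Nat.le_self_pow two_ne_zero _).trans h2
  have b1 : ρ ≤ 2 * N := (Nat.le_mul_of_pos_right ρ hM).trans a1
  have b2 : M ≤ 2 * N := (Nat.le_mul_of_pos_left M hρ).trans a1
  have b3 : A ≤ 2 * N := (Nat.le_mul_of_pos_left A hρ).trans a2
  have c1 : 32 * ρ * M ^ 2 * A ≤ 256 * N ^ 3 := by
    calc 32 * ρ * M ^ 2 * A = 32 * ((ρ * M) * (M * A)) := by ring
      _ ≤ 32 * ((2 * N) * ((2 * N) * (2 * N))) := by gcongr
      _ = 256 * N ^ 3 := by ring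
  have c2 : 32 * ρ * A ^ 2 * M ≤ 256 * N ^ 3 := by
    calc 32 * ρ * A ^ 2 * M = 32 * ((ρ * A) * (A * M)) := by ring
      _ ≤ 32 * ((2 * N) * ((2 * N) * (2 * N))) := by gcongr
      _ = 256 * N ^ 3 := by ring
  have d1 := h3.trans c1
  have d2 := h4.trans c2
  refine ⟨b1, b2, b3, ?_, ?_, ?_⟩
  · exact (Nat.le_of_dvd (by positivity) (Dvd.intro (N * G * V ^ 2) (by ring))).trans d1
  · exact (Nat.le_of_dvd (by positivity) (Dvd.intro (N * G ^ 2 * V) (by ring))).trans d1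
  · exact (Nat.le_of_dvd (by positivity) (Dvd.intro (N * G ^ 2 * W) (by ring))).trans d2

lemma sqrt_one_add_le {x : ℝ} (hx : 0 ≤ x) : Real.sqrt (1 + x) ≤ 1 + Real.sqrt x := by
  rw [Real.sqrt_le_left (by positivity)]
  nlinarith [Real.sq_sqrt hx, Real.sqrt_nonneg x]

lemma log_bound {ε n : ℝ} (hε : 0 < ε) (hn : 1 ≤ n) : 1 + Real.log n ≤ (1 + 1 / ε) * n ^ ε := by
  have h1 := Real.log_le_rpow_div (by linarith : (0 : ℝ) ≤ n) hε
  have h2 : 1 ≤ n ^ ε := Real.one_le_rpow hn hε.le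
  have h3 : n ^ ε / ε = 1 / ε * n ^ ε := by ring
  rw [h3] at h1
  nlinarith

end BoxAux

open BoxAux in
theorem t_BOX (hINN : S_INN) (hAVG : S_AVG) (hNUM : S_NUM) : S_BOX := by
  intro ε hε
  obtain ⟨C₁, hC₁, hI⟩ := hINN
  obtain ⟨C₂, hC₂, hNu⟩ := hNUM
  obtain ⟨C₃, hC₃, hA⟩ := hAVG (ε / 30) (by positivity)
  set c4 : ℕ := 32 * 256 ^ 5 * (1 + ⌈C₂⌉₊) with hc4
  set C₃' : ℝ := C₃ * (c4 : ℝ) ^ (ε / 30) with hC₃'
  have hc4pos : 0 < c4 := by positivity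
  have hC₃'pos : 0 < C₃' := by positivity
  refine ⟨(8 * C₁ + 128 * C₁ * C₂ * (1 + 1 / (ε / 2)) + 208 * C₁ * C₂ * C₃' * (1 + 1 / (ε / 2))),
    by positivity, fun N ρ M A G V W hPar F hF => ?_⟩
  have hPar' := hPar
  obtain ⟨hN, hρ, hM, hAA, hG, hV, hW, p1, p2, p3, p4, p5⟩ := hPar'
  obtain ⟨b1, b2, b3, b4, b5, b6⟩ := crude hPar
  obtain ⟨n1, n2, n3, n4, n5, n6, n7, n8, n9, n10⟩ := hNu N ρ M A G V W hPar
  have hNr : (1 : ℝ) ≤ N := by exact_mod_cast hN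
  have hρr : (1 : ℝ) ≤ ρ := by exact_mod_cast hρ
  have hMr : (1 : ℝ) ≤ M := by exact_mod_cast hM
  have hAr : (1 : ℝ) ≤ A := by exact_mod_cast hAA
  have hGr : (1 : ℝ) ≤ G := by exact_mod_cast hG
  have hVr : (1 : ℝ) ≤ V := by exact_mod_cast hV
  have hWr : (1 : ℝ) ≤ W := by exact_mod_cast hW
  have hlog : 0 ≤ Real.log N := Real.log_nonneg hNr
  set H : ℕ := 32 * (G * V ^ 3 * W) / M with hH
  set nn : ℝ := nS ρ M G V * nT ρ M A G V with hnn
  have hnn' := nn_eq (A := A) (V := V) (lt_of_lt_of_le one_pos hρ) (lt_of_lt_of_le one_pos hM)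
    (lt_of_lt_of_le one_pos hG)
  rw [← hnn] at hnn'
  have hnn0 : 0 ≤ nn := by
    rw [hnn']
    positivity
  set T : ℕ → ℕ → ℕ → ℕ → ℝ := fun g h v w =>
    Real.sqrt (KP ρ M A G V W (h * g * ρ) v w : ℝ) with hT
  set B : ℕ → ℕ → ℕ → ℝ := fun g v w => C₁ * ((M : ℝ) / (G * V ^ 3 * W)) * (nn +
    (1 + Real.log N) * Real.sqrt nn * ∑ h ∈ Icc 1 H, (1 + T g h v w)) with hB
  have hT0 : ∀ g h v w, 0 ≤ T g h v w := fun g h v w => Real.sqrt_nonneg _
  have hB0 : ∀ g v w, 0 ≤ B g v w := by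
    intro g v w
    have : 0 ≤ ∑ h ∈ Icc 1 H, (1 + T g h v w) :=
      Finset.sum_nonneg fun h _ => by linarith [hT0 g h v w]
    simp only [hB]
    positivity
  have hBB : ∀ g v w : ℕ, G ≤ g → g < 2 * G → V ≤ v → v < 2 * V → W ≤ w → w < 2 * W → v.Coprime w →
      g.Coprime (v * w) → ∀ σ τ μ : ℤ, ∀ F : Finset (ℤ × ℤ × ℤ),
      (∀ x ∈ F, (ρ : ℤ) * x.1 ^ 2 ≤ 32 * M * V ^ 2 ∧ (ρ : ℤ) * M * x.2.1 ^ 2 ≤ 64 * A ^ 2 * V ^ 2 ∧
        (M : ℤ) ≤ x.2.2 ∧ x.2.2 < 2 * M ∧ (g : ℤ) ∣ x.1 - σ ∧ (g : ℤ) ∣ x.2.1 - τ ∧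
        (g : ℤ) ∣ x.2.2 - μ ∧ Cong ρ v w x.1 x.2.1 x.2.2) → (F.card : ℝ) ≤ B g v w := by
    intro g v w g1 g2 g3 g4 g5 g6 g7 g8 σ τ μ F3 hF3
    refine (hI N ρ M A G V W hPar g v w g1 g2 g3 g4 g5 g6 g7 g8 σ τ μ F3 hF3).trans ?_
    have r1 : (G : ℝ) ≤ g := by exact_mod_cast g1
    have r2 : (V : ℝ) ≤ v := by exact_mod_cast g3
    have r3 : (W : ℝ) ≤ w := by exact_mod_cast g5
    have hsub : Icc 1 (g * v ^ 3 * w / M) ⊆ Icc 1 H := by
      apply Finset.Icc_subset_Icc_right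
      rw [hH]
      apply Nat.div_le_div_right
      calc g * v ^ 3 * w ≤ (2 * G) * (2 * V) ^ 3 * (2 * W) := by gcongr
        _ = 32 * (G * V ^ 3 * W) := by ring
    have hs : ∑ h ∈ Icc 1 (g * v ^ 3 * w / M), Real.sqrt (1 + (KP ρ M A G V W (h * g * ρ) v w : ℝ)) ≤
        ∑ h ∈ Icc 1 H, (1 + T g h v w) := by
      calc _ ≤ ∑ h ∈ Icc 1 (g * v ^ 3 * w / M), (1 + T g h v w) :=
            Finset.sum_le_sum fun h _ => sqrt_one_add_le (Nat.cast_nonneg _)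
        _ ≤ _ := Finset.sum_le_sum_of_subset_of_nonneg hsub fun h _ _ => by
            linarith [hT0 g h v w]
    simp only [hB]
    gcongr
  have hfib := fibres ρ M A G V W (lt_of_lt_of_le one_pos hG) B hB0 hBB F (by
    rintro ⟨g, v, w, s, t, m⟩ hx
    have := hF (g, v, w, s, t, m) hx
    obtain ⟨a1, a2, a3, a4, a5, a6, a7, a8, a9, a10, a11, a12, a13, a14, e, f, a15, a16, a17, a18,
      a19⟩ := this
    exact ⟨(e, f), a1, a2, a3, a4, a5, a6, a7, a8, a9, a10, a11, a12, a13, a14, a15, a16, a17, a18,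
      a19⟩)
  -- the sum of `T`
  set S : ℝ := ∑ g ∈ Ico G (2 * G), ∑ v ∈ Ico V (2 * V),
    ∑ w ∈ (Ico W (2 * W)).filter (fun w => Nat.Coprime v w), ∑ h ∈ Icc 1 H, T g h v w with hS
  have hSb : S ≤ C₃' * (N : ℝ) ^ (ε / 2) * (Real.sqrt ((V : ℝ) * W) *
      Real.sqrt (((V : ℝ) * W + G * H * ρ) * ((1 + bK ρ M A G V W) * (1 + bL ρ M G V W) *
        (1 + bJ ρ M G V) * (1 + bR ρ M A G V))) +
      Real.sqrt ((G : ℝ) * H) * (V * W) *
        (1 + bK ρ M A G V W + bL ρ M G V W + bJ ρ M G V + bR ρ M A G V)) := by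
    rcases Nat.eq_zero_or_pos H with hH0 | hH0
    · have : S = 0 := by
        rw [hS, hH0]
        simp
      rw [this]
      positivity
    · have hY1 : 256 * N ^ 3 ≤ c4 * N ^ 15 := by
        have : N ^ 3 ≤ N ^ 15 := Nat.pow_le_pow_right hN (by norm_num)
        have h2 : 256 ≤ c4 := by
          rw [hc4]
          nlinarith [Nat.zero_le ⌈C₂⌉₊]
        exact Nat.mul_le_mul h2 this
      have hYH : H ≤ c4 * N ^ 15 := by
        calc H ≤ 32 * (G * V ^ 3 * W) := Nat.div_le_self _ _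
          _ ≤ 32 * ((256 * N ^ 3) * (256 * N ^ 3) ^ 3 * (256 * N ^ 3)) := by gcongr
          _ = 32 * 256 ^ 5 * N ^ 15 := by ring
          _ ≤ c4 * N ^ 15 := by
            rw [hc4]
            apply Nat.mul_le_mul_right
            exact Nat.le_mul_of_pos_right _ (by omega)
      have hYρ : ρ ≤ c4 * N ^ 15 := by
        refine b1.trans (le_trans ?_ hY1)
        have : N ≤ N ^ 3 := Nat.le_self_pow (by norm_num) _
        omega
      have hYb : ∀ x : ℕ, (x : ℝ) ≤ C₂ * N → x ≤ c4 * N ^ 15 := by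
        intro x hx
        have h1 : (x : ℝ) ≤ ((⌈C₂⌉₊ * N : ℕ) : ℝ) := by
          push_cast
          refine hx.trans ?_
          gcongr
          exact Nat.le_ceil _
        have h2 : x ≤ ⌈C₂⌉₊ * N := by exact_mod_cast h1
        refine h2.trans (Nat.mul_le_mul ?_ (Nat.le_self_pow (by norm_num) _))
        rw [hc4]
        nlinarith [Nat.zero_le ⌈C₂⌉₊]
      have h1 := hA G H V W ρ (bK ρ M A G V W) (bL ρ M G V W) (bJ ρ M G V) (bR ρ M A G V)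
        (c4 * N ^ 15) hG hH0 hV hW hρ (b4.trans hY1) hYH (b5.trans hY1) (b6.trans hY1) hYρ
        (hYb _ n7) (hYb _ n8) (hYb _ n9) (hYb _ n10)
      have h2 : S = ∑ g ∈ Ico G (2 * G), ∑ h ∈ Icc 1 H, ∑ v ∈ Ico V (2 * V),
          ∑ w ∈ (Ico W (2 * W)).filter (fun w => Nat.Coprime v w),
            Real.sqrt (KK (bK ρ M A G V W) (bL ρ M G V W) (bJ ρ M G V) (bR ρ M A G V)
              (h * g * ρ) v w) := by
        rw [hS]
        refine Finset.sum_congr rfl fun g _ => ?_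
        calc ∑ v ∈ Ico V (2 * V), ∑ w ∈ (Ico W (2 * W)).filter (fun w => Nat.Coprime v w),
              ∑ h ∈ Icc 1 H, T g h v w =
            ∑ v ∈ Ico V (2 * V), ∑ h ∈ Icc 1 H,
              ∑ w ∈ (Ico W (2 * W)).filter (fun w => Nat.Coprime v w), T g h v w :=
              Finset.sum_congr rfl fun v _ => Finset.sum_comm
          _ = ∑ h ∈ Icc 1 H, ∑ v ∈ Ico V (2 * V),
              ∑ w ∈ (Ico W (2 * W)).filter (fun w => Nat.Coprime v w), T g h v w :=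
              Finset.sum_comm
          _ = _ := rfl
      rw [h2]
      refine h1.trans (le_of_eq ?_)
      have h3 : ((c4 * N ^ 15 : ℕ) : ℝ) ^ (ε / 30) = (c4 : ℝ) ^ (ε / 30) * (N : ℝ) ^ (ε / 2) := by
        push_cast
        rw [Real.mul_rpow (by positivity) (by positivity), ← Real.rpow_natCast_mul (by positivity)]
        congr 2
        push_cast
        ring
      rw [h3, hC₃']
      ring
  -- the sum of `B`
  set cnt : ℝ := ∑ g ∈ Ico G (2 * G), ∑ v ∈ Ico V (2 * V),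
    ∑ w ∈ (Ico W (2 * W)).filter (fun w => Nat.Coprime v w), (1 : ℝ) with hcnt
  have hcnt1 : cnt ≤ (G : ℝ) * V * W := by
    calc cnt ≤ ∑ g ∈ Ico G (2 * G), ∑ v ∈ Ico V (2 * V), (W : ℝ) := by
          refine Finset.sum_le_sum fun g _ => Finset.sum_le_sum fun v _ => ?_
          simp only [Finset.sum_const, nsmul_eq_mul, mul_one]
          have h1 := Finset.card_filter_le (Ico W (2 * W)) (fun w => Nat.Coprime v w)
          have h2 : (Ico W (2 * W)).card = W := by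
            rw [Nat.card_Ico]
            omega
          rw [h2] at h1
          exact_mod_cast h1
      _ = (G : ℝ) * V * W := by
          simp only [Finset.sum_const, nsmul_eq_mul, Nat.card_Ico]
          rw [show 2 * G - G = G by omega, show 2 * V - V = V by omega]
          ring
  set q : ℝ := (M : ℝ) / (G * V ^ 3 * W) with hq
  have hsumB : ∑ g ∈ Ico G (2 * G), ∑ v ∈ Ico V (2 * V),
      ∑ w ∈ (Ico W (2 * W)).filter (fun w => Nat.Coprime v w), 4 * (G : ℝ) ^ 2 * B g v w =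
      4 * (G : ℝ) ^ 2 * (C₁ * q) * (cnt * nn + (1 + Real.log N) * Real.sqrt nn * (cnt * H + S)) := by
    have h1 : ∀ g v w, 4 * (G : ℝ) ^ 2 * B g v w = (4 * (G : ℝ) ^ 2 * (C₁ * q) * nn +
        4 * (G : ℝ) ^ 2 * (C₁ * q) * ((1 + Real.log N) * Real.sqrt nn) * H) * 1 +
        4 * (G : ℝ) ^ 2 * (C₁ * q) * ((1 + Real.log N) * Real.sqrt nn) *
          ∑ h ∈ Icc 1 H, T g h v w := by
      intro g v w
      simp only [hB]
      rw [Finset.sum_add_distrib]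
      simp only [Finset.sum_const, nsmul_eq_mul, Nat.card_Icc, mul_one, Nat.add_sub_cancel]
      ring
    simp only [h1, Finset.sum_add_distrib, ← Finset.mul_sum]
    rw [← hcnt, ← hS]
    ring
  have hC₃n : 0 ≤ C₃' * (N : ℝ) ^ (ε / 2) := by positivity
  have hHm : (H : ℝ) * M ≤ 32 * ((G : ℝ) * V ^ 3 * W) := by
    have h1 : H * M ≤ 32 * (G * V ^ 3 * W) := Nat.div_mul_le_self _ _
    exact_mod_cast h1
  have hmain := real_main (n := N) (r := ρ) (m := M) (a := A) (g := G) (v := V) (w := W)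
    (H := H) (S := S) (L := 1 + Real.log N)
    (Pi := (1 + bK ρ M A G V W) * (1 + bL ρ M G V W) * (1 + bJ ρ M G V) * (1 + bR ρ M A G V))
    (Sb := 1 + bK ρ M A G V W + bL ρ M G V W + bJ ρ M G V + bR ρ M A G V)
    (C₁ := C₁) (C₂ := C₂) (C₃ := C₃' * (N : ℝ) ^ (ε / 2)) hNr hρr hMr hAr hGr hVr hWr
    (Nat.cast_nonneg _) hHm (by linarith) (by positivity) (by positivity) hC₁.le hC₂.le hC₃n hSb
    (by exact_mod_cast n1) (by exact_mod_cast n3) n4 n5 n6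
  have hle : 4 * (G : ℝ) ^ 2 * (C₁ * q) * (cnt * nn + (1 + Real.log N) * Real.sqrt nn *
      (cnt * H + S)) ≤ 4 * (G : ℝ) ^ 2 * (C₁ * q) * ((G : ℝ) * V * W * nn +
      (1 + Real.log N) * Real.sqrt nn * ((G : ℝ) * V * W * H + S)) := by
    have hq0 : 0 ≤ q := by positivity
    gcongr
  rw [hnn'] at hle
  have hfin := hfib.trans ((le_of_eq (hsumB.trans (by rw [hnn']))).trans (hle.trans hmain))
  refine hfin.trans ?_
  have hl := log_bound (ε := ε / 2) (n := N) (by positivity) hNr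
  have hN2 : 1 ≤ (N : ℝ) ^ (ε / 2) := Real.one_le_rpow hNr (by positivity)
  have hNe : (N : ℝ) ^ (1 + ε) = N * ((N : ℝ) ^ (ε / 2) * (N : ℝ) ^ (ε / 2)) := by
    rw [← Real.rpow_add (by linarith), add_halves, Real.rpow_add (by linarith), Real.rpow_one]
  rw [hNe]
  have hc0 : 0 ≤ 1 + 1 / (ε / 2) := by positivity
  set y := (N : ℝ) ^ (ε / 2) with hy
  set c := 1 + 1 / (ε / 2) with hc
  have hy0 : 0 ≤ y := by linarith
  have hyy : y ≤ y * y := by nlinarith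
  have hyy1 : 1 ≤ y * y := by nlinarith
  have k1 : 8 * C₁ ≤ 8 * C₁ * (y * y) := by nlinarith
  have k2 : 128 * C₁ * C₂ * (1 + Real.log N) ≤ 128 * C₁ * C₂ * c * (y * y) := by
    calc _ ≤ 128 * C₁ * C₂ * (c * y) := by gcongr
      _ ≤ 128 * C₁ * C₂ * (c * (y * y)) := by gcongr
      _ = _ := by ring
  have k3 : 208 * C₁ * C₂ * (C₃' * y) * (1 + Real.log N) ≤ 208 * C₁ * C₂ * C₃' * c * (y * y) := by
    calc _ ≤ 208 * C₁ * C₂ * (C₃' * y) * (c * y) := by gcongr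
      _ = _ := by ring
  have hNρ : 0 ≤ (N : ℝ) / ρ := by positivity
  calc _ ≤ (8 * C₁ * (y * y) + 128 * C₁ * C₂ * c * (y * y) + 208 * C₁ * C₂ * C₃' * c * (y * y)) *
        ((N : ℝ) / ρ) := by
        refine mul_le_mul_of_nonneg_right ?_ hNρ
        linarith
    _ = _ := by ring

end Pool.Agent.T2h80.F5
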