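import Pool.Agent.T2h80.F5.CN2

set_option autoImplicit false

/-!
# Task CN1 of project F5
-/

namespace Pool.Agent.T2h80.F5

open Finset

theorem cn1_log (δ : ℝ) (hδ : 0 < δ) : ∃ c : ℝ, 0 < c ∧ ∀ N : ℕ, 1 ≤ N →
    ((Nat.log 2 (16 * N) + 1 : ℕ) : ℝ) ≤ c * (N : ℝ) ^ δ := by
  have hl2 : 0 < Real.log 2 := Real.log_pos (by norm_num)
  refine ⟨1 + (16 : ℝ) ^ δ / (δ * Real.log 2), by positivity, ?_⟩
  intro N hN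
  have hN1 : (1 : ℝ) ≤ N := by exact_mod_cast hN
  have h1 : ((2 ^ Nat.log 2 (16 * N) : ℕ) : ℝ) ≤ ((16 * N : ℕ) : ℝ) := by
    exact_mod_cast Nat.pow_log_le_self 2 (by omega)
  have h2 : (Nat.log 2 (16 * N) : ℝ) * Real.log 2 ≤ Real.log ((16 * N : ℕ) : ℝ) := by
    rw [← Real.log_pow]
    apply Real.log_le_log (by positivity)
    exact_mod_cast h1
  have h3 : Real.log ((16 * N : ℕ) : ℝ) ≤ ((16 * N : ℕ) : ℝ) ^ δ / δ :=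
    Real.log_le_rpow_div (by positivity) hδ
  have h4 : ((16 * N : ℕ) : ℝ) ^ δ = (16 : ℝ) ^ δ * (N : ℝ) ^ δ := by
    push_cast
    rw [Real.mul_rpow (by norm_num) (by positivity)]
  have h5 : (1 : ℝ) ≤ (N : ℝ) ^ δ := Real.one_le_rpow hN1 hδ.le
  have h6 : (Nat.log 2 (16 * N) : ℝ) ≤ (16 : ℝ) ^ δ / (δ * Real.log 2) * (N : ℝ) ^ δ := by
    rw [div_mul_eq_mul_div, le_div_iff₀ (by positivity)]
    have h7 := h2.trans h3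
    rw [h4] at h7
    rw [le_div_iff₀ hδ] at h7
    nlinarith
  push_cast
  nlinarith

theorem cn1_harm (δ : ℝ) (hδ : 0 < δ) : ∃ c : ℝ, 0 < c ∧ ∀ N : ℕ, 1 ≤ N →
    ∑ ρ ∈ Icc 1 (2 * N), 1 / (ρ : ℝ) ≤ c * (N : ℝ) ^ δ := by
  refine ⟨1 + (2 : ℝ) ^ δ / δ, by positivity, ?_⟩
  intro N hN
  have hN1 : (1 : ℝ) ≤ N := by exact_mod_cast hN
  have h1 : ∑ ρ ∈ Icc 1 (2 * N), 1 / (ρ : ℝ) ≤ 1 + Real.log ((2 * N : ℕ) : ℝ) := by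
    have h := harmonic_le_one_add_log (2 * N)
    rw [harmonic_eq_sum_Icc] at h
    push_cast at h
    simpa [one_div] using h
  have h3 : Real.log ((2 * N : ℕ) : ℝ) ≤ ((2 * N : ℕ) : ℝ) ^ δ / δ :=
    Real.log_le_rpow_div (by positivity) hδ
  have h4 : ((2 * N : ℕ) : ℝ) ^ δ = (2 : ℝ) ^ δ * (N : ℝ) ^ δ := by
    push_cast
    rw [Real.mul_rpow (by norm_num) (by positivity)]
  have h5 : (1 : ℝ) ≤ (N : ℝ) ^ δ := Real.one_le_rpow hN1 hδ.le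
  rw [h4, mul_div_right_comm] at h3
  nlinarith

/-- the conditions of BOX for one tuple -/
theorem cn1_box {N ρ m a g v w M A G V W : ℕ} {s t : ℤ} (hN : 1 ≤ N) (h : Good N ρ m a g v w s t)
    (hle : m * w ^ 2 ≤ a * v ^ 2) (hM : 1 ≤ M) (hA : 1 ≤ A) (hG : 1 ≤ G) (hV : 1 ≤ V) (hW : 1 ≤ W)
    (m1 : M ≤ m) (m2 : m < 2 * M) (a1 : A ≤ a) (a2 : a < 2 * A) (g1 : G ≤ g)
    (v1 : V ≤ v) (v2 : v < 2 * V) (w1 : W ≤ w) :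
    Par N ρ M A G V W ∧ (ρ : ℤ) * s ^ 2 ≤ 32 * M * V ^ 2 ∧ (ρ : ℤ) * M * t ^ 2 ≤ 64 * A ^ 2 * V ^ 2 ∧
      Cong ρ v w s t m := by
  obtain ⟨h1, h2, h3, h4, h5, h6, h7, h8, h9, h10, h11, h12, h13, h14, h15, h16, h17, h18⟩ := h
  refine ⟨⟨hN, h1, hM, hA, hG, hV, hW, ?_, ?_, ?_, ?_, ?_⟩, ?_, ?_, ?_, h11⟩
  · refine le_trans ?_ h15
    gcongr
  · refine le_trans ?_ h16
    gcongr
  · calc N * G ^ 2 * V ^ 2 ≤ N * g ^ 2 * v ^ 2 := by gcongr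
      _ ≤ 4 * ρ * m ^ 2 * a := h13
      _ ≤ 4 * ρ * (2 * M) ^ 2 * (2 * A) := by gcongr
      _ = 32 * ρ * M ^ 2 * A := by ring
  · calc N * G ^ 2 * W ^ 2 ≤ N * g ^ 2 * w ^ 2 := by gcongr
      _ ≤ 4 * ρ * a ^ 2 * m := h14
      _ ≤ 4 * ρ * (2 * A) ^ 2 * (2 * M) := by gcongr
      _ = 32 * ρ * A ^ 2 * M := by ring
  · calc M * W ^ 2 ≤ m * w ^ 2 := by gcongr
      _ ≤ a * v ^ 2 := hle
      _ ≤ (2 * A) * (2 * V) ^ 2 := by gcongr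
      _ = 8 * A * V ^ 2 := by ring
  · have hz : (m : ℤ) * w ^ 2 ≤ a * v ^ 2 := by exact_mod_cast hle
    have ha : (0 : ℤ) < a := by exact_mod_cast h3
    have e1 : (ρ : ℤ) * a * s ^ 2 ≤ 4 * a * m * v ^ 2 := by
      have hm0 : (0 : ℤ) ≤ m := by positivity
      nlinarith [mul_le_mul_of_nonneg_left hz hm0]
    have e2 : (ρ : ℤ) * s ^ 2 ≤ 4 * m * v ^ 2 := by
      have : (a : ℤ) * (ρ * s ^ 2) ≤ a * (4 * m * v ^ 2) := by linarith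
      exact le_of_mul_le_mul_left this ha
    have e3 : 4 * m * v ^ 2 ≤ 4 * (2 * M) * (2 * V) ^ 2 := by gcongr
    have e4 : (4 : ℤ) * m * v ^ 2 ≤ 4 * (2 * M) * (2 * V) ^ 2 := by exact_mod_cast e3
    calc (ρ : ℤ) * s ^ 2 ≤ 4 * m * v ^ 2 := e2
      _ ≤ 4 * (2 * M) * (2 * V) ^ 2 := e4
      _ = 32 * M * V ^ 2 := by ring
  · have hz : (m : ℤ) * w ^ 2 ≤ a * v ^ 2 := by exact_mod_cast hle
    have e1 : (ρ : ℤ) * m * t ^ 2 ≤ 4 * a ^ 2 * v ^ 2 := by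
      have ha0 : (0 : ℤ) ≤ a := by positivity
      nlinarith [mul_le_mul_of_nonneg_left hz ha0]
    have e3 : 4 * a ^ 2 * v ^ 2 ≤ 4 * (2 * A) ^ 2 * (2 * V) ^ 2 := by gcongr
    have e4 : (4 : ℤ) * a ^ 2 * v ^ 2 ≤ 4 * (2 * A) ^ 2 * (2 * V) ^ 2 := by exact_mod_cast e3
    have e5 : (ρ : ℤ) * M * t ^ 2 ≤ ρ * m * t ^ 2 := by
      have : (M : ℤ) ≤ m := by exact_mod_cast m1
      gcongr
    calc (ρ : ℤ) * M * t ^ 2 ≤ ρ * m * t ^ 2 := e5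
      _ ≤ 4 * a ^ 2 * v ^ 2 := e1
      _ ≤ 4 * (2 * A) ^ 2 * (2 * V) ^ 2 := e4
      _ = 64 * A ^ 2 * V ^ 2 := by ring
  · obtain ⟨k, hk⟩ := h10
    refine ⟨k, ?_⟩
    have e : (ρ : ℤ) * t ^ 2 * v ^ 2 - ρ * s * t * w ^ 2 - m * w ^ 4 =
        v ^ 2 * (ρ * t ^ 2 - a * w ^ 2) := by
      linear_combination (w : ℤ) ^ 2 * h9
    rw [e, hk]
    ring

/-- the class of a tuple -/
def cn1_key (x : ℕ × ℕ × ℕ × ℕ × ℕ × ℕ × ℤ × ℤ) : ℕ × ℕ × ℕ × ℕ × ℕ × ℕ :=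
  (x.1, Nat.log 2 x.2.1, Nat.log 2 x.2.2.1, Nat.log 2 x.2.2.2.1, Nat.log 2 x.2.2.2.2.1,
    Nat.log 2 x.2.2.2.2.2.1)

/-- **CN1.** -/
theorem t_CN1 (hBOX : S_BOX) : S_CN1 := by
  classical
  intro ε hε
  obtain ⟨C₁, hC₁, H1⟩ := hBOX (ε / 8) (by positivity)
  obtain ⟨c₂, hc₂, H2⟩ := cn1_log (ε / 8) (by positivity)
  obtain ⟨c₃, hc₃, H3⟩ := cn1_harm (ε / 8) (by positivity)
  refine ⟨C₁ * c₂ ^ 5 * c₃, by positivity, ?_⟩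
  intro N hN F hF
  have hN1 : (1 : ℝ) ≤ N := by exact_mod_cast hN
  have hN0 : (0 : ℝ) < N := by linarith
  set L := Nat.log 2 (16 * N) + 1 with hL
  set keys : Finset (ℕ × ℕ × ℕ × ℕ × ℕ × ℕ) :=
    (Icc 1 (2 * N)) ×ˢ (range L) ×ˢ (range L) ×ˢ (range L) ×ˢ (range L) ×ˢ (range L) with hkeys
  have hmaps : ∀ x ∈ F, cn1_key x ∈ keys := by
    rintro ⟨ρ, m, a, g, v, w, s, t⟩ hx
    obtain ⟨h1, h2, h3⟩ := hF _ hx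
    have hsz := good_size hN h1
    have hlog : ∀ y : ℕ, y ≤ 16 * N → Nat.log 2 y < L := by
      intro y hy
      have := Nat.log_mono_right (b := 2) hy
      omega
    simp only [hkeys, cn1_key, mem_product, mem_Icc, mem_range]
    refine ⟨⟨h1.1, hsz.1⟩, hlog _ (by omega), hlog _ (by omega), hlog _ hsz.2.2.2.1, hlog _ hsz.2.2.2.2.1,
      hlog _ hsz.2.2.2.2.2⟩
  have hfib : ∀ k ∈ keys, ((F.filter (fun x => cn1_key x = k)).card : ℝ) ≤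
      C₁ * (N : ℝ) ^ (1 + ε / 8) * (1 / (k.1 : ℝ)) := by
    intro k hk
    obtain ⟨ρ, iM, iA, iG, iV, iW⟩ := k
    rcases (F.filter (fun x => cn1_key x = (ρ, iM, iA, iG, iV, iW))).eq_empty_or_nonempty with h0 | ⟨x₀, hx₀⟩
    · rw [h0, card_empty, Nat.cast_zero]
      positivity
    have hmem : ∀ x ∈ F.filter (fun x => cn1_key x = (ρ, iM, iA, iG, iV, iW)),
        x.1 = ρ ∧ (Par N ρ (2 ^ iM) (2 ^ iA) (2 ^ iG) (2 ^ iV) (2 ^ iW)) ∧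
        (match ((x.2.2.2.1, x.2.2.2.2.1, x.2.2.2.2.2.1, x.2.2.2.2.2.2.1, x.2.2.2.2.2.2.2, x.2.1) :
            ℕ × ℕ × ℕ × ℤ × ℤ × ℕ) with
    | (g, v, w, s, t, m) => 2 ^ iG ≤ g ∧ g < 2 * 2 ^ iG ∧ 2 ^ iV ≤ v ∧ v < 2 * 2 ^ iV ∧ 2 ^ iW ≤ w ∧
      w < 2 * 2 ^ iW ∧
      v.Coprime w ∧ g.Coprime (v * w) ∧ g.Coprime ρ ∧ 2 ^ iM ≤ m ∧ m < 2 * 2 ^ iM ∧
      (ρ : ℤ) * s ^ 2 ≤ 32 * (2 ^ iM : ℕ) * (2 ^ iV : ℕ) ^ 2 ∧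
      (ρ : ℤ) * (2 ^ iM : ℕ) * t ^ 2 ≤ 64 * (2 ^ iA : ℕ) ^ 2 * (2 ^ iV : ℕ) ^ 2 ∧
      Cong ρ v w s t m ∧
      ∃ e f : ℤ, IsCoprime e g ∧ IsCoprime f g ∧ (g : ℤ) ∣ ρ * m - f ^ 2 ∧
        (g : ℤ) ∣ ρ * e * s - f * (f * w + e * v) ∧ (g : ℤ) ∣ ρ * f * t - e * (e * v - f * w)) ∧
        (x.2.2.1 : ℤ) * x.2.2.2.2.1 ^ 2 - x.2.1 * x.2.2.2.2.2.1 ^ 2 =
          ρ * x.2.2.2.2.2.2.1 * x.2.2.2.2.2.2.2 ∧ 0 < x.2.2.2.2.1 := by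
      intro x hx
      obtain ⟨hxF, hxk⟩ := mem_filter.mp hx
      obtain ⟨ρ', m, a, g, v, w, s, t⟩ := x
      obtain ⟨h1, h2, h3⟩ := hF _ hxF
      simp only [cn1_key, Prod.mk.injEq] at hxk
      obtain ⟨e1, e2, e3, e4, e5, e6⟩ := hxk
      subst e1
      have lo : ∀ (y i : ℕ), 0 < y → Nat.log 2 y = i → 2 ^ i ≤ y := by
        rintro y i hy rfl
        exact Nat.pow_log_le_self 2 hy.ne'
      have hi : ∀ (y i : ℕ), Nat.log 2 y = i → y < 2 * 2 ^ i := by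
        rintro y i rfl
        have := Nat.lt_pow_succ_log_self (b := 2) (by norm_num) y
        rw [pow_succ] at this
        omega
      have hp : ∀ i : ℕ, 1 ≤ 2 ^ i := fun i => Nat.one_le_two_pow
      have hb := cn1_box hN h1 h2 (hp iM) (hp iA) (hp iG) (hp iV) (hp iW) (lo m iM h1.2.1 e2) (hi m iM e2)
        (lo a iA h1.2.2.1 e3) (hi a iA e3) (lo g iG h1.2.2.2.1 e4) (lo v iV h1.2.2.2.2.1 e5) (hi v iV e5)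
        (lo w iW h1.2.2.2.2.2.1 e6)
      obtain ⟨e, f, k1, k2, k3, k4, k5, k6⟩ := h1.2.2.2.2.2.2.2.2.2.2.2.1
      refine ⟨rfl, hb.1, ⟨lo g iG h1.2.2.2.1 e4, hi g iG e4, lo v iV h1.2.2.2.2.1 e5, hi v iV e5,
        lo w iW h1.2.2.2.2.2.1 e6, hi w iW e6, h1.2.2.2.2.2.2.1, h3, h1.2.2.2.2.2.2.2.1,
        lo m iM h1.2.1 e2, hi m iM e2, hb.2.1, hb.2.2.1, hb.2.2.2, e, f, k1, k2, k3, k5, k6⟩,
        h1.2.2.2.2.2.2.2.2.1, h1.2.2.2.2.1⟩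
    have hpar := (hmem x₀ hx₀).2.1
    set ψ : ℕ × ℕ × ℕ × ℕ × ℕ × ℕ × ℤ × ℤ → ℕ × ℕ × ℕ × ℤ × ℤ × ℕ := fun x =>
      (x.2.2.2.1, x.2.2.2.2.1, x.2.2.2.2.2.1, x.2.2.2.2.2.2.1, x.2.2.2.2.2.2.2, x.2.1) with hψ
    have hinj : Set.InjOn ψ (F.filter (fun x => cn1_key x = (ρ, iM, iA, iG, iV, iW)) :
        Set (ℕ × ℕ × ℕ × ℕ × ℕ × ℕ × ℤ × ℤ)) := by
      intro x hx x' hx' hxx
      obtain ⟨f1, -, -, f4, f5⟩ := hmem x (mem_coe.mp hx)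
      obtain ⟨f1', -, -, f4', f5'⟩ := hmem x' (mem_coe.mp hx')
      have e1 : x.2.2.2.1 = x'.2.2.2.1 := congrArg (fun z => z.1) hxx
      have e2 : x.2.2.2.2.1 = x'.2.2.2.2.1 := congrArg (fun z => z.2.1) hxx
      have e3 : x.2.2.2.2.2.1 = x'.2.2.2.2.2.1 := congrArg (fun z => z.2.2.1) hxx
      have e4 : x.2.2.2.2.2.2.1 = x'.2.2.2.2.2.2.1 := congrArg (fun z => z.2.2.2.1) hxx
      have e5 : x.2.2.2.2.2.2.2 = x'.2.2.2.2.2.2.2 := congrArg (fun z => z.2.2.2.2.1) hxx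
      have e6 : x.2.1 = x'.2.1 := congrArg (fun z => z.2.2.2.2.2) hxx
      have e7 : x.2.2.1 = x'.2.2.1 := by
        rw [← e2, ← e3, ← e4, ← e5, ← e6] at f4'
        have hv : (0 : ℤ) < (x.2.2.2.2.1 : ℤ) ^ 2 := by
          have : (0 : ℤ) < (x.2.2.2.2.1 : ℤ) := by exact_mod_cast f5
          positivity
        have : ((x.2.2.1 : ℤ)) * (x.2.2.2.2.1 : ℤ) ^ 2 = (x'.2.2.1 : ℤ) * (x.2.2.2.2.1 : ℤ) ^ 2 := by
          linarith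
        exact_mod_cast mul_right_cancel₀ hv.ne' this
      exact Prod.ext (f1.trans f1'.symm) (Prod.ext e6 (Prod.ext e7 (Prod.ext e1 (Prod.ext e2
        (Prod.ext e3 (Prod.ext e4 e5))))))
    have hc := H1 N ρ (2 ^ iM) (2 ^ iA) (2 ^ iG) (2 ^ iV) (2 ^ iW) hpar
      ((F.filter (fun x => cn1_key x = (ρ, iM, iA, iG, iV, iW))).image ψ) (by
        intro y hy
        obtain ⟨x, hx, rfl⟩ := mem_image.mp hy
        exact (hmem x hx).2.2.1)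
    rw [card_image_of_injOn hinj] at hc
    calc ((F.filter (fun x => cn1_key x = (ρ, iM, iA, iG, iV, iW))).card : ℝ) ≤
          C₁ * (N : ℝ) ^ (1 + ε / 8) / ρ := hc
      _ = C₁ * (N : ℝ) ^ (1 + ε / 8) * (1 / (ρ : ℝ)) := by ring
  have hsum : (F.card : ℝ) = ∑ k ∈ keys, ((F.filter (fun x => cn1_key x = k)).card : ℝ) := by
    rw [card_eq_sum_card_fiberwise hmaps]
    push_cast
    rfl
  have hkeysum : ∑ k ∈ keys, (1 / (k.1 : ℝ)) = (L : ℝ) ^ 5 * ∑ ρ ∈ Icc 1 (2 * N), 1 / (ρ : ℝ) := by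
    rw [hkeys, sum_product, mul_sum]
    refine sum_congr rfl fun ρ _ => ?_
    change ∑ _y ∈ range L ×ˢ range L ×ˢ range L ×ˢ range L ×ˢ range L, (1 / (ρ : ℝ)) = _
    rw [sum_const, nsmul_eq_mul]
    congr 1
    simp only [card_product, card_range]
    push_cast
    ring
  rw [hsum]
  calc ∑ k ∈ keys, ((F.filter (fun x => cn1_key x = k)).card : ℝ) ≤
        ∑ k ∈ keys, C₁ * (N : ℝ) ^ (1 + ε / 8) * (1 / (k.1 : ℝ)) := sum_le_sum hfib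
    _ = C₁ * (N : ℝ) ^ (1 + ε / 8) * ((L : ℝ) ^ 5 * ∑ ρ ∈ Icc 1 (2 * N), 1 / (ρ : ℝ)) := by
        rw [← mul_sum, hkeysum]
    _ ≤ C₁ * (N : ℝ) ^ (1 + ε / 8) * ((c₂ * (N : ℝ) ^ (ε / 8)) ^ 5 * (c₃ * (N : ℝ) ^ (ε / 8))) := by
        have h2 := H2 N hN
        have h3 := H3 N hN
        have h0 : (0 : ℝ) ≤ ∑ ρ ∈ Icc 1 (2 * N), 1 / (ρ : ℝ) := sum_nonneg fun _ _ => by positivity
        gcongr
    _ = C₁ * c₂ ^ 5 * c₃ * ((N : ℝ) ^ (1 + ε / 8) * ((N : ℝ) ^ (ε / 8)) ^ 6) := by ring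
    _ = C₁ * c₂ ^ 5 * c₃ * (N : ℝ) ^ (1 + ε / 8 + ε / 8 * 6) := by
        congr 1
        rw [← Real.rpow_natCast, ← Real.rpow_mul hN0.le, ← Real.rpow_add hN0]
        norm_num
    _ ≤ C₁ * c₂ ^ 5 * c₃ * (N : ℝ) ^ (1 + ε) := by
        apply mul_le_mul_of_nonneg_left _ (by positivity)
        exact Real.rpow_le_rpow_of_exponent_le hN1 (by linarith)

end Pool.Agent.T2h80.F5
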