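import Pool.Agent.T2h80.F5.Stm

set_option autoImplicit false

/-!
# Task CN2 of project F5
-/

namespace Pool.Agent.T2h80.F5

open Finset

/-- every positive `g` is `g₁ w` with `g₁` prime to `n` and all primes of `w` dividing `n` -/
theorem cn2_split (n : ℕ) (hn : n ≠ 0) : ∀ g : ℕ, 0 < g → ∃ g₁ w : ℕ, g = g₁ * w ∧ g₁.Coprime n ∧ 0 < w ∧
    w.primeFactors ⊆ n.primeFactors := by
  intro g
  induction g using Nat.strong_induction_on with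
  | _ g ih =>
    intro hg
    by_cases h : g.Coprime n
    · exact ⟨g, 1, by simp, h, one_pos, by simp⟩
    · obtain ⟨p, hp, hpg, hpn⟩ := Nat.Prime.not_coprime_iff_dvd.mp h
      obtain ⟨g', rfl⟩ := hpg
      have hg' : 0 < g' := Nat.pos_of_mul_pos_left hg
      obtain ⟨g₁, w, h1, h2, h3, h4⟩ := ih g' (by
        have := hp.two_le
        nlinarith) hg'
      refine ⟨g₁, p * w, by rw [h1]; ring, h2, Nat.mul_pos hp.pos h3, ?_⟩
      intro q hq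
      have hq' := Nat.mem_primeFactors.mp hq
      rcases (hq'.1.dvd_mul).mp hq'.2.1 with h | h
      · rw [(Nat.prime_dvd_prime_iff_eq hq'.1 hp).mp h]
        exact Nat.mem_primeFactors.mpr ⟨hp, hpn, hn⟩
      · exact h4 (Nat.mem_primeFactors.mpr ⟨hq'.1, h, h3.ne'⟩)

/-- `Good` is inherited by the divisors of `g` -/
theorem good_dvd {N ρ m a g g₁ v w : ℕ} {s t : ℤ} (h : Good N ρ m a g v w s t) (hd : g₁ ∣ g) :
    Good N ρ m a g₁ v w s t := by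
  obtain ⟨h1, h2, h3, h4, h5, h6, h7, h8, h9, h10, h11, ⟨e, f, k1, k2, k3, k4, k5, k6⟩, h13, h14, h15, h16,
    h17, h18⟩ := h
  have hz : (g₁ : ℤ) ∣ g := by exact_mod_cast hd
  have hle : g₁ ≤ g := Nat.le_of_dvd h4 hd
  refine ⟨h1, h2, h3, Nat.pos_of_dvd_of_pos hd h4, h5, h6, h7, Nat.Coprime.coprime_dvd_left hd h8, h9, h10,
    h11, ⟨e, f, k1.of_isCoprime_of_dvd_right hz, k2.of_isCoprime_of_dvd_right hz, hz.trans k3, hz.trans k4,
    hz.trans k5, hz.trans k6⟩, ?_, ?_, h15, h16, h17, h18⟩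
  · refine le_trans ?_ h13
    gcongr
  · refine le_trans ?_ h14
    gcongr

/-- sizes -/
theorem good_size {N ρ m a g v w : ℕ} {s t : ℤ} (hN : 1 ≤ N) (h : Good N ρ m a g v w s t) :
    ρ ≤ 2 * N ∧ m ≤ 2 * N ∧ a ≤ 2 * N ∧ g ≤ 16 * N ∧ v ≤ 16 * N ∧ w ≤ 16 * N := by
  obtain ⟨h1, h2, h3, h4, h5, h6, h7, h8, h9, h10, h11, h12, h13, h14, h15, h16, h17, h18⟩ := h
  have sq : ∀ x : ℕ, x ≤ x ^ 2 := fun x => by nlinarith [Nat.zero_le x, sq_nonneg ((x : ℤ))]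
  have e1 : ρ * m ≤ 2 * N := (sq _).trans h15
  have e2 : ρ * a ≤ 2 * N := (sq _).trans h16
  have e3 : ρ ≤ ρ * m := Nat.le_mul_of_pos_right _ h2
  have e4 : m ≤ ρ * m := Nat.le_mul_of_pos_left _ h1
  have e5 : a ≤ ρ * a := Nat.le_mul_of_pos_left _ h1
  have e6 : ρ * m ^ 2 * a ≤ 2 * N * (2 * N) := by
    calc ρ * m ^ 2 * a ≤ (ρ * m) ^ 2 * a := by
          have : ρ * m ^ 2 ≤ (ρ * m) ^ 2 := by
            rw [mul_pow]; exact Nat.mul_le_mul_right _ (sq _)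
          exact Nat.mul_le_mul_right _ this
      _ ≤ 2 * N * (2 * N) := Nat.mul_le_mul h15 (by omega)
  have e7 : ρ * a ^ 2 * m ≤ 2 * N * (2 * N) := by
    calc ρ * a ^ 2 * m ≤ (ρ * a) ^ 2 * m := by
          have : ρ * a ^ 2 ≤ (ρ * a) ^ 2 := by
            rw [mul_pow]; exact Nat.mul_le_mul_right _ (sq _)
          exact Nat.mul_le_mul_right _ this
      _ ≤ 2 * N * (2 * N) := Nat.mul_le_mul h16 (by omega)
  have e8 : g ^ 2 * v ^ 2 ≤ 16 * N := by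
    have : N * (g ^ 2 * v ^ 2) ≤ N * (16 * N) := by
      calc N * (g ^ 2 * v ^ 2) = N * g ^ 2 * v ^ 2 := by ring
        _ ≤ 4 * ρ * m ^ 2 * a := h13
        _ = 4 * (ρ * m ^ 2 * a) := by ring
        _ ≤ 4 * (2 * N * (2 * N)) := Nat.mul_le_mul_left _ e6
        _ = N * (16 * N) := by ring
    exact Nat.le_of_mul_le_mul_left this hN
  have e9 : g ^ 2 * w ^ 2 ≤ 16 * N := by
    have : N * (g ^ 2 * w ^ 2) ≤ N * (16 * N) := by
      calc N * (g ^ 2 * w ^ 2) = N * g ^ 2 * w ^ 2 := by ring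
        _ ≤ 4 * ρ * a ^ 2 * m := h14
        _ = 4 * (ρ * a ^ 2 * m) := by ring
        _ ≤ 4 * (2 * N * (2 * N)) := Nat.mul_le_mul_left _ e7
        _ = N * (16 * N) := by ring
    exact Nat.le_of_mul_le_mul_left this hN
  refine ⟨by omega, by omega, by omega, ?_, ?_, ?_⟩
  · calc g ≤ g ^ 2 := sq g
      _ ≤ g ^ 2 * v ^ 2 := Nat.le_mul_of_pos_right _ (by positivity)
      _ ≤ 16 * N := e8
  · calc v ≤ v ^ 2 := sq v
      _ ≤ g ^ 2 * v ^ 2 := Nat.le_mul_of_pos_left _ (by positivity)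
      _ ≤ 16 * N := e8
  · calc w ≤ w ^ 2 := sq w
      _ ≤ g ^ 2 * w ^ 2 := Nat.le_mul_of_pos_left _ (by positivity)
      _ ≤ 16 * N := e9

/-- **CN2.** -/
theorem t_CN2 (hCN1 : S_CN1) (hSMO : S_SMO) : S_CN2 := by
  classical
  intro ε hε
  obtain ⟨C₁, hC₁, H1⟩ := hCN1 (ε / 4) (by positivity)
  obtain ⟨C₂, hC₂, H2⟩ := hSMO (ε / 4) (by positivity)
  refine ⟨C₁ * (C₂ * (4096 : ℝ) ^ (ε / 4)), by positivity, ?_⟩
  intro N hN F hF
  have hN0 : (0 : ℝ) < N := by exact_mod_cast hN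
  -- the splitting
  have hsp : ∀ g v w : ℕ, ∃ p : ℕ × ℕ, 0 < g → 0 < v → 0 < w → g = p.1 * p.2 ∧ p.1.Coprime (v * w) ∧
      0 < p.2 ∧ p.2.primeFactors ⊆ (v * w).primeFactors := by
    intro g v w
    by_cases h : 0 < g ∧ 0 < v ∧ 0 < w
    · obtain ⟨g₁, w', k1, k2, k3, k4⟩ := cn2_split (v * w) (Nat.mul_pos h.2.1 h.2.2).ne' g h.1
      exact ⟨(g₁, w'), fun _ _ _ => ⟨k1, k2, k3, k4⟩⟩
    · exact ⟨(0, 0), fun h1 h2 h3 => absurd ⟨h1, h2, h3⟩ h⟩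
  choose P hP using hsp
  set Φ : ℕ × ℕ × ℕ × ℕ × ℕ × ℕ × ℤ × ℤ → ℕ × ℕ × ℕ × ℕ × ℕ × ℕ × ℤ × ℤ := fun x =>
    (x.1, x.2.1, x.2.2.1, (P x.2.2.2.1 x.2.2.2.2.1 x.2.2.2.2.2.1).1, x.2.2.2.2.1, x.2.2.2.2.2.1,
      x.2.2.2.2.2.2.1, x.2.2.2.2.2.2.2) with hΦ
  have hF' : ∀ x ∈ F, Good N x.1 x.2.1 x.2.2.1 x.2.2.2.1 x.2.2.2.2.1 x.2.2.2.2.2.1 x.2.2.2.2.2.2.1
      x.2.2.2.2.2.2.2 ∧ x.2.1 * x.2.2.2.2.2.1 ^ 2 ≤ x.2.2.1 * x.2.2.2.2.1 ^ 2 := by
    rintro ⟨ρ, m, a, g, v, w, s, t⟩ hx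
    exact hF _ hx
  have hcard1 : ((F.image Φ).card : ℝ) ≤ C₁ * (N : ℝ) ^ (1 + ε / 4) := by
    apply H1 N hN
    intro y hy
    obtain ⟨x, hx, rfl⟩ := mem_image.mp hy
    obtain ⟨ρ, m, a, g, v, w, s, t⟩ := x
    obtain ⟨h1, h2⟩ := hF _ hx
    have h4 : 0 < g := h1.2.2.2.1
    have h5 : 0 < v := h1.2.2.2.2.1
    have h6 : 0 < w := h1.2.2.2.2.2.1
    obtain ⟨k1, k2, k3, k4⟩ := hP g v w h4 h5 h6
    exact ⟨good_dvd h1 (Dvd.intro _ k1.symm), h2, k2⟩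
  have hfib : ∀ y ∈ F.image Φ, ((F.filter (fun x => Φ x = y)).card : ℝ) ≤
      C₂ * ((4096 : ℝ) ^ (ε / 4) * (N : ℝ) ^ (3 * (ε / 4))) := by
    intro y hy
    obtain ⟨x₀, hx₀, hxy⟩ := mem_image.mp hy
    have hg₀ := hF' x₀ hx₀
    set v := x₀.2.2.2.2.1 with hv
    set w := x₀.2.2.2.2.2.1 with hw
    have hv0 : 0 < v := hg₀.1.2.2.2.2.1
    have hw0 : 0 < w := hg₀.1.2.2.2.2.2.1
    have hsz := good_size hN hg₀.1
    have hinj : (F.filter (fun x => Φ x = y)).card ≤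
        ((Icc 1 (16 * N)).filter (fun u => u.primeFactors ⊆ (v * w).primeFactors)).card := by
      apply card_le_card_of_injOn (fun x => (P x.2.2.2.1 v w).2)
      · intro x hx
        have hx' := mem_filter.mp (mem_coe.mp hx)
        have hgx := hF' x hx'.1
        have hΦx : Φ x = Φ x₀ := hx'.2.trans hxy.symm
        have e1 : x.2.2.2.2.1 = v := congrArg (fun z => z.2.2.2.2.1) hΦx
        have e2 : x.2.2.2.2.2.1 = w := congrArg (fun z => z.2.2.2.2.2.1) hΦx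
        obtain ⟨k1, k2, k3, k4⟩ := hP x.2.2.2.1 v w hgx.1.2.2.2.1 hv0 hw0
        have hszx := good_size hN hgx.1
        rw [mem_coe, mem_filter, mem_Icc]
        refine ⟨⟨k3, ?_⟩, k4⟩
        refine le_trans ?_ hszx.2.2.2.1
        exact Nat.le_of_dvd hgx.1.2.2.2.1 (Dvd.intro_left _ k1.symm)
      · intro x hx x' hx' hxx'
        have hx1 := mem_filter.mp (mem_coe.mp hx)
        have hx1' := mem_filter.mp (mem_coe.mp hx')
        have hgx := hF' x hx1.1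
        have hgx' := hF' x' hx1'.1
        have hΦx : Φ x = Φ x₀ := hx1.2.trans hxy.symm
        have hΦx' : Φ x' = Φ x₀ := hx1'.2.trans hxy.symm
        have e1 : x.2.2.2.2.1 = v := congrArg (fun z => z.2.2.2.2.1) hΦx
        have e2 : x.2.2.2.2.2.1 = w := congrArg (fun z => z.2.2.2.2.2.1) hΦx
        have e1' : x'.2.2.2.2.1 = v := congrArg (fun z => z.2.2.2.2.1) hΦx'
        have e2' : x'.2.2.2.2.2.1 = w := congrArg (fun z => z.2.2.2.2.2.1) hΦx'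
        have hΦxx : Φ x = Φ x' := hΦx.trans hΦx'.symm
        have k := (hP x.2.2.2.1 v w hgx.1.2.2.2.1 hv0 hw0).1
        have k' := (hP x'.2.2.2.1 v w hgx'.1.2.2.2.1 hv0 hw0).1
        have e3 : (P x.2.2.2.1 x.2.2.2.2.1 x.2.2.2.2.2.1).1 = (P x'.2.2.2.1 x'.2.2.2.2.1 x'.2.2.2.2.2.1).1 :=
          congrArg (fun z => z.2.2.2.1) hΦxx
        rw [e1, e2, e1', e2'] at e3
        have e4 : (P x.2.2.2.1 v w).2 = (P x'.2.2.2.1 v w).2 := hxx'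
        have e5 : x.2.2.2.1 = x'.2.2.2.1 := by rw [k, k', e3, e4]
        have f1 : x.1 = x'.1 := congrArg (fun z => z.1) hΦxx
        have f2 : x.2.1 = x'.2.1 := congrArg (fun z => z.2.1) hΦxx
        have f3 : x.2.2.1 = x'.2.2.1 := congrArg (fun z => z.2.2.1) hΦxx
        have f4 : x.2.2.2.2.2.2.1 = x'.2.2.2.2.2.2.1 := congrArg (fun z => z.2.2.2.2.2.2.1) hΦxx
        have f5 : x.2.2.2.2.2.2.2 = x'.2.2.2.2.2.2.2 := congrArg (fun z => z.2.2.2.2.2.2.2) hΦxx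
        refine Prod.ext f1 (Prod.ext f2 (Prod.ext f3 (Prod.ext e5 (Prod.ext (e1.trans e1'.symm)
          (Prod.ext (e2.trans e2'.symm) (Prod.ext f4 f5))))))
    calc ((F.filter (fun x => Φ x = y)).card : ℝ) ≤
          (((Icc 1 (16 * N)).filter (fun u => u.primeFactors ⊆ (v * w).primeFactors)).card : ℝ) := by
            exact_mod_cast hinj
      _ ≤ C₂ * (((v * w : ℕ) : ℝ) * ((16 * N : ℕ) : ℝ)) ^ (ε / 4) := by
          have := H2 (v * w) (16 * N) (Nat.mul_pos hv0 hw0) (by omega)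
          exact this
      _ ≤ C₂ * ((4096 : ℝ) * (N : ℝ) ^ (3 : ℕ)) ^ (ε / 4) := by
          apply mul_le_mul_of_nonneg_left _ hC₂.le
          apply Real.rpow_le_rpow (by positivity) _ (by positivity)
          have h1 : (v * w : ℕ) * (16 * N) ≤ 4096 * N ^ 3 := by
            calc (v * w) * (16 * N) ≤ ((16 * N) * (16 * N)) * (16 * N) :=
                  Nat.mul_le_mul_right _ (Nat.mul_le_mul hsz.2.2.2.2.1 hsz.2.2.2.2.2)
              _ = 4096 * N ^ 3 := by ring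
          exact_mod_cast h1
      _ = C₂ * ((4096 : ℝ) ^ (ε / 4) * (N : ℝ) ^ (3 * (ε / 4))) := by
          rw [Real.mul_rpow (by norm_num) (by positivity), ← Real.rpow_natCast, ← Real.rpow_mul hN0.le]
          norm_num
  have hsum : (F.card : ℝ) = ∑ y ∈ F.image Φ, ((F.filter (fun x => Φ x = y)).card : ℝ) := by
    rw [card_eq_sum_card_image Φ F]
    push_cast
    rfl
  rw [hsum]
  calc ∑ y ∈ F.image Φ, ((F.filter (fun x => Φ x = y)).card : ℝ) ≤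
        ∑ y ∈ F.image Φ, C₂ * ((4096 : ℝ) ^ (ε / 4) * (N : ℝ) ^ (3 * (ε / 4))) := sum_le_sum hfib
    _ = ((F.image Φ).card : ℝ) * (C₂ * ((4096 : ℝ) ^ (ε / 4) * (N : ℝ) ^ (3 * (ε / 4)))) := by
        rw [sum_const, nsmul_eq_mul]
    _ ≤ (C₁ * (N : ℝ) ^ (1 + ε / 4)) * (C₂ * ((4096 : ℝ) ^ (ε / 4) * (N : ℝ) ^ (3 * (ε / 4)))) :=
        mul_le_mul_of_nonneg_right hcard1 (by positivity)
    _ = C₁ * (C₂ * (4096 : ℝ) ^ (ε / 4)) * ((N : ℝ) ^ (1 + ε / 4) * (N : ℝ) ^ (3 * (ε / 4))) := by ring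
    _ = C₁ * (C₂ * (4096 : ℝ) ^ (ε / 4)) * (N : ℝ) ^ (1 + ε) := by
        rw [← Real.rpow_add hN0]
        congr 2
        ring

end Pool.Agent.T2h80.F5
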