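import Pool.Agent.T2h80.F5.Stm

set_option autoImplicit false

namespace Pool.Agent.T2h80.F5

open Finset NumberField

theorem good_swap {N ρ m a g v w : ℕ} {s t : ℤ} (h : Good N ρ m a g v w s t) :
    Good N ρ a m g w v t (-s) := by
  obtain ⟨h1, h2, h3, h4, h5, h6, h7, h8, h9, h10, h11, ⟨e, f, he, hf, k1, k2, k3, k4⟩, h12, h13, h14,
    h15, h16, h17⟩ := h
  refine ⟨h1, h3, h2, h4, h6, h5, h7.symm, h8, by linear_combination -h9, ?_, h10, ?_, ?_, ?_, h15,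
    h14, ?_, ?_⟩
  · have : (ρ : ℤ) * (-s) ^ 2 - m * v ^ 2 = ρ * s ^ 2 - m * v ^ 2 := by ring
    rw [this]; exact h11
  · refine ⟨f, -e, hf, (IsCoprime.neg_left_iff e (g : ℤ)).2 he, ?_, k1, ?_, ?_⟩
    · have : (ρ : ℤ) * a - (-e) ^ 2 = ρ * a - e ^ 2 := by ring
      rw [this]; exact k2
    · have : (ρ : ℤ) * f * t - -e * (-e * v + f * w) = ρ * f * t - e * (e * v - f * w) := by ring
      rw [this]; exact k4
    · have : (ρ : ℤ) * -e * -s - f * (f * w - -e * v) = ρ * e * s - f * (f * w + e * v) := by ring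
      rw [this]; exact k3
  · linarith
  · linarith
  · linarith
  · have : (ρ : ℤ) * a * (-s) ^ 2 = ρ * a * s ^ 2 := by ring
    rw [this]; linarith

theorem t_CNT (hCN2 : S_CN2) : S_CNT := by
  classical
  intro ε hε
  obtain ⟨C₁, hC₁, h1⟩ := hCN2 ε hε
  refine ⟨2 * C₁, by positivity, fun N hN F hF => ?_⟩
  set P : ℕ × ℕ × ℕ × ℕ × ℕ × ℕ × ℤ × ℤ → Prop := fun x =>
    x.2.1 * x.2.2.2.2.2.1 ^ 2 ≤ x.2.2.1 * x.2.2.2.2.1 ^ 2 with hP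
  set F₁ := F.filter P with hF₁
  set F₂ := F.filter (fun x => ¬ P x) with hF₂
  have hc : F.card = F₁.card + F₂.card := by
    rw [hF₁, hF₂, Finset.card_filter_add_card_filter_not]
  have e1 : (F₁.card : ℝ) ≤ C₁ * (N : ℝ) ^ (1 + ε) := by
    apply h1 N hN
    rintro ⟨ρ, m, a, g, v, w, s, t⟩ hx
    rw [hF₁, mem_filter] at hx
    exact ⟨hF _ hx.1, hx.2⟩
  set Ψ : ℕ × ℕ × ℕ × ℕ × ℕ × ℕ × ℤ × ℤ → ℕ × ℕ × ℕ × ℕ × ℕ × ℕ × ℤ × ℤ := fun x =>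
    (x.1, x.2.2.1, x.2.1, x.2.2.2.1, x.2.2.2.2.2.1, x.2.2.2.2.1, x.2.2.2.2.2.2.2,
      - x.2.2.2.2.2.2.1) with hΨ
  have e2 : (F₂.card : ℝ) ≤ C₁ * (N : ℝ) ^ (1 + ε) := by
    have : (F₂.image Ψ).card = F₂.card := by
      apply Finset.card_image_of_injOn
      rintro ⟨ρ, m, a, g, v, w, s, t⟩ - ⟨ρ', m', a', g', v', w', s', t'⟩ - h
      simp only [hΨ, Prod.mk.injEq, neg_inj] at h
      obtain ⟨h1, h2, h3, h4, h5, h6, h7, h8⟩ := h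
      simp only [Prod.mk.injEq]
      exact ⟨h1, h3, h2, h4, h6, h5, h8, h7⟩
    rw [← this]
    apply h1 N hN
    intro y hy
    obtain ⟨⟨ρ, m, a, g, v, w, s, t⟩, hx, rfl⟩ := mem_image.1 hy
    rw [hF₂, mem_filter] at hx
    have hg := hF _ hx.1
    have hn : ¬ (m * w ^ 2 ≤ a * v ^ 2) := hx.2
    exact ⟨good_swap hg, by omega⟩
  rw [hc]
  push_cast
  linarith

end Pool.Agent.T2h80.F5
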