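import Pool.Agent.T2h80.F5.Stm

set_option autoImplicit false
set_option linter.all false

/-! # CON: the sum of the contents (helper60) -/

namespace Pool.Agent.T2h80.F5

open Finset

namespace CON

/-- multiples of `c` in `[-K, K]` -/
noncomputable def Da (c K : ℕ) : Finset ℤ := (Icc (-(K : ℤ)) K).filter (fun x => (c : ℤ) ∣ x)

/-- non-zero multiples of `c` in `[-K, K]` -/
noncomputable def Db (c K : ℕ) : Finset ℤ := (Da c K).filter (fun x => x ≠ 0)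

lemma Da_card (c K : ℕ) : ((Da c K).card : ℝ) ≤ 2 * (1 + K) := by
  have h1 : (Da c K).card ≤ (Icc (-(K : ℤ)) K).card := Finset.card_filter_le _ _
  rw [Int.card_Icc] at h1
  have h2 : ((K : ℤ) + 1 - -(K : ℤ)).toNat = 2 * K + 1 := by omega
  rw [h2] at h1
  have h3 : ((Da c K).card : ℝ) ≤ ((2 * K + 1 : ℕ) : ℝ) := by exact_mod_cast h1
  push_cast at h3
  linarith

lemma Db_card {c : ℕ} (hc : 0 < c) (K : ℕ) : ((Db c K).card : ℝ) ≤ 2 * (1 + K) / c := by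
  have h1 : Db c K ⊆ ((Icc (-((K / c : ℕ) : ℤ)) ((K / c : ℕ) : ℤ)).erase 0).image
      (fun x => (c : ℤ) * x) := by
    intro x hx
    unfold Db Da at hx
    rw [Finset.mem_filter, Finset.mem_filter, Finset.mem_Icc] at hx
    obtain ⟨⟨⟨h2, h3⟩, y, rfl⟩, h4⟩ := hx
    have hc' : (0 : ℤ) < c := by exact_mod_cast hc
    rw [Finset.mem_image]
    refine ⟨y, ?_, rfl⟩
    rw [Finset.mem_erase, Finset.mem_Icc]
    refine ⟨fun h => h4 (by rw [h, mul_zero]), ?_, ?_⟩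
    · have h5 : -y ≤ (K : ℤ) / c := by
        rw [Int.le_ediv_iff_mul_le hc']
        linarith [mul_comm y (c : ℤ)]
      push_cast
      linarith
    · have h5 : y ≤ (K : ℤ) / c := by
        rw [Int.le_ediv_iff_mul_le hc']
        linarith [mul_comm y (c : ℤ)]
      push_cast
      exact h5
  have h2 := (Finset.card_le_card h1).trans Finset.card_image_le
  have h0 : (0 : ℤ) ≤ ((K / c : ℕ) : ℤ) := Int.natCast_nonneg _
  rw [Finset.card_erase_of_mem (Finset.mem_Icc.2 ⟨neg_nonpos.2 h0, h0⟩), Int.card_Icc] at h2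
  have h3 : (((K / c : ℕ) : ℤ) + 1 - -((K / c : ℕ) : ℤ)).toNat - 1 = 2 * (K / c) := by omega
  rw [h3] at h2
  have h4 : ((Db c K).card : ℝ) ≤ 2 * ((K / c : ℕ) : ℝ) := by exact_mod_cast h2
  have h5 : ((K / c : ℕ) : ℝ) ≤ (K : ℝ) / c := Nat.cast_div_le
  have hcR : (0 : ℝ) < c := by exact_mod_cast hc
  calc ((Db c K).card : ℝ) ≤ 2 * ((K : ℝ) / c) := by linarith
    _ = 2 * K / c := by ring
    _ ≤ 2 * (1 + K) / c := by
      gcongr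
      linarith

/-- non-zero resultant implies that two coordinates are not zero -/
lemma two_ne {k l j r : ℤ} (h : RS k l j r ≠ 0) : (k ≠ 0 ∧ l ≠ 0) ∨ (k ≠ 0 ∧ j ≠ 0) ∨
    (k ≠ 0 ∧ r ≠ 0) ∨ (l ≠ 0 ∧ j ≠ 0) ∨ (l ≠ 0 ∧ r ≠ 0) ∨ (j ≠ 0 ∧ r ≠ 0) := by
  by_contra hc
  push Not at hc
  obtain ⟨h1, h2, h3, h4, h5, h6⟩ := hc
  apply h
  unfold RS
  by_cases hk : k = 0
  · by_cases hl : l = 0
    · rw [hk, hl]
      ring
    · rw [hk, h4 hl, h5 hl]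
      ring
  · rw [h1 hk, h2 hk, h3 hk]
    ring

lemma prod_bound {c : ℕ} (hc : 0 < c) (A1 A2 A3 A4 : ℕ) (T : Finset (ℤ × ℤ × ℤ × ℤ))
    (K L J R : ℕ) (hcard : T.card ≤ A1 * A2 * A3 * A4) {x1 x2 x3 x4 : ℝ}
    (h1 : (A1 : ℝ) ≤ x1) (h2 : (A2 : ℝ) ≤ x2) (h3 : (A3 : ℝ) ≤ x3) (h4 : (A4 : ℝ) ≤ x4) :
    (T.card : ℝ) ≤ x1 * x2 * x3 * x4 := by
  have h5 : (T.card : ℝ) ≤ (A1 : ℝ) * A2 * A3 * A4 := by exact_mod_cast hcard
  have p1 : (0 : ℝ) ≤ A1 := Nat.cast_nonneg _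
  have p2 : (0 : ℝ) ≤ A2 := Nat.cast_nonneg _
  have p3 : (0 : ℝ) ≤ A3 := Nat.cast_nonneg _
  have p4 : (0 : ℝ) ≤ A4 := Nat.cast_nonneg _
  refine h5.trans ?_
  gcongr
  · exact mul_nonneg (mul_nonneg (p1.trans h1) (p2.trans h2)) (p3.trans h3)
  · exact mul_nonneg (p1.trans h1) (p2.trans h2)
  · exact p1.trans h1

lemma count {c : ℕ} (hc : 0 < c) (K L J R : ℕ) :
    ((((BX K L J R).filter (fun x => RS x.1 x.2.1 x.2.2.1 x.2.2.2 ≠ 0)).filter (fun x =>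
      (c : ℤ) ∣ x.1 ∧ (c : ℤ) ∣ x.2.1 ∧ (c : ℤ) ∣ x.2.2.1 ∧ (c : ℤ) ∣ x.2.2.2)).card : ℝ) ≤
    96 / (c : ℝ) ^ 2 * ((1 + K) * (1 + L) * (1 + J) * (1 + R)) := by
  classical
  have hsub : (((BX K L J R).filter (fun x => RS x.1 x.2.1 x.2.2.1 x.2.2.2 ≠ 0)).filter (fun x =>
      (c : ℤ) ∣ x.1 ∧ (c : ℤ) ∣ x.2.1 ∧ (c : ℤ) ∣ x.2.2.1 ∧ (c : ℤ) ∣ x.2.2.2)) ⊆
      (Db c K ×ˢ Db c L ×ˢ Da c J ×ˢ Da c R) ∪ (Db c K ×ˢ Da c L ×ˢ Db c J ×ˢ Da c R) ∪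
      (Db c K ×ˢ Da c L ×ˢ Da c J ×ˢ Db c R) ∪ (Da c K ×ˢ Db c L ×ˢ Db c J ×ˢ Da c R) ∪
      (Da c K ×ˢ Db c L ×ˢ Da c J ×ˢ Db c R) ∪ (Da c K ×ˢ Da c L ×ˢ Db c J ×ˢ Db c R) := by
    rintro ⟨k, l, j, r⟩ hx
    simp only [BX, Finset.mem_filter, Finset.mem_product] at hx
    obtain ⟨⟨⟨h1, h2, h3, h4⟩, h5⟩, h6, h7, h8, h9⟩ := hx
    simp only [Finset.mem_union, Finset.mem_product, Db, Da, Finset.mem_filter]
    rcases two_ne h5 with h | h | h | h | h | h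
    · simp only [h1, h2, h3, h4, h6, h7, h8, h9, h.1, h.2, true_and, and_true, ne_eq,
        not_false_eq_true, true_or]
    · simp only [h1, h2, h3, h4, h6, h7, h8, h9, h.1, h.2, true_and, and_true, ne_eq,
        not_false_eq_true, true_or, or_true]
    · simp only [h1, h2, h3, h4, h6, h7, h8, h9, h.1, h.2, true_and, and_true, ne_eq,
        not_false_eq_true, true_or, or_true]
    · simp only [h1, h2, h3, h4, h6, h7, h8, h9, h.1, h.2, true_and, and_true, ne_eq,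
        not_false_eq_true, true_or, or_true]
    · simp only [h1, h2, h3, h4, h6, h7, h8, h9, h.1, h.2, true_and, and_true, ne_eq,
        not_false_eq_true, true_or, or_true]
    · simp only [h1, h2, h3, h4, h6, h7, h8, h9, h.1, h.2, true_and, and_true, ne_eq,
        not_false_eq_true, true_or, or_true]
  have hcR : (0 : ℝ) < c := by exact_mod_cast hc
  have a1 := Da_card c K
  have a2 := Da_card c L
  have a3 := Da_card c J
  have a4 := Da_card c R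
  have b1 := Db_card hc K
  have b2 := Db_card hc L
  have b3 := Db_card hc J
  have b4 := Db_card hc R
  have cp : ∀ S1 S2 S3 S4 : Finset ℤ, (S1 ×ˢ S2 ×ˢ S3 ×ˢ S4).card ≤
      S1.card * S2.card * S3.card * S4.card := by
    intro S1 S2 S3 S4
    rw [Finset.card_product, Finset.card_product, Finset.card_product]
    exact le_of_eq (by ring)
  have q1 := prod_bound hc _ _ _ _ _ K L J R (cp (Db c K) (Db c L) (Da c J) (Da c R)) b1 b2 a3 a4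
  have q2 := prod_bound hc _ _ _ _ _ K L J R (cp (Db c K) (Da c L) (Db c J) (Da c R)) b1 a2 b3 a4
  have q3 := prod_bound hc _ _ _ _ _ K L J R (cp (Db c K) (Da c L) (Da c J) (Db c R)) b1 a2 a3 b4
  have q4 := prod_bound hc _ _ _ _ _ K L J R (cp (Da c K) (Db c L) (Db c J) (Da c R)) a1 b2 b3 a4
  have q5 := prod_bound hc _ _ _ _ _ K L J R (cp (Da c K) (Db c L) (Da c J) (Db c R)) a1 b2 a3 b4
  have q6 := prod_bound hc _ _ _ _ _ K L J R (cp (Da c K) (Da c L) (Db c J) (Db c R)) a1 a2 b3 b4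
  have hle := Finset.card_le_card hsub
  have h1 := hle.trans ((Finset.card_union_le _ _).trans (Nat.add_le_add_right
    ((Finset.card_union_le _ _).trans (Nat.add_le_add_right ((Finset.card_union_le _ _).trans
    (Nat.add_le_add_right ((Finset.card_union_le _ _).trans (Nat.add_le_add_right
    (Finset.card_union_le _ _) _)) _)) _)) _))
  have h2 : ((((BX K L J R).filter (fun x => RS x.1 x.2.1 x.2.2.1 x.2.2.2 ≠ 0)).filter (fun x =>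
      (c : ℤ) ∣ x.1 ∧ (c : ℤ) ∣ x.2.1 ∧ (c : ℤ) ∣ x.2.2.1 ∧ (c : ℤ) ∣ x.2.2.2)).card : ℝ) ≤
      ((Db c K ×ˢ Db c L ×ˢ Da c J ×ˢ Da c R).card : ℝ) +
      ((Db c K ×ˢ Da c L ×ˢ Db c J ×ˢ Da c R).card : ℝ) +
      ((Db c K ×ˢ Da c L ×ˢ Da c J ×ˢ Db c R).card : ℝ) +
      ((Da c K ×ˢ Db c L ×ˢ Db c J ×ˢ Da c R).card : ℝ) +
      ((Da c K ×ˢ Db c L ×ˢ Da c J ×ˢ Db c R).card : ℝ) +
      ((Da c K ×ˢ Da c L ×ˢ Db c J ×ˢ Db c R).card : ℝ) := by exact_mod_cast h1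
  have e : (96 : ℝ) / (c : ℝ) ^ 2 * ((1 + K) * (1 + L) * (1 + J) * (1 + R)) =
      6 * (2 * (1 + K) / c * (2 * (1 + L) / c) * (2 * (1 + J)) * (2 * (1 + R))) := by
    field_simp
    ring
  rw [e]
  have r2 : 2 * (1 + (K : ℝ)) / c * (2 * (1 + L)) * (2 * (1 + J) / c) * (2 * (1 + R)) =
      2 * (1 + K) / c * (2 * (1 + L) / c) * (2 * (1 + J)) * (2 * (1 + R)) := by
    field_simp
  have r3 : 2 * (1 + (K : ℝ)) / c * (2 * (1 + L)) * (2 * (1 + J)) * (2 * (1 + R) / c) =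
      2 * (1 + K) / c * (2 * (1 + L) / c) * (2 * (1 + J)) * (2 * (1 + R)) := by
    field_simp
  have r4 : 2 * (1 + (K : ℝ)) * (2 * (1 + L) / c) * (2 * (1 + J) / c) * (2 * (1 + R)) =
      2 * (1 + K) / c * (2 * (1 + L) / c) * (2 * (1 + J)) * (2 * (1 + R)) := by
    field_simp
  have r5 : 2 * (1 + (K : ℝ)) * (2 * (1 + L) / c) * (2 * (1 + J)) * (2 * (1 + R) / c) =
      2 * (1 + K) / c * (2 * (1 + L) / c) * (2 * (1 + J)) * (2 * (1 + R)) := by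
    field_simp
  have r6 : 2 * (1 + (K : ℝ)) * (2 * (1 + L)) * (2 * (1 + J) / c) * (2 * (1 + R) / c) =
      2 * (1 + K) / c * (2 * (1 + L) / c) * (2 * (1 + J)) * (2 * (1 + R)) := by
    field_simp
  rw [r2] at q2
  rw [r3] at q3
  rw [r4] at q4
  rw [r5] at q5
  rw [r6] at q6
  linarith

/-- the content is between one and the sum of the sizes -/
lemma ct_bounds {K L J R : ℕ} {x : ℤ × ℤ × ℤ × ℤ} (hx : x ∈ BX K L J R)
    (h : RS x.1 x.2.1 x.2.2.1 x.2.2.2 ≠ 0) :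
    1 ≤ ct x.1 x.2.1 x.2.2.1 x.2.2.2 ∧ ct x.1 x.2.1 x.2.2.1 x.2.2.2 ≤ K + L + J + R := by
  obtain ⟨k, l, j, r⟩ := x
  simp only [BX, Finset.mem_product, Finset.mem_Icc] at hx h ⊢
  obtain ⟨h1, h2, h3, h4⟩ := hx
  have d1 : ct k l j r ∣ k.natAbs := (Nat.gcd_dvd_left _ _).trans (Nat.gcd_dvd_left _ _)
  have d2 : ct k l j r ∣ l.natAbs := (Nat.gcd_dvd_left _ _).trans (Nat.gcd_dvd_right _ _)
  have d3 : ct k l j r ∣ j.natAbs := (Nat.gcd_dvd_right _ _).trans (Nat.gcd_dvd_left _ _)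
  have hk : k ≠ 0 → 1 ≤ ct k l j r ∧ ct k l j r ≤ K + L + J + R := by
    intro hk
    have h5 : 0 < k.natAbs := Int.natAbs_pos.2 hk
    have h6 := Nat.le_of_dvd h5 d1
    exact ⟨Nat.pos_of_dvd_of_pos d1 h5, by omega⟩
  have hl : l ≠ 0 → 1 ≤ ct k l j r ∧ ct k l j r ≤ K + L + J + R := by
    intro hk
    have h5 : 0 < l.natAbs := Int.natAbs_pos.2 hk
    have h6 := Nat.le_of_dvd h5 d2
    exact ⟨Nat.pos_of_dvd_of_pos d2 h5, by omega⟩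
  have hj : j ≠ 0 → 1 ≤ ct k l j r ∧ ct k l j r ≤ K + L + J + R := by
    intro hk
    have h5 : 0 < j.natAbs := Int.natAbs_pos.2 hk
    have h6 := Nat.le_of_dvd h5 d3
    exact ⟨Nat.pos_of_dvd_of_pos d3 h5, by omega⟩
  rcases two_ne h with h5 | h5 | h5 | h5 | h5 | h5
  · exact hk h5.1
  · exact hk h5.1
  · exact hk h5.1
  · exact hl h5.1
  · exact hl h5.1
  · exact hj h5.1

end CON

open CON in
theorem t_CON : S_CON := by
  classical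
  refine ⟨96, by norm_num, fun K L J R => ?_⟩
  obtain ⟨S, hS⟩ : ∃ S : ℕ, S = K + L + J + R := ⟨_, rfl⟩
  obtain ⟨F, hF⟩ : ∃ F : Finset (ℤ × ℤ × ℤ × ℤ),
    F = (BX K L J R).filter (fun x => RS x.1 x.2.1 x.2.2.1 x.2.2.2 ≠ 0) := ⟨_, rfl⟩
  obtain ⟨PI, hPI⟩ : ∃ PI : ℝ, PI = (1 + K) * (1 + L) * (1 + J) * (1 + R) := ⟨_, rfl⟩
  have hPI0 : 0 ≤ PI := by
    rw [hPI]
    positivity
  rw [← hF, ← hPI]
  have h1 : ∀ x ∈ F, (ct x.1 x.2.1 x.2.2.1 x.2.2.2 : ℝ) ≤ ∑ c ∈ Icc 1 S,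
      (if (c : ℤ) ∣ x.1 ∧ (c : ℤ) ∣ x.2.1 ∧ (c : ℤ) ∣ x.2.2.1 ∧ (c : ℤ) ∣ x.2.2.2 then (c : ℝ)
        else 0) := by
    intro x hx
    rw [hF, Finset.mem_filter] at hx
    obtain ⟨h2, h3⟩ := ct_bounds hx.1 hx.2
    rw [← hS] at h3
    have h4 := Finset.single_le_sum (s := Icc 1 S) (f := fun c : ℕ =>
      (if (c : ℤ) ∣ x.1 ∧ (c : ℤ) ∣ x.2.1 ∧ (c : ℤ) ∣ x.2.2.1 ∧ (c : ℤ) ∣ x.2.2.2 then (c : ℝ)
        else 0)) (fun c _ => by
          split_ifs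
          · exact Nat.cast_nonneg c
          · exact le_rfl) (Finset.mem_Icc.2 ⟨h2, h3⟩)
    refine le_trans (le_of_eq ?_) h4
    rw [if_pos]
    refine ⟨Int.natCast_dvd.2 ?_, Int.natCast_dvd.2 ?_, Int.natCast_dvd.2 ?_, Int.natCast_dvd.2 ?_⟩
    · exact (Nat.gcd_dvd_left _ _).trans (Nat.gcd_dvd_left _ _)
    · exact (Nat.gcd_dvd_left _ _).trans (Nat.gcd_dvd_right _ _)
    · exact (Nat.gcd_dvd_right _ _).trans (Nat.gcd_dvd_left _ _)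
    · exact (Nat.gcd_dvd_right _ _).trans (Nat.gcd_dvd_right _ _)
  have h2 : ∀ c ∈ Icc 1 S, ∑ x ∈ F,
      (if (c : ℤ) ∣ x.1 ∧ (c : ℤ) ∣ x.2.1 ∧ (c : ℤ) ∣ x.2.2.1 ∧ (c : ℤ) ∣ x.2.2.2 then (c : ℝ)
        else 0) ≤ 96 * PI * (c : ℝ)⁻¹ := by
    intro c hc
    rw [Finset.mem_Icc] at hc
    have hc0 : 0 < c := hc.1
    have hcR : (0 : ℝ) < c := by exact_mod_cast hc0
    rw [← Finset.sum_filter, Finset.sum_const, nsmul_eq_mul]
    have h3 := count hc0 K L J R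
    rw [← hF, ← hPI] at h3
    calc _ ≤ 96 / (c : ℝ) ^ 2 * PI * c := mul_le_mul_of_nonneg_right h3 hcR.le
      _ = 96 * PI * (c : ℝ)⁻¹ := by
        field_simp
  have h3 : ∑ c ∈ Icc 1 S, (c : ℝ)⁻¹ ≤ 1 + Real.log (1 + S) := by
    have h4 := harmonic_le_one_add_log S
    rw [harmonic_eq_sum_Icc] at h4
    push_cast at h4
    refine h4.trans ?_
    rcases Nat.eq_zero_or_pos S with h5 | h5
    · rw [h5]
      simp
    · have h6 : Real.log (S : ℝ) ≤ Real.log (1 + S) :=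
        Real.log_le_log (by exact_mod_cast h5) (by linarith)
      linarith
  calc ∑ x ∈ F, (ct x.1 x.2.1 x.2.2.1 x.2.2.2 : ℝ)
      ≤ ∑ x ∈ F, ∑ c ∈ Icc 1 S,
        (if (c : ℤ) ∣ x.1 ∧ (c : ℤ) ∣ x.2.1 ∧ (c : ℤ) ∣ x.2.2.1 ∧ (c : ℤ) ∣ x.2.2.2 then (c : ℝ)
          else 0) := Finset.sum_le_sum h1
    _ = ∑ c ∈ Icc 1 S, ∑ x ∈ F,
        (if (c : ℤ) ∣ x.1 ∧ (c : ℤ) ∣ x.2.1 ∧ (c : ℤ) ∣ x.2.2.1 ∧ (c : ℤ) ∣ x.2.2.2 then (c : ℝ)
          else 0) := Finset.sum_comm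
    _ ≤ ∑ c ∈ Icc 1 S, 96 * PI * (c : ℝ)⁻¹ := Finset.sum_le_sum h2
    _ = 96 * PI * ∑ c ∈ Icc 1 S, (c : ℝ)⁻¹ := by rw [Finset.mul_sum]
    _ ≤ 96 * PI * (1 + Real.log (1 + S)) := mul_le_mul_of_nonneg_left h3 (by positivity)
    _ = 96 * (1 + Real.log (1 + K + L + J + R)) * PI := by
      rw [hS]
      push_cast
      have e : (1 : ℝ) + (K + L + J + R) = 1 + K + L + J + R := by ring
      rw [e]
      ring

end Pool.Agent.T2h80.F5
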