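import Mathlib

set_option autoImplicit false

/-!
# The average of the 5-torsion of the class groups of imaginary quadratic fields: statements

Target: `∑_{-X < D < 0 fundamental} |Cl(K_D)[5]| ≤ C X ^ (1 + ε)`.
-/

namespace Pool.Agent.T2h80.F5

open Finset NumberField

/-! ## The dual pair of binary cubic forms -/

/-- the first cubic form in `(v, w)` (it does not contain `k`) -/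
def G1 (_k l j r v w : ℤ) : ℤ := l * v ^ 3 - 2 * j * v ^ 2 * w - 5 * r * w ^ 3

/-- the second cubic form in `(v, w)` (it does not contain `r`) -/
def G2 (k l j _r v w : ℤ) : ℤ := 5 * k * v ^ 3 - 2 * l * v * w ^ 2 - j * w ^ 3

/-- the resultant of `G1` and `G2` -/
def RS (k l j r : ℤ) : ℤ :=
  15625 * k ^ 3 * r ^ 3 + 3125 * k ^ 2 * l * j * r ^ 2 + 375 * k * l ^ 2 * j ^ 2 * r +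
    40 * k * j ^ 5 - 40 * l ^ 5 * r - 5 * l ^ 3 * j ^ 3

/-- **RES.** -/
def S_RES : Prop := ∀ k l j r v w e : ℤ, IsCoprime v w → e ∣ G1 k l j r v w → e ∣ G2 k l j r v w →
  e ∣ RS k l j r

/-- **CUB.** the projective roots of a binary cubic form modulo `p` have at most three colours -/
def S_CUB : Prop := ∀ p : ℕ, p.Prime → ∀ c₀ c₁ c₂ c₃ : ℤ,
  ¬ ((p : ℤ) ∣ c₀ ∧ (p : ℤ) ∣ c₁ ∧ (p : ℤ) ∣ c₂ ∧ (p : ℤ) ∣ c₃) →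
  ∃ χ : ℤ × ℤ → Fin 3, ∀ x y : ℤ × ℤ, ¬ ((p : ℤ) ∣ x.1 ∧ (p : ℤ) ∣ x.2) →
    ¬ ((p : ℤ) ∣ y.1 ∧ (p : ℤ) ∣ y.2) →
    (p : ℤ) ∣ c₀ * x.1 ^ 3 + c₁ * x.1 ^ 2 * x.2 + c₂ * x.1 * x.2 ^ 2 + c₃ * x.2 ^ 3 →
    (p : ℤ) ∣ c₀ * y.1 ^ 3 + c₁ * y.1 ^ 2 * y.2 + c₂ * y.1 * y.2 ^ 2 + c₃ * y.2 ^ 3 →
    χ x = χ y → (p : ℤ) ∣ x.1 * y.2 - x.2 * y.1

/-- **SLO.** primitive vectors in a box all of whose determinants are divisible by `b` -/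
def S_SLO : Prop := ∀ b V W : ℕ, 0 < b → 0 < V → 0 < W → ∀ F : Finset (ℕ × ℕ),
  (∀ x ∈ F, V ≤ x.1 ∧ x.1 < 2 * V ∧ W ≤ x.2 ∧ x.2 < 2 * W ∧ x.1.Coprime x.2) →
  (∀ x ∈ F, ∀ y ∈ F, (b : ℤ) ∣ (x.1 : ℤ) * y.2 - x.2 * y.1) →
  F.card * b ≤ b + 6 * V * W

/-- the radical -/
def rad (n : ℕ) : ℕ := ∏ p ∈ n.primeFactors, p

/-- the content -/
def ct (k l j r : ℤ) : ℕ := Nat.gcd (Nat.gcd k.natAbs l.natAbs) (Nat.gcd j.natAbs r.natAbs)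

/-- **ROO.** (from CUB, SLO) -/
def S_ROO : Prop := ∀ k l j r : ℤ, ¬ (k = 0 ∧ l = 0 ∧ j = 0 ∧ r = 0) → ∀ e V W : ℕ,
  0 < e → 0 < V → 0 < W → ∀ F : Finset (ℕ × ℕ),
  (∀ x ∈ F, V ≤ x.1 ∧ x.1 < 2 * V ∧ W ≤ x.2 ∧ x.2 < 2 * W ∧ x.1.Coprime x.2 ∧
    (e : ℤ) ∣ G1 k l j r x.1 x.2 ∧ (e : ℤ) ∣ G2 k l j r x.1 x.2) →
  F.card * rad e ≤ 3 ^ e.primeFactors.card * (rad e + 60 * ct k l j r * V * W)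

/-- the box of coefficient vectors `(k, l, j, r)` -/
noncomputable def BX (K L J R : ℕ) : Finset (ℤ × ℤ × ℤ × ℤ) :=
  (Icc (-(K : ℤ)) K) ×ˢ (Icc (-(L : ℤ)) L) ×ˢ (Icc (-(J : ℤ)) J) ×ˢ (Icc (-(R : ℤ)) R)

/-- **DEG.** (from DIV) few coefficient vectors have resultant zero -/
def S_DEG : Prop := ∀ ε : ℝ, 0 < ε → ∃ C : ℝ, 0 < C ∧ ∀ Z : ℕ, 1 ≤ Z →
  (((BX Z Z Z Z).filter (fun x => RS x.1 x.2.1 x.2.2.1 x.2.2.2 = 0)).card : ℝ) ≤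
    C * (Z : ℝ) ^ (2 + ε)

/-- **CON.** the sum of the contents of the coefficient vectors with non-zero resultant -/
def S_CON : Prop := ∃ C : ℝ, 0 < C ∧ ∀ K L J R : ℕ,
  ∑ x ∈ (BX K L J R).filter (fun x => RS x.1 x.2.1 x.2.2.1 x.2.2.2 ≠ 0),
    (ct x.1 x.2.1 x.2.2.1 x.2.2.2 : ℝ) ≤
  C * (1 + Real.log (1 + K + L + J + R)) * ((1 + K) * (1 + L) * (1 + J) * (1 + R))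

/-- **SMO.** -/
def S_SMO : Prop := ∀ ε : ℝ, 0 < ε → ∃ C : ℝ, 0 < C ∧ ∀ n x : ℕ, 1 ≤ n → 1 ≤ x →
  (((Icc 1 x).filter (fun w => w.primeFactors ⊆ n.primeFactors)).card : ℝ) ≤
    C * ((n : ℝ) * x) ^ ε

/-- **RAD.** (from SMO) -/
def S_RAD : Prop := ∀ ε : ℝ, 0 < ε → ∃ C : ℝ, 0 < C ∧ ∀ x : ℕ, 1 ≤ x →
  ∑ n ∈ Icc 1 x, 1 / (rad n : ℝ) ≤ C * (x : ℝ) ^ ε

/-- **DIV.** -/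
def S_DIV : Prop := ∀ ε : ℝ, 0 < ε → ∃ C : ℝ, 0 < C ∧ ∀ n : ℕ, 1 ≤ n →
  (n.divisors.card : ℝ) ≤ C * (n : ℝ) ^ ε ∧ ((3 : ℝ) ^ n.primeFactors.card) ≤ C * (n : ℝ) ^ ε

open Classical in
/-- the number of `(k, l, j, r)` in the box such that `e` divides both values, not both zero -/
noncomputable def KK (K L J R e v w : ℕ) : ℕ :=
  ((BX K L J R).filter (fun x =>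
    (e : ℤ) ∣ G1 x.1 x.2.1 x.2.2.1 x.2.2.2 v w ∧ (e : ℤ) ∣ G2 x.1 x.2.1 x.2.2.1 x.2.2.2 v w ∧
    ¬ (G1 x.1 x.2.1 x.2.2.1 x.2.2.2 v w = 0 ∧ G2 x.1 x.2.1 x.2.2.1 x.2.2.2 v w = 0))).card

/-- **AVG.** (from RES, ROO, DEG, CON, RAD, DIV) -/
def S_AVG : Prop := ∀ ε : ℝ, 0 < ε → ∃ C : ℝ, 0 < C ∧ ∀ G H V W ρ K L J R Y : ℕ,
  1 ≤ G → 1 ≤ H → 1 ≤ V → 1 ≤ W → 1 ≤ ρ → G ≤ Y → H ≤ Y → V ≤ Y → W ≤ Y → ρ ≤ Y → K ≤ Y → L ≤ Y →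
  J ≤ Y → R ≤ Y →
  ∑ g ∈ Ico G (2 * G), ∑ h ∈ Icc 1 H, ∑ v ∈ Ico V (2 * V),
    ∑ w ∈ (Ico W (2 * W)).filter (fun w => Nat.Coprime v w),
      Real.sqrt (KK K L J R (h * g * ρ) v w) ≤
  C * (Y : ℝ) ^ ε * (Real.sqrt ((V : ℝ) * W) *
      Real.sqrt (((V : ℝ) * W + G * H * ρ) * ((1 + K) * (1 + L) * (1 + J) * (1 + R))) +
    Real.sqrt ((G : ℝ) * H) * (V * W) * (1 + K + L + J + R))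

/-! ## Exponential sums -/

/-- `e(x)` -/
noncomputable def ee (x : ℝ) : ℂ := Complex.exp (2 * Real.pi * Complex.I * x)

/-- **FEJ.** -/
def S_FEJ : Prop := ∀ (ι : Type) (s : Finset ι) (φ : ι → ℤ) (q M : ℕ) (A : ℤ), 0 < q → 0 < M →
  (((s ×ˢ Ico A (A + M)).filter (fun x => (q : ℤ) ∣ x.2 - φ x.1)).card : ℝ) ≤
    24 * ((M : ℝ) / q) * ∑ h ∈ Icc (-((q / M : ℕ) : ℤ)) ((q / M : ℕ) : ℤ),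
      ‖∑ i ∈ s, ee ((h : ℝ) * φ i / q)‖

open Classical in
/-- the number of differences for which both partial derivatives are close to integers -/
noncomputable def DW (a b c : ℝ) (Ns Nt : ℕ) : ℕ :=
  (((Icc (-(2 * Ns : ℤ)) (2 * Ns)) ×ˢ (Icc (-(2 * Nt : ℤ)) (2 * Nt))).filter (fun x : ℤ × ℤ =>
    (∃ n : ℤ, |2 * a * x.1 + b * x.2 - n| ≤ 1 / Ns) ∧
    (∃ n : ℤ, |b * x.1 + 2 * c * x.2 - n| ≤ 1 / Nt))).card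

/-- **WEY.** -/
def S_WEY : Prop := ∃ C : ℝ, 0 < C ∧ ∀ (a b c p q : ℝ) (s₀ t₀ : ℤ) (n₁ n₂ Ns Nt : ℕ),
  1 ≤ Ns → 1 ≤ Nt → n₁ ≤ Ns → n₂ ≤ Nt →
  ‖∑ s ∈ Ico s₀ (s₀ + n₁), ∑ t ∈ Ico t₀ (t₀ + n₂),
    ee (a * (s : ℝ) ^ 2 + b * s * t + c * (t : ℝ) ^ 2 + p * s + q * t)‖ ^ 2 ≤
  C * Ns * Nt * (1 + Real.log Ns) * (1 + Real.log Nt) * (DW a b c Ns Nt : ℝ)

/-! ## The parameters of a box -/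

/-- the conditions on the parameters of a dyadic box -/
def Par (N ρ M A G V W : ℕ) : Prop :=
  1 ≤ N ∧ 1 ≤ ρ ∧ 1 ≤ M ∧ 1 ≤ A ∧ 1 ≤ G ∧ 1 ≤ V ∧ 1 ≤ W ∧ (ρ * M) ^ 2 ≤ 2 * N ∧
  (ρ * A) ^ 2 ≤ 2 * N ∧ N * G ^ 2 * V ^ 2 ≤ 32 * ρ * M ^ 2 * A ∧
  N * G ^ 2 * W ^ 2 ≤ 32 * ρ * A ^ 2 * M ∧ M * W ^ 2 ≤ 8 * A * V ^ 2

noncomputable def nS (ρ M G V : ℕ) : ℝ := (V : ℝ) * Real.sqrt ((M : ℝ) / ρ) / G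
noncomputable def nT (ρ M A G V : ℕ) : ℝ := (A : ℝ) * V / (G * Real.sqrt ((ρ : ℝ) * M))
noncomputable def iS (ρ M G V : ℕ) : ℕ := ⌊20 * nS ρ M G V⌋₊
noncomputable def iT (ρ M A G V : ℕ) : ℕ := ⌊40 * nT ρ M A G V⌋₊
noncomputable def bK (ρ M A G V W : ℕ) : ℕ :=
  ⌊2000 * ((G : ℝ) * Real.sqrt ρ * V * W * A / (M * Real.sqrt M))⌋₊
noncomputable def bL (ρ M G V W : ℕ) : ℕ := ⌊2000 * ((G : ℝ) * Real.sqrt ρ * V * W / Real.sqrt M)⌋₊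
noncomputable def bJ (ρ M G V : ℕ) : ℕ := ⌊2000 * ((G : ℝ) * Real.sqrt ρ * V ^ 2 / Real.sqrt M)⌋₊
noncomputable def bR (ρ M A G V : ℕ) : ℕ :=
  ⌊2000 * ((G : ℝ) * Real.sqrt ρ * V ^ 2 * Real.sqrt M / A)⌋₊

/-- `KK` with the sizes of the box -/
noncomputable def KP (ρ M A G V W e v w : ℕ) : ℕ :=
  KK (bK ρ M A G V W) (bL ρ M G V W) (bJ ρ M G V) (bR ρ M A G V) e v w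

/-- **DUA.** the algebra of the dual system -/
def S_DUA : Prop := ∀ v w e x y R r : ℤ, 0 < v → 0 < w → IsCoprime v w →
  v ^ 3 ∣ e * y + R * w ^ 2 → w ∣ 2 * e * x - R * v ^ 2 →
  v ^ 3 ∣ r * w ^ 5 - e * (2 * v ^ 2 * y - w ^ 2 * x) →
  ∃ k l j : ℤ, e * y = k * v ^ 3 - R * w ^ 2 ∧ e * x = l * v ^ 3 - 2 * R * v ^ 2 - r * w ^ 3 ∧
    5 * R = 2 * l * v + j * w ∧ 5 * (e * x) = G1 k l j r v w ∧ 5 * (e * y) = G2 k l j r v w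

/-- **DC.** (from DUA) the dual count -/
def S_DC : Prop := ∀ N ρ M A G V W : ℕ, Par N ρ M A G V W → ∀ g v w h : ℕ,
  G ≤ g → g < 2 * G → V ≤ v → v < 2 * V → W ≤ w → w < 2 * W → v.Coprime w → 1 ≤ h →
  h * M ≤ g * v ^ 3 * w → ∀ α β E₁ E₂ : ℤ,
  (v : ℤ) ^ 3 ∣ w * α - 1 → (w : ℤ) ∣ v * β - 1 → (v : ℤ) ^ 3 ∣ E₁ - 1 → (w : ℤ) ∣ E₁ →
  (w : ℤ) ∣ E₂ - 1 → (v : ℤ) ^ 3 ∣ E₂ →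
  DW (((h * g * ρ : ℕ) : ℝ) * E₂ * β ^ 2 / (v ^ 3 * w)) (-(((h * g * ρ : ℕ) : ℝ) * E₁ * α ^ 2 / (v ^ 3 * w)))
      (((h * g * ρ : ℕ) : ℝ) * E₁ * v ^ 2 * α ^ 4 / (v ^ 3 * w)) (iS ρ M G V) (iT ρ M A G V) ≤
    1 + KP ρ M A G V W (h * g * ρ) v w

/-- the congruences -/
def Cong (ρ v w : ℕ) (s t m : ℤ) : Prop :=
  (v : ℤ) ^ 3 ∣ ρ * t ^ 2 * v ^ 2 - ρ * s * t * w ^ 2 - m * w ^ 4 ∧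
  (w : ℤ) ∣ ρ * s ^ 2 - m * v ^ 2

/-- **INN.** (from FEJ, WEY, DC) -/
def S_INN : Prop := ∃ C : ℝ, 0 < C ∧ ∀ N ρ M A G V W : ℕ, Par N ρ M A G V W → ∀ g v w : ℕ,
  G ≤ g → g < 2 * G → V ≤ v → v < 2 * V → W ≤ w → w < 2 * W → v.Coprime w → g.Coprime (v * w) →
  ∀ σ τ μ : ℤ, ∀ F : Finset (ℤ × ℤ × ℤ),
  (∀ x ∈ F, (ρ : ℤ) * x.1 ^ 2 ≤ 32 * M * V ^ 2 ∧ (ρ : ℤ) * M * x.2.1 ^ 2 ≤ 64 * A ^ 2 * V ^ 2 ∧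
    (M : ℤ) ≤ x.2.2 ∧ x.2.2 < 2 * M ∧ (g : ℤ) ∣ x.1 - σ ∧ (g : ℤ) ∣ x.2.1 - τ ∧
    (g : ℤ) ∣ x.2.2 - μ ∧ Cong ρ v w x.1 x.2.1 x.2.2) →
  (F.card : ℝ) ≤ C * ((M : ℝ) / (g * v ^ 3 * w)) * (nS ρ M G V * nT ρ M A G V +
    (1 + Real.log N) * Real.sqrt (nS ρ M G V * nT ρ M A G V) *
      ∑ h ∈ Icc 1 (g * v ^ 3 * w / M), Real.sqrt (1 + (KP ρ M A G V W (h * g * ρ) v w : ℝ)))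

/-- **NUM.** the numerical inequalities -/
def S_NUM : Prop := ∃ C : ℝ, 0 < C ∧ ∀ N ρ M A G V W : ℕ, Par N ρ M A G V W →
  ρ * G ^ 2 * V ^ 2 ≤ 64 * M ∧
  ρ * G ^ 2 * W ^ 2 ≤ 64 * A ∧
  ρ ^ 2 * M * A ≤ 2 * N ∧
  (M : ℝ) * Real.sqrt A / (V * Real.sqrt ρ) * Real.sqrt ((1 + bK ρ M A G V W) * (1 + bL ρ M G V W) *
    (1 + bJ ρ M G V) * (1 + bR ρ M A G V)) ≤ C * N / ρ ∧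
  (G : ℝ) ^ 2 * V ^ 2 * W * Real.sqrt A / Real.sqrt ρ ≤ C * N / ρ ∧
  Real.sqrt ((M : ℝ) * A / ρ) * Real.sqrt ((V : ℝ) * W * G ^ 2) *
    (1 + bK ρ M A G V W + bL ρ M G V W + bJ ρ M G V + bR ρ M A G V) ≤ C * N / ρ ∧
  (bK ρ M A G V W : ℝ) ≤ C * N ∧ (bL ρ M G V W : ℝ) ≤ C * N ∧ (bJ ρ M G V : ℝ) ≤ C * N ∧
  (bR ρ M A G V : ℝ) ≤ C * N

/-- **BOX.** (from INN, AVG, NUM) the tuples are `(g, v, w, s, t, m)` -/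
def S_BOX : Prop := ∀ ε : ℝ, 0 < ε → ∃ C : ℝ, 0 < C ∧ ∀ N ρ M A G V W : ℕ, Par N ρ M A G V W →
  ∀ F : Finset (ℕ × ℕ × ℕ × ℤ × ℤ × ℕ),
  (∀ x ∈ F, match x with
    | (g, v, w, s, t, m) => G ≤ g ∧ g < 2 * G ∧ V ≤ v ∧ v < 2 * V ∧ W ≤ w ∧ w < 2 * W ∧
      v.Coprime w ∧ g.Coprime (v * w) ∧ g.Coprime ρ ∧ M ≤ m ∧ m < 2 * M ∧
      (ρ : ℤ) * s ^ 2 ≤ 32 * M * V ^ 2 ∧ (ρ : ℤ) * M * t ^ 2 ≤ 64 * A ^ 2 * V ^ 2 ∧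
      Cong ρ v w s t m ∧
      ∃ e f : ℤ, IsCoprime e g ∧ IsCoprime f g ∧ (g : ℤ) ∣ ρ * m - f ^ 2 ∧
        (g : ℤ) ∣ ρ * e * s - f * (f * w + e * v) ∧ (g : ℤ) ∣ ρ * f * t - e * (e * v - f * w)) →
  (F.card : ℝ) ≤ C * (N : ℝ) ^ (1 + ε) / ρ

/-! ## The tuples -/

/-- the tuples `(ρ, m, a, g, v, w, s, t)` -/
def Good (N ρ m a g v w : ℕ) (s t : ℤ) : Prop :=
  0 < ρ ∧ 0 < m ∧ 0 < a ∧ 0 < g ∧ 0 < v ∧ 0 < w ∧ v.Coprime w ∧ g.Coprime ρ ∧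
  (a : ℤ) * v ^ 2 - m * w ^ 2 = ρ * s * t ∧
  (v : ℤ) ∣ ρ * t ^ 2 - a * w ^ 2 ∧ (w : ℤ) ∣ ρ * s ^ 2 - m * v ^ 2 ∧
  (∃ e f : ℤ, IsCoprime e g ∧ IsCoprime f g ∧ (g : ℤ) ∣ ρ * m - f ^ 2 ∧ (g : ℤ) ∣ ρ * a - e ^ 2 ∧
    (g : ℤ) ∣ ρ * e * s - f * (f * w + e * v) ∧ (g : ℤ) ∣ ρ * f * t - e * (e * v - f * w)) ∧
  N * g ^ 2 * v ^ 2 ≤ 4 * ρ * m ^ 2 * a ∧ N * g ^ 2 * w ^ 2 ≤ 4 * ρ * a ^ 2 * m ∧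
  (ρ * m) ^ 2 ≤ 2 * N ∧ (ρ * a) ^ 2 ≤ 2 * N ∧
  (ρ : ℤ) * a * s ^ 2 ≤ 2 * m ^ 2 * w ^ 2 + 2 * a * m * v ^ 2 ∧
  (ρ : ℤ) * m * t ^ 2 ≤ 2 * m * a * w ^ 2 + 2 * a ^ 2 * v ^ 2

/-- `Good` for a tuple -/
def GoodT (N : ℕ) (x : ℕ × ℕ × ℕ × ℕ × ℕ × ℕ × ℤ × ℤ) : Prop :=
  Good N x.1 x.2.1 x.2.2.1 x.2.2.2.1 x.2.2.2.2.1 x.2.2.2.2.2.1 x.2.2.2.2.2.2.1 x.2.2.2.2.2.2.2

/-- **CN1.** (from BOX) -/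
def S_CN1 : Prop := ∀ ε : ℝ, 0 < ε → ∃ C : ℝ, 0 < C ∧ ∀ N : ℕ, 1 ≤ N →
  ∀ F : Finset (ℕ × ℕ × ℕ × ℕ × ℕ × ℕ × ℤ × ℤ), (∀ x ∈ F, match x with
    | (ρ, m, a, g, v, w, s, t) => Good N ρ m a g v w s t ∧ m * w ^ 2 ≤ a * v ^ 2 ∧
      g.Coprime (v * w)) →
  (F.card : ℝ) ≤ C * (N : ℝ) ^ (1 + ε)

/-- **CN2.** (from CN1, SMO) -/
def S_CN2 : Prop := ∀ ε : ℝ, 0 < ε → ∃ C : ℝ, 0 < C ∧ ∀ N : ℕ, 1 ≤ N →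
  ∀ F : Finset (ℕ × ℕ × ℕ × ℕ × ℕ × ℕ × ℤ × ℤ), (∀ x ∈ F, match x with
    | (ρ, m, a, g, v, w, s, t) => Good N ρ m a g v w s t ∧ m * w ^ 2 ≤ a * v ^ 2) →
  (F.card : ℝ) ≤ C * (N : ℝ) ^ (1 + ε)

/-- **CNT.** (from CN2, by the symmetry `(ρ,m,a,g,v,w,s,t) ↦ (ρ,a,m,g,w,v,t,-s)`) -/
def S_CNT : Prop := ∀ ε : ℝ, 0 < ε → ∃ C : ℝ, 0 < C ∧ ∀ N : ℕ, 1 ≤ N →
  ∀ F : Finset (ℕ × ℕ × ℕ × ℕ × ℕ × ℕ × ℤ × ℤ), (∀ x ∈ F, GoodT N x) →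
  (F.card : ℝ) ≤ C * (N : ℝ) ^ (1 + ε)

/-! ## The relations -/

/-- `0` or `1` -/
def th (d : ℕ) : ℤ := ((d % 2 : ℕ) : ℤ)

/-- `(d + th d) / 4` -/
def n0 (d : ℕ) : ℤ := (((d + d % 2) / 4 : ℕ) : ℤ)

/-- the relations satisfied by the coordinates of the generators -/
def REL (d ρ m a : ℕ) (x₁ u₁ x₂ u₂ : ℤ) : Prop :=
  0 < ρ ∧ 0 < m ∧ 0 < a ∧ 0 ≤ u₁ ∧ 0 ≤ u₂ ∧ ρ.Coprime (m * a) ∧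
  (ρ * m * a).Coprime (Int.gcd u₁ u₂) ∧ (ρ * m) ^ 2 ≤ d ∧ (ρ * a) ^ 2 ≤ d ∧
  x₁ ^ 2 + th d * x₁ * u₁ + n0 d * u₁ ^ 2 = ρ * m ^ 2 * a ∧
  x₂ ^ 2 + th d * x₂ * u₂ + n0 d * u₂ ^ 2 = ρ * a ^ 2 * m ∧
  ((ρ * a : ℕ) : ℤ) ∣ x₁ * u₂ + x₂ * u₁ + th d * u₁ * u₂ ∧
  ((ρ * m : ℕ) : ℤ) ∣ x₂ * u₁ - x₁ * u₂ ∧
  ((ρ * m ^ 2 : ℕ) : ℤ) ∣
    u₁ * x₂ ^ 2 - 2 * x₁ * x₂ * u₂ - th d * x₁ * u₂ ^ 2 - n0 d * u₁ * u₂ ^ 2 ∧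
  ((ρ * a ^ 2 : ℕ) : ℤ) ∣
    x₁ ^ 2 * u₂ + 2 * x₁ * x₂ * u₁ + 2 * th d * x₁ * u₁ * u₂ + th d * x₂ * u₁ ^ 2 +
      th d * u₁ ^ 2 * u₂ - n0 d * u₁ ^ 2 * u₂

/-- `REL` for a tuple `(d, ρ, m, a, x₁, u₁, x₂, u₂)` with `N < d ≤ 2N` -/
def RelT (N : ℕ) (x : ℕ × ℕ × ℕ × ℕ × ℤ × ℤ × ℤ × ℤ) : Prop :=
  N < x.1 ∧ x.1 ≤ 2 * N ∧ (x.1 % 4 = 0 ∨ x.1 % 4 = 3) ∧
  REL x.1 x.2.1 x.2.2.1 x.2.2.2.1 x.2.2.2.2.1 x.2.2.2.2.2.1 x.2.2.2.2.2.2.1 x.2.2.2.2.2.2.2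

/-- **DER.** -/
def S_DER : Prop := ∀ N : ℕ, 1 ≤ N →
  ∃ Φ : ℕ × ℕ × ℕ × ℕ × ℤ × ℤ × ℤ × ℤ → ℕ × ℕ × ℕ × ℕ × ℕ × ℕ × ℤ × ℤ,
    Set.InjOn Φ {x | RelT N x ∧ x.2.2.2.2.2.1 ≠ 0 ∧ x.2.2.2.2.2.2.2 ≠ 0} ∧
    ∀ x, RelT N x → x.2.2.2.2.2.1 ≠ 0 → x.2.2.2.2.2.2.2 ≠ 0 → GoodT N (Φ x)

/-- **ZA.** the structure when `u₁ = 0` -/
def S_ZA : Prop := ∀ (d ρ m a : ℕ) (x₁ x₂ u₂ : ℤ), (d % 4 = 0 ∨ d % 4 = 3) →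
  REL d ρ m a x₁ 0 x₂ u₂ → u₂ ≠ 0 →
  ρ = 1 ∧ ∃ (b q d' : ℕ) (y : ℤ), 0 < b ∧ 0 < q ∧ m = b * q ∧ a = b ^ 2 ∧
    x₁ ^ 2 = ((b : ℤ) ^ 2 * q) ^ 2 ∧ 2 * x₂ + th d * u₂ = q * y ∧ d = q * d' ∧
    4 * (b : ℤ) ^ 5 = q * y ^ 2 + d' * u₂ ^ 2 ∧ u₂.natAbs.Coprime (b * q)

/-- **ZB.** the tuples are `(b, q, y, u, d')` -/
def S_ZB : Prop := ∀ ε : ℝ, 0 < ε → ∃ C : ℝ, 0 < C ∧ ∀ N : ℕ, 1 ≤ N →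
  ∀ F : Finset (ℕ × ℕ × ℤ × ℕ × ℕ), (∀ x ∈ F, match x with
    | (b, q, y, u, d') => 0 < b ∧ 0 < q ∧ 0 < u ∧ u.Coprime (b * q) ∧
      4 * (b : ℤ) ^ 5 = q * y ^ 2 + d' * u ^ 2 ∧ N < q * d' ∧ q * d' ≤ 2 * N ∧
      (b * q) ^ 2 ≤ 2 * N ∧ (b ^ 2) ^ 2 ≤ 2 * N) →
  (F.card : ℝ) ≤ C * (N : ℝ) ^ (1 + ε)

/-- **ZER.** (from ZA, ZB) -/
def S_ZER : Prop := ∀ ε : ℝ, 0 < ε → ∃ C : ℝ, 0 < C ∧ ∀ N : ℕ, 1 ≤ N →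
  ∀ F : Finset (ℕ × ℕ × ℕ × ℕ × ℤ × ℤ × ℤ × ℤ),
  (∀ x ∈ F, RelT N x ∧ (x.2.2.2.2.2.1 = 0 ∨ x.2.2.2.2.2.2.2 = 0)) →
  (F.card : ℝ) ≤ C * (N : ℝ) ^ (1 + ε)

/-- **INT.** (from DER, CNT, ZER) -/
def S_INT : Prop := ∀ ε : ℝ, 0 < ε → ∃ C : ℝ, 0 < C ∧ ∀ N : ℕ, 1 ≤ N →
  ∀ F : Finset (ℕ × ℕ × ℕ × ℕ × ℤ × ℤ × ℤ × ℤ), (∀ x ∈ F, RelT N x) →
  (F.card : ℝ) ≤ C * (N : ℝ) ^ (1 + ε)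

/-! ## Ideals -/

/-- `1, ω` is a basis of `𝓞 K` and `σ` is the complex conjugation -/
def IsQ (K : Type) [Field K] [NumberField K] (d : ℕ) (ω : 𝓞 K) (σ : 𝓞 K →+* 𝓞 K) : Prop :=
  ω ^ 2 = (th d : 𝓞 K) * ω - (n0 d : 𝓞 K) ∧ σ ω = (th d : 𝓞 K) - ω ∧
  (∀ x : 𝓞 K, ∃ a b : ℤ, x = (a : 𝓞 K) + (b : 𝓞 K) * ω) ∧
  (∀ a b : ℤ, (a : 𝓞 K) + (b : 𝓞 K) * ω = 0 → a = 0 ∧ b = 0) ∧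
  (∀ x : 𝓞 K, σ (σ x) = x) ∧
  (∀ a b : ℤ, Algebra.norm ℤ ((a : 𝓞 K) + (b : 𝓞 K) * ω) = a ^ 2 + th d * a * b + n0 d * b ^ 2) ∧
  (∀ x : 𝓞 K, x * σ x = ((Algebra.norm ℤ x : ℤ) : 𝓞 K)) ∧
  (∀ I : Ideal (𝓞 K), I * I.map σ = Ideal.span {((Ideal.absNorm I : ℕ) : 𝓞 K)}) ∧
  (∀ I : Ideal (𝓞 K), Ideal.absNorm (I.map σ) = Ideal.absNorm I)

/-- **OM.** -/
def S_OM : Prop := ∀ (K : Type) [Field K] [NumberField K] (d : ℕ), Module.finrank ℚ K = 2 →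
  discr K = -(d : ℤ) → 0 < d →
  (d % 4 = 0 ∨ d % 4 = 3) ∧ ∃ (ω : 𝓞 K) (σ : 𝓞 K →+* 𝓞 K), IsQ K d ω σ

/-- **MIN.** a primitive ideal of small norm in each class -/
def S_MIN : Prop := ∀ (K : Type) [Field K] [NumberField K] (d : ℕ), Module.finrank ℚ K = 2 →
  discr K = -(d : ℤ) → 0 < d → ∀ c : ClassGroup (𝓞 K),
  ∃ (I : Ideal (𝓞 K)) (hI : I ∈ nonZeroDivisors (Ideal (𝓞 K))), ClassGroup.mk0 ⟨I, hI⟩ = c ∧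
    Ideal.absNorm I ^ 2 ≤ d ∧ ∀ n : ℕ, 2 ≤ n → ¬ I ≤ Ideal.span {(n : 𝓞 K)}

/-- the decomposition `Pf = R P`, `Af = R A` -/
def Spl {K : Type} [Field K] [NumberField K] (σ : 𝓞 K →+* 𝓞 K) (Pf Af R P A : Ideal (𝓞 K))
    (ρ : ℕ) : Prop :=
  Pf ≠ ⊥ ∧ Af ≠ ⊥ ∧ (∀ n : ℕ, 2 ≤ n → ¬ Pf ≤ Ideal.span {(n : 𝓞 K)}) ∧
  (∀ n : ℕ, 2 ≤ n → ¬ Af ≤ Ideal.span {(n : 𝓞 K)}) ∧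
  0 < ρ ∧ R ^ 2 = Ideal.span {(ρ : 𝓞 K)} ∧ R.map σ = R ∧ Ideal.absNorm R = ρ ∧
  Pf = R * P ∧ Af = R * A ∧
  (∀ 𝔭 : Ideal (𝓞 K), 𝔭.IsPrime → 𝔭 ≠ ⊥ → 𝔭.map σ = 𝔭 → ¬ (P ≤ 𝔭 ∧ A ≤ 𝔭)) ∧
  ρ.Coprime (Ideal.absNorm P * Ideal.absNorm A)

/-- **SPL.** -/
def S_SPL : Prop := ∀ (K : Type) [Field K] [NumberField K] (d : ℕ) (ω : 𝓞 K) (σ : 𝓞 K →+* 𝓞 K),
  IsQ K d ω σ → ∀ Pf Af : Ideal (𝓞 K), Pf ≠ ⊥ → Af ≠ ⊥ →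
  (∀ n : ℕ, 2 ≤ n → ¬ Pf ≤ Ideal.span {(n : 𝓞 K)}) →
  (∀ n : ℕ, 2 ≤ n → ¬ Af ≤ Ideal.span {(n : 𝓞 K)}) →
  ∃ (R P A : Ideal (𝓞 K)) (ρ : ℕ), Spl σ Pf Af R P A ρ

/-- **COP.** -/
def S_COP : Prop := ∀ (K : Type) [Field K] [NumberField K] (d : ℕ) (ω : 𝓞 K) (σ : 𝓞 K →+* 𝓞 K),
  IsQ K d ω σ → ∀ (Pf Af R P A : Ideal (𝓞 K)) (ρ : ℕ), Spl σ Pf Af R P A ρ →
  ∀ x₁ u₁ x₂ u₂ : ℤ,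
  Ideal.span {(x₁ : 𝓞 K) + (u₁ : 𝓞 K) * ω} = P ^ 2 * A.map σ * R →
  Ideal.span {(x₂ : 𝓞 K) + (u₂ : 𝓞 K) * ω} = A ^ 2 * P * R →
  (ρ * Ideal.absNorm P * Ideal.absNorm A).Coprime (Int.gcd u₁ u₂)

/-- **ALG.** (from OM, MIN, SPL, COP) -/
def S_ALG : Prop := ∀ (K : Type) [Field K] [NumberField K] (d : ℕ), Module.finrank ℚ K = 2 →
  discr K = -(d : ℤ) → 0 < d →
  (d % 4 = 0 ∨ d % 4 = 3) ∧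
  ∃ f : {c : ClassGroup (𝓞 K) // c ^ 5 = 1} → ℕ × ℕ × ℕ × ℤ × ℤ × ℤ × ℤ,
    Function.Injective f ∧ ∀ c, REL d (f c).1 (f c).2.1 (f c).2.2.1 (f c).2.2.2.1 (f c).2.2.2.2.1
      (f c).2.2.2.2.2.1 (f c).2.2.2.2.2.2

/-- fundamental discriminants -/
def FDp (D : ℤ) : Prop := (D % 4 = 1 ∧ D ≠ 1 ∧ Squarefree D) ∨
  (∃ m : ℤ, D = 4 * m ∧ (m % 4 = 2 ∨ m % 4 = 3) ∧ Squarefree m)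

open Classical in
/-- **FIN.** (from ALG, INT) -/
def S_FIN : Prop := ∀ ε : ℝ, 0 < ε → ∃ C : ℝ, 0 < C ∧ ∀ X : ℕ, 1 ≤ X →
  ∀ (K : ℤ → Type) [∀ D, Field (K D)] [∀ D, NumberField (K D)],
  (∀ D : ℤ, D < 0 → FDp D → Module.finrank ℚ (K D) = 2 ∧ discr (K D) = D) →
  ∑ D ∈ (Finset.Ioo (-(X : ℤ)) (0 : ℤ)).filter (fun D : ℤ => FDp D),
    (Nat.card {c : ClassGroup (𝓞 (K D)) // c ^ 5 = 1} : ℝ) ≤ C * (X : ℝ) ^ (1 + ε)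

end Pool.Agent.T2h80.F5
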