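import Mathlib
import Pool.Agent.T2h80.F5.Stm

set_option autoImplicit false

namespace Pool.Agent.T2h80.F5

open NumberField

namespace SPL

variable {K : Type} [Field K] [NumberField K] {d : ℕ} {ω : 𝓞 K} {σ : 𝓞 K →+* 𝓞 K}

theorem map_eq_comap (h : IsQ K d ω σ) (I : Ideal (𝓞 K)) : I.map σ = I.comap σ := by
  have hs := h.2.2.2.2.1
  apply le_antisymm
  · rw [Ideal.map_le_iff_le_comap]
    intro x hx
    rw [Ideal.mem_comap, Ideal.mem_comap, hs]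
    exact hx
  · intro x hx
    rw [Ideal.mem_comap] at hx
    have := Ideal.mem_map_of_mem σ hx
    rwa [hs] at this

theorem map_map (h : IsQ K d ω σ) (I : Ideal (𝓞 K)) : (I.map σ).map σ = I := by
  rw [map_eq_comap h, map_eq_comap h]
  ext x
  rw [Ideal.mem_comap, Ideal.mem_comap, h.2.2.2.2.1]

theorem map_prime (h : IsQ K d ω σ) {p : Ideal (𝓞 K)} (hp : p.IsPrime) : (p.map σ).IsPrime := by
  rw [map_eq_comap h]
  exact Ideal.IsPrime.comap σ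

theorem map_dvd {I J : Ideal (𝓞 K)} (hIJ : I ∣ J) : I.map σ ∣ J.map σ := by
  obtain ⟨C, rfl⟩ := hIJ
  rw [Ideal.map_mul]
  exact dvd_mul_right _ _

theorem dvd_map_iff (h : IsQ K d ω σ) {I J : Ideal (𝓞 K)} : I ∣ J.map σ ↔ I.map σ ∣ J := by
  constructor
  · intro hh
    have := map_dvd (σ := σ) hh
    rwa [map_map h] at this
  · intro hh
    have := map_dvd (σ := σ) hh
    rwa [map_map h] at this

theorem map_span_nat (n : ℕ) : (Ideal.span {(n : 𝓞 K)}).map σ = Ideal.span {(n : 𝓞 K)} := by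
  rw [Ideal.map_span, Set.image_singleton, map_natCast]

theorem sq_inj {I J : Ideal (𝓞 K)} (hIJ : I ^ 2 = J ^ 2) : I = J := by
  apply le_antisymm
  · rw [← Ideal.dvd_iff_le]
    exact (UniqueFactorizationMonoid.pow_dvd_pow_iff_dvd (two_ne_zero)).1 (dvd_of_eq hIJ.symm)
  · rw [← Ideal.dvd_iff_le]
    exact (UniqueFactorizationMonoid.pow_dvd_pow_iff_dvd (two_ne_zero)).1 (dvd_of_eq hIJ)

theorem absNorm_nat (h : IsQ K d ω σ) (n : ℕ) :
    Ideal.absNorm (Ideal.span {(n : 𝓞 K)}) = n ^ 2 := by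
  rw [Ideal.absNorm_span_singleton]
  have := h.2.2.2.2.2.1 n 0
  simp only [Int.cast_natCast, Int.cast_zero, zero_mul, add_zero, mul_zero, ne_eq, OfNat.ofNat_ne_zero,
    not_false_eq_true, zero_pow] at this
  rw [this]
  simp [Int.natAbs_pow]

theorem absNorm_of_sq (h : IsQ K d ω σ) {R : Ideal (𝓞 K)} {n : ℕ}
    (hR : R ^ 2 = Ideal.span {(n : 𝓞 K)}) : Ideal.absNorm R = n := by
  have := congrArg Ideal.absNorm hR
  rw [map_pow, absNorm_nat h] at this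
  exact Nat.pow_left_injective (n := 2) (by norm_num) this

theorem map_of_sq (h : IsQ K d ω σ) {R : Ideal (𝓞 K)} {n : ℕ}
    (hR : R ^ 2 = Ideal.span {(n : 𝓞 K)}) : R.map σ = R := by
  apply sq_inj
  rw [← Ideal.map_pow, hR, map_span_nat]

theorem two_le_norm {p : Ideal (𝓞 K)} (hp : p.IsPrime) (hp0 : p ≠ ⊥) : 2 ≤ Ideal.absNorm p := by
  have h1 : Ideal.absNorm p ≠ 1 := by
    rw [Ne, Ideal.absNorm_eq_one_iff]
    exact hp.ne_top
  have h0 : Ideal.absNorm p ≠ 0 := by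
    rw [Ne, Ideal.absNorm_eq_zero_iff]
    exact hp0
  omega

theorem prime_of {p : Ideal (𝓞 K)} (hp : p.IsPrime) (hp0 : p ≠ ⊥) : Prime p :=
  Ideal.prime_of_isPrime hp0 hp

/-- a prime ideal over `l` dividing `P` -/
theorem exists_prime (h : IsQ K d ω σ) {P : Ideal (𝓞 K)} {l : ℕ} (hl : l.Prime)
    (hP : l ∣ Ideal.absNorm P) :
    ∃ p : Ideal (𝓞 K), p.IsPrime ∧ p ≠ ⊥ ∧ (l : 𝓞 K) ∈ p ∧ p ∣ P := by
  have hne : Ideal.span {(l : 𝓞 K)} ≠ ⊤ := by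
    intro h1
    have := absNorm_nat h l
    rw [h1, Ideal.absNorm_top] at this
    have := hl.two_le
    nlinarith
  obtain ⟨q, hqm, hq⟩ := Ideal.exists_le_maximal _ hne
  have hlq : (l : 𝓞 K) ∈ q := hq (Ideal.mem_span_singleton_self _)
  have hqp : q.IsPrime := hqm.isPrime
  have hl0 : (l : 𝓞 K) ≠ 0 := by
    exact_mod_cast hl.ne_zero
  have hNq : (Ideal.absNorm P : 𝓞 K) ∈ q := by
    obtain ⟨c, hc⟩ := hP
    rw [hc]
    push_cast
    exact q.mul_mem_right _ hlq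
  have hmul : P * P.map σ ≤ q := by
    rw [h.2.2.2.2.2.2.2.1 P, Ideal.span_singleton_le_iff_mem]
    exact hNq
  rcases (hqp.mul_le).1 hmul with h1 | h1
  · exact ⟨q, hqp, fun h0 => hl0 (by rw [h0] at hlq; simpa using hlq), hlq, Ideal.dvd_iff_le.2 h1⟩
  · have hlq' : (l : 𝓞 K) ∈ q.map σ := by
      have := Ideal.mem_map_of_mem σ hlq
      rwa [map_natCast] at this
    refine ⟨q.map σ, map_prime h hqp, fun h0 => hl0 (by rw [h0] at hlq'; simpa using hlq'), hlq', ?_⟩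
    rw [← dvd_map_iff h]
    exact Ideal.dvd_iff_le.2 h1

theorem le_of_dvd {I J : Ideal (𝓞 K)} (h : I ∣ J) : J ≤ I := Ideal.le_of_dvd h

/-- distinct conjugate primes dividing an ideal -/
theorem mul_dvd_of (h : IsQ K d ω σ) {p I : Ideal (𝓞 K)} (hp : p.IsPrime) (hp0 : p ≠ ⊥)
    (hne : p.map σ ≠ p) (h1 : p ∣ I) (h2 : p.map σ ∣ I) : p * p.map σ ∣ I := by
  obtain ⟨C, rfl⟩ := h1
  have hp' : (p.map σ).IsPrime := map_prime h hp
  have hp0' : p.map σ ≠ ⊥ := by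
    intro h0
    apply hp0
    have := map_map h p
    rw [h0, Ideal.map_bot] at this
    exact this.symm
  rcases (prime_of hp' hp0').dvd_or_dvd h2 with h3 | h3
  · exfalso
    apply hne
    have h4 : p ≤ p.map σ := le_of_dvd h3
    have hm : p.IsMaximal := hp.isMaximal hp0
    exact (hm.eq_of_le hp'.ne_top h4).symm
  · exact mul_dvd_mul_left _ h3

theorem norm_dvd (h : IsQ K d ω σ) {p I : Ideal (𝓞 K)} (hp : p.IsPrime) (hp0 : p ≠ ⊥)
    (hI : ∀ n : ℕ, 2 ≤ n → ¬ I ≤ Ideal.span {(n : 𝓞 K)}) : ¬ (p * p.map σ ∣ I) := by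
  intro hh
  rw [h.2.2.2.2.2.2.2.1 p] at hh
  exact hI _ (two_le_norm hp hp0) (le_of_dvd hh)

end SPL

open SPL

theorem t_SPL : S_SPL := by
  classical
  intro K _ _ d ω σ h Pf Af hPf0 hAf0 hPf hAf
  have hbd : ∀ n : ℕ, (0 < n ∧ ∃ R : Ideal (𝓞 K), R ^ 2 = Ideal.span {(n : 𝓞 K)} ∧ R ∣ Pf ∧ R ∣ Af) →
      n ≤ Ideal.absNorm Pf := by
    rintro n ⟨hn, R, hR, hRP, -⟩
    have h1 := absNorm_of_sq h hR
    obtain ⟨C, hC⟩ := hRP
    have h2 : Ideal.absNorm Pf = n * Ideal.absNorm C := by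
      rw [hC, map_mul, h1]
    apply Nat.le_of_dvd
    · rw [Nat.pos_iff_ne_zero, Ne, Ideal.absNorm_eq_zero_iff]
      exact hPf0
    · exact ⟨_, h2⟩
  obtain ⟨ρ, ⟨hρ0, R, hR, hRP, hRA⟩, hmax⟩ : ∃ ρ : ℕ, (0 < ρ ∧ ∃ R : Ideal (𝓞 K),
      R ^ 2 = Ideal.span {(ρ : 𝓞 K)} ∧ R ∣ Pf ∧ R ∣ Af) ∧ ∀ n : ℕ, (0 < n ∧ ∃ R : Ideal (𝓞 K),
      R ^ 2 = Ideal.span {(n : 𝓞 K)} ∧ R ∣ Pf ∧ R ∣ Af) → n ≤ ρ := by
    have hex : (0 < 1 ∧ ∃ R : Ideal (𝓞 K), R ^ 2 = Ideal.span {((1 : ℕ) : 𝓞 K)} ∧ R ∣ Pf ∧ R ∣ Af) := by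
      refine ⟨one_pos, ⊤, ?_, ?_, ?_⟩
      · rw [Nat.cast_one, Ideal.span_singleton_one, ← Ideal.one_eq_top, one_pow]
      · rw [← Ideal.one_eq_top]; exact one_dvd _
      · rw [← Ideal.one_eq_top]; exact one_dvd _
    refine ⟨Nat.findGreatest (fun n : ℕ => 0 < n ∧ ∃ R : Ideal (𝓞 K),
      R ^ 2 = Ideal.span {(n : 𝓞 K)} ∧ R ∣ Pf ∧ R ∣ Af) (Ideal.absNorm Pf), ?_, ?_⟩
    · exact Nat.findGreatest_spec (P := fun n : ℕ => 0 < n ∧ ∃ R : Ideal (𝓞 K),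
        R ^ 2 = Ideal.span {(n : 𝓞 K)} ∧ R ∣ Pf ∧ R ∣ Af) (hbd 1 hex) hex
    · intro n hn
      exact Nat.le_findGreatest (hbd n hn) hn
  have hRs : R.map σ = R := map_of_sq h hR
  have hRN : Ideal.absNorm R = ρ := absNorm_of_sq h hR
  have hRP' := hRP
  have hRA' := hRA
  obtain ⟨P, hP⟩ := hRP
  obtain ⟨A, hA⟩ := hRA
  -- common lemma for the coprimality
  have key : ∀ (I J : Ideal (𝓞 K)), J = R * I → (∀ n : ℕ, 2 ≤ n → ¬ J ≤ Ideal.span {(n : 𝓞 K)}) →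
      ∀ l : ℕ, l.Prime → l ∣ ρ → ¬ l ∣ Ideal.absNorm I := by
    intro I J hJ hprim l hl hlρ hlI
    obtain ⟨p, hp, hp0, hlp, hpI⟩ := exists_prime h hl hlI
    have hρp : (ρ : 𝓞 K) ∈ p := by
      obtain ⟨c, hc⟩ := hlρ
      rw [hc]
      push_cast
      exact p.mul_mem_right _ hlp
    have hRp : R ≤ p := by
      have h1 : R ^ 2 ≤ p := by
        rw [hR, Ideal.span_singleton_le_iff_mem]
        exact hρp
      exact hp.le_of_pow_le h1
    have hpR : p ∣ R := Ideal.dvd_iff_le.2 hRp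
    have hpR' : p.map σ ∣ R := by
      have := map_dvd (σ := σ) hpR
      rwa [hRs] at this
    by_cases hne : p.map σ = p
    · apply norm_dvd h hp hp0 hprim
      rw [hne, hJ]
      exact mul_dvd_mul hpR hpI
    · apply norm_dvd h hp hp0 hprim
      rw [hJ]
      exact Dvd.dvd.mul_right (mul_dvd_of h hp hp0 hne hpR hpR') _
  refine ⟨R, P, A, ρ, hPf0, hAf0, hPf, hAf, hρ0, hR, hRs, hRN, hP, hA, ?_, ?_⟩
  · rintro p hp hp0 hps ⟨hpP, hpA⟩
    have h2 := two_le_norm hp hp0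
    have h3 := h.2.2.2.2.2.2.2.1 p
    rw [hps] at h3
    have h4 : ρ * Ideal.absNorm p ≤ ρ := by
      apply hmax
      refine ⟨Nat.mul_pos hρ0 (by omega), R * p, ?_, ?_, ?_⟩
      · rw [mul_pow, hR, sq p, h3, Ideal.span_singleton_mul_span_singleton]
        push_cast
        rfl
      · rw [hP]; exact mul_dvd_mul_left _ (Ideal.dvd_iff_le.2 hpP)
      · rw [hA]; exact mul_dvd_mul_left _ (Ideal.dvd_iff_le.2 hpA)
    nlinarith
  · rw [Nat.coprime_mul_iff_right]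
    constructor
    · apply Nat.Coprime.symm
      apply Nat.coprime_of_dvd
      intro l hl h1 h2
      exact key P Pf hP hPf l hl h2 h1
    · apply Nat.Coprime.symm
      apply Nat.coprime_of_dvd
      intro l hl h1 h2
      exact key A Af hA hAf l hl h2 h1

end Pool.Agent.T2h80.F5
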