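import Mathlib
import Pool.Agent.T2h80.F5.SPL

set_option autoImplicit false

namespace Pool.Agent.T2h80.F5

open NumberField

namespace COP

open SPL

variable {K : Type} [Field K] [NumberField K] {d : ℕ} {ω : 𝓞 K} {σ : 𝓞 K →+* 𝓞 K}

/-- a prime over `l` dividing a primitive ideal has norm `l` -/
theorem mul_map_eq (h : IsQ K d ω σ) {p I : Ideal (𝓞 K)} (hp : p.IsPrime)
    {l : ℕ} (hl : l.Prime) (hlp : (l : 𝓞 K) ∈ p) (hpI : p ∣ I)
    (hI : ∀ n : ℕ, 2 ≤ n → ¬ I ≤ Ideal.span {(n : 𝓞 K)}) :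
    p * p.map σ = Ideal.span {(l : 𝓞 K)} := by
  have hpl : p ∣ Ideal.span {(l : 𝓞 K)} := by
    rw [Ideal.dvd_iff_le, Ideal.span_singleton_le_iff_mem]
    exact hlp
  obtain ⟨J, hJ⟩ := hpl
  have hN : l ^ 2 = Ideal.absNorm p * Ideal.absNorm J := by
    rw [← absNorm_nat h l, hJ, map_mul]
  have hdvd : Ideal.absNorm p ∣ l ^ 2 := ⟨_, hN⟩
  rw [Nat.dvd_prime_pow hl] at hdvd
  obtain ⟨k, hk, hk'⟩ := hdvd
  have h1 : Ideal.absNorm p ≠ 1 := by
    rw [Ne, Ideal.absNorm_eq_one_iff]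
    exact hp.ne_top
  rcases k with _ | _ | _ | k
  · exact absurd (by simpa using hk') h1
  · rw [h.2.2.2.2.2.2.2.1 p, hk']
    simp
  · exfalso
    rw [hk'] at hN
    have hl2 : 0 < l ^ 2 := pow_pos hl.pos 2
    have hJ1 : Ideal.absNorm J = 1 := by
      have : l ^ 2 * 1 = l ^ 2 * Ideal.absNorm J := by rw [mul_one]; simpa using hN
      exact (Nat.eq_of_mul_eq_mul_left hl2 this).symm
    rw [Ideal.absNorm_eq_one_iff] at hJ1
    rw [hJ1, Ideal.mul_top] at hJ
    apply hI l hl.two_le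
    rw [hJ]
    exact le_of_dvd hpI
  · omega

/-- if `l ∣ u` and a prime over `l` divides `x + u ω`, then `l` divides `x + u ω` -/
theorem span_dvd {p : Ideal (𝓞 K)} (hp : p.IsPrime) {l : ℕ} (hl : l.Prime)
    (hlp : (l : 𝓞 K) ∈ p) {x u : ℤ} (hu : (l : ℤ) ∣ u)
    (hx : p ∣ Ideal.span {(x : 𝓞 K) + (u : 𝓞 K) * ω}) :
    Ideal.span {(l : 𝓞 K)} ∣ Ideal.span {(x : 𝓞 K) + (u : 𝓞 K) * ω} := by
  have hmem : (x : 𝓞 K) + (u : 𝓞 K) * ω ∈ p := by
    rw [Ideal.dvd_iff_le, Ideal.span_singleton_le_iff_mem] at hx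
    exact hx
  obtain ⟨c, rfl⟩ := hu
  have hxp : (x : 𝓞 K) ∈ p := by
    have h1 : (((l : ℤ) * c : ℤ) : 𝓞 K) * ω ∈ p := by
      push_cast
      rw [mul_assoc]
      exact p.mul_mem_right _ hlp
    exact (p.add_mem_iff_left h1).1 hmem
  have hlx : (l : ℤ) ∣ x := by
    by_contra hndvd
    have hcop : IsCoprime (l : ℤ) x := by
      rw [Prime.coprime_iff_not_dvd (Nat.prime_iff_prime_int.1 hl)]
      exact hndvd
    obtain ⟨a, b, hab⟩ := hcop
    apply hp.ne_top
    rw [Ideal.eq_top_iff_one]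
    have h2 : ((a * l + b * x : ℤ) : 𝓞 K) ∈ p := by
      push_cast
      exact p.add_mem (p.mul_mem_left _ hlp) (p.mul_mem_left _ hxp)
    rw [hab] at h2
    simpa using h2
  obtain ⟨e, rfl⟩ := hlx
  rw [Ideal.dvd_iff_le, Ideal.span_singleton_le_iff_mem, Ideal.mem_span_singleton]
  exact ⟨(e : 𝓞 K) + (c : 𝓞 K) * ω, by push_cast; ring⟩

end COP

open SPL COP

theorem t_COP : S_COP := by
  classical
  intro K _ _ d ω σ h Pf Af R P A ρ hSpl x₁ u₁ x₂ u₂ hβ hγ
  obtain ⟨hPf0, hAf0, hPf, hAf, hρ0, hR, hRs, hRN, hP, hA, hram, hcopr⟩ := hSpl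
  -- primitivity statements
  have hdP : P ∣ Pf := ⟨R, by rw [hP]; ring⟩
  have hdA : A ∣ Af := ⟨R, by rw [hA]; ring⟩
  have hdR : R ∣ Pf := ⟨P, hP⟩
  have primP : ∀ n : ℕ, 2 ≤ n → ¬ P ≤ Ideal.span {(n : 𝓞 K)} := fun n hn hle =>
    hPf n hn ((le_of_dvd hdP).trans hle)
  have primA : ∀ n : ℕ, 2 ≤ n → ¬ A ≤ Ideal.span {(n : 𝓞 K)} := fun n hn hle =>
    hAf n hn ((le_of_dvd hdA).trans hle)
  have primR : ∀ n : ℕ, 2 ≤ n → ¬ R ≤ Ideal.span {(n : 𝓞 K)} := fun n hn hle =>
    hPf n hn ((le_of_dvd hdR).trans hle)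
  apply Nat.coprime_of_dvd
  intro l hl hl1 hl2
  have hlu₁ : (l : ℤ) ∣ u₁ := (Int.natCast_dvd_natCast.2 hl2).trans (Int.gcd_dvd_left _ _)
  have hlu₂ : (l : ℤ) ∣ u₂ := (Int.natCast_dvd_natCast.2 hl2).trans (Int.gcd_dvd_right _ _)
  have hl1' : l ∣ Ideal.absNorm R ∨ l ∣ Ideal.absNorm P ∨ l ∣ Ideal.absNorm A := by
    rw [hRN]
    rcases (Nat.Prime.dvd_mul hl).1 hl1 with h1 | h1
    · rcases (Nat.Prime.dvd_mul hl).1 h1 with h2 | h2
      · exact Or.inl h2
      · exact Or.inr (Or.inl h2)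
    · exact Or.inr (Or.inr h1)
  -- a general fact on primes dividing two ideals among `R`, `P` etc.
  rcases hl1' with hlR | hlP | hlA
  · -- the case `p ∣ R`
    obtain ⟨p, hp, hp0, hlp, hpR⟩ := exists_prime h hl hlR
    have hpp : Prime p := prime_of hp hp0
    have hpl := mul_map_eq h hp hl hlp hpR primR
    have hpR' : p.map σ ∣ R := by
      have := map_dvd (σ := σ) hpR
      rwa [hRs] at this
    have hps : p.map σ = p := by
      by_contra hne
      exact norm_dvd h hp hp0 primR (mul_dvd_of h hp hp0 hne hpR hpR')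
    have hβl := span_dvd (ω := ω) hp hl hlp hlu₁ (by rw [hβ]; exact Dvd.dvd.mul_left hpR _)
    rw [hβ, ← hpl, hps, ← sq] at hβl
    have hnP : ¬ p ∣ P := by
      intro hh
      apply norm_dvd h hp hp0 hPf
      rw [hP, hps]
      exact mul_dvd_mul hpR hh
    have hnA : ¬ p ∣ A := by
      intro hh
      apply norm_dvd h hp hp0 hAf
      rw [hA, hps]
      exact mul_dvd_mul hpR hh
    have hnA' : ¬ p ∣ A.map σ := by
      rw [dvd_map_iff h, hps]
      exact hnA
    have hn : ¬ p ∣ P ^ 2 * A.map σ := by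
      intro hh
      rcases hpp.dvd_or_dvd hh with h1 | h1
      · exact hnP (hpp.dvd_of_dvd_pow h1)
      · exact hnA' h1
    have h2R : p ^ 2 ∣ R := hpp.pow_dvd_of_dvd_mul_left 2 hn hβl
    apply norm_dvd h hp hp0 primR
    rw [hps, ← sq]
    exact h2R
  · -- the case `p ∣ P`
    obtain ⟨p, hp, hp0, hlp, hpP⟩ := exists_prime h hl hlP
    have hpp : Prime p := prime_of hp hp0
    have hpl := mul_map_eq h hp hl hlp hpP primP
    have hβl := span_dvd (ω := ω) hp hl hlp hlu₁ (by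
      rw [hβ, mul_assoc]; exact Dvd.dvd.mul_right (hpP.trans (dvd_pow_self P two_ne_zero)) _)
    have hγl := span_dvd (ω := ω) hp hl hlp hlu₂ (by
      rw [hγ]; exact Dvd.dvd.mul_right (Dvd.dvd.mul_left hpP _) _)
    rw [hβ, ← hpl] at hβl
    rw [hγ, ← hpl] at hγl
    by_cases hps : p.map σ = p
    · rw [hps, ← sq] at hγl
      have hnR : ¬ p ∣ R := by
        intro hh
        apply norm_dvd h hp hp0 hPf
        rw [hP, hps]
        exact mul_dvd_mul hh hpP
      have hnA : ¬ p ∣ A := fun hh => hram p hp hp0 hps ⟨le_of_dvd hpP, le_of_dvd hh⟩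
      have h1 : p ^ 2 ∣ A ^ 2 * P := hpp.pow_dvd_of_dvd_mul_right 2 hnR hγl
      have h2 : p ^ 2 ∣ P := hpp.pow_dvd_of_dvd_mul_left 2 (fun hh => hnA (hpp.dvd_of_dvd_pow hh)) h1
      apply norm_dvd h hp hp0 primP
      rw [hps, ← sq]
      exact h2
    · have hp' : (p.map σ).IsPrime := map_prime h hp
      have hpp' : Prime (p.map σ) := by
        apply prime_of hp'
        intro h0
        apply hp0
        have := map_map h p
        rw [h0, Ideal.map_bot] at this
        exact this.symm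
      have hnP : ¬ p.map σ ∣ P := fun hh => norm_dvd h hp hp0 primP (mul_dvd_of h hp hp0 hps hpP hh)
      have hnR : ¬ p.map σ ∣ R := by
        intro hh
        have hh' : p ∣ R := by
          have := map_dvd (σ := σ) hh
          rwa [hRs, map_map h] at this
        exact norm_dvd h hp hp0 primR (mul_dvd_of h hp hp0 hps hh' hh)
      have h1 : p.map σ ∣ P ^ 2 * A.map σ * R := (dvd_mul_left _ _).trans hβl
      have h2 : p.map σ ∣ A ^ 2 * P * R := (dvd_mul_left _ _).trans hγl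
      have h3 : p ∣ A := by
        rcases hpp'.dvd_or_dvd h1 with h3 | h3
        · rcases hpp'.dvd_or_dvd h3 with h4 | h4
          · exact absurd (hpp'.dvd_of_dvd_pow h4) hnP
          · rw [dvd_map_iff h, map_map h] at h4
            exact h4
        · exact absurd h3 hnR
      have h4 : p.map σ ∣ A := by
        rcases hpp'.dvd_or_dvd h2 with h5 | h5
        · rcases hpp'.dvd_or_dvd h5 with h6 | h6
          · exact hpp'.dvd_of_dvd_pow h6
          · exact absurd h6 hnP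
        · exact absurd h5 hnR
      exact norm_dvd h hp hp0 primA (mul_dvd_of h hp hp0 hps h3 h4)
  · -- the case `p ∣ A`
    obtain ⟨p, hp, hp0, hlp, hpA⟩ := exists_prime h hl hlA
    have hpp : Prime p := prime_of hp hp0
    have hpl := mul_map_eq h hp hl hlp hpA primA
    have hp' : (p.map σ).IsPrime := map_prime h hp
    have hp0' : p.map σ ≠ ⊥ := by
      intro h0
      apply hp0
      have := map_map h p
      rw [h0, Ideal.map_bot] at this
      exact this.symm
    have hpp' : Prime (p.map σ) := prime_of hp' hp0'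
    have hlp' : (l : 𝓞 K) ∈ p.map σ := by
      have := Ideal.mem_map_of_mem σ hlp
      rwa [map_natCast] at this
    have hβl := span_dvd (ω := ω) hp' hl hlp' hlu₁ (by
      rw [hβ]; exact Dvd.dvd.mul_right (Dvd.dvd.mul_left (map_dvd hpA) _) _)
    have hγl := span_dvd (ω := ω) hp hl hlp hlu₂ (by
      rw [hγ, mul_assoc]; exact Dvd.dvd.mul_right (hpA.trans (dvd_pow_self A two_ne_zero)) _)
    rw [hβ, ← hpl] at hβl
    rw [hγ, ← hpl] at hγl
    by_cases hps : p.map σ = p
    · rw [hps, ← sq] at hβl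
      have hnR : ¬ p ∣ R := by
        intro hh
        apply norm_dvd h hp hp0 hAf
        rw [hA, hps]
        exact mul_dvd_mul hh hpA
      have hnP : ¬ p ∣ P := fun hh => hram p hp hp0 hps ⟨le_of_dvd hh, le_of_dvd hpA⟩
      have h1 : p ^ 2 ∣ P ^ 2 * A.map σ := hpp.pow_dvd_of_dvd_mul_right 2 hnR hβl
      have h2 : p ^ 2 ∣ A.map σ :=
        hpp.pow_dvd_of_dvd_mul_left 2 (fun hh => hnP (hpp.dvd_of_dvd_pow hh)) h1
      rw [dvd_map_iff h, Ideal.map_pow, hps] at h2
      apply norm_dvd h hp hp0 primA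
      rw [hps, ← sq]
      exact h2
    · have hnA : ¬ p.map σ ∣ A := fun hh => norm_dvd h hp hp0 primA (mul_dvd_of h hp hp0 hps hpA hh)
      have hnR : ¬ p.map σ ∣ R := by
        intro hh
        have hh' : p ∣ R := by
          have := map_dvd (σ := σ) hh
          rwa [hRs, map_map h] at this
        exact norm_dvd h hp hp0 primR (mul_dvd_of h hp hp0 hps hh' hh)
      have hnR' : ¬ p ∣ R := by
        intro hh
        have := map_dvd (σ := σ) hh
        rw [hRs] at this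
        exact hnR this
      have h1 : p ∣ P ^ 2 * A.map σ * R := (dvd_mul_right _ _).trans hβl
      have h2 : p.map σ ∣ A ^ 2 * P * R := (dvd_mul_left _ _).trans hγl
      have h3 : p ∣ P := by
        rcases hpp.dvd_or_dvd h1 with h3 | h3
        · rcases hpp.dvd_or_dvd h3 with h4 | h4
          · exact hpp.dvd_of_dvd_pow h4
          · rw [dvd_map_iff h] at h4
            exact absurd h4 hnA
        · exact absurd h3 hnR'
      have h4 : p.map σ ∣ P := by
        rcases hpp'.dvd_or_dvd h2 with h5 | h5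
        · rcases hpp'.dvd_or_dvd h5 with h6 | h6
          · exact absurd (hpp'.dvd_of_dvd_pow h6) hnA
          · exact h6
        · exact absurd h5 hnR
      exact norm_dvd h hp hp0 primP (mul_dvd_of h hp hp0 hps h3 h4)

end Pool.Agent.T2h80.F5
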