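import Pool.Agent.T2h80.F5.Stm

set_option autoImplicit false
set_option linter.all false

/-! # CUB: colours of the roots of a binary cubic form modulo `p` (helper60) -/

namespace Pool.Agent.T2h80.F5

open Finset Polynomial

namespace CUB

variable {k : Type} [Field k] [DecidableEq k]

/-- the polynomial in one variable -/
noncomputable def pol (a b c d : k) : k[X] := C a + C b * X + C c * X ^ 2 + C d * X ^ 3

lemma pol_eval (a b c d t : k) : (pol a b c d).eval t = a + b * t + c * t ^ 2 + d * t ^ 3 := by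
  unfold pol
  simp

lemma pol_ne {a b c d : k} (h : ¬ (a = 0 ∧ b = 0 ∧ c = 0 ∧ d = 0)) : pol a b c d ≠ 0 := by
  intro h0
  apply h
  have h1 : ∀ n, (pol a b c d).coeff n = 0 := fun n => by rw [h0, coeff_zero]
  have e0 := h1 0
  have e1 := h1 1
  have e2 := h1 2
  have e3 := h1 3
  unfold pol at e0 e1 e2 e3
  simp [coeff_X, coeff_C] at e0 e1 e2 e3
  exact ⟨e0, e1, e2, e3⟩

lemma pol_deg (a b c d : k) : (pol a b c d).natDegree ≤ 3 := by
  unfold pol
  compute_degree

lemma pol_deg' (a b c : k) : (pol a b c 0).natDegree ≤ 2 := by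
  unfold pol
  simp only [map_zero, zero_mul, add_zero]
  compute_degree

/-- the finite set of the roots -/
noncomputable def S (a b c d : k) : Finset (Option k) :=
  (pol a b c d).roots.toFinset.map Function.Embedding.some ∪ (if d = 0 then {none} else ∅)

lemma S_card {a b c d : k} (h : ¬ (a = 0 ∧ b = 0 ∧ c = 0 ∧ d = 0)) : (S a b c d).card ≤ 3 := by
  unfold S
  have h0 := pol_ne h
  have h1 : (pol a b c d).roots.toFinset.card ≤ (pol a b c d).natDegree :=
    (Multiset.toFinset_card_le _).trans (card_roots' _)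
  refine (Finset.card_union_le _ _).trans ?_
  rw [Finset.card_map]
  by_cases hd : d = 0
  · rw [if_pos hd, Finset.card_singleton]
    subst hd
    have h2 := pol_deg' a b c
    omega
  · rw [if_neg hd, Finset.card_empty]
    have h2 := pol_deg a b c d
    omega

/-- the class of a vector -/
noncomputable def cls (x : k × k) : Option k := if x.1 = 0 then none else some (x.2 / x.1)

lemma cls_mem {a b c d : k} (h : ¬ (a = 0 ∧ b = 0 ∧ c = 0 ∧ d = 0)) {x : k × k}
    (hx : ¬ (x.1 = 0 ∧ x.2 = 0))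
    (hr : a * x.1 ^ 3 + b * x.1 ^ 2 * x.2 + c * x.1 * x.2 ^ 2 + d * x.2 ^ 3 = 0) :
    cls x ∈ S a b c d := by
  unfold cls S
  by_cases h1 : x.1 = 0
  · rw [if_pos h1]
    have h2 : x.2 ≠ 0 := fun h2 => hx ⟨h1, h2⟩
    have h3 : d = 0 := by
      rw [h1] at hr
      have h4 : d * x.2 ^ 3 = 0 := by linear_combination hr
      rcases mul_eq_zero.1 h4 with h5 | h5
      · exact h5
      · exact absurd (pow_eq_zero_iff (by norm_num) |>.1 h5) h2
    rw [if_pos h3]
    exact Finset.mem_union_right _ (Finset.mem_singleton_self _)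
  · rw [if_neg h1]
    apply Finset.mem_union_left
    rw [Finset.mem_map]
    refine ⟨x.2 / x.1, ?_, rfl⟩
    rw [Multiset.mem_toFinset, mem_roots (pol_ne h), IsRoot.def, pol_eval]
    field_simp
    linear_combination hr

lemma det_zero {x y : k × k} (h : cls x = cls y) : x.1 * y.2 - x.2 * y.1 = 0 := by
  unfold cls at h
  by_cases h1 : x.1 = 0
  · by_cases h2 : y.1 = 0
    · rw [h1, h2]
      ring
    · rw [if_pos h1, if_neg h2] at h
      exact absurd h (by simp)
  · by_cases h2 : y.1 = 0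
    · rw [if_neg h1, if_pos h2] at h
      exact absurd h (by simp)
    · rw [if_neg h1, if_neg h2] at h
      have h3 := Option.some.inj h
      rw [div_eq_div_iff h1 h2] at h3
      linear_combination -h3

end CUB

open CUB in
theorem t_CUB : S_CUB := by
  intro p hp c₀ c₁ c₂ c₃ hc
  have : Fact p.Prime := ⟨hp⟩
  have hz : ∀ n : ℤ, (p : ℤ) ∣ n ↔ (n : ZMod p) = 0 := fun n =>
    (ZMod.intCast_zmod_eq_zero_iff_dvd n p).symm
  have hc' : ¬ ((c₀ : ZMod p) = 0 ∧ (c₁ : ZMod p) = 0 ∧ (c₂ : ZMod p) = 0 ∧ (c₃ : ZMod p) = 0) := by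
    rw [← hz, ← hz, ← hz, ← hz]
    exact hc
  have hcard := S_card hc'
  obtain ⟨ι, hι⟩ : ∃ ι : Option (ZMod p) → Fin 3,
      Set.InjOn ι (S (c₀ : ZMod p) c₁ c₂ c₃ : Finset (Option (ZMod p))) := by
    classical
    have h1 : Fintype.card (S (c₀ : ZMod p) c₁ c₂ c₃) ≤ Fintype.card (Fin 3) := by
      rw [Fintype.card_coe, Fintype.card_fin]
      exact hcard
    obtain ⟨g⟩ := Function.Embedding.nonempty_of_card_le h1
    refine ⟨fun a => if h : a ∈ S (c₀ : ZMod p) c₁ c₂ c₃ then g ⟨a, h⟩ else 0, ?_⟩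
    intro a ha b hb hab
    simp only at hab
    rw [dif_pos (Finset.mem_coe.1 ha), dif_pos (Finset.mem_coe.1 hb)] at hab
    exact congrArg Subtype.val (g.injective hab)
  refine ⟨fun x => ι (cls ((x.1 : ZMod p), (x.2 : ZMod p))), ?_⟩
  intro x y hx hy hxr hyr hxy
  rw [hz, hz] at hx hy
  rw [hz] at hxr hyr ⊢
  push_cast at hxr hyr ⊢
  have h1 := cls_mem hc' (x := ((x.1 : ZMod p), (x.2 : ZMod p))) hx hxr
  have h2 := cls_mem hc' (x := ((y.1 : ZMod p), (y.2 : ZMod p))) hy hyr
  exact det_zero (hι h1 h2 hxy)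

end Pool.Agent.T2h80.F5
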