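import Pool.Agent.T2h80.F5.Stm

set_option autoImplicit false

namespace Pool.Agent.T2h80.F5

open Finset

namespace DCaux

lemma floor_half {z : ℝ} (hz : 1 ≤ z) : z / 2 ≤ (⌊z⌋₊ : ℝ) := by
  have h1 : (1 : ℝ) ≤ (⌊z⌋₊ : ℝ) := by exact_mod_cast Nat.le_floor (by simpa using hz)
  have h2 : z < (⌊z⌋₊ : ℝ) + 1 := Nat.lt_floor_add_one z
  linarith

/-- consequences of `Par` -/
lemma par_real {N ρ M A G V W : ℕ} (h : Par N ρ M A G V W) :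
    (ρ : ℝ) * G ^ 2 * V ^ 2 ≤ 64 * M ∧ (ρ : ℝ) * G ^ 2 * W ^ 2 ≤ 64 * A ∧
      (M : ℝ) * W ^ 2 ≤ 8 * A * V ^ 2 := by
  obtain ⟨h0, h1, h2, h3, h4, h5, h6, h7, h8, h9, h10, h11⟩ := h
  have c0 : (0 : ℝ) < N := by exact_mod_cast h0
  have c1 : (0 : ℝ) < ρ := by exact_mod_cast h1
  have c2 : (0 : ℝ) < M := by exact_mod_cast h2
  have c3 : (0 : ℝ) < A := by exact_mod_cast h3
  have c7 : ((ρ : ℝ) * M) ^ 2 ≤ 2 * N := by exact_mod_cast h7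
  have c8 : ((ρ : ℝ) * A) ^ 2 ≤ 2 * N := by exact_mod_cast h8
  have c9 : (N : ℝ) * G ^ 2 * V ^ 2 ≤ 32 * ρ * M ^ 2 * A := by exact_mod_cast h9
  have c10 : (N : ℝ) * G ^ 2 * W ^ 2 ≤ 32 * ρ * A ^ 2 * M := by exact_mod_cast h10
  have c11 : (M : ℝ) * W ^ 2 ≤ 8 * A * V ^ 2 := by exact_mod_cast h11
  have hN : (ρ : ℝ) ^ 2 * M * A ≤ 2 * N := by
    nlinarith [sq_nonneg ((ρ : ℝ) * M - ρ * A)]
  refine ⟨?_, ?_, c11⟩
  · have e1 : (ρ : ℝ) ^ 2 * M * A * (G ^ 2 * V ^ 2) ≤ 2 * N * (G ^ 2 * V ^ 2) :=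
      mul_le_mul_of_nonneg_right hN (by positivity)
    have e2 : ((ρ : ℝ) * M * A) * ((ρ : ℝ) * G ^ 2 * V ^ 2) ≤ ((ρ : ℝ) * M * A) * (64 * M) := by
      calc ((ρ : ℝ) * M * A) * ((ρ : ℝ) * G ^ 2 * V ^ 2) = (ρ : ℝ) ^ 2 * M * A * (G ^ 2 * V ^ 2) := by ring
        _ ≤ 2 * (N : ℝ) * ((G : ℝ) ^ 2 * (V : ℝ) ^ 2) := e1
        _ = 2 * ((N : ℝ) * G ^ 2 * V ^ 2) := by ring
        _ ≤ 2 * (32 * (ρ : ℝ) * M ^ 2 * A) := by linarith
        _ = ((ρ : ℝ) * M * A) * (64 * M) := by ring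
    exact le_of_mul_le_mul_left e2 (by positivity)
  · have e1 : (ρ : ℝ) ^ 2 * M * A * (G ^ 2 * W ^ 2) ≤ 2 * N * (G ^ 2 * W ^ 2) :=
      mul_le_mul_of_nonneg_right hN (by positivity)
    have e2 : ((ρ : ℝ) * M * A) * ((ρ : ℝ) * G ^ 2 * W ^ 2) ≤ ((ρ : ℝ) * M * A) * (64 * A) := by
      calc ((ρ : ℝ) * M * A) * ((ρ : ℝ) * G ^ 2 * W ^ 2) = (ρ : ℝ) ^ 2 * M * A * (G ^ 2 * W ^ 2) := by ring
        _ ≤ 2 * (N : ℝ) * ((G : ℝ) ^ 2 * (W : ℝ) ^ 2) := e1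
        _ = 2 * ((N : ℝ) * G ^ 2 * W ^ 2) := by ring
        _ ≤ 2 * (32 * (ρ : ℝ) * A ^ 2 * M) := by linarith
        _ = ((ρ : ℝ) * M * A) * (64 * A) := by ring
    exact le_of_mul_le_mul_left e2 (by positivity)

/-- `iS ≥ 10 nS`, `iS ≤ 20 nS` etc. -/
lemma iS_bounds {N ρ M A G V W : ℕ} (h : Par N ρ M A G V W) :
    0 < nS ρ M G V ∧ 10 * nS ρ M G V ≤ (iS ρ M G V : ℝ) ∧ (iS ρ M G V : ℝ) ≤ 20 * nS ρ M G V := by
  obtain ⟨p1, p2, p3⟩ := par_real h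
  obtain ⟨h0, h1, h2, h3, h4, h5, h6, h7, h8, h9, h10, h11⟩ := h
  have c1 : (0 : ℝ) < ρ := by exact_mod_cast h1
  have c2 : (0 : ℝ) < M := by exact_mod_cast h2
  have c3 : (0 : ℝ) < A := by exact_mod_cast h3
  have c4 : (0 : ℝ) < G := by exact_mod_cast h4
  have c5 : (1 : ℝ) ≤ V := by exact_mod_cast h5
  have c6 : (1 : ℝ) ≤ W := by exact_mod_cast h6
  have hpos : 0 < nS ρ M G V := by unfold nS; positivity
  have hge : 1 / 8 ≤ nS ρ M G V := by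
    unfold nS
    rw [le_div_iff₀ c4]
    have h12 : (G : ℝ) ≤ 8 * Real.sqrt ((M : ℝ) / ρ) := by
      have : (G : ℝ) ^ 2 ≤ 64 * ((M : ℝ) / ρ) := by
        rw [← mul_div_assoc, le_div_iff₀ c1]
        have : (ρ : ℝ) * G ^ 2 * 1 ≤ (ρ : ℝ) * G ^ 2 * V ^ 2 :=
          mul_le_mul_of_nonneg_left (by nlinarith) (by positivity)
        nlinarith
      calc (G : ℝ) = Real.sqrt ((G : ℝ) ^ 2) := (Real.sqrt_sq c4.le).symm
        _ ≤ Real.sqrt (64 * ((M : ℝ) / ρ)) := Real.sqrt_le_sqrt this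
        _ = 8 * Real.sqrt ((M : ℝ) / ρ) := by
          rw [Real.sqrt_mul (by norm_num)]
          congr 1
          rw [show (64 : ℝ) = 8 ^ 2 by norm_num]
          exact Real.sqrt_sq (by norm_num)
    have h13 : Real.sqrt ((M : ℝ) / ρ) ≤ V * Real.sqrt ((M : ℝ) / ρ) :=
      le_mul_of_one_le_left (Real.sqrt_nonneg _) c5
    linarith
  refine ⟨hpos, ?_, ?_⟩
  · have := floor_half (z := 20 * nS ρ M G V) (by linarith)
    unfold iS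
    linarith
  · unfold iS
    exact Nat.floor_le (by positivity)

lemma iT_bounds {N ρ M A G V W : ℕ} (h : Par N ρ M A G V W) :
    0 < nT ρ M A G V ∧ 20 * nT ρ M A G V ≤ (iT ρ M A G V : ℝ) ∧
      (iT ρ M A G V : ℝ) ≤ 40 * nT ρ M A G V := by
  obtain ⟨p1, p2, p3⟩ := par_real h
  obtain ⟨h0, h1, h2, h3, h4, h5, h6, h7, h8, h9, h10, h11⟩ := h
  have c1 : (0 : ℝ) < ρ := by exact_mod_cast h1
  have c2 : (0 : ℝ) < M := by exact_mod_cast h2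
  have c3 : (0 : ℝ) < A := by exact_mod_cast h3
  have c4 : (0 : ℝ) < G := by exact_mod_cast h4
  have c5 : (1 : ℝ) ≤ V := by exact_mod_cast h5
  have c6 : (1 : ℝ) ≤ W := by exact_mod_cast h6
  have hpos : 0 < nT ρ M A G V := by unfold nT; positivity
  have hge : 1 / 40 ≤ nT ρ M A G V := by
    unfold nT
    rw [div_le_div_iff₀ (by norm_num) (by positivity)]
    have q1 : (ρ : ℝ) * G ^ 2 ≤ 64 * A := by
      have : (ρ : ℝ) * G ^ 2 * 1 ≤ (ρ : ℝ) * G ^ 2 * W ^ 2 :=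
        mul_le_mul_of_nonneg_left (by nlinarith) (by positivity)
      linarith
    have q2 : (M : ℝ) ≤ 8 * A * V ^ 2 := by
      have : (M : ℝ) * 1 ≤ (M : ℝ) * W ^ 2 :=
        mul_le_mul_of_nonneg_left (by nlinarith) (by positivity)
      linarith
    have q3 : ((ρ : ℝ) * G ^ 2) * M ≤ (64 * A) * (8 * A * V ^ 2) :=
      mul_le_mul q1 q2 c2.le (by positivity)
    have q4 : (G : ℝ) * Real.sqrt ((ρ : ℝ) * M) ≤ A * V * 40 := by
      apply le_of_sq_le_sq _ (by positivity)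
      rw [mul_pow, Real.sq_sqrt (by positivity)]
      have : (0 : ℝ) ≤ (A * V) ^ 2 := by positivity
      nlinarith
    linarith
  refine ⟨hpos, ?_, ?_⟩
  · have := floor_half (z := 40 * nT ρ M A G V) (by linarith)
    unfold iT
    linarith
  · unfold iT
    exact Nat.floor_le (by positivity)

set_option maxHeartbeats 1000000 in
lemma sizes (sR sM A G V W v w e x y R r k l j ν τ : ℝ) (h1 : 0 < sR) (h2 : 0 < sM) (h3 : 0 < A)
    (h4 : 0 < G) (h5 : 0 < V) (h6 : 0 < W) (hν : ν = V * (sM / sR) / G)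
    (hτ : τ = A * V / (G * (sR * sM))) (P3 : sM ^ 2 * W ^ 2 ≤ 8 * A * V ^ 2)
    (hv : V ≤ v) (hv2 : v ≤ 2 * V) (hw : W ≤ w) (hw2 : w ≤ 2 * W) (he : 0 ≤ e)
    (heb : e * sM ^ 2 ≤ (2 * G) ^ 2 * sR ^ 2 * v ^ 3 * w) (hx : |x| ≤ 40 * ν) (hy : |y| ≤ 80 * τ)
    (hR : |R| * (10 * ν) ≤ v ^ 3 * w) (hr : |r| * (20 * τ) ≤ v ^ 3)
    (hk : e * y = k * v ^ 3 - R * w ^ 2)
    (hl : e * x = l * v ^ 3 - 2 * R * v ^ 2 - r * w ^ 3) (hj : 5 * R = 2 * l * v + j * w) :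
    |k| ≤ 2000 * (G * sR * V * W * A / (sM ^ 2 * sM)) ∧ |l| ≤ 2000 * (G * sR * V * W / sM) ∧
      |j| ≤ 2000 * (G * sR * V ^ 2 / sM) ∧ |r| ≤ 2000 * (G * sR * V ^ 2 * sM / A) := by
  have hνp : 0 < ν := by rw [hν]; positivity
  have hτp : 0 < τ := by rw [hτ]; positivity
  have hvp : 0 < v := by linarith
  have hwp : 0 < w := by linarith
  have hv3 : 0 < v ^ 3 := by positivity
  -- bounds
  have heb' : e ≤ 8 * G ^ 2 * W * sR ^ 2 / sM ^ 2 * v ^ 3 := by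
    have : e ≤ (2 * G) ^ 2 * sR ^ 2 * v ^ 3 * w / sM ^ 2 := by
      rw [le_div_iff₀ (by positivity)]; exact heb
    refine this.trans ?_
    have : (2 * G) ^ 2 * sR ^ 2 * v ^ 3 * w / sM ^ 2 ≤
        (2 * G) ^ 2 * sR ^ 2 * v ^ 3 * (2 * W) / sM ^ 2 := by gcongr
    refine this.trans (le_of_eq ?_)
    ring
  have hR' : |R| ≤ v ^ 3 * w / (10 * ν) := by
    rw [le_div_iff₀ (by positivity)]; exact hR
  have hr' : |r| ≤ v ^ 3 / (20 * τ) := by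
    rw [le_div_iff₀ (by positivity)]; exact hr
  have aK : 8 * G ^ 2 * W * sR ^ 2 / sM ^ 2 * (80 * τ) =
      640 * (G * sR * V * W * A / (sM ^ 2 * sM)) := by
    rw [hτ]; field_simp; ring
  have aL : 8 * G ^ 2 * W * sR ^ 2 / sM ^ 2 * (40 * ν) = 320 * (G * sR * V * W / sM) := by
    rw [hν]; field_simp; ring
  have bKK : 8 * W ^ 3 / (10 * ν) ≤ 6.4 * (G * sR * V * W * A / (sM ^ 2 * sM)) := by
    have e1 : 8 * W ^ 3 / (10 * ν) = 0.8 * (G * sR * W / (V * sM * sM ^ 2)) * (sM ^ 2 * W ^ 2) := by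
      rw [hν]; field_simp; ring
    have e2 : 0.8 * (G * sR * W / (V * sM * sM ^ 2)) * (8 * A * V ^ 2) =
        6.4 * (G * sR * V * W * A / (sM ^ 2 * sM)) := by
      field_simp; ring
    rw [e1, ← e2]
    gcongr
  have bLL : 8 * V ^ 2 * W / (5 * ν) = 1.6 * (G * sR * V * W / sM) := by
    rw [hν]; field_simp; ring
  have cLL : 8 * W ^ 3 / (20 * τ) ≤ 3.2 * (G * sR * V * W / sM) := by
    have e1 : 8 * W ^ 3 / (20 * τ) = 0.4 * (G * sR * W / (A * V * sM)) * (sM ^ 2 * W ^ 2) := by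
      rw [hτ]; field_simp; ring
    have e2 : 0.4 * (G * sR * W / (A * V * sM)) * (8 * A * V ^ 2) =
        3.2 * (G * sR * V * W / sM) := by
      field_simp; ring
    rw [e1, ← e2]
    gcongr
  have bJJ : 4 * V ^ 3 / ν = 4 * (G * sR * V ^ 2 / sM) := by
    rw [hν]; field_simp
  have bRR : 8 * V ^ 3 / (20 * τ) = 0.4 * (G * sR * V ^ 2 * sM / A) := by
    rw [hτ]; field_simp; ring
  have v3b : v ^ 3 ≤ 8 * V ^ 3 := by
    calc v ^ 3 ≤ (2 * V) ^ 3 := by gcongr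
      _ = 8 * V ^ 3 := by ring
  have w3b : w ^ 3 ≤ 8 * W ^ 3 := by
    calc w ^ 3 ≤ (2 * W) ^ 3 := by gcongr
      _ = 8 * W ^ 3 := by ring
  have v2w : v ^ 2 * w ≤ 8 * V ^ 2 * W := by
    calc v ^ 2 * w ≤ (2 * V) ^ 2 * (2 * W) := by gcongr
      _ = 8 * V ^ 2 * W := by ring
  -- k
  have rk : |k| ≤ 646.4 * (G * sR * V * W * A / (sM ^ 2 * sM)) := by
    have e0 : |k| * v ^ 3 = |e * y + R * w ^ 2| := by
      rw [show e * y + R * w ^ 2 = k * v ^ 3 by linarith, abs_mul, abs_of_pos hv3]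
    have e1 : |e * y + R * w ^ 2| ≤ e * |y| + |R| * w ^ 2 := by
      refine (abs_add_le _ _).trans (le_of_eq ?_)
      rw [abs_mul, abs_mul, abs_of_nonneg he, abs_of_pos (show (0:ℝ) < w ^ 2 by positivity)]
    have e2 : e * |y| ≤ 8 * G ^ 2 * W * sR ^ 2 / sM ^ 2 * v ^ 3 * (80 * τ) :=
      mul_le_mul heb' hy (abs_nonneg _) (by positivity)
    have e3 : |R| * w ^ 2 ≤ v ^ 3 * (8 * W ^ 3 / (10 * ν)) := by
      calc |R| * w ^ 2 ≤ v ^ 3 * w / (10 * ν) * w ^ 2 := by gcongr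
        _ = v ^ 3 * (w ^ 3 / (10 * ν)) := by ring
        _ ≤ v ^ 3 * (8 * W ^ 3 / (10 * ν)) := by gcongr
    have e4 : |k| * v ^ 3 ≤ (646.4 * (G * sR * V * W * A / (sM ^ 2 * sM))) * v ^ 3 := by
      have : 8 * G ^ 2 * W * sR ^ 2 / sM ^ 2 * v ^ 3 * (80 * τ) =
        v ^ 3 * (640 * (G * sR * V * W * A / (sM ^ 2 * sM))) := by rw [← aK]; ring
      have e5 : v ^ 3 * (8 * W ^ 3 / (10 * ν)) ≤
        v ^ 3 * (6.4 * (G * sR * V * W * A / (sM ^ 2 * sM))) := by gcongr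
      rw [e0]
      linarith
    exact le_of_mul_le_mul_right e4 hv3
  have rl : |l| ≤ 324.8 * (G * sR * V * W / sM) := by
    have e0 : |l| * v ^ 3 = |e * x + 2 * R * v ^ 2 + r * w ^ 3| := by
      rw [show e * x + 2 * R * v ^ 2 + r * w ^ 3 = l * v ^ 3 by linarith, abs_mul, abs_of_pos hv3]
    have e1 : |e * x + 2 * R * v ^ 2 + r * w ^ 3| ≤ e * |x| + 2 * |R| * v ^ 2 + |r| * w ^ 3 := by
      refine (abs_add_three _ _ _).trans (le_of_eq ?_)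
      rw [abs_mul, abs_mul, abs_mul, abs_mul, abs_of_nonneg he,
        abs_of_pos (show (0:ℝ) < w ^ 3 by positivity), abs_of_pos (show (0:ℝ) < v ^ 2 by positivity),
        abs_of_pos (show (0:ℝ) < 2 by norm_num)]
    have e2 : e * |x| ≤ 8 * G ^ 2 * W * sR ^ 2 / sM ^ 2 * v ^ 3 * (40 * ν) :=
      mul_le_mul heb' hx (abs_nonneg _) (by positivity)
    have e3 : 2 * |R| * v ^ 2 ≤ v ^ 3 * (8 * V ^ 2 * W / (5 * ν)) := by
      calc 2 * |R| * v ^ 2 ≤ 2 * (v ^ 3 * w / (10 * ν)) * v ^ 2 := by gcongr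
        _ = v ^ 3 * (v ^ 2 * w / (5 * ν)) := by field_simp; ring
        _ ≤ v ^ 3 * (8 * V ^ 2 * W / (5 * ν)) := by gcongr
    have e3' : |r| * w ^ 3 ≤ v ^ 3 * (8 * W ^ 3 / (20 * τ)) := by
      calc |r| * w ^ 3 ≤ v ^ 3 / (20 * τ) * w ^ 3 := by gcongr
        _ = v ^ 3 * (w ^ 3 / (20 * τ)) := by ring
        _ ≤ v ^ 3 * (8 * W ^ 3 / (20 * τ)) := by gcongr
    have e4 : |l| * v ^ 3 ≤ (324.8 * (G * sR * V * W / sM)) * v ^ 3 := by
      have e6 : 8 * G ^ 2 * W * sR ^ 2 / sM ^ 2 * v ^ 3 * (40 * ν) =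
        v ^ 3 * (320 * (G * sR * V * W / sM)) := by rw [← aL]; ring
      have e5 : v ^ 3 * (8 * W ^ 3 / (20 * τ)) ≤
        v ^ 3 * (3.2 * (G * sR * V * W / sM)) := by gcongr
      have e7 : v ^ 3 * (8 * V ^ 2 * W / (5 * ν)) = v ^ 3 * (1.6 * (G * sR * V * W / sM)) := by
        rw [bLL]
      rw [e0]
      linarith
    exact le_of_mul_le_mul_right e4 hv3
  have pK : 0 < G * sR * V * W * A / (sM ^ 2 * sM) := by positivity
  have pL : 0 < G * sR * V * W / sM := by positivity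
  have pJ : 0 < G * sR * V ^ 2 / sM := by positivity
  have pR : 0 < G * sR * V ^ 2 * sM / A := by positivity
  refine ⟨by linarith, by linarith, ?_, ?_⟩
  · have e0 : |j| * w = |5 * R - 2 * l * v| := by
      rw [show 5 * R - 2 * l * v = j * w by linarith, abs_mul, abs_of_pos hwp]
    have e1 : |5 * R - 2 * l * v| ≤ 5 * |R| + 2 * |l| * v := by
      refine (abs_sub _ _).trans (le_of_eq ?_)
      rw [abs_mul, abs_mul, abs_mul, abs_of_pos hvp, abs_of_pos (show (0:ℝ) < 2 by norm_num),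
        abs_of_pos (show (0:ℝ) < 5 by norm_num)]
    have e2 : 5 * |R| ≤ w * (4 * V ^ 3 / ν) := by
      calc 5 * |R| ≤ 5 * (v ^ 3 * w / (10 * ν)) := by gcongr
        _ ≤ 5 * (8 * V ^ 3 * w / (10 * ν)) := by gcongr
        _ = w * (4 * V ^ 3 / ν) := by field_simp; ring
    have e3 : 2 * |l| * v ≤ w * (1299.2 * (G * sR * V ^ 2 / sM)) := by
      calc 2 * |l| * v ≤ 2 * (324.8 * (G * sR * V * W / sM)) * (2 * V) := by gcongr
        _ = W * (1299.2 * (G * sR * V ^ 2 / sM)) := by ring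
        _ ≤ w * (1299.2 * (G * sR * V ^ 2 / sM)) := by gcongr
    have e4 : |j| * w ≤ (2000 * (G * sR * V ^ 2 / sM)) * w := by
      rw [e0]
      rw [bJJ] at e2
      generalize G * sR * V ^ 2 / sM = Z at e2 e3 pJ
      have e5 : 0 < w * Z := mul_pos hwp pJ
      have e6 : w * (4 * Z) = 4 * (w * Z) := by ring
      have e7 : w * (1299.2 * Z) = 1299.2 * (w * Z) := by ring
      have e8 : 2000 * Z * w = 2000 * (w * Z) := by ring
      rw [e8]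
      rw [e6] at e2
      rw [e7] at e3
      linarith
    exact le_of_mul_le_mul_right e4 hwp
  · have e1 : v ^ 3 / (20 * τ) ≤ 8 * V ^ 3 / (20 * τ) := by gcongr
    rw [bRR] at e1
    linarith

end DCaux

open DCaux

set_option maxHeartbeats 1000000 in
/-- the coefficient vector belonging to a counted difference -/
lemma dc_exists (hDUA : S_DUA) {N ρ M A G V W : ℕ} (hP : Par N ρ M A G V W) {g v w h : ℕ}
    (_hG1 : G ≤ g) (hG2 : g < 2 * G) (hV1 : V ≤ v) (hV2 : v < 2 * V) (hW1 : W ≤ w) (hW2 : w < 2 * W)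
    (hco : v.Coprime w) (_hh : 1 ≤ h) (hhM : h * M ≤ g * v ^ 3 * w) {α β E₁ E₂ : ℤ}
    (c1 : (v : ℤ) ^ 3 ∣ w * α - 1) (c2 : (w : ℤ) ∣ v * β - 1) (c3 : (v : ℤ) ^ 3 ∣ E₁ - 1)
    (c4 : (w : ℤ) ∣ E₁) (c5 : (w : ℤ) ∣ E₂ - 1) (c6 : (v : ℤ) ^ 3 ∣ E₂) (x y : ℤ)
    (hx : |x| ≤ 2 * (iS ρ M G V : ℤ)) (hy : |y| ≤ 2 * (iT ρ M A G V : ℤ))
    (h1 : ∃ n : ℤ, |2 * (((h * g * ρ : ℕ) : ℝ) * E₂ * β ^ 2 / (v ^ 3 * w)) * x +
      (-(((h * g * ρ : ℕ) : ℝ) * E₁ * α ^ 2 / (v ^ 3 * w))) * y - n| ≤ 1 / (iS ρ M G V : ℝ))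
    (h2 : ∃ n : ℤ, |(-(((h * g * ρ : ℕ) : ℝ) * E₁ * α ^ 2 / (v ^ 3 * w))) * x +
      2 * (((h * g * ρ : ℕ) : ℝ) * E₁ * v ^ 2 * α ^ 4 / (v ^ 3 * w)) * y - n| ≤
        1 / (iT ρ M A G V : ℝ)) :
    ∃ k l j r : ℤ, (|k| ≤ (bK ρ M A G V W : ℤ) ∧ |l| ≤ (bL ρ M G V W : ℤ) ∧
      |j| ≤ (bJ ρ M G V : ℤ) ∧ |r| ≤ (bR ρ M A G V : ℤ)) ∧
      5 * (((h * g * ρ : ℕ) : ℤ) * x) = G1 k l j r v w ∧
      5 * (((h * g * ρ : ℕ) : ℤ) * y) = G2 k l j r v w := by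
  obtain ⟨n, hn⟩ := h1
  obtain ⟨n', hn'⟩ := h2
  obtain ⟨s1, s2, s3⟩ := iS_bounds hP
  obtain ⟨t1, t2, t3⟩ := iT_bounds hP
  obtain ⟨-, -, P3⟩ := par_real hP
  obtain ⟨q0, q1, q2, q3, q4, q5, q6, -⟩ := hP
  have hv0 : 0 < v := by omega
  have hw0 : 0 < w := by omega
  have r1 : (0 : ℝ) < ρ := by exact_mod_cast q1
  have r2 : (0 : ℝ) < M := by exact_mod_cast q2
  have r3 : (0 : ℝ) < A := by exact_mod_cast q3
  have r4 : (0 : ℝ) < G := by exact_mod_cast q4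
  have r5 : (0 : ℝ) < V := by exact_mod_cast q5
  have r6 : (0 : ℝ) < W := by exact_mod_cast q6
  have rv : (0 : ℝ) < v := by exact_mod_cast hv0
  have rw' : (0 : ℝ) < w := by exact_mod_cast hw0
  have iSp : (0 : ℝ) < iS ρ M G V := by linarith
  have iTp : (0 : ℝ) < iT ρ M A G V := by linarith
  obtain ⟨E', hE'⟩ := c4
  set e : ℤ := ((h * g * ρ : ℕ) : ℤ) with he
  have her : ((h * g * ρ : ℕ) : ℝ) = (e : ℝ) := by rw [he]; push_cast; ring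
  rw [her] at hn hn'
  set R : ℤ := e * (2 * E₂ * β ^ 2 * x - E₁ * α ^ 2 * y) - n * v ^ 3 * w with hR
  set r : ℤ := e * E' * (2 * v ^ 2 * α ^ 4 * y - α ^ 2 * x) - n' * v ^ 3 with hr
  have hRr : (R : ℝ) = (2 * ((e : ℝ) * E₂ * β ^ 2 / (v ^ 3 * w)) * x +
      (-((e : ℝ) * E₁ * α ^ 2 / (v ^ 3 * w))) * y - n) * (v ^ 3 * w) := by
    rw [hR]; push_cast; field_simp; ring
  have hrr : (r : ℝ) = ((-((e : ℝ) * E₁ * α ^ 2 / (v ^ 3 * w))) * x +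
      2 * ((e : ℝ) * E₁ * v ^ 2 * α ^ 4 / (v ^ 3 * w)) * y - n') * v ^ 3 := by
    rw [hr, hE']; push_cast; field_simp; ring
  have hRb : |(R : ℝ)| * (10 * nS ρ M G V) ≤ (v : ℝ) ^ 3 * w := by
    rw [hRr, abs_mul, abs_of_pos (show (0 : ℝ) < v ^ 3 * w by positivity)]
    have f1 := mul_le_mul_of_nonneg_right hn (show (0 : ℝ) ≤ v ^ 3 * w by positivity)
    calc _ ≤ (1 / (iS ρ M G V : ℝ) * ((v : ℝ) ^ 3 * w)) * (10 * nS ρ M G V) := by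
          gcongr
      _ ≤ (1 / (iS ρ M G V : ℝ) * ((v : ℝ) ^ 3 * w)) * (iS ρ M G V : ℝ) := by gcongr
      _ = (v : ℝ) ^ 3 * w := by field_simp
  have hrb : |(r : ℝ)| * (20 * nT ρ M A G V) ≤ (v : ℝ) ^ 3 := by
    rw [hrr, abs_mul, abs_of_pos (show (0 : ℝ) < (v : ℝ) ^ 3 by positivity)]
    calc _ ≤ (1 / (iT ρ M A G V : ℝ) * ((v : ℝ) ^ 3)) * (20 * nT ρ M A G V) := by
          gcongr
      _ ≤ (1 / (iT ρ M A G V : ℝ) * ((v : ℝ) ^ 3)) * (iT ρ M A G V : ℝ) := by gcongr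
      _ = (v : ℝ) ^ 3 := by field_simp
  obtain ⟨z1, hz1⟩ := c1
  obtain ⟨z2, hz2⟩ := c2
  obtain ⟨z3, hz3⟩ := c3
  obtain ⟨z5, hz5⟩ := c5
  obtain ⟨z6, hz6⟩ := c6
  have hcoZ : IsCoprime (v : ℤ) (w : ℤ) := Nat.isCoprime_iff_coprime.mpr hco
  have d1 : (v : ℤ) ^ 3 ∣ e * y + R * w ^ 2 := by
    -- `R = -e α² y` mod `v³`
    have m1 : (v : ℤ) ^ 3 ∣ R + e * α ^ 2 * y :=
      ⟨e * 2 * z6 * β ^ 2 * x - e * z3 * α ^ 2 * y - n * w, by
        rw [hR, hz6, show E₁ = v ^ 3 * z3 + 1 by linarith]; ring⟩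
    have m2 : (v : ℤ) ^ 3 ∣ (w * α) ^ 2 - 1 :=
      ⟨z1 * (w * α + 1), by linear_combination (w * α + 1 : ℤ) * hz1⟩
    have : e * y + R * w ^ 2 = (R + e * α ^ 2 * y) * w ^ 2 - ((w * α) ^ 2 - 1) * (e * y) := by ring
    rw [this]
    exact (m1.mul_right _).sub (m2.mul_right _)
  have d2 : (w : ℤ) ∣ 2 * e * x - R * v ^ 2 := by
    have m1 : (w : ℤ) ∣ R - 2 * e * β ^ 2 * x :=
      ⟨2 * e * z5 * β ^ 2 * x - e * E' * α ^ 2 * y - n * v ^ 3, by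
        rw [hR, hE', show E₂ = w * z5 + 1 by linarith]; ring⟩
    have m2 : (w : ℤ) ∣ (v * β) ^ 2 - 1 :=
      ⟨z2 * (v * β + 1), by linear_combination (v * β + 1 : ℤ) * hz2⟩
    have : 2 * e * x - R * v ^ 2 = -((R - 2 * e * β ^ 2 * x) * v ^ 2) -
      ((v * β) ^ 2 - 1) * (2 * e * x) := by ring
    rw [this]
    exact ((m1.mul_right _).neg_right).sub (m2.mul_right _)
  have d3 : (v : ℤ) ^ 3 ∣ r * w ^ 5 - e * (2 * v ^ 2 * y - w ^ 2 * x) := by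
    have m1 : (v : ℤ) ^ 3 ∣ w * r - e * (2 * v ^ 2 * α ^ 4 * y - α ^ 2 * x) :=
      ⟨e * z3 * (2 * v ^ 2 * α ^ 4 * y - α ^ 2 * x) - n' * w, by
        have : w * r = e * E₁ * (2 * v ^ 2 * α ^ 4 * y - α ^ 2 * x) - n' * v ^ 3 * w := by
          rw [hr, hE']; ring
        rw [this, show E₁ = v ^ 3 * z3 + 1 by linarith]; ring⟩
    have m2 : (v : ℤ) ^ 3 ∣ (w * α) ^ 2 - 1 :=
      ⟨z1 * (w * α + 1), by linear_combination (w * α + 1 : ℤ) * hz1⟩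
    have : r * w ^ 5 - e * (2 * v ^ 2 * y - w ^ 2 * x) =
      (w * r - e * (2 * v ^ 2 * α ^ 4 * y - α ^ 2 * x)) * w ^ 4 +
      ((w * α) ^ 2 - 1) * (e * (2 * v ^ 2 * y) * ((w * α) ^ 2 + 1) - e * w ^ 2 * x) := by ring
    rw [this]
    exact (m1.mul_right _).add (m2.mul_right _)
  obtain ⟨k, l, j, i1, i2, i3, i4, i5⟩ := hDUA v w e x y R r (by exact_mod_cast hv0)
    (by exact_mod_cast hw0) hcoZ d1 d2 d3
  have j1 : (e : ℝ) * y = k * v ^ 3 - R * w ^ 2 := by exact_mod_cast i1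
  have j2 : (e : ℝ) * x = l * v ^ 3 - 2 * R * v ^ 2 - r * w ^ 3 := by exact_mod_cast i2
  have j3 : 5 * (R : ℝ) = 2 * l * v + j * w := by exact_mod_cast i3
  have heb : (e : ℝ) * (Real.sqrt M) ^ 2 ≤ (2 * G) ^ 2 * (Real.sqrt ρ) ^ 2 * v ^ 3 * w := by
    rw [Real.sq_sqrt r2.le, Real.sq_sqrt r1.le, ← her]
    have f1 : ((h : ℝ) * M) ≤ g * v ^ 3 * w := by exact_mod_cast hhM
    have f2 : (g : ℝ) ≤ 2 * G := by exact_mod_cast hG2.le
    have f3 : ((h * g * ρ : ℕ) : ℝ) * M = (h * M) * (g * ρ) := by push_cast; ring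
    rw [f3]
    calc ((h : ℝ) * M) * (g * ρ) ≤ (g * v ^ 3 * w) * (g * ρ) := by gcongr
      _ = (g : ℝ) ^ 2 * ρ * v ^ 3 * w := by ring
      _ ≤ (2 * G) ^ 2 * ρ * v ^ 3 * w := by gcongr
  have hxr : |(x : ℝ)| ≤ 40 * nS ρ M G V := by
    have : |(x : ℝ)| ≤ 2 * (iS ρ M G V : ℝ) := by exact_mod_cast hx
    linarith
  have hyr : |(y : ℝ)| ≤ 80 * nT ρ M A G V := by
    have : |(y : ℝ)| ≤ 2 * (iT ρ M A G V : ℝ) := by exact_mod_cast hy
    linarith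
  have hsz := sizes (Real.sqrt ρ) (Real.sqrt M) A G V W v w e x y R r k l j (nS ρ M G V)
    (nT ρ M A G V) (Real.sqrt_pos.mpr r1) (Real.sqrt_pos.mpr r2) r3 r4 r5 r6
    (by rw [nS, Real.sqrt_div r2.le]) (by rw [nT, Real.sqrt_mul r1.le])
    (by rw [Real.sq_sqrt r2.le]; exact P3) (by exact_mod_cast hV1) (by exact_mod_cast hV2.le)
    (by exact_mod_cast hW1) (by exact_mod_cast hW2.le) (by rw [← her]; positivity) heb hxr hyr
    hRb hrb j1 j2 j3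
  rw [Real.sq_sqrt r2.le] at hsz
  obtain ⟨k1, k2, k3, k4⟩ := hsz
  refine ⟨k, l, j, r, ⟨?_, ?_, ?_, ?_⟩, i4, i5⟩
  · have : k.natAbs ≤ bK ρ M A G V W := by
      unfold bK
      apply Nat.le_floor
      rw [Nat.cast_natAbs, Int.cast_abs]
      exact k1
    rw [← Int.natCast_natAbs]; exact_mod_cast this
  · have : l.natAbs ≤ bL ρ M G V W := by
      unfold bL
      apply Nat.le_floor
      rw [Nat.cast_natAbs, Int.cast_abs]
      exact k2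
    rw [← Int.natCast_natAbs]; exact_mod_cast this
  · have : j.natAbs ≤ bJ ρ M G V := by
      unfold bJ
      apply Nat.le_floor
      rw [Nat.cast_natAbs, Int.cast_abs]
      exact k3
    rw [← Int.natCast_natAbs]; exact_mod_cast this
  · have : r.natAbs ≤ bR ρ M A G V := by
      unfold bR
      apply Nat.le_floor
      rw [Nat.cast_natAbs, Int.cast_abs]
      exact k4
    rw [← Int.natCast_natAbs]; exact_mod_cast this

/-- **DC.** -/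
theorem t_DC (hDUA : S_DUA) : S_DC := by
  classical
  intro N ρ M A G V W hP g v w h hG1 hG2 hV1 hV2 hW1 hW2 hco hh hhM α β E₁ E₂ c1 c2 c3 c4 c5 c6
  have hex := dc_exists hDUA hP hG1 hG2 hV1 hV2 hW1 hW2 hco hh hhM c1 c2 c3 c4 c5 c6
  obtain ⟨q0, q1, q2, q3, q4, q5, q6, -⟩ := hP
  have hepos : (0 : ℤ) < ((h * g * ρ : ℕ) : ℤ) := by
    have : 0 < h * g * ρ := by
      have : 0 < g := by omega
      positivity
    exact_mod_cast this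
  rw [DW]
  set S := ((Icc (-(2 * (iS ρ M G V) : ℤ)) (2 * (iS ρ M G V))) ×ˢ
    (Icc (-(2 * (iT ρ M A G V) : ℤ)) (2 * (iT ρ M A G V)))).filter (fun x : ℤ × ℤ =>
    (∃ n : ℤ, |2 * (((h * g * ρ : ℕ) : ℝ) * E₂ * β ^ 2 / (v ^ 3 * w)) * x.1 +
      (-(((h * g * ρ : ℕ) : ℝ) * E₁ * α ^ 2 / (v ^ 3 * w))) * x.2 - n| ≤ 1 / (iS ρ M G V : ℝ)) ∧
    (∃ n : ℤ, |(-(((h * g * ρ : ℕ) : ℝ) * E₁ * α ^ 2 / (v ^ 3 * w))) * x.1 +
      2 * (((h * g * ρ : ℕ) : ℝ) * E₁ * v ^ 2 * α ^ 4 / (v ^ 3 * w)) * x.2 - n| ≤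
        1 / (iT ρ M A G V : ℝ))) with hS
  have hmem : ∀ p ∈ S, ∃ q : ℤ × ℤ × ℤ × ℤ, q ∈ BX (bK ρ M A G V W) (bL ρ M G V W) (bJ ρ M G V)
      (bR ρ M A G V) ∧ 5 * (((h * g * ρ : ℕ) : ℤ) * p.1) = G1 q.1 q.2.1 q.2.2.1 q.2.2.2 v w ∧
      5 * (((h * g * ρ : ℕ) : ℤ) * p.2) = G2 q.1 q.2.1 q.2.2.1 q.2.2.2 v w := by
    rintro ⟨x, y⟩ hp
    rw [hS, Finset.mem_filter, Finset.mem_product, Finset.mem_Icc, Finset.mem_Icc] at hp
    obtain ⟨⟨hx, hy⟩, hn, hn'⟩ := hp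
    obtain ⟨k, l, j, r, ⟨b1, b2, b3, b4⟩, e1, e2⟩ := hex x y (abs_le.mpr hx) (abs_le.mpr hy) hn hn'
    refine ⟨(k, l, j, r), ?_, e1, e2⟩
    simp only [BX, Finset.mem_product, Finset.mem_Icc]
    exact ⟨abs_le.mp b1, abs_le.mp b2, abs_le.mp b3, abs_le.mp b4⟩
  choose! f hf1 hf2 hf3 using hmem
  have hcard : (S.erase (0, 0)).card ≤ KP ρ M A G V W (h * g * ρ) v w := by
    rw [KP, KK]
    apply Finset.card_le_card_of_injOn f
    · intro p hp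
      rw [Finset.mem_coe, Finset.mem_erase] at hp
      rw [Finset.mem_coe, Finset.mem_filter]
      refine ⟨hf1 p hp.2, ?_, ?_, ?_⟩
      · rw [← hf2 p hp.2]
        exact ⟨5 * p.1, by ring⟩
      · rw [← hf3 p hp.2]
        exact ⟨5 * p.2, by ring⟩
      · rintro ⟨z1, z2⟩
        rw [← hf2 p hp.2] at z1
        rw [← hf3 p hp.2] at z2
        apply hp.1
        have y1 : p.1 = 0 := by
          rcases mul_eq_zero.mp z1 with h' | h'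
          · norm_num at h'
          · exact (mul_eq_zero.mp h').resolve_left hepos.ne'
        have y2 : p.2 = 0 := by
          rcases mul_eq_zero.mp z2 with h' | h'
          · norm_num at h'
          · exact (mul_eq_zero.mp h').resolve_left hepos.ne'
        exact Prod.ext y1 y2
    · intro p hp p' hp' hpp
      rw [Finset.mem_coe, Finset.mem_erase] at hp hp'
      have a1 := hf2 p hp.2
      have a2 := hf2 p' hp'.2
      have b1 := hf3 p hp.2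
      have b2 := hf3 p' hp'.2
      rw [hpp, ← a2] at a1
      rw [hpp, ← b2] at b1
      have a3 := mul_left_cancel₀ hepos.ne' (mul_left_cancel₀ (by norm_num) a1)
      have b3 := mul_left_cancel₀ hepos.ne' (mul_left_cancel₀ (by norm_num) b1)
      exact Prod.ext a3 b3
  have := Finset.pred_card_le_card_erase (s := S) (a := ((0 : ℤ), (0 : ℤ)))
  omega

end Pool.Agent.T2h80.F5
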