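import Pool.Agent.T2h80.F5.Stm

set_option autoImplicit false

/-! Task DEG of project F5 (helper97). -/

namespace Pool.Agent.T2h80.F5

open Finset

namespace H97

/-- the integer divisors of a non-zero integer -/
def DD (n : ℤ) : Finset ℤ :=
  n.natAbs.divisors.image (fun d : ℕ => (d : ℤ)) ∪
    n.natAbs.divisors.image (fun d : ℕ => -(d : ℤ))

theorem mem_DD {n d : ℤ} (hn : n ≠ 0) (h : d ∣ n) : d ∈ DD n := by
  have h1 : d.natAbs ∈ n.natAbs.divisors := by
    rw [Nat.mem_divisors]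
    exact ⟨Int.natAbs_dvd_natAbs.2 h, Int.natAbs_ne_zero.2 hn⟩
  rw [DD, mem_union, mem_image, mem_image]
  rcases Int.natAbs_eq d with h2 | h2
  · exact Or.inl ⟨d.natAbs, h1, h2.symm⟩
  · exact Or.inr ⟨d.natAbs, h1, h2.symm⟩

theorem card_DD (n : ℤ) : (DD n).card ≤ 2 * n.natAbs.divisors.card := by
  refine (card_union_le _ _).trans ?_
  have h1 := card_image_le (s := n.natAbs.divisors) (f := fun d : ℕ => (d : ℤ))
  have h2 := card_image_le (s := n.natAbs.divisors) (f := fun d : ℕ => -(d : ℤ))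
  omega

/-- the divisor bound in the form used below -/
theorem tau_bd (hDIV : S_DIV) (δ : ℝ) (hδ : 0 < δ) (A : ℝ) (hA : 1 ≤ A) (k : ℕ) (hk : 1 ≤ k) :
    ∃ C : ℝ, 1 ≤ C ∧ ∀ Y n : ℕ, 1 ≤ Y → 1 ≤ n → (n : ℝ) ≤ A * (Y : ℝ) ^ k →
      (n.divisors.card : ℝ) ≤ C * (Y : ℝ) ^ δ ∧
      ((3 : ℝ) ^ n.primeFactors.card) ≤ C * (Y : ℝ) ^ δ := by
  have hk0 : (0 : ℝ) < k := by exact_mod_cast hk
  obtain ⟨C, hC, h⟩ := hDIV (δ / k) (by positivity)
  have hA' : 1 ≤ A ^ (δ / (k : ℝ)) := Real.one_le_rpow hA (by positivity)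
  refine ⟨(C + 1) * A ^ (δ / k), ?_, fun Y n hY hn hnY => ?_⟩
  · nlinarith
  · have hY0 : (0 : ℝ) ≤ (Y : ℝ) := by positivity
    have h1 : (n : ℝ) ^ (δ / k) ≤ A ^ (δ / k) * (Y : ℝ) ^ δ := by
      calc (n : ℝ) ^ (δ / k) ≤ (A * (Y : ℝ) ^ k) ^ (δ / k) :=
            Real.rpow_le_rpow (by positivity) hnY (by positivity)
        _ = A ^ (δ / k) * (Y : ℝ) ^ δ := by
            rw [Real.mul_rpow (by linarith) (by positivity), ← Real.rpow_natCast,
              ← Real.rpow_mul hY0]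
            congr 2
            field_simp
    have h2 := h n hn
    have h3 : C * (n : ℝ) ^ (δ / k) ≤ (C + 1) * A ^ (δ / k) * (Y : ℝ) ^ δ := by
      have h4 : C * (n : ℝ) ^ (δ / k) ≤ C * (A ^ (δ / k) * (Y : ℝ) ^ δ) :=
        mul_le_mul_of_nonneg_left h1 hC.le
      have h5 : 0 ≤ A ^ (δ / k) * (Y : ℝ) ^ δ := by positivity
      nlinarith
    exact ⟨h2.1.trans h3, h2.2.trans h3⟩

/-- `jl = ± 25 k r` or there is a common root -/
theorem common_root (k l j r : ℤ) (h : RS k l j r = 0) (hw : j * l - 25 * k * r ≠ 0)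
    (hw2 : j * l + 25 * k * r ≠ 0) :
    ∃ x y : ℤ, x ≠ 0 ∧ y ≠ 0 ∧ IsCoprime x y ∧ G1 k l j r x y = 0 ∧ G2 k l j r x y = 0 := by
  set w : ℤ := j * l - 25 * k * r with hwd
  set M1 : ℤ := 2 * (w * l ^ 2 - 10 * k * j ^ 3) with hM1
  set M2 : ℤ := (w - 2 * j * l) ^ 2 with hM2
  set M3 : ℤ := -2 * (w * j ^ 2 + 10 * r * l ^ 3) with hM3
  have e1 : M2 ^ 2 = M1 * M3 := by
    have : M2 ^ 2 - M1 * M3 = w * (-RS k l j r) := by
      rw [hM1, hM2, hM3, hwd]
      unfold RS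
      ring
    rw [h] at this
    linarith
  have hM2' : M2 ≠ 0 := by
    rw [hM2]
    apply pow_ne_zero
    intro h0
    apply hw2
    rw [hwd] at h0
    linarith
  have hM1' : M1 ≠ 0 := by
    intro h0
    rw [h0, zero_mul] at e1
    exact hM2' (pow_eq_zero_iff (two_ne_zero) |>.1 e1)
  have q1 : w * (-M2) ^ 2 - 2 * j ^ 2 * (-M2) * M1 + 10 * r * l * M1 ^ 2 = 0 := by
    have h1 : w * M3 + 2 * j ^ 2 * M2 + 10 * r * l * M1 = 0 := by
      rw [hM1, hM2, hM3, hwd]
      ring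
    linear_combination w * e1 + M1 * h1
  have q2 : -10 * k * j * (-M2) ^ 2 + 2 * l ^ 2 * (-M2) * M1 + w * M1 ^ 2 = 0 := by
    have h1 : -10 * k * j * M3 - 2 * l ^ 2 * M2 + w * M1 = 0 := by
      rw [hM1, hM2, hM3, hwd]
      ring
    linear_combination (-10 * k * j) * e1 + M1 * h1
  have g1 : G1 k l j r (-M2) M1 = 0 := by
    have : w * G1 k l j r (-M2) M1 = 0 := by
      unfold G1
      linear_combination (l * (-M2)) * q1 - (5 * r * M1) * q2
    exact (mul_eq_zero.1 this).resolve_left hw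
  have g2 : G2 k l j r (-M2) M1 = 0 := by
    have : w * G2 k l j r (-M2) M1 = 0 := by
      unfold G2
      linear_combination (5 * k * (-M2)) * q1 - (j * M1) * q2
    exact (mul_eq_zero.1 this).resolve_left hw
  have hd : Int.gcd (-M2) M1 ≠ 0 := by
    intro h0
    exact hM1' (Int.gcd_eq_zero_iff.1 h0).2
  have hdz : ((Int.gcd (-M2) M1 : ℕ) : ℤ) ≠ 0 := by exact_mod_cast hd
  obtain ⟨x, hx⟩ := Int.gcd_dvd_left (a := -M2) (b := M1)
  obtain ⟨y, hy⟩ := Int.gcd_dvd_right (a := -M2) (b := M1)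
  set d : ℤ := ((Int.gcd (-M2) M1 : ℕ) : ℤ) with hdd
  refine ⟨x, y, ?_, ?_, ?_, ?_, ?_⟩
  · rintro rfl
    apply hM2'
    linarith
  · rintro rfl
    apply hM1'
    linarith
  · rw [Int.isCoprime_iff_gcd_eq_one]
    have h1 : Int.gcd (-M2) M1 = d.natAbs * Int.gcd x y := by
      conv_lhs => rw [hx, hy]
      rw [Int.gcd_mul_left]
    have h2 : d.natAbs = Int.gcd (-M2) M1 := by rw [hdd]; simp
    rw [h2] at h1
    have h3 : Int.gcd (-M2) M1 * 1 = Int.gcd (-M2) M1 * Int.gcd x y := by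
      rw [mul_one]; exact h1
    exact (Nat.eq_of_mul_eq_mul_left (Nat.pos_of_ne_zero hd) h3).symm
  · have h1 : d ^ 3 * G1 k l j r x y = 0 := by
      rw [← g1, hx, hy]
      unfold G1
      ring
    exact (mul_eq_zero.1 h1).resolve_left (pow_ne_zero _ hdz)
  · have h1 : d ^ 3 * G2 k l j r x y = 0 := by
      rw [← g2, hx, hy]
      unfold G2
      ring
    exact (mul_eq_zero.1 h1).resolve_left (pow_ne_zero _ hdz)

/-- the fibre over `(k, r)` -/
noncomputable def Fib (Z : ℕ) (k r : ℤ) : Finset (ℤ × ℤ) :=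
  ((Icc (-(Z : ℤ)) Z) ×ˢ (Icc (-(Z : ℤ)) Z)).filter (fun p => RS k p.1 p.2 r = 0)

theorem card_I (Z : ℕ) : (Icc (-(Z : ℤ)) Z).card = 2 * Z + 1 := by
  rw [Int.card_Icc]; omega

theorem cube_inj {a b : ℤ} (h : a ^ 3 = b ^ 3) : a = b :=
  (Odd.strictMono_pow (by decide : Odd 3)).injective h

theorem fib_deg (Z : ℕ) (k r : ℤ) (h0 : k * r = 0) : (Fib Z k r).card ≤ 4 * Z + 2 := by
  have hI := card_I Z
  rcases mul_eq_zero.1 h0 with rfl | rfl
  · have hsub : Fib Z 0 r ⊆ (Fib Z 0 r).filter (fun p => p.1 = 0) ∪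
        (Fib Z 0 r).filter (fun p => p.1 ≠ 0) := by
      intro p hp
      rw [mem_union, mem_filter, mem_filter]
      by_cases h : p.1 = 0
      · exact Or.inl ⟨hp, h⟩
      · exact Or.inr ⟨hp, h⟩
    have h1 : ((Fib Z 0 r).filter (fun p => p.1 = 0)).card ≤ (Icc (-(Z : ℤ)) Z).card := by
      refine card_le_card_of_injOn (fun p => p.2) ?_ ?_
      · intro p hp
        have hp' := (mem_filter.1 (mem_coe.1 hp)).1
        exact (mem_product.1 (mem_filter.1 hp').1).2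
      · intro p hp q hq hpq
        have hp' := (mem_filter.1 (mem_coe.1 hp)).2
        have hq' := (mem_filter.1 (mem_coe.1 hq)).2
        exact Prod.ext (hp'.trans hq'.symm) hpq
    have key : ∀ p ∈ (Fib Z 0 r).filter (fun p => p.1 ≠ 0), p.2 ^ 3 = -8 * p.1 ^ 2 * r := by
      intro p hp
      have hp1 := (mem_filter.1 (mem_filter.1 hp).1).2
      have hp2 := (mem_filter.1 hp).2
      have h3 : p.1 ^ 3 * (p.2 ^ 3 + 8 * p.1 ^ 2 * r) = 0 := by
        unfold RS at hp1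
        have : (5 : ℤ) * (p.1 ^ 3 * (p.2 ^ 3 + 8 * p.1 ^ 2 * r)) = 0 := by
          linear_combination -hp1
        exact (mul_eq_zero.1 this).resolve_left (by norm_num)
      have h4 := (mul_eq_zero.1 h3).resolve_left (pow_ne_zero _ hp2)
      linarith
    have h2 : ((Fib Z 0 r).filter (fun p => p.1 ≠ 0)).card ≤ (Icc (-(Z : ℤ)) Z).card := by
      refine card_le_card_of_injOn (fun p => p.1) ?_ ?_
      · intro p hp
        have hp' := (mem_filter.1 (mem_coe.1 hp)).1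
        exact (mem_product.1 (mem_filter.1 hp').1).1
      · intro p hp q hq hpq
        have hpq' : p.1 = q.1 := hpq
        refine Prod.ext hpq' (cube_inj ?_)
        rw [key p hp, key q hq, hpq']
    have h3 := card_le_card hsub
    have h4 := card_union_le ((Fib Z 0 r).filter (fun p => p.1 = 0))
      ((Fib Z 0 r).filter (fun p => p.1 ≠ 0))
    omega
  · have hsub : Fib Z k 0 ⊆ (Fib Z k 0).filter (fun p => p.2 = 0) ∪
        (Fib Z k 0).filter (fun p => p.2 ≠ 0) := by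
      intro p hp
      rw [mem_union, mem_filter, mem_filter]
      by_cases h : p.2 = 0
      · exact Or.inl ⟨hp, h⟩
      · exact Or.inr ⟨hp, h⟩
    have h1 : ((Fib Z k 0).filter (fun p => p.2 = 0)).card ≤ (Icc (-(Z : ℤ)) Z).card := by
      refine card_le_card_of_injOn (fun p => p.1) ?_ ?_
      · intro p hp
        have hp' := (mem_filter.1 (mem_coe.1 hp)).1
        exact (mem_product.1 (mem_filter.1 hp').1).1
      · intro p hp q hq hpq
        have hp' := (mem_filter.1 (mem_coe.1 hp)).2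
        have hq' := (mem_filter.1 (mem_coe.1 hq)).2
        exact Prod.ext hpq (hp'.trans hq'.symm)
    have key : ∀ p ∈ (Fib Z k 0).filter (fun p => p.2 ≠ 0), p.1 ^ 3 = 8 * k * p.2 ^ 2 := by
      intro p hp
      have hp1 := (mem_filter.1 (mem_filter.1 hp).1).2
      have hp2 := (mem_filter.1 hp).2
      have h3 : p.2 ^ 3 * (8 * k * p.2 ^ 2 - p.1 ^ 3) = 0 := by
        unfold RS at hp1
        have : (5 : ℤ) * (p.2 ^ 3 * (8 * k * p.2 ^ 2 - p.1 ^ 3)) = 0 := by
          linear_combination hp1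
        exact (mul_eq_zero.1 this).resolve_left (by norm_num)
      have h4 := (mul_eq_zero.1 h3).resolve_left (pow_ne_zero _ hp2)
      linarith
    have h2 : ((Fib Z k 0).filter (fun p => p.2 ≠ 0)).card ≤ (Icc (-(Z : ℤ)) Z).card := by
      refine card_le_card_of_injOn (fun p => p.2) ?_ ?_
      · intro p hp
        have hp' := (mem_filter.1 (mem_coe.1 hp)).1
        exact (mem_product.1 (mem_filter.1 hp').1).2
      · intro p hp q hq hpq
        have hpq' : p.2 = q.2 := hpq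
        refine Prod.ext (cube_inj ?_) hpq'
        rw [key p hp, key q hq, hpq']
    have h3 := card_le_card hsub
    have h4 := card_union_le ((Fib Z k 0).filter (fun p => p.2 = 0))
      ((Fib Z k 0).filter (fun p => p.2 ≠ 0))
    omega

theorem fib_gen (Z : ℕ) (k r : ℤ) (h0 : k * r ≠ 0) :
    (Fib Z k r).card ≤ (DD (25 * k * r)).card * (DD (25 * k * r)).card +
      (DD (5 * r)).card * (DD (5 * k)).card := by
  classical
  have hk : k ≠ 0 := left_ne_zero_of_mul h0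
  have hr : r ≠ 0 := right_ne_zero_of_mul h0
  have h25 : 25 * k * r ≠ 0 := by
    rw [mul_assoc]; exact mul_ne_zero (by norm_num) h0
  let P : ℤ × ℤ → Prop := fun p => p.2 * p.1 - 25 * k * r = 0 ∨ p.2 * p.1 + 25 * k * r = 0
  have hsub : Fib Z k r ⊆ (Fib Z k r).filter P ∪ (Fib Z k r).filter (fun p => ¬ P p) := by
    intro p hp
    rw [mem_union, mem_filter, mem_filter]
    by_cases h : P p
    · exact Or.inl ⟨hp, h⟩
    · exact Or.inr ⟨hp, h⟩
  have h1 : ((Fib Z k r).filter P).card ≤ (DD (25 * k * r)).card * (DD (25 * k * r)).card := by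
    rw [← card_product]
    refine card_le_card ?_
    intro p hp
    have hp2 : p.2 * p.1 - 25 * k * r = 0 ∨ p.2 * p.1 + 25 * k * r = 0 := (mem_filter.1 hp).2
    rw [mem_product]
    rcases hp2 with h | h
    · exact ⟨mem_DD h25 ⟨p.2, by linarith [mul_comm p.1 p.2]⟩,
        mem_DD h25 ⟨p.1, by linarith⟩⟩
    · exact ⟨mem_DD h25 ⟨-p.2, by linarith [mul_comm p.1 p.2]⟩,
        mem_DD h25 ⟨-p.1, by linarith⟩⟩
  have key : ∀ p : ℤ × ℤ, p ∈ (Fib Z k r).filter (fun p => ¬ P p) →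
      ∃ x y : ℤ, x ≠ 0 ∧ y ≠ 0 ∧ IsCoprime x y ∧ G1 k p.1 p.2 r x y = 0 ∧
        G2 k p.1 p.2 r x y = 0 := by
    intro p hp
    have hp1 := (mem_filter.1 (mem_filter.1 hp).1).2
    have hp2 : ¬ (p.2 * p.1 - 25 * k * r = 0 ∨ p.2 * p.1 + 25 * k * r = 0) := (mem_filter.1 hp).2
    push Not at hp2
    exact common_root k p.1 p.2 r hp1 hp2.1 hp2.2
  let f : ℤ × ℤ → ℤ × ℤ := fun p =>
    if h : p ∈ (Fib Z k r).filter (fun p => ¬ P p) then
      ((key p h).choose, (key p h).choose_spec.choose) else (0, 0)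
  have hf : ∀ p, p ∈ (Fib Z k r).filter (fun p => ¬ P p) → (f p).1 ≠ 0 ∧ (f p).2 ≠ 0 ∧
      IsCoprime (f p).1 (f p).2 ∧ G1 k p.1 p.2 r (f p).1 (f p).2 = 0 ∧
        G2 k p.1 p.2 r (f p).1 (f p).2 = 0 := by
    intro p h
    have e : f p = ((key p h).choose, (key p h).choose_spec.choose) := dif_pos h
    rw [e]
    exact (key p h).choose_spec.choose_spec
  have h2 : ((Fib Z k r).filter (fun p => ¬ P p)).card ≤
      (DD (5 * r)).card * (DD (5 * k)).card := by
    rw [← card_product]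
    refine card_le_card_of_injOn f ?_ ?_
    · intro p hp
      obtain ⟨hx, hy, hc, e1, e2⟩ := hf p hp
      rw [mem_coe, mem_product]
      unfold G1 at e1
      unfold G2 at e2
      constructor
      · refine mem_DD (mul_ne_zero (by norm_num) hr) ?_
        have h3 : (f p).1 ∣ (f p).2 ^ 3 * (5 * r) :=
          ⟨p.1 * (f p).1 ^ 2 - 2 * p.2 * (f p).1 * (f p).2, by linear_combination -e1⟩
        exact (hc.pow_right (n := 3)).dvd_of_dvd_mul_left h3
      · refine mem_DD (mul_ne_zero (by norm_num) hk) ?_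
        have h3 : (f p).2 ∣ (f p).1 ^ 3 * (5 * k) :=
          ⟨2 * p.1 * (f p).1 * (f p).2 + p.2 * (f p).2 ^ 2, by linear_combination e2⟩
        exact (hc.symm.pow_right (n := 3)).dvd_of_dvd_mul_left h3
    · intro p hp q hq hpq
      obtain ⟨hx, hy, hc, e1, e2⟩ := hf p hp
      obtain ⟨-, -, -, e3, e4⟩ := hf q hq
      rw [← hpq] at e3 e4
      unfold G1 at e1 e3
      unfold G2 at e2 e4
      set x := (f p).1
      set y := (f p).2
      have a1 : x ^ 3 * (p.1 - q.1) - 2 * x ^ 2 * y * (p.2 - q.2) = 0 := by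
        linear_combination e1 - e3
      have a2 : 2 * x * y ^ 2 * (p.1 - q.1) + y ^ 3 * (p.2 - q.2) = 0 := by
        linear_combination e4 - e2
      have hxy : (5 : ℤ) * (x ^ 3 * y ^ 3) ≠ 0 :=
        mul_ne_zero (by norm_num) (mul_ne_zero (pow_ne_zero _ hx) (pow_ne_zero _ hy))
      have b1 : 5 * (x ^ 3 * y ^ 3) * (p.1 - q.1) = 0 := by
        linear_combination y ^ 3 * a1 + 2 * x ^ 2 * y * a2
      have b2 : 5 * (x ^ 3 * y ^ 3) * (p.2 - q.2) = 0 := by
        linear_combination x ^ 3 * a2 - 2 * x * y ^ 2 * a1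
      refine Prod.ext ?_ ?_
      · exact sub_eq_zero.1 ((mul_eq_zero.1 b1).resolve_left hxy)
      · exact sub_eq_zero.1 ((mul_eq_zero.1 b2).resolve_left hxy)
  have h3 := card_le_card hsub
  have h4 := card_union_le ((Fib Z k r).filter P) ((Fib Z k r).filter (fun p => ¬ P p))
  omega

end H97

open H97 in
theorem t_DEG (hDIV : S_DIV) : S_DEG := by
  classical
  intro ε hε
  obtain ⟨C, hC, h⟩ := tau_bd hDIV (ε / 2) (by positivity) 25 (by norm_num) 2 (by norm_num)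
  refine ⟨108 * C ^ 2, by positivity, fun Z hZ => ?_⟩
  set T : ℝ := (Z : ℝ) ^ (ε / 2) with hT
  have hZ1 : (1 : ℝ) ≤ Z := by exact_mod_cast hZ
  have hT1 : 1 ≤ T := Real.one_le_rpow hZ1 (by positivity)
  have hTT : (Z : ℝ) ^ (2 + ε) = Z ^ 2 * T ^ 2 := by
    rw [Real.rpow_add (by linarith), hT, ← Real.rpow_natCast ((Z : ℝ) ^ (ε / 2)) 2,
      ← Real.rpow_mul (by linarith)]
    norm_num
  set I := Icc (-(Z : ℤ)) Z with hI
  have hcI : I.card = 2 * Z + 1 := card_I Z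
  have hmem : ∀ a : ℤ, a ∈ I ↔ |a| ≤ Z := by
    intro a
    rw [hI, mem_Icc, abs_le]
  -- the divisor bounds
  have hDn : ∀ n : ℤ, n ≠ 0 → |n| ≤ 25 * (Z : ℤ) ^ 2 → ((DD n).card : ℝ) ≤ 2 * (C * T) := by
    intro n hn hnb
    have h1 : ((DD n).card : ℝ) ≤ 2 * (n.natAbs.divisors.card : ℝ) := by
      exact_mod_cast card_DD n
    have h2 : (n.natAbs : ℝ) ≤ 25 * (Z : ℝ) ^ 2 := by
      have : ((n.natAbs : ℤ) : ℝ) ≤ ((25 * (Z : ℤ) ^ 2 : ℤ) : ℝ) := by
        rw [Int.cast_le, Int.natCast_natAbs]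
        exact hnb
      push_cast at this
      simpa using this
    have h3 := (h Z n.natAbs hZ (Nat.pos_of_ne_zero (Int.natAbs_ne_zero.2 hn)) h2).1
    linarith
  have hgen : ∀ b ∈ I ×ˢ I, b.1 * b.2 ≠ 0 → ((Fib Z b.1 b.2).card : ℝ) ≤ 8 * C ^ 2 * T ^ 2 := by
    rintro ⟨k, r⟩ hb h0
    rw [mem_product, hmem, hmem] at hb
    obtain ⟨hbk, hbr⟩ := hb
    simp only at hbk hbr h0 ⊢
    have hk : k ≠ 0 := left_ne_zero_of_mul h0
    have hr : r ≠ 0 := right_ne_zero_of_mul h0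
    have hZz : (1 : ℤ) ≤ Z := by exact_mod_cast hZ
    have c1 := hDn (25 * k * r) (by rw [mul_assoc]; exact mul_ne_zero (by norm_num) h0) (by
      rw [abs_mul, abs_mul, abs_of_pos (by norm_num : (0 : ℤ) < 25)]
      have : |k| * |r| ≤ (Z : ℤ) * Z := mul_le_mul hbk hbr (abs_nonneg _) (by positivity)
      nlinarith)
    have c2 := hDn (5 * r) (mul_ne_zero (by norm_num) hr) (by
      rw [abs_mul, abs_of_pos (by norm_num : (0 : ℤ) < 5)]
      nlinarith)
    have c3 := hDn (5 * k) (mul_ne_zero (by norm_num) hk) (by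
      rw [abs_mul, abs_of_pos (by norm_num : (0 : ℤ) < 5)]
      nlinarith)
    have c4 : ((Fib Z k r).card : ℝ) ≤ (DD (25 * k * r)).card * (DD (25 * k * r)).card +
      (DD (5 * r)).card * (DD (5 * k)).card := by exact_mod_cast fib_gen Z k r h0
    have c5 : ((DD (25 * k * r)).card : ℝ) * (DD (25 * k * r)).card ≤
        (2 * (C * T)) * (2 * (C * T)) := mul_le_mul c1 c1 (by positivity) (by positivity)
    have c6 : ((DD (5 * r)).card : ℝ) * (DD (5 * k)).card ≤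
        (2 * (C * T)) * (2 * (C * T)) := mul_le_mul c2 c3 (by positivity) (by positivity)
    nlinarith
  have hdeg : ∀ b ∈ I ×ˢ I, b.1 * b.2 = 0 → ((Fib Z b.1 b.2).card : ℝ) ≤ 4 * Z + 2 := by
    intro b _ h0
    exact_mod_cast fib_deg Z b.1 b.2 h0
  -- the sum over the fibres
  have hsum : (((BX Z Z Z Z).filter (fun x => RS x.1 x.2.1 x.2.2.1 x.2.2.2 = 0)).card : ℝ) ≤
      ∑ b ∈ I ×ˢ I, ((Fib Z b.1 b.2).card : ℝ) := by
    have h1 : ((BX Z Z Z Z).filter (fun x => RS x.1 x.2.1 x.2.2.1 x.2.2.2 = 0)).card =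
        ∑ b ∈ I ×ˢ I, (((BX Z Z Z Z).filter
          (fun x => RS x.1 x.2.1 x.2.2.1 x.2.2.2 = 0)).filter
            (fun x => (x.1, x.2.2.2) = b)).card := by
      refine card_eq_sum_card_fiberwise ?_
      intro x hx
      have hx1 := (mem_filter.1 (mem_coe.1 hx)).1
      unfold BX at hx1
      rw [mem_product, mem_product, mem_product] at hx1
      rw [mem_coe, mem_product]
      exact ⟨hx1.1, hx1.2.2.2⟩
    rw [h1]
    push_cast
    refine sum_le_sum fun b _ => ?_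
    have h2 : (((BX Z Z Z Z).filter
          (fun x => RS x.1 x.2.1 x.2.2.1 x.2.2.2 = 0)).filter
            (fun x => (x.1, x.2.2.2) = b)).card ≤ (Fib Z b.1 b.2).card := by
      refine card_le_card_of_injOn (fun x => (x.2.1, x.2.2.1)) ?_ ?_
      · intro x hx
        obtain ⟨hx1, hx2⟩ := mem_filter.1 (mem_coe.1 hx)
        obtain ⟨hx3, hx4⟩ := mem_filter.1 hx1
        unfold BX at hx3
        rw [mem_product, mem_product, mem_product] at hx3
        rw [mem_coe, Fib, mem_filter, mem_product]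
        refine ⟨⟨hx3.2.1, hx3.2.2.1⟩, ?_⟩
        rw [← hx2]
        exact hx4
      · intro x hx y hy hxy
        have hx2 := (mem_filter.1 (mem_coe.1 hx)).2
        have hy2 := (mem_filter.1 (mem_coe.1 hy)).2
        have e1 := hx2.trans hy2.symm
        simp only [Prod.mk.injEq] at e1 hxy
        exact Prod.ext e1.1 (Prod.ext hxy.1 (Prod.ext hxy.2 e1.2))
    exact_mod_cast h2
  have hz : (((I ×ˢ I).filter (fun b => b.1 * b.2 = 0)).card : ℝ) ≤ 2 * (2 * Z + 1) := by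
    have h1 : (I ×ˢ I).filter (fun b : ℤ × ℤ => b.1 * b.2 = 0) ⊆
        (({0} : Finset ℤ) ×ˢ I) ∪ (I ×ˢ ({0} : Finset ℤ)) := by
      rintro ⟨a, b⟩ hab
      rw [mem_filter, mem_product] at hab
      rw [mem_union, mem_product, mem_product, mem_singleton, mem_singleton]
      rcases mul_eq_zero.1 hab.2 with h0 | h0
      · exact Or.inl ⟨h0, hab.1.2⟩
      · exact Or.inr ⟨hab.1.1, h0⟩
    have h2 := (card_le_card h1).trans (card_union_le _ _)
    rw [card_product, card_product, card_singleton, hcI] at h2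
    have h3 : ((I ×ˢ I).filter (fun b : ℤ × ℤ => b.1 * b.2 = 0)).card ≤ 2 * (2 * Z + 1) := by
      omega
    exact_mod_cast h3
  have hfin : ∑ b ∈ I ×ˢ I, ((Fib Z b.1 b.2).card : ℝ) ≤
      (2 * Z + 1) ^ 2 * (8 * C ^ 2 * T ^ 2) + (2 * (2 * Z + 1)) * (4 * Z + 2) := by
    have h1 : ∑ b ∈ I ×ˢ I, ((Fib Z b.1 b.2).card : ℝ) ≤
        ∑ b ∈ I ×ˢ I, (8 * C ^ 2 * T ^ 2 + if b.1 * b.2 = 0 then (4 * (Z : ℝ) + 2) else 0) := by
      refine sum_le_sum fun b hb => ?_
      by_cases h0 : b.1 * b.2 = 0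
      · rw [if_pos h0]
        have := hdeg b hb h0
        have h5 : 0 ≤ 8 * C ^ 2 * T ^ 2 := by positivity
        linarith
      · rw [if_neg h0, add_zero]
        exact hgen b hb h0
    refine h1.trans ?_
    rw [sum_add_distrib, sum_const, ← sum_filter, sum_const, card_product, hcI, nsmul_eq_mul,
      nsmul_eq_mul]
    push_cast
    have h2 := mul_le_mul_of_nonneg_right hz (by positivity : (0 : ℝ) ≤ 4 * Z + 2)
    nlinarith
  refine (hsum.trans hfin).trans ?_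
  rw [hTT]
  have hC2 : 1 ≤ C ^ 2 * T ^ 2 := by
    have h1 : 1 ≤ C ^ 2 := one_le_pow₀ hC
    have h2 : 1 ≤ T ^ 2 := one_le_pow₀ hT1
    nlinarith
  have hZ9 : (2 * (Z : ℝ) + 1) ^ 2 ≤ 9 * Z ^ 2 := by nlinarith
  have e1 : (2 * (Z : ℝ) + 1) ^ 2 * (8 * C ^ 2 * T ^ 2) + (2 * (2 * Z + 1)) * (4 * Z + 2) =
      (2 * (Z : ℝ) + 1) ^ 2 * (8 * (C ^ 2 * T ^ 2) + 4) := by ring
  rw [e1]
  calc (2 * (Z : ℝ) + 1) ^ 2 * (8 * (C ^ 2 * T ^ 2) + 4)
      ≤ 9 * Z ^ 2 * (12 * (C ^ 2 * T ^ 2)) := by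
        apply mul_le_mul hZ9 (by linarith) (by positivity) (by positivity)
    _ = 108 * C ^ 2 * (Z ^ 2 * T ^ 2) := by ring

end Pool.Agent.T2h80.F5
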