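import Pool.Agent.T2h80.F5.ZA

/-! Project F5, part DER: from the relations to the tuples. -/

set_option autoImplicit false

namespace Pool.Agent.T2h80.F5

namespace DER

open ZA

theorem sz (y₁ y₂ v w n₁ n₂ L : ℤ) (h1 : y₁ ^ 2 ≤ 4 * n₁) (h2 : y₂ ^ 2 ≤ 4 * n₂)
    (h : 2 * L = y₁ * w + y₂ * v) : L ^ 2 ≤ 2 * (n₁ * w ^ 2 + n₂ * v ^ 2) := by
  have h3 := mul_le_mul_of_nonneg_right h1 (sq_nonneg w)
  have h4 := mul_le_mul_of_nonneg_right h2 (sq_nonneg v)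
  have h5 := sq_nonneg (y₁ * w - y₂ * v)
  have h6 : 4 * L ^ 2 = (y₁ * w + y₂ * v) ^ 2 := by rw [← h]; ring
  have h7 : (y₁ * w + y₂ * v) ^ 2 + (y₁ * w - y₂ * v) ^ 2 =
    2 * (y₁ ^ 2 * w ^ 2) + 2 * (y₂ ^ 2 * v ^ 2) := by ring
  linarith

theorem size2 (d : ℕ) (hd4 : d % 4 = 0 ∨ d % 4 = 3) (x u n : ℤ)
    (h : x ^ 2 + th d * x * u + n0 d * u ^ 2 = n) : (2 * x + th d * u) ^ 2 ≤ 4 * n := by
  have h3 := norm_four d hd4 x u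
  rw [h] at h3
  have hd0 : (0 : ℤ) ≤ d := Int.natCast_nonneg d
  have := mul_nonneg hd0 (sq_nonneg u)
  linarith

theorem size1 (N d ρ m a g v : ℕ) (x : ℤ) (hd4 : d % 4 = 0 ∨ d % 4 = 3) (hNd : N < d)
    (h : x ^ 2 + th d * x * (g * v) + n0 d * (g * v) ^ 2 = ρ * m ^ 2 * a) :
    N * g ^ 2 * v ^ 2 ≤ 4 * ρ * m ^ 2 * a := by
  have h3 := norm_four d hd4 x (g * v)
  rw [h] at h3
  have h4 : (N : ℤ) ≤ d := by exact_mod_cast hNd.le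
  have h6 : (N : ℤ) * (g * v) ^ 2 ≤ d * (g * v) ^ 2 :=
    mul_le_mul_of_nonneg_right h4 (sq_nonneg _)
  have h7 := sq_nonneg (2 * x + th d * (g * v))
  have h5 : ((N * g ^ 2 * v ^ 2 : ℕ) : ℤ) ≤ ((4 * ρ * m ^ 2 * a : ℕ) : ℤ) := by
    push_cast
    have e1 : (N : ℤ) * g ^ 2 * v ^ 2 = N * (g * v) ^ 2 := by ring
    have e2 : 4 * (ρ : ℤ) * m ^ 2 * a = 4 * (ρ * m ^ 2 * a) := by ring
    rw [e1, e2]
    linarith
  exact_mod_cast h5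

/-- existence of `s` and `t` and of the reduced relations -/
theorem core (N d ρ m a : ℕ) (x₁ u₁ x₂ u₂ : ℤ) (hd4 : d % 4 = 0 ∨ d % 4 = 3) (hNd : N < d)
    (hd2 : d ≤ 2 * N) (hR : REL d ρ m a x₁ u₁ x₂ u₂) (h1 : u₁ ≠ 0) (h2 : u₂ ≠ 0) :
    ∃ (g v w : ℕ) (s t : ℤ), u₁ = g * v ∧ u₂ = g * w ∧
      x₁ * u₂ + x₂ * u₁ + th d * u₁ * u₂ = ρ * a * g * s ∧
      x₂ * u₁ - x₁ * u₂ = ρ * m * g * t ∧ Good N ρ m a g v w s t := by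
  obtain ⟨hρ, hm, ha, hu1, hu2, hc1, hc2, hB1, hB2, hN1, hN2, hD1, hD2, hD3, hD4⟩ := hR
  have hu1' : 0 < u₁ := lt_of_le_of_ne hu1 (Ne.symm h1)
  have hu2' : 0 < u₂ := lt_of_le_of_ne hu2 (Ne.symm h2)
  obtain ⟨g, hg⟩ : ∃ g : ℕ, g = Int.gcd u₁ u₂ := ⟨_, rfl⟩
  have hg0 : 0 < g := by
    rw [hg]
    exact Int.gcd_pos_of_ne_zero_left _ h1
  have hgu1 : (g : ℤ) ∣ u₁ := by rw [hg]; exact Int.gcd_dvd_left _ _
  have hgu2 : (g : ℤ) ∣ u₂ := by rw [hg]; exact Int.gcd_dvd_right _ _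
  obtain ⟨v', hv'⟩ := hgu1
  obtain ⟨w', hw'⟩ := hgu2
  have hg0' : (0 : ℤ) < g := by exact_mod_cast hg0
  have hv0 : 0 < v' := by
    rw [hv'] at hu1'
    exact (mul_pos_iff_of_pos_left hg0').1 hu1'
  have hw0 : 0 < w' := by
    rw [hw'] at hu2'
    exact (mul_pos_iff_of_pos_left hg0').1 hu2'
  obtain ⟨v, rfl⟩ : ∃ v : ℕ, v' = v := ⟨v'.toNat, by omega⟩
  obtain ⟨w, rfl⟩ : ∃ w : ℕ, w' = w := ⟨w'.toNat, by omega⟩
  have hv0' : 0 < v := by exact_mod_cast hv0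
  have hw0' : 0 < w := by exact_mod_cast hw0
  have hvw : v.Coprime w := by
    have e : Int.gcd u₁ u₂ = g * Nat.gcd v w := by
      rw [hv', hw']
      have : Int.gcd ((g : ℤ) * v) ((g : ℤ) * w) = Int.gcd (((g * v : ℕ)) : ℤ) ((g * w : ℕ) : ℤ) := by
        push_cast
        rfl
      rw [this, Int.gcd_natCast_natCast, Nat.gcd_mul_left]
    rw [← hg] at e
    have e2 : g * 1 = g * Nat.gcd v w := by rw [mul_one]; exact e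
    exact (Nat.eq_of_mul_eq_mul_left hg0 e2).symm
  rw [← hg] at hc2
  have cg : IsCoprime ((ρ : ℤ) * m * a) g := by
    have : IsCoprime ((ρ * m * a : ℕ) : ℤ) (g : ℤ) := Nat.isCoprime_iff_coprime.2 hc2
    push_cast at this
    exact this
  have cρg : IsCoprime (ρ : ℤ) g := cg.of_mul_left_left.of_mul_left_left
  have cmg : IsCoprime (m : ℤ) g := cg.of_mul_left_left.of_mul_left_right
  have cag : IsCoprime (a : ℤ) g := cg.of_mul_left_right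
  have hρ' : (0 : ℤ) < ρ := by exact_mod_cast hρ
  have hm' : (0 : ℤ) < m := by exact_mod_cast hm
  have ha' : (0 : ℤ) < a := by exact_mod_cast ha
  -- s and t
  obtain ⟨s, hs⟩ : (ρ : ℤ) * a ∣ x₁ * w + x₂ * v + th d * (g * v * w) := by
    have h : ((ρ * a : ℕ) : ℤ) ∣ (g : ℤ) * (x₁ * w + x₂ * v + th d * (g * v * w)) := by
      have e : (g : ℤ) * (x₁ * w + x₂ * v + th d * (g * v * w)) =
        x₁ * u₂ + x₂ * u₁ + th d * u₁ * u₂ := by rw [hv', hw']; ring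
      rw [e]
      exact hD1
    push_cast at h
    exact (IsCoprime.mul_left cρg cag).dvd_of_dvd_mul_left h
  obtain ⟨t, ht⟩ : (ρ : ℤ) * m ∣ x₂ * v - x₁ * w := by
    have h : ((ρ * m : ℕ) : ℤ) ∣ (g : ℤ) * (x₂ * v - x₁ * w) := by
      have e : (g : ℤ) * (x₂ * v - x₁ * w) = x₂ * u₁ - x₁ * u₂ := by rw [hv', hw']; ring
      rw [e]
      exact hD2
    push_cast at h
    exact (IsCoprime.mul_left cρg cmg).dvd_of_dvd_mul_left h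
  obtain ⟨k, hk⟩ : (ρ : ℤ) * m ^ 2 ∣ v * x₂ ^ 2 - 2 * x₁ * x₂ * w - th d * x₁ * g * w ^ 2 -
      n0 d * g ^ 2 * v * w ^ 2 := by
    have h : ((ρ * m ^ 2 : ℕ) : ℤ) ∣ (g : ℤ) * (v * x₂ ^ 2 - 2 * x₁ * x₂ * w -
        th d * x₁ * g * w ^ 2 - n0 d * g ^ 2 * v * w ^ 2) := by
      have e : (g : ℤ) * (v * x₂ ^ 2 - 2 * x₁ * x₂ * w - th d * x₁ * g * w ^ 2 -
        n0 d * g ^ 2 * v * w ^ 2) = u₁ * x₂ ^ 2 - 2 * x₁ * x₂ * u₂ - th d * x₁ * u₂ ^ 2 -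
          n0 d * u₁ * u₂ ^ 2 := by rw [hv', hw']; ring
      rw [e]
      exact hD3
    push_cast at h
    exact (IsCoprime.mul_left cρg (cmg.pow_left (m := 2))).dvd_of_dvd_mul_left h
  obtain ⟨l, hl⟩ : (ρ : ℤ) * a ^ 2 ∣ x₁ ^ 2 * w + 2 * x₁ * x₂ * v + 2 * th d * x₁ * g * v * w +
      th d * x₂ * g * v ^ 2 + th d * g ^ 2 * v ^ 2 * w - n0 d * g ^ 2 * v ^ 2 * w := by
    have h : ((ρ * a ^ 2 : ℕ) : ℤ) ∣ (g : ℤ) * (x₁ ^ 2 * w + 2 * x₁ * x₂ * v +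
        2 * th d * x₁ * g * v * w + th d * x₂ * g * v ^ 2 + th d * g ^ 2 * v ^ 2 * w -
          n0 d * g ^ 2 * v ^ 2 * w) := by
      have e : (g : ℤ) * (x₁ ^ 2 * w + 2 * x₁ * x₂ * v + 2 * th d * x₁ * g * v * w +
          th d * x₂ * g * v ^ 2 + th d * g ^ 2 * v ^ 2 * w - n0 d * g ^ 2 * v ^ 2 * w) =
        x₁ ^ 2 * u₂ + 2 * x₁ * x₂ * u₁ + 2 * th d * x₁ * u₁ * u₂ + th d * x₂ * u₁ ^ 2 +
          th d * u₁ ^ 2 * u₂ - n0 d * u₁ ^ 2 * u₂ := by rw [hv', hw']; ring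
      rw [e]
      exact hD4
    push_cast at h
    exact (IsCoprime.mul_left cρg (cag.pow_left (m := 2))).dvd_of_dvd_mul_left h
  have hth := th_sq d
  have hN1' := hN1
  have hN2' := hN2
  rw [hv'] at hN1'
  rw [hw'] at hN2'
  refine ⟨g, v, w, s, t, hv', hw', ?_, ?_, hρ, hm, ha, hg0, hv0', hw0', hvw, ?_, ?_, ?_, ?_, ?_,
    ?_, ?_, hB1.trans hd2, hB2.trans hd2, ?_, ?_⟩
  · rw [hv', hw']
    linear_combination (g : ℤ) * hs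
  · rw [hv', hw']
    linear_combination (g : ℤ) * ht
  · exact (Nat.isCoprime_iff_coprime.1 cρg).symm
  · have h0 : (ρ : ℤ) * a * m ≠ 0 := by positivity
    apply mul_left_cancel₀ h0
    linear_combination (-(v : ℤ) ^ 2) * hN2' + (w : ℤ) ^ 2 * hN1' + (ρ * m * t) * hs +
      (x₁ * w + x₂ * v + th d * (g * v * w)) * ht
  · refine ⟨k, ?_⟩
    have h0 : (ρ : ℤ) * m ^ 2 ≠ 0 := by positivity
    apply mul_left_cancel₀ h0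
    linear_combination (v : ℤ) * hk + (w : ℤ) ^ 2 * hN1' - (x₂ * v - x₁ * w + ρ * m * t) * ht
  · refine ⟨l, ?_⟩
    have h0 : (ρ : ℤ) * a ^ 2 ≠ 0 := by positivity
    apply mul_left_cancel₀ h0
    linear_combination (w : ℤ) * hl + (v : ℤ) ^ 2 * hN2' -
      (x₁ * w + x₂ * v + th d * (g * v * w) + ρ * a * s) * hs +
      ((g : ℤ) ^ 2 * v ^ 2 * w ^ 2) * hth
  · -- e and f
    obtain ⟨p, q, hpq⟩ := cmg
    obtain ⟨p', q', hpq'⟩ := cag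
    -- p m + q g = 1, p' a + q' g = 1
    have cx1 : IsCoprime x₁ (g : ℤ) := by
      have h3 : IsCoprime ((ρ : ℤ) * m ^ 2 * a) g :=
        IsCoprime.mul_left (IsCoprime.mul_left cρg (IsCoprime.pow_left ⟨p, q, hpq⟩))
          ⟨p', q', hpq'⟩
      rw [← hN1'] at h3
      have e : x₁ ^ 2 + th d * x₁ * (g * v) + n0 d * (g * v) ^ 2 =
        x₁ * x₁ + (th d * x₁ * v + n0 d * g * v ^ 2) * g := by ring
      rw [e] at h3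
      have h4 := (IsCoprime.add_mul_right_left_iff).1 h3
      exact h4.of_mul_left_left
    have cx2 : IsCoprime x₂ (g : ℤ) := by
      have h3 : IsCoprime ((ρ : ℤ) * a ^ 2 * m) g :=
        IsCoprime.mul_left (IsCoprime.mul_left cρg (IsCoprime.pow_left ⟨p', q', hpq'⟩))
          ⟨p, q, hpq⟩
      rw [← hN2'] at h3
      have e : x₂ ^ 2 + th d * x₂ * (g * w) + n0 d * (g * w) ^ 2 =
        x₂ * x₂ + (th d * x₂ * w + n0 d * g * w ^ 2) * g := by ring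
      rw [e] at h3
      have h4 := (IsCoprime.add_mul_right_left_iff).1 h3
      exact h4.of_mul_left_left
    have cp : IsCoprime p (g : ℤ) := ⟨m, q, by linear_combination hpq⟩
    have cp' : IsCoprime p' (g : ℤ) := ⟨a, q', by linear_combination hpq'⟩
    have cmg' : IsCoprime (g : ℤ) m := ⟨q, p, by linear_combination hpq⟩
    have cag' : IsCoprime (g : ℤ) a := ⟨q', p', by linear_combination hpq'⟩
    obtain ⟨k1, hk1⟩ : (g : ℤ) ∣ ρ * m - (x₂ * p') ^ 2 := by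
      refine ⟨p' ^ 2 * (th d * x₂ * w + n0 d * g * w ^ 2) + ρ * m * (2 * q' - g * q' ^ 2), ?_⟩
      linear_combination (-p' ^ 2) * hN2' + (ρ * m * (1 - g * q' + p' * a)) * (-hpq')
    obtain ⟨k2, hk2⟩ : (g : ℤ) ∣ ρ * a - (x₁ * p) ^ 2 := by
      refine ⟨p ^ 2 * (th d * x₁ * v + n0 d * g * v ^ 2) + ρ * a * (2 * q - g * q ^ 2), ?_⟩
      linear_combination (-p ^ 2) * hN1' + (ρ * a * (1 - g * q + p * m)) * (-hpq)
    refine ⟨x₁ * p, x₂ * p', cx1.mul_left cp, cx2.mul_left cp', ⟨k1, hk1⟩, ⟨k2, hk2⟩, ?_, ?_⟩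
    · have h3 : (g : ℤ) ∣ a * (ρ * (x₁ * p) * s -
          (x₂ * p') * ((x₂ * p') * w + (x₁ * p) * v)) := by
        refine ⟨w * (a * k1 - m * k2) + (x₁ * p) * (x₁ * q * w + x₂ * q' * v +
          th d * v * w), ?_⟩
        linear_combination (-(x₁ * p)) * hs + (a * w : ℤ) * hk1 - (m * w : ℤ) * hk2 +
          ((x₁ * p) * x₁ * w) * (-hpq) + ((x₁ * p) * x₂ * v) * (-hpq')
      exact cag'.dvd_of_dvd_mul_left h3
    · have h3 : (g : ℤ) ∣ m * (ρ * (x₂ * p') * t -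
          (x₁ * p) * ((x₁ * p) * v - (x₂ * p') * w)) := by
        refine ⟨v * (m * k2 - a * k1) + (x₂ * p') * (x₂ * q' * v - x₁ * q * w), ?_⟩
        linear_combination (-(x₂ * p')) * ht - (a * v : ℤ) * hk1 + (m * v : ℤ) * hk2 +
          ((x₂ * p') * x₁ * w) * (hpq) - ((x₂ * p') * x₂ * v) * (hpq')
      exact cmg'.dvd_of_dvd_mul_left h3
  · exact size1 N d ρ m a g v x₁ hd4 hNd hN1'
  · exact size1 N d ρ a m g w x₂ hd4 hNd hN2'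
  · have h0 : (0 : ℤ) < ρ * a := by positivity
    refine le_of_mul_le_mul_left ?_ h0
    have h9 := sz (2 * x₁ + th d * (g * v)) (2 * x₂ + th d * (g * w)) v w (ρ * m ^ 2 * a)
      (ρ * a ^ 2 * m) (ρ * a * s) (size2 d hd4 x₁ (g * v) _ hN1') (size2 d hd4 x₂ (g * w) _ hN2')
      (by rw [← hs]; ring)
    calc (ρ : ℤ) * a * (ρ * a * s ^ 2) = (ρ * a * s) ^ 2 := by ring
      _ ≤ _ := h9
      _ = _ := by ring
  · have h0 : (0 : ℤ) < ρ * m := by positivity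
    refine le_of_mul_le_mul_left ?_ h0
    have h9 := sz (2 * x₁ + th d * (g * v)) (2 * x₂ + th d * (g * w)) v (-w) (ρ * m ^ 2 * a)
      (ρ * a ^ 2 * m) (ρ * m * t) (size2 d hd4 x₁ (g * v) _ hN1') (size2 d hd4 x₂ (g * w) _ hN2')
      (by rw [← ht]; ring)
    calc (ρ : ℤ) * m * (ρ * m * t ^ 2) = (ρ * m * t) ^ 2 := by ring
      _ ≤ _ := h9
      _ = _ := by ring

/-- the specification of the map -/
def Spec (x : ℕ × ℕ × ℕ × ℕ × ℤ × ℤ × ℤ × ℤ) (y : ℕ × ℕ × ℕ × ℕ × ℕ × ℕ × ℤ × ℤ) : Prop :=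
  y.1 = x.2.1 ∧ y.2.1 = x.2.2.1 ∧ y.2.2.1 = x.2.2.2.1 ∧
  x.2.2.2.2.2.1 = y.2.2.2.1 * y.2.2.2.2.1 ∧ x.2.2.2.2.2.2.2 = y.2.2.2.1 * y.2.2.2.2.2.1 ∧
  x.2.2.2.2.1 * x.2.2.2.2.2.2.2 + x.2.2.2.2.2.2.1 * x.2.2.2.2.2.1 +
    th x.1 * x.2.2.2.2.2.1 * x.2.2.2.2.2.2.2 =
      x.2.1 * x.2.2.2.1 * y.2.2.2.1 * y.2.2.2.2.2.2.1 ∧
  x.2.2.2.2.2.2.1 * x.2.2.2.2.2.1 - x.2.2.2.2.1 * x.2.2.2.2.2.2.2 =
      x.2.1 * x.2.2.1 * y.2.2.2.1 * y.2.2.2.2.2.2.2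

theorem exists_spec (N : ℕ) (x : ℕ × ℕ × ℕ × ℕ × ℤ × ℤ × ℤ × ℤ) (hx : RelT N x)
    (h1 : x.2.2.2.2.2.1 ≠ 0) (h2 : x.2.2.2.2.2.2.2 ≠ 0) : ∃ y, Spec x y ∧ GoodT N y := by
  obtain ⟨d, ρ, m, a, x₁, u₁, x₂, u₂⟩ := x
  obtain ⟨hN, hN2, hd4, hR⟩ := hx
  obtain ⟨g, v, w, s, t, e1, e2, e3, e4, hG⟩ := core N d ρ m a x₁ u₁ x₂ u₂ hd4 hN hN2 hR h1 h2
  exact ⟨(ρ, m, a, g, v, w, s, t), ⟨rfl, rfl, rfl, e1, e2, e3, e4⟩, hG⟩

theorem inj_spec (N : ℕ) (x x' : ℕ × ℕ × ℕ × ℕ × ℤ × ℤ × ℤ × ℤ)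
    (y : ℕ × ℕ × ℕ × ℕ × ℕ × ℕ × ℤ × ℤ) (hx : RelT N x) (hx' : RelT N x')
    (h1 : x.2.2.2.2.2.1 ≠ 0) (h2 : x.2.2.2.2.2.2.2 ≠ 0) (hs : Spec x y) (hs' : Spec x' y) :
    x = x' := by
  obtain ⟨d, ρ, m, a, x₁, u₁, x₂, u₂⟩ := x
  obtain ⟨d', ρ', m', a', x₁', u₁', x₂', u₂'⟩ := x'
  obtain ⟨r, b, c, g, v, w, s, t⟩ := y
  obtain ⟨hN, hN2, hd4, hR⟩ := hx
  obtain ⟨hN', hN2', hd4', hR'⟩ := hx'
  obtain ⟨a1, a2, a3, a4, a5, a6, a7⟩ := hs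
  obtain ⟨b1, b2, b3, b4, b5, b6, b7⟩ := hs'
  simp only at hN hN2 hd4 hR hN' hN2' hd4' hR' a1 a2 a3 a4 a5 a6 a7 b1 b2 b3 b4 b5 b6 b7 h1 h2
  subst a1 a2 a3 b1 b2 b3
  have hu : u₁' = u₁ := by rw [a4, b4]
  have hu' : u₂' = u₂ := by rw [a5, b5]
  subst hu hu'
  -- y₁ and y₂ agree
  have k1 : 2 * x₁ + th d * u₁' = 2 * x₁' + th d' * u₁' := by
    apply mul_right_cancel₀ h2
    linear_combination a6 - a7 - b6 + b7
  have k2 : 2 * x₂ + th d * u₂' = 2 * x₂' + th d' * u₂' := by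
    apply mul_right_cancel₀ h1
    linear_combination a6 + a7 - b6 - b7
  have n1 := norm_four d hd4 x₁ u₁'
  have n1' := norm_four d' hd4' x₁' u₁'
  rw [hR.2.2.2.2.2.2.2.2.2.1] at n1
  rw [hR'.2.2.2.2.2.2.2.2.2.1] at n1'
  have hd : d = d' := by
    have h3 : (d : ℤ) * u₁' ^ 2 = d' * u₁' ^ 2 := by
      rw [k1] at n1
      linarith
    have h4 : u₁' ^ 2 ≠ 0 := pow_ne_zero 2 h1
    exact_mod_cast mul_right_cancel₀ h4 h3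
  subst hd
  have e1 : x₁ = x₁' := by linarith
  have e2 : x₂ = x₂' := by linarith
  rw [e1, e2]

end DER

open DER in
theorem t_DER : S_DER := by
  intro N _
  classical
  refine ⟨fun x => if h : RelT N x ∧ x.2.2.2.2.2.1 ≠ 0 ∧ x.2.2.2.2.2.2.2 ≠ 0 then
    (exists_spec N x h.1 h.2.1 h.2.2).choose else default, ?_, ?_⟩
  · intro x hx x' hx' hxx
    have hx1 : RelT N x ∧ x.2.2.2.2.2.1 ≠ 0 ∧ x.2.2.2.2.2.2.2 ≠ 0 := hx
    have hx1' : RelT N x' ∧ x'.2.2.2.2.2.1 ≠ 0 ∧ x'.2.2.2.2.2.2.2 ≠ 0 := hx'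
    simp only [dif_pos hx1, dif_pos hx1'] at hxx
    have h1 := (exists_spec N x hx1.1 hx1.2.1 hx1.2.2).choose_spec.1
    have h2 := (exists_spec N x' hx1'.1 hx1'.2.1 hx1'.2.2).choose_spec.1
    rw [← hxx] at h2
    exact inj_spec N x x' _ hx1.1 hx1'.1 hx1.2.1 hx1.2.2 h1 h2
  · intro x hx h1 h2
    have hx1 : RelT N x ∧ x.2.2.2.2.2.1 ≠ 0 ∧ x.2.2.2.2.2.2.2 ≠ 0 := ⟨hx, h1, h2⟩
    simp only [dif_pos hx1]
    exact (exists_spec N x hx1.1 hx1.2.1 hx1.2.2).choose_spec.2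

end Pool.Agent.T2h80.F5
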