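import Pool.Agent.T2h80.F5.Stm
import Pool.Agent.H353R2.Z2
import Pool.Agent.H374R2.Z.Q2

set_option autoImplicit false

namespace Pool.Agent.T2h80.F5

open Finset

theorem t_DIV : S_DIV := by
  intro ε hε
  obtain ⟨C1, h1, hd⟩ := H353.divisor_bound_real ε hε
  obtain ⟨C2, h2, ho⟩ := Pool.Agent.H374R2.Z.Q2.pow_omega (K := 3) (by norm_num) hε
  refine ⟨max C1 C2, lt_max_of_lt_left h1, fun n hn => ⟨?_, ?_⟩⟩
  · refine (hd n (by omega)).trans ?_
    exact mul_le_mul_of_nonneg_right (le_max_left _ _) (by positivity)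
  · refine (ho n (by omega)).trans ?_
    exact mul_le_mul_of_nonneg_right (le_max_right _ _) (by positivity)

end Pool.Agent.T2h80.F5
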