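import Pool.Agent.T2h80.F5.Stm

set_option autoImplicit false

namespace Pool.Agent.T2h80.F5

theorem t_DUA : S_DUA := by
  intro v w e x y R r hv hw hco h1 h2 h3
  obtain ⟨k, hk⟩ := h1
  obtain ⟨l', hl'⟩ := h3
  have key : w ^ 2 * (e * x) = (l' + 2 * k * v ^ 2) * v ^ 3 - r * w ^ 5 - 2 * v ^ 2 * R * w ^ 2 := by
    have h4 : e * y = k * v ^ 3 - R * w ^ 2 := by linarith
    have h5 : w ^ 2 * (e * x) = v ^ 3 * l' - r * w ^ 5 + 2 * v ^ 2 * (e * y) := by linarith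
    rw [h5, h4]; ring
  have hw2 : w ^ 2 ∣ (l' + 2 * k * v ^ 2) * v ^ 3 := by
    refine ⟨e * x + r * w ^ 3 + 2 * v ^ 2 * R, ?_⟩
    linear_combination (-1 : ℤ) * key
  have hco2 : IsCoprime (w ^ 2) (v ^ 3) := (hco.symm.pow_left (m := 2)).pow_right
  obtain ⟨l, hl⟩ := hco2.dvd_of_dvd_mul_right hw2
  have hex : e * x = l * v ^ 3 - 2 * R * v ^ 2 - r * w ^ 3 := by
    have hw0 : (w ^ 2) ≠ 0 := by positivity
    apply mul_left_cancel₀ hw0
    rw [key, hl]; ring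
  obtain ⟨z, hz⟩ := h2
  have hwv : w ∣ v ^ 2 * (5 * R - 2 * l * v) := by
    refine ⟨-z - 2 * r * w ^ 2, ?_⟩
    have h6 : 2 * (e * x) - R * v ^ 2 = w * z := by linarith
    rw [hex] at h6
    linear_combination (-1 : ℤ) * h6
  obtain ⟨j, hj⟩ := (hco.symm.pow_right (n := 2)).dvd_of_dvd_mul_left hwv
  have hey : e * y = k * v ^ 3 - R * w ^ 2 := by linarith
  refine ⟨k, l, j, hey, hex, ?_, ?_, ?_⟩
  · linarith
  · rw [G1, hex]
    linear_combination (-2 * v ^ 2 : ℤ) * hj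
  · rw [G2, hey]
    linear_combination (-w ^ 2 : ℤ) * hj

end Pool.Agent.T2h80.F5
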