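import Mathlib
import Pool.Agent.T2h80.F5.Stm

/-!
# Basic facts on `ee` (helper38)
-/

set_option autoImplicit false
set_option linter.all false

namespace Pool.Agent.T2h80.F5

open Finset

namespace EE

theorem ee_add (x y : ℝ) : ee (x + y) = ee x * ee y := by
  unfold ee
  rw [← Complex.exp_add]
  congr 1
  push_cast
  ring

theorem ee_zero : ee 0 = 1 := by
  unfold ee
  simp

theorem ee_eq (x : ℝ) : ee x = Complex.exp (((2 * Real.pi * x : ℝ) : ℂ) * Complex.I) := by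
  unfold ee
  congr 1
  push_cast
  ring

theorem norm_ee (x : ℝ) : ‖ee x‖ = 1 := by
  rw [ee_eq]
  exact Complex.norm_exp_ofReal_mul_I _

theorem ee_int (n : ℤ) : ee (n : ℝ) = 1 := by
  unfold ee
  rw [Complex.exp_eq_one_iff]
  exact ⟨n, by push_cast; ring⟩

theorem ee_re (x : ℝ) : (ee x).re = Real.cos (2 * Real.pi * x) := by
  rw [ee_eq, Complex.exp_ofReal_mul_I_re]

theorem ee_neg (x : ℝ) : ee (-x) = (starRingEnd ℂ) (ee x) := by
  rw [ee_eq, ee_eq, ← Complex.exp_conj]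
  congr 1
  simp only [map_mul, Complex.conj_ofReal, Complex.conj_I]
  push_cast
  ring

theorem ee_sub (x y : ℝ) : ee (x - y) = ee x * (starRingEnd ℂ) (ee y) := by
  rw [sub_eq_add_neg, ee_add, ee_neg]

theorem ee_nat_mul (n : ℕ) (x : ℝ) : ee (n * x) = ee x ^ n := by
  induction n with
  | zero => simp [ee_zero]
  | succ n ih =>
    rw [pow_succ, ← ih, ← ee_add]
    congr 1
    push_cast
    ring

theorem ee_add_int (x : ℝ) (n : ℤ) : ee (x + n) = ee x := by
  rw [ee_add, ee_int, mul_one]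

/-- the norm of a sum is unchanged by multiplication by a unimodular factor -/
theorem norm_sum_shift {ι : Type*} (s : Finset ι) (f : ι → ℝ) (c : ℝ) :
    ‖∑ i ∈ s, ee (f i + c)‖ = ‖∑ i ∈ s, ee (f i)‖ := by
  simp only [ee_add]
  rw [← Finset.sum_mul, norm_mul, norm_ee, mul_one]

theorem norm_sum_neg {ι : Type*} (s : Finset ι) (f : ι → ℝ) :
    ‖∑ i ∈ s, ee (-f i)‖ = ‖∑ i ∈ s, ee (f i)‖ := by
  simp only [ee_neg]
  rw [← map_sum]
  exact RCLike.norm_conj _

theorem norm_sum_le_card {ι : Type*} (s : Finset ι) (f : ι → ℝ) :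
    ‖∑ i ∈ s, ee (f i)‖ ≤ s.card := by
  refine (norm_sum_le _ _).trans ?_
  simp [norm_ee]

/-- the square of the norm of a sum -/
theorem sq_norm_sum {ι : Type*} (s : Finset ι) (f : ι → ℝ) :
    ((‖∑ i ∈ s, ee (f i)‖ ^ 2 : ℝ) : ℂ) = ∑ i ∈ s, ∑ j ∈ s, ee (f i - f j) := by
  rw [← Complex.normSq_eq_norm_sq, ← Complex.mul_conj, map_sum, Finset.sum_mul_sum]
  refine Finset.sum_congr rfl fun i _ => Finset.sum_congr rfl fun j _ => ?_
  rw [ee_sub]

end EE

end Pool.Agent.T2h80.F5
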