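import Mathlib
import Pool.Agent.T2h80.F5.Stm
import Pool.Agent.T2h80.F5.EE

/-!
# FEJ (helper38)
-/

set_option autoImplicit false
set_option linter.all false

namespace Pool.Agent.T2h80.F5

open Finset EE

namespace FEJ

theorem card_le (q M : ℕ) (hq : 0 < q) (A u : ℤ) :
    (((Ico A (A + M)).filter (fun m => (q : ℤ) ∣ m - u)).card : ℝ) ≤ (M : ℝ) / q + 1 := by
  have h0 : (Ico A (A + M)).filter (fun m => (q : ℤ) ∣ m - u) =
      (Ico A (A + M)).filter (fun m => m ≡ u [ZMOD q]) := by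
    refine Finset.filter_congr fun m _ => ?_
    rw [Int.modEq_comm, Int.modEq_iff_dvd]
  rw [h0]
  have hq' : (0 : ℤ) < q := by exact_mod_cast hq
  have h1 := Int.Ico_filter_modEq_card A (A + M) hq' u
  have hqR : (0 : ℚ) < q := by exact_mod_cast hq
  have h2 : ((⌈((A + M - u : ℤ) : ℚ) / (q : ℤ)⌉ - ⌈((A - u : ℤ) : ℚ) / (q : ℤ)⌉ : ℤ) : ℚ) ≤
      (M : ℚ) / q + 1 := by
    push_cast
    have e1 := Int.ceil_lt_add_one (((A : ℚ) + M - u) / q)
    have e2 := Int.le_ceil (((A : ℚ) - u) / q)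
    have e3 : ((A : ℚ) + M - u) / q = ((A : ℚ) - u) / q + (M : ℚ) / q := by
      field_simp
      ring
    linarith
  have h3 : (((#{x ∈ Ico A (A + M) | x ≡ u [ZMOD q]} : ℕ) : ℤ) : ℚ) ≤ (M : ℚ) / q + 1 := by
    rw [h1]
    push_cast
    push_cast at h2
    refine max_le h2 ?_
    positivity
  have h4 : ((#{x ∈ Ico A (A + M) | x ≡ u [ZMOD q]} : ℕ) : ℚ) ≤ (M : ℚ) / q + 1 := by
    exact_mod_cast h3
  have h5 : (((#{x ∈ Ico A (A + M) | x ≡ u [ZMOD q]} : ℕ) : ℚ) : ℝ) ≤ (((M : ℚ) / q + 1 : ℚ) : ℝ) := by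
    exact_mod_cast h4
  push_cast at h5
  exact h5

theorem card_le_one' (q M : ℕ) (hMq : M ≤ q) (A u : ℤ) :
    ((Ico A (A + M)).filter (fun m => (q : ℤ) ∣ m - u)).card ≤ 1 := by
  rw [Finset.card_le_one]
  intro a ha b hb
  rw [Finset.mem_filter, Finset.mem_Ico] at ha hb
  obtain ⟨⟨ha1, ha2⟩, ha3⟩ := ha
  obtain ⟨⟨hb1, hb2⟩, hb3⟩ := hb
  have h1 : (q : ℤ) ∣ a - b := by
    have := dvd_sub ha3 hb3
    have e : a - u - (b - u) = a - b := by ring
    rwa [e] at this
  have h2 : |a - b| < q := by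
    rw [abs_lt]
    have : (M : ℤ) ≤ q := by exact_mod_cast hMq
    constructor <;> linarith
  have h3 := Int.eq_zero_of_abs_lt_dvd h1 h2
  linarith

/-- the lower bound of the geometric sum near an integer -/
theorem lower (H : ℕ) (hH : 0 < H) (x : ℝ) (k : ℤ) (hx : |x - k| ≤ 1 / (6 * H)) :
    (H : ℝ) / 2 ≤ ‖∑ n ∈ range H, ee (n * x)‖ := by
  have hHR : (0 : ℝ) < H := by exact_mod_cast hH
  refine le_trans ?_ (Complex.re_le_norm _)
  rw [Complex.re_sum]
  have h1 : ∀ n ∈ range H, (1 / 2 : ℝ) ≤ (ee (n * x)).re := by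
    intro n hn
    rw [Finset.mem_range] at hn
    have hnR : (n : ℝ) ≤ H := by exact_mod_cast hn.le
    have e1 : ee (n * x) = ee (n * (x - k)) := by
      have : (n : ℝ) * x = n * (x - k) + ((n * k : ℤ) : ℝ) := by
        push_cast
        ring
      rw [this, ee_add_int]
    rw [e1, ee_re, ← Real.cos_abs]
    have e2 : |2 * Real.pi * (n * (x - k))| ≤ Real.pi / 3 := by
      rw [abs_mul, abs_of_pos (by positivity : (0 : ℝ) < 2 * Real.pi), abs_mul,
        abs_of_nonneg (by positivity : (0 : ℝ) ≤ (n : ℝ))]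
      have e3 : (n : ℝ) * |x - k| ≤ 1 / 6 := by
        calc (n : ℝ) * |x - k| ≤ H * (1 / (6 * H)) :=
              mul_le_mul hnR hx (abs_nonneg _) hHR.le
          _ = 1 / 6 := by field_simp
      nlinarith [Real.pi_pos]
    rw [← Real.cos_pi_div_three]
    exact Real.cos_le_cos_of_nonneg_of_le_pi (abs_nonneg _) (by linarith [Real.pi_pos]) e2
  calc (H : ℝ) / 2 = ∑ n ∈ range H, (1 / 2 : ℝ) := by
        rw [Finset.sum_const, card_range, nsmul_eq_mul]
        ring
    _ ≤ _ := Finset.sum_le_sum h1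

end FEJ

open FEJ

theorem t_FEJ : S_FEJ := by
  classical
  intro ι s φ q M A hq hM
  obtain ⟨S, hS⟩ : ∃ S : ℤ → ℝ, ∀ h, S h = ‖∑ i ∈ s, ee ((h : ℝ) * φ i / q)‖ := ⟨_, fun _ => rfl⟩
  simp only [← hS]
  have hS0 : ∀ h, 0 ≤ S h := fun h => by rw [hS]; exact norm_nonneg _
  have hqR : (0 : ℝ) < q := by exact_mod_cast hq
  have hMR : (0 : ℝ) < M := by exact_mod_cast hM
  have hcard : ((s ×ˢ Ico A (A + M)).filter (fun x => (q : ℤ) ∣ x.2 - φ x.1)).card =
      ∑ i ∈ s, ((Ico A (A + M)).filter (fun m => (q : ℤ) ∣ m - φ i)).card := by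
    rw [Finset.card_filter, Finset.sum_product]
    simp only [Finset.card_filter]
  rw [hcard]
  push_cast
  obtain ⟨T, hT⟩ : ∃ T : ℝ, T = ∑ h ∈ Icc (-((q / M : ℕ) : ℤ)) ((q / M : ℕ) : ℤ), S h := ⟨_, rfl⟩
  have hTS : ∑ h ∈ Icc (-((q / M : ℕ) : ℤ)) ((q / M : ℕ) : ℤ), S h = T := hT.symm
  have hT0 : 0 ≤ T := by rw [hT]; exact Finset.sum_nonneg fun h _ => hS0 h
  push_cast at hTS
  rw [hTS]
  by_cases hc : q < 3 * M
  · have h1 : S 0 ≤ T := by
      rw [hT]
      exact Finset.single_le_sum (fun h _ => hS0 h) (by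
        rw [Finset.mem_Icc]
        have h00 : (0 : ℤ) ≤ ((q / M : ℕ) : ℤ) := Int.natCast_nonneg _
        exact ⟨by linarith, h00⟩)
    have h2 : S 0 = s.card := by
      rw [hS]
      simp [ee_zero]
    have h3 : ∑ i ∈ s, (((Ico A (A + M)).filter (fun m => (q : ℤ) ∣ m - φ i)).card : ℝ) ≤
        s.card * ((M : ℝ) / q + 1) := by
      rw [← nsmul_eq_mul]
      exact Finset.sum_le_card_nsmul _ _ _ fun i _ => card_le q M hq A (φ i)
    have h4 : (M : ℝ) / q + 1 ≤ 4 * (M / q) := by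
      have : (q : ℝ) ≤ 3 * M := by exact_mod_cast hc.le
      have e : (1 : ℝ) ≤ 3 * (M / q) := by
        rw [← mul_div_assoc, le_div_iff₀ hqR]
        linarith
      linarith
    have h5 : (0 : ℝ) ≤ M / q := by positivity
    calc _ ≤ (s.card : ℝ) * ((M : ℝ) / q + 1) := h3
      _ ≤ s.card * (4 * (M / q)) := by gcongr
      _ = 4 * (M / q) * S 0 := by rw [h2]; ring
      _ ≤ 4 * (M / q) * T := by gcongr
      _ ≤ _ := by nlinarith [mul_nonneg h5 hT0]
  · push Not at hc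
    obtain ⟨H, hH⟩ : ∃ H : ℕ, H = q / (3 * M) := ⟨_, rfl⟩
    have h3M : 0 < 3 * M := by omega
    have hH1 : 0 < H := by
      rw [hH]
      exact Nat.div_pos hc h3M
    have hHR : (0 : ℝ) < H := by exact_mod_cast hH1
    have hHq : H * (3 * M) ≤ q := by rw [hH]; exact Nat.div_mul_le_self _ _
    have hHq2 : q < (H + 1) * (3 * M) := by
      rw [hH]
      have := Nat.lt_div_mul_add (a := q) h3M
      rw [add_mul, one_mul]
      exact this
    have hHqR : (H : ℝ) * (3 * M) ≤ q := by exact_mod_cast hHq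
    have hHqR2 : (q : ℝ) ≤ 6 * M * H := by
      have e1 : (q : ℝ) < (H + 1) * (3 * M) := by exact_mod_cast hHq2
      have e2 : (1 : ℝ) ≤ H := by exact_mod_cast hH1
      nlinarith
    obtain ⟨c, hcdef⟩ : ∃ c : ℝ, c = A + M / 2 := ⟨_, rfl⟩
    -- the main pointwise bound
    have hpt : ∀ i ∈ s, (((Ico A (A + M)).filter (fun m => (q : ℤ) ∣ m - φ i)).card : ℝ) *
        ((H : ℝ) ^ 2 / 4) ≤ ‖∑ n ∈ range H, ee (n * (((φ i : ℝ) - c) / q))‖ ^ 2 := by
      intro i _
      rcases Finset.eq_empty_or_nonempty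
        ((Ico A (A + M)).filter (fun m => (q : ℤ) ∣ m - φ i)) with h | ⟨m, hm⟩
      · rw [h]
        simp only [card_empty, Nat.cast_zero, zero_mul]
        positivity
      · rw [Finset.mem_filter, Finset.mem_Ico] at hm
        obtain ⟨⟨hm1, hm2⟩, k, hk⟩ := hm
        have hx : |((φ i : ℝ) - c) / q - ((-k : ℤ) : ℝ)| ≤ 1 / (6 * H) := by
          have e1 : ((φ i : ℝ) - c) / q - ((-k : ℤ) : ℝ) = (m - c) / q := by
            have : (m : ℝ) - φ i = q * k := by exact_mod_cast hk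
            push_cast
            field_simp
            linarith
          rw [e1, abs_div, abs_of_pos hqR, div_le_div_iff₀ hqR (by positivity)]
          have e2 : |(m : ℝ) - c| ≤ M / 2 := by
            have g1 : (A : ℝ) ≤ m := by exact_mod_cast hm1
            have g2 : (m : ℝ) < A + M := by exact_mod_cast hm2
            rw [abs_le, hcdef]
            constructor <;> linarith
          nlinarith [abs_nonneg ((m : ℝ) - c)]
        have h1 := lower H hH1 _ (-k) hx
        have h2 : (((Ico A (A + M)).filter (fun m => (q : ℤ) ∣ m - φ i)).card : ℝ) ≤ 1 := by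
          exact_mod_cast card_le_one' q M (by omega) A (φ i)
        have h3 : ((H : ℝ) / 2) ^ 2 ≤ ‖∑ n ∈ range H, ee (n * (((φ i : ℝ) - c) / q))‖ ^ 2 := by
          gcongr
        have h4 : (0 : ℝ) ≤ (H : ℝ) ^ 2 / 4 := by positivity
        nlinarith
    have hsum : (∑ i ∈ s, (((Ico A (A + M)).filter (fun m => (q : ℤ) ∣ m - φ i)).card : ℝ)) *
        ((H : ℝ) ^ 2 / 4) ≤ ∑ i ∈ s, ‖∑ n ∈ range H, ee (n * (((φ i : ℝ) - c) / q))‖ ^ 2 := by
      rw [Finset.sum_mul]
      exact Finset.sum_le_sum hpt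
    have hexp : ∑ i ∈ s, ‖∑ n ∈ range H, ee (n * (((φ i : ℝ) - c) / q))‖ ^ 2 ≤
        ∑ n ∈ range H, ∑ n' ∈ range H, S ((n : ℤ) - n') := by
      have e1 : ((∑ i ∈ s, ‖∑ n ∈ range H, ee (n * (((φ i : ℝ) - c) / q))‖ ^ 2 : ℝ) : ℂ) =
          ∑ n ∈ range H, ∑ n' ∈ range H, ∑ i ∈ s,
            ee (((((n : ℤ) - n' : ℤ) : ℝ) * φ i / q) + -((n : ℝ) - n') * c / q) := by
        rw [Complex.ofReal_sum]
        simp_rw [sq_norm_sum]
        rw [Finset.sum_comm]
        refine Finset.sum_congr rfl fun n _ => ?_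
        rw [Finset.sum_comm]
        refine Finset.sum_congr rfl fun n' _ => ?_
        refine Finset.sum_congr rfl fun i _ => ?_
        congr 1
        push_cast
        ring
      have e2 : (0 : ℝ) ≤ ∑ i ∈ s, ‖∑ n ∈ range H, ee (n * (((φ i : ℝ) - c) / q))‖ ^ 2 :=
        Finset.sum_nonneg fun _ _ => by positivity
      calc _ = ‖((∑ i ∈ s, ‖∑ n ∈ range H, ee (n * (((φ i : ℝ) - c) / q))‖ ^ 2 : ℝ) : ℂ)‖ := by
            rw [Complex.norm_real, Real.norm_of_nonneg e2]
        _ ≤ ∑ n ∈ range H, ∑ n' ∈ range H, ‖∑ i ∈ s,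
            ee (((((n : ℤ) - n' : ℤ) : ℝ) * φ i / q) + -((n : ℝ) - n') * c / q)‖ := by
            rw [e1]
            refine (norm_sum_le _ _).trans ?_
            exact Finset.sum_le_sum fun n _ => norm_sum_le _ _
        _ = _ := by
            refine Finset.sum_congr rfl fun n _ => Finset.sum_congr rfl fun n' _ => ?_
            rw [norm_sum_shift, hS]
    have hH3 : H ≤ q / M := by
      rw [Nat.le_div_iff_mul_le hM]
      nlinarith
    have hrow : ∀ n ∈ range H, ∑ n' ∈ range H, S ((n : ℤ) - n') ≤ T := by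
      intro n hn
      rw [Finset.mem_range] at hn
      rw [hT]
      have e1 : ∑ n' ∈ range H, S ((n : ℤ) - n') =
          ∑ h ∈ (range H).image (fun n' : ℕ => (n : ℤ) - n'), S h := by
        rw [Finset.sum_image]
        intro a _ b _ hab
        simp only at hab
        have : (a : ℤ) = b := by linarith
        exact_mod_cast this
      rw [e1]
      refine Finset.sum_le_sum_of_subset_of_nonneg ?_ fun h _ _ => hS0 h
      intro h hh
      rw [Finset.mem_image] at hh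
      obtain ⟨n', hn', rfl⟩ := hh
      rw [Finset.mem_range] at hn'
      rw [Finset.mem_Icc]
      constructor <;> omega
    have hfin : (∑ i ∈ s, (((Ico A (A + M)).filter (fun m => (q : ℤ) ∣ m - φ i)).card : ℝ)) *
        ((H : ℝ) ^ 2 / 4) ≤ H * T := by
      refine hsum.trans (hexp.trans ?_)
      calc ∑ n ∈ range H, ∑ n' ∈ range H, S ((n : ℤ) - n') ≤ ∑ n ∈ range H, T :=
            Finset.sum_le_sum hrow
        _ = H * T := by rw [Finset.sum_const, card_range, nsmul_eq_mul]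
    obtain ⟨X, hX⟩ : ∃ X : ℝ, X = ∑ i ∈ s,
      (((Ico A (A + M)).filter (fun m => (q : ℤ) ∣ m - φ i)).card : ℝ) := ⟨_, rfl⟩
    rw [← hX] at hfin ⊢
    have hX1 : X * H ≤ 4 * T := by
      have : (X * H) * H ≤ (4 * T) * H := by nlinarith
      exact le_of_mul_le_mul_right this hHR
    have hX2 : X ≤ 4 * T / H := by
      rw [le_div_iff₀ hHR]
      exact hX1
    refine hX2.trans ?_
    rw [div_le_iff₀ hHR]
    have e5 : (1 : ℝ) ≤ 6 * (M / q) * H := by
      rw [← mul_div_assoc, div_mul_eq_mul_div, le_div_iff₀ hqR]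
      linarith
    calc 4 * T = 4 * T * 1 := by ring
      _ ≤ 4 * T * (6 * (M / q) * H) := by gcongr
      _ = 24 * (M / q) * T * H := by ring

end Pool.Agent.T2h80.F5
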