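import Pool.Agent.T2h80.F5.Stm

set_option autoImplicit false

namespace Pool.Agent.T2h80.F5

open Finset NumberField

theorem fd_three {D : ℤ} (h : FDp D) (hD : D < 0) : 3 ≤ D.natAbs := by
  rcases h with ⟨h1, -, -⟩ | ⟨m, rfl, -, -⟩ <;> omega

theorem geo_le {a : ℝ} (ha : 2 ≤ a) : ∀ J : ℕ, ∑ j ∈ Finset.range (J + 1), a ^ j ≤ 2 * a ^ J := by
  intro J
  induction J with
  | zero => simp
  | succ J ih =>
    rw [Finset.sum_range_succ, pow_succ]
    have : 0 ≤ a ^ J := by positivity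
    nlinarith

open Classical in
theorem t_FIN (hALG : S_ALG) (hINT : S_INT) : S_FIN := by
  intro ε hε
  obtain ⟨C, hC, hI⟩ := hINT ε hε
  refine ⟨2 * C, by positivity, fun X hX K _ _ hK => ?_⟩
  set S : Finset ℤ := (Finset.Ioo (-(X : ℤ)) (0 : ℤ)).filter (fun D : ℤ => FDp D) with hS
  have hSm : ∀ D ∈ S, D < 0 ∧ FDp D ∧ D.natAbs < X := by
    intro D hD
    rw [hS, mem_filter, mem_Ioo] at hD
    exact ⟨hD.1.2, hD.2, by omega⟩
  set J : ℕ := Nat.log 2 X with hJ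
  have hmaps : ∀ D ∈ S, Nat.log 2 (D.natAbs - 1) ∈ Finset.range (J + 1) := by
    intro D hD
    obtain ⟨h1, h2, h3⟩ := hSm D hD
    rw [mem_range, Nat.lt_succ_iff, hJ]
    apply Nat.log_mono_right
    omega
  have hblock : ∀ j ∈ Finset.range (J + 1),
      ∑ D ∈ S.filter (fun D => Nat.log 2 (D.natAbs - 1) = j),
        (Nat.card {c : ClassGroup (𝓞 (K D)) // c ^ 5 = 1} : ℝ) ≤ C * ((2 : ℝ) ^ (1 + ε)) ^ j := by
    intro j _
    set N : ℕ := 2 ^ j with hN
    have hN1 : 1 ≤ N := Nat.one_le_two_pow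
    set Sj := S.filter (fun D => Nat.log 2 (D.natAbs - 1) = j) with hSj
    have hD' : ∀ D ∈ Sj, D < 0 ∧ FDp D ∧ N < D.natAbs ∧ D.natAbs ≤ 2 * N := by
      intro D hD
      rw [hSj, mem_filter] at hD
      obtain ⟨h1, h2, h3⟩ := hSm D hD.1
      have h4 := fd_three h2 h1
      have h5 : D.natAbs - 1 ≠ 0 := by omega
      have h6 := Nat.pow_log_le_self 2 h5
      have h7 := Nat.lt_pow_succ_log_self (b := 2) (by norm_num) (D.natAbs - 1)
      rw [hD.2] at h6 h7
      rw [Nat.succ_eq_add_one, pow_succ] at h7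
      refine ⟨h1, h2, ?_, ?_⟩ <;> omega
    have hA : ∀ D ∈ Sj, (D.natAbs % 4 = 0 ∨ D.natAbs % 4 = 3) ∧
        ∃ f : {c : ClassGroup (𝓞 (K D)) // c ^ 5 = 1} → ℕ × ℕ × ℕ × ℤ × ℤ × ℤ × ℤ,
        Function.Injective f ∧ ∀ c, REL D.natAbs (f c).1 (f c).2.1 (f c).2.2.1 (f c).2.2.2.1
          (f c).2.2.2.2.1 (f c).2.2.2.2.2.1 (f c).2.2.2.2.2.2 := by
      intro D hD
      obtain ⟨h1, h2, h3, h4⟩ := hD' D hD
      obtain ⟨k1, k2⟩ := hK D h1 h2
      exact hALG (K D) D.natAbs k1 (by rw [k2]; omega) (by omega)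
    choose! hmod f hf using hA
    have hfin : ∀ D : ℤ, Finite {c : ClassGroup (𝓞 (K D)) // c ^ 5 = 1} := fun D => inferInstance
    let im : ℤ → Finset (ℕ × ℕ × ℕ × ℕ × ℤ × ℤ × ℤ × ℤ) := fun D =>
      (Set.finite_range (fun c : {c : ClassGroup (𝓞 (K D)) // c ^ 5 = 1} =>
        (D.natAbs, f D c))).toFinset
    have him : ∀ D ∈ Sj, (im D).card = Nat.card {c : ClassGroup (𝓞 (K D)) // c ^ 5 = 1} := by
      intro D hD
      have h0 := Set.ncard_eq_toFinset_card _ (Set.finite_range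
        (fun c : {c : ClassGroup (𝓞 (K D)) // c ^ 5 = 1} => (D.natAbs, f D c)))
      refine h0.symm.trans ?_
      rw [← Nat.card_coe_set_eq]
      apply Nat.card_range_of_injective
      intro c c' h
      exact (hf D hD).1 (Prod.mk.inj h).2
    have hmem : ∀ D x, x ∈ im D → ∃ c, x = (D.natAbs, f D c) := by
      intro D x hx
      rw [Set.Finite.mem_toFinset] at hx
      obtain ⟨c, hc⟩ := hx
      exact ⟨c, hc.symm⟩
    have hdis : ∀ D ∈ Sj, ∀ D' ∈ Sj, D ≠ D' → Disjoint (im D) (im D') := by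
      intro D hD D' hD1 hne
      rw [Finset.disjoint_left]
      intro x hx hx'
      obtain ⟨c, hc⟩ := hmem D x hx
      obtain ⟨c', hc'⟩ := hmem D' x hx'
      apply hne
      have h1 : D.natAbs = D'.natAbs := by
        have := congrArg Prod.fst (hc.symm.trans hc')
        exact this
      have h2 := (hD' D hD).1
      have h3 := (hD' D' hD1).1
      omega
    have hcard : (Sj.biUnion im).card = ∑ D ∈ Sj, Nat.card {c : ClassGroup (𝓞 (K D)) // c ^ 5 = 1} := by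
      rw [Finset.card_biUnion hdis]
      exact Finset.sum_congr rfl him
    have hb := hI N hN1 (Sj.biUnion im) (by
      intro x hx
      obtain ⟨D, hD, hx⟩ := Finset.mem_biUnion.1 hx
      obtain ⟨c, rfl⟩ := hmem D x hx
      obtain ⟨h1, h2, h3, h4⟩ := hD' D hD
      exact ⟨h3, h4, hmod D hD, (hf D hD).2 c⟩)
    rw [hcard] at hb
    push_cast at hb
    refine hb.trans (le_of_eq ?_)
    congr 1
    rw [hN]
    push_cast
    rw [← Real.rpow_natCast, ← Real.rpow_natCast, ← Real.rpow_mul (by norm_num),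
      ← Real.rpow_mul (by norm_num), mul_comm]
  rw [← Finset.sum_fiberwise_of_maps_to hmaps]
  calc _ ≤ ∑ j ∈ Finset.range (J + 1), C * ((2 : ℝ) ^ (1 + ε)) ^ j := Finset.sum_le_sum hblock
    _ = C * ∑ j ∈ Finset.range (J + 1), ((2 : ℝ) ^ (1 + ε)) ^ j := by rw [Finset.mul_sum]
    _ ≤ C * (2 * ((2 : ℝ) ^ (1 + ε)) ^ J) := by
        apply mul_le_mul_of_nonneg_left _ hC.le
        apply geo_le
        calc (2 : ℝ) = 2 ^ (1 : ℝ) := by norm_num
          _ ≤ 2 ^ (1 + ε) := Real.rpow_le_rpow_of_exponent_le (by norm_num) (by linarith)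
    _ ≤ C * (2 * (X : ℝ) ^ (1 + ε)) := by
        have h1 : ((2 : ℝ) ^ (1 + ε)) ^ J = ((2 : ℝ) ^ J) ^ (1 + ε) := by
          rw [← Real.rpow_natCast, ← Real.rpow_natCast, ← Real.rpow_mul (by norm_num),
            ← Real.rpow_mul (by norm_num), mul_comm]
        have h2 : (2 : ℝ) ^ J ≤ X := by
          exact_mod_cast Nat.pow_log_le_self 2 (by omega : X ≠ 0)
        rw [h1]
        gcongr
    _ = 2 * C * (X : ℝ) ^ (1 + ε) := by ring

end Pool.Agent.T2h80.F5
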