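import Mathlib
import Pool.Agent.T2h80.F5.Stm
import Pool.Agent.T2h80.F5.EE

/-!
# The parameters of INN (helper38)
-/

set_option autoImplicit false
set_option linter.all false

namespace Pool.Agent.T2h80.F5

open Finset EE

namespace INN

/-! ## the parameters -/

theorem par_aux {N ρ M A G V W : ℝ} (g1 : 1 ≤ N) (g2 : 1 ≤ ρ) (g3 : 1 ≤ M) (g4 : 1 ≤ A)
    (g5 : 1 ≤ G) (g6 : 1 ≤ V) (g7 : 1 ≤ W) (g8 : (ρ * M) ^ 2 ≤ 2 * N) (g9 : (ρ * A) ^ 2 ≤ 2 * N)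
    (g10 : N * G ^ 2 * V ^ 2 ≤ 32 * ρ * M ^ 2 * A) (g11 : N * G ^ 2 * W ^ 2 ≤ 32 * ρ * A ^ 2 * M)
    (g12 : M * W ^ 2 ≤ 8 * A * V ^ 2) :
    ρ * G ^ 2 * V ^ 2 ≤ 64 * M ∧ ρ * G ^ 2 * W ^ 2 ≤ 64 * A ∧
    ρ * G ^ 2 * M ≤ 512 * A ^ 2 * V ^ 2 ∧ M ≤ 2 * N ∧ A ≤ 2 * N := by
  have gN : 0 < N := by linarith
  have k1 : ρ ^ 2 * M * A ≤ 2 * N := by
    nlinarith [sq_nonneg (ρ * M - ρ * A)]
  have k2 : ρ * G ^ 2 * V ^ 2 ≤ 64 * M := by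
    have : N * (ρ * G ^ 2 * V ^ 2) ≤ N * (64 * M) := by
      calc N * (ρ * G ^ 2 * V ^ 2) = ρ * (N * G ^ 2 * V ^ 2) := by ring
        _ ≤ ρ * (32 * ρ * M ^ 2 * A) := by gcongr
        _ = 32 * M * (ρ ^ 2 * M * A) := by ring
        _ ≤ 32 * M * (2 * N) := by gcongr
        _ = N * (64 * M) := by ring
    exact le_of_mul_le_mul_left this gN
  have k3 : ρ * G ^ 2 * W ^ 2 ≤ 64 * A := by
    have : N * (ρ * G ^ 2 * W ^ 2) ≤ N * (64 * A) := by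
      calc N * (ρ * G ^ 2 * W ^ 2) = ρ * (N * G ^ 2 * W ^ 2) := by ring
        _ ≤ ρ * (32 * ρ * A ^ 2 * M) := by gcongr
        _ = 32 * A * (ρ ^ 2 * M * A) := by ring
        _ ≤ 32 * A * (2 * N) := by gcongr
        _ = N * (64 * A) := by ring
    exact le_of_mul_le_mul_left this gN
  have key : ∀ x : ℝ, 1 ≤ x → (ρ * x) ^ 2 ≤ 2 * N → x ≤ 2 * N := by
    intro x hx h
    have e1 : x ≤ ρ * x := by nlinarith
    have e2 : 1 ≤ ρ * x := hx.trans e1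
    have e3 : ρ * x ≤ (ρ * x) ^ 2 := by nlinarith
    linarith
  refine ⟨k2, k3, ?_, key M g3 g8, key A g4 g9⟩
  have e1 : ρ * G ^ 2 * M * (W ^ 2 * W ^ 2) ≤ 512 * A ^ 2 * V ^ 2 := by
    calc ρ * G ^ 2 * M * (W ^ 2 * W ^ 2) = (ρ * G ^ 2 * W ^ 2) * (M * W ^ 2) := by ring
      _ ≤ (64 * A) * (8 * A * V ^ 2) := by gcongr
      _ = 512 * A ^ 2 * V ^ 2 := by ring
  have e2 : 1 ≤ W ^ 2 * W ^ 2 := by
    have : 1 ≤ W ^ 2 := one_le_pow₀ g7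
    nlinarith
  calc ρ * G ^ 2 * M = ρ * G ^ 2 * M * 1 := by ring
    _ ≤ ρ * G ^ 2 * M * (W ^ 2 * W ^ 2) := by gcongr
    _ ≤ _ := e1

theorem par_real {N ρ M A G V W : ℕ} (h : Par N ρ M A G V W) :
    (ρ : ℝ) * G ^ 2 * V ^ 2 ≤ 64 * M ∧ (ρ : ℝ) * G ^ 2 * W ^ 2 ≤ 64 * A ∧
    (ρ : ℝ) * G ^ 2 * M ≤ 512 * A ^ 2 * V ^ 2 ∧ (M : ℝ) ≤ 2 * N ∧ (A : ℝ) ≤ 2 * N := by
  obtain ⟨h1, h2, h3, h4, h5, h6, h7, h8, h9, h10, h11, h12⟩ := h
  exact par_aux (by exact_mod_cast h1) (by exact_mod_cast h2) (by exact_mod_cast h3)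
    (by exact_mod_cast h4) (by exact_mod_cast h5) (by exact_mod_cast h6) (by exact_mod_cast h7)
    (by exact_mod_cast h8) (by exact_mod_cast h9) (by exact_mod_cast h10) (by exact_mod_cast h11)
    (by exact_mod_cast h12)

theorem nS_sq {N ρ M A G V W : ℕ} (h : Par N ρ M A G V W) :
    nS ρ M G V ^ 2 = (V : ℝ) ^ 2 * M / (ρ * G ^ 2) := by
  obtain ⟨h1, h2, h3, h4, h5, h6, h7, h8, h9, h10, h11, h12⟩ := h
  have g2 : (0 : ℝ) < ρ := by exact_mod_cast h2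
  have g5 : (0 : ℝ) < G := by exact_mod_cast h5
  unfold nS
  rw [div_pow, mul_pow, Real.sq_sqrt (by positivity)]
  field_simp

theorem nT_sq {N ρ M A G V W : ℕ} (h : Par N ρ M A G V W) :
    nT ρ M A G V ^ 2 = (A : ℝ) ^ 2 * V ^ 2 / (ρ * G ^ 2 * M) := by
  obtain ⟨h1, h2, h3, h4, h5, h6, h7, h8, h9, h10, h11, h12⟩ := h
  have g2 : (0 : ℝ) < ρ := by exact_mod_cast h2
  have g3 : (0 : ℝ) < M := by exact_mod_cast h3
  have g5 : (0 : ℝ) < G := by exact_mod_cast h5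
  unfold nT
  rw [div_pow, mul_pow, mul_pow, Real.sq_sqrt (by positivity)]
  field_simp

theorem nS_nonneg (ρ M G V : ℕ) : 0 ≤ nS ρ M G V := by
  unfold nS
  positivity

theorem nT_nonneg (ρ M A G V : ℕ) : 0 ≤ nT ρ M A G V := by
  unfold nT
  positivity

theorem nS_low_aux {ρ M G V x : ℝ} (g2 : 1 ≤ ρ) (g3 : 1 ≤ M) (g5 : 1 ≤ G) (g6 : 1 ≤ V)
    (h : ρ * G ^ 2 * V ^ 2 ≤ 64 * M) (h0 : 0 ≤ x) (hx : x ^ 2 = V ^ 2 * M / (ρ * G ^ 2)) :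
    1 ≤ 8 * x ∧ x ≤ 8 * M := by
  have e0 : 1 ≤ ρ * G ^ 2 := by
    have : 1 ≤ G ^ 2 := one_le_pow₀ g5
    nlinarith
  constructor
  · have e1 : (1 / 64 : ℝ) ≤ x ^ 2 := by
      rw [hx, div_le_div_iff₀ (by norm_num) (by positivity)]
      have e2 : 1 ≤ V ^ 2 := one_le_pow₀ g6
      calc 1 * (ρ * G ^ 2) ≤ V ^ 2 * (ρ * G ^ 2) := by gcongr
        _ = ρ * G ^ 2 * V ^ 2 := by ring
        _ ≤ 64 * M := h
        _ = 1 * M * 64 := by ring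
        _ ≤ V ^ 2 * M * 64 := by gcongr
    by_contra hcon
    push Not at hcon
    nlinarith
  · have e1 : x ^ 2 ≤ (8 * M) ^ 2 := by
      rw [hx, div_le_iff₀ (by positivity)]
      have e2 : V ^ 2 ≤ 64 * M := by
        calc V ^ 2 = 1 * V ^ 2 := by ring
          _ ≤ (ρ * G ^ 2) * V ^ 2 := by gcongr
          _ ≤ _ := h
      calc V ^ 2 * M ≤ (64 * M) * M := by gcongr
        _ = (8 * M) ^ 2 * 1 := by ring
        _ ≤ (8 * M) ^ 2 * (ρ * G ^ 2) := by gcongr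
    exact (abs_le_of_sq_le_sq' e1 (by positivity)).2

theorem nT_low_aux {ρ M A G V x : ℝ} (g2 : 1 ≤ ρ) (g3 : 1 ≤ M) (g4 : 1 ≤ A) (g5 : 1 ≤ G)
    (g6 : 1 ≤ V) (h : ρ * G ^ 2 * V ^ 2 ≤ 64 * M) (h' : ρ * G ^ 2 * M ≤ 512 * A ^ 2 * V ^ 2)
    (h0 : 0 ≤ x) (hx : x ^ 2 = A ^ 2 * V ^ 2 / (ρ * G ^ 2 * M)) :
    1 ≤ 24 * x ∧ x ≤ 8 * A := by
  have e0 : 1 ≤ ρ * G ^ 2 := by
    have : 1 ≤ G ^ 2 := one_le_pow₀ g5
    nlinarith
  constructor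
  · have e1 : (1 / 512 : ℝ) ≤ x ^ 2 := by
      rw [hx, div_le_div_iff₀ (by norm_num) (by positivity)]
      linarith
    by_contra hcon
    push Not at hcon
    nlinarith
  · have e1 : x ^ 2 ≤ (8 * A) ^ 2 := by
      rw [hx, div_le_iff₀ (by positivity)]
      have e2 : V ^ 2 ≤ 64 * M := by
        calc V ^ 2 = 1 * V ^ 2 := by ring
          _ ≤ (ρ * G ^ 2) * V ^ 2 := by gcongr
          _ ≤ _ := h
      calc A ^ 2 * V ^ 2 ≤ A ^ 2 * (64 * M) := by gcongr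
        _ = (8 * A) ^ 2 * (1 * M) := by ring
        _ ≤ (8 * A) ^ 2 * (ρ * G ^ 2 * M) := by gcongr
    exact (abs_le_of_sq_le_sq' e1 (by positivity)).2

theorem nS_bd {N ρ M A G V W : ℕ} (h : Par N ρ M A G V W) :
    1 ≤ 8 * nS ρ M G V ∧ nS ρ M G V ≤ 16 * N := by
  have h0 := nS_nonneg ρ M G V
  have hsq := nS_sq h
  have hp := par_real h
  obtain ⟨h1, h2, h3, h4, h5, h6, h7, h8, h9, h10, h11, h12⟩ := h
  have := nS_low_aux (by exact_mod_cast h2) (by exact_mod_cast h3) (by exact_mod_cast h5)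
    (by exact_mod_cast h6) hp.1 h0 hsq
  exact ⟨this.1, by linarith [this.2, hp.2.2.2.1]⟩

theorem nT_bd {N ρ M A G V W : ℕ} (h : Par N ρ M A G V W) :
    1 ≤ 24 * nT ρ M A G V ∧ nT ρ M A G V ≤ 16 * N := by
  have h0 := nT_nonneg ρ M A G V
  have hsq := nT_sq h
  have hp := par_real h
  obtain ⟨h1, h2, h3, h4, h5, h6, h7, h8, h9, h10, h11, h12⟩ := h
  have := nT_low_aux (by exact_mod_cast h2) (by exact_mod_cast h3) (by exact_mod_cast h4)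
    (by exact_mod_cast h5) (by exact_mod_cast h6) hp.1 hp.2.2.1 h0 hsq
  exact ⟨this.1, by linarith [this.2, hp.2.2.2.2]⟩

/-- the sizes as natural numbers -/
theorem iS_bd {N ρ M A G V W : ℕ} (h : Par N ρ M A G V W) :
    1 ≤ iS ρ M G V ∧ (iS ρ M G V : ℝ) ≤ 20 * nS ρ M G V ∧ (iS ρ M G V : ℝ) ≤ 640 * N := by
  have h0 := nS_nonneg ρ M G V
  obtain ⟨h1, h2⟩ := nS_bd h
  have e1 : (iS ρ M G V : ℝ) ≤ 20 * nS ρ M G V := Nat.floor_le (by positivity)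
  refine ⟨?_, e1, ?_⟩
  · exact Nat.le_floor (by push_cast; linarith)
  · have : (0 : ℝ) ≤ N := Nat.cast_nonneg _
    linarith

theorem iT_bd {N ρ M A G V W : ℕ} (h : Par N ρ M A G V W) :
    1 ≤ iT ρ M A G V ∧ (iT ρ M A G V : ℝ) ≤ 40 * nT ρ M A G V ∧ (iT ρ M A G V : ℝ) ≤ 640 * N := by
  have h0 := nT_nonneg ρ M A G V
  obtain ⟨h1, h2⟩ := nT_bd h
  have e1 : (iT ρ M A G V : ℝ) ≤ 40 * nT ρ M A G V := Nat.floor_le (by positivity)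
  refine ⟨?_, e1, ?_⟩
  · exact Nat.le_floor (by push_cast; linarith)
  · have : (0 : ℝ) ≤ N := Nat.cast_nonneg _
    linarith

theorem log_bd (N i : ℕ) (hN : 1 ≤ N) (hi : 1 ≤ i) (h : (i : ℝ) ≤ 640 * N) :
    1 + Real.log i ≤ (1 + Real.log 640) * (1 + Real.log N) ∧ 0 ≤ 1 + Real.log i := by
  have hN' : (1 : ℝ) ≤ N := by exact_mod_cast hN
  have hi' : (1 : ℝ) ≤ i := by exact_mod_cast hi
  have e1 : Real.log i ≤ Real.log 640 + Real.log N := by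
    rw [← Real.log_mul (by norm_num) (by linarith)]
    exact Real.log_le_log (by linarith) h
  have e2 : 0 ≤ Real.log N := Real.log_nonneg hN'
  have e3 : (0 : ℝ) ≤ Real.log 640 := Real.log_nonneg (by norm_num)
  have e4 : 0 ≤ Real.log i := Real.log_nonneg hi'
  constructor
  · nlinarith [mul_nonneg e2 e3]
  · linarith

/-! ## the intervals -/

theorem interval (B : ℝ) (σ : ℤ) (g : ℕ) (hg : 0 < g) (hB : 0 ≤ B) :
    ∃ (s₀ : ℤ) (n₁ : ℕ), (n₁ : ℝ) ≤ 2 * B / g + 1 ∧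
      ∀ x : ℤ, |(σ : ℝ) + g * x| ≤ B → x ∈ Ico s₀ (s₀ + n₁) := by
  have hgR : (0 : ℝ) < g := by exact_mod_cast hg
  obtain ⟨a, ha⟩ : ∃ a : ℤ, a = ⌈(-B - σ) / g⌉ := ⟨_, rfl⟩
  obtain ⟨b, hb⟩ : ∃ b : ℤ, b = ⌊(B - σ) / g⌋ := ⟨_, rfl⟩
  have e1 : (-B - σ) / g ≤ (a : ℝ) := by rw [ha]; exact Int.le_ceil _
  have e2 : (b : ℝ) ≤ (B - σ) / g := by rw [hb]; exact Int.floor_le _
  refine ⟨a, (b + 1 - a).toNat, ?_, ?_⟩
  · rcases le_total 0 (b + 1 - a) with h | h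
    · have e3 : (((b + 1 - a).toNat : ℤ) : ℝ) = ((b + 1 - a : ℤ) : ℝ) := by
        rw [Int.toNat_of_nonneg h]
      have e4 : (((b + 1 - a).toNat : ℕ) : ℝ) = (b : ℝ) + 1 - a := by
        have : (((b + 1 - a).toNat : ℕ) : ℝ) = (((b + 1 - a).toNat : ℤ) : ℝ) := by push_cast; rfl
        rw [this, e3]
        push_cast
        ring
      rw [e4]
      have e5 : (B - σ) / g - (-B - σ) / g = 2 * B / g := by
        field_simp
        ring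
      linarith
    · rw [Int.toNat_eq_zero.2 h]
      push_cast
      positivity
  · intro x hx
    rw [abs_le] at hx
    have h1 : a ≤ x := by
      rw [ha]
      apply Int.ceil_le.2
      rw [div_le_iff₀ hgR]
      linarith [hx.1]
    have h2 : x ≤ b := by
      rw [hb]
      apply Int.le_floor.2
      rw [le_div_iff₀ hgR]
      linarith [hx.2]
    rw [Finset.mem_Ico]
    constructor
    · exact h1
    · omega

/-- the interval of `s` -/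
theorem intS {N ρ M A G V W : ℕ} (h : Par N ρ M A G V W) (g : ℕ) (hg : G ≤ g) (σ : ℤ) :
    ∃ (s₀ : ℤ) (n₁ : ℕ), n₁ ≤ iS ρ M G V ∧
      ∀ x : ℤ, (ρ : ℤ) * (σ + g * x) ^ 2 ≤ 32 * M * V ^ 2 → x ∈ Ico s₀ (s₀ + n₁) := by
  have hlow := (nS_bd h).1
  have h0 := nS_nonneg ρ M G V
  obtain ⟨h1, h2, h3, h4, h5, h6, h7, h8, h9, h10, h11, h12⟩ := h
  have g2 : (0 : ℝ) < ρ := by exact_mod_cast h2
  have g5 : (0 : ℝ) < G := by exact_mod_cast h5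
  have hgR : (G : ℝ) ≤ g := by exact_mod_cast hg
  obtain ⟨B, hB⟩ : ∃ B : ℝ, B = 5.66 * (V * Real.sqrt ((M : ℝ) / ρ)) := ⟨_, rfl⟩
  have hB0 : 0 ≤ B := by rw [hB]; positivity
  obtain ⟨s₀, n₁, e1, e2⟩ := interval B σ g (by omega) hB0
  refine ⟨s₀, n₁, ?_, ?_⟩
  · apply Nat.le_floor
    refine e1.trans ?_
    have e3 : 2 * B / g ≤ 2 * B / G := by gcongr
    have e4 : 2 * B / G = 11.32 * nS ρ M G V := by
      rw [hB]
      unfold nS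
      ring
    linarith
  · intro x hx
    apply e2
    have hx' : (ρ : ℝ) * (σ + g * x) ^ 2 ≤ 32 * M * V ^ 2 := by exact_mod_cast hx
    apply abs_le_of_sq_le_sq _ hB0
    have e3 : B ^ 2 = 5.66 ^ 2 * (V ^ 2 * (M / ρ)) := by
      rw [hB, mul_pow, mul_pow, Real.sq_sqrt (by positivity)]
    rw [e3]
    have e4 : ((σ : ℝ) + g * x) ^ 2 ≤ 32 * M * V ^ 2 / ρ := by
      rw [le_div_iff₀ g2]
      linarith
    refine e4.trans ?_
    have e5 : 32 * (M : ℝ) * V ^ 2 / ρ = 32 * (V ^ 2 * (M / ρ)) := by ring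
    rw [e5]
    have e6 : (0 : ℝ) ≤ (V : ℝ) ^ 2 * (M / ρ) := by positivity
    nlinarith

/-- the interval of `t` -/
theorem intT {N ρ M A G V W : ℕ} (h : Par N ρ M A G V W) (g : ℕ) (hg : G ≤ g) (τ : ℤ) :
    ∃ (t₀ : ℤ) (n₂ : ℕ), n₂ ≤ iT ρ M A G V ∧
      ∀ x : ℤ, (ρ : ℤ) * M * (τ + g * x) ^ 2 ≤ 64 * A ^ 2 * V ^ 2 → x ∈ Ico t₀ (t₀ + n₂) := by
  have hlow := (nT_bd h).1
  have h0 := nT_nonneg ρ M A G V
  obtain ⟨h1, h2, h3, h4, h5, h6, h7, h8, h9, h10, h11, h12⟩ := h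
  have g2 : (0 : ℝ) < ρ := by exact_mod_cast h2
  have g3 : (0 : ℝ) < M := by exact_mod_cast h3
  have g5 : (0 : ℝ) < G := by exact_mod_cast h5
  have hgR : (G : ℝ) ≤ g := by exact_mod_cast hg
  obtain ⟨B, hB⟩ : ∃ B : ℝ, B = 8 * ((A : ℝ) * V / Real.sqrt ((ρ : ℝ) * M)) := ⟨_, rfl⟩
  have hB0 : 0 ≤ B := by rw [hB]; positivity
  obtain ⟨t₀, n₂, e1, e2⟩ := interval B τ g (by omega) hB0
  refine ⟨t₀, n₂, ?_, ?_⟩
  · apply Nat.le_floor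
    refine e1.trans ?_
    have e3 : 2 * B / g ≤ 2 * B / G := by gcongr
    have e4 : 2 * B / G = 16 * nT ρ M A G V := by
      rw [hB]
      unfold nT
      have : Real.sqrt ((ρ : ℝ) * M) ≠ 0 := (Real.sqrt_pos.2 (by positivity)).ne'
      field_simp
      ring
    linarith
  · intro x hx
    apply e2
    have hx' : (ρ : ℝ) * M * (τ + g * x) ^ 2 ≤ 64 * A ^ 2 * V ^ 2 := by exact_mod_cast hx
    apply abs_le_of_sq_le_sq _ hB0
    have e3 : B ^ 2 = 64 * (A ^ 2 * V ^ 2 / (ρ * M)) := by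
      rw [hB, mul_pow, div_pow, mul_pow, Real.sq_sqrt (by positivity)]
      norm_num
    rw [e3, ← mul_div_assoc, le_div_iff₀ (by positivity)]
    linarith

end INN

end Pool.Agent.T2h80.F5
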