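import Mathlib
import Pool.Agent.T2h80.F5.Stm
import Pool.Agent.T2h80.F5.EE
import Pool.Agent.T2h80.F5.INNp

/-!
# INN (helper38)
-/

set_option autoImplicit false
set_option linter.all false

namespace Pool.Agent.T2h80.F5

open Finset EE

namespace INN

/-- one element congruent to `1` modulo the first and to `0` modulo the second -/
theorem crt1 (a b : ℤ) (h : IsCoprime a b) : ∃ E : ℤ, a ∣ E - 1 ∧ b ∣ E := by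
  obtain ⟨u, z, h⟩ := h
  exact ⟨z * b, ⟨-u, by linear_combination h⟩, ⟨z, by ring⟩⟩

theorem crt {g v w : ℕ} (hvw : v.Coprime w) (hg : g.Coprime (v * w)) :
    ∃ α β E₁ E₂ E₃ : ℤ, (v : ℤ) ^ 3 ∣ w * α - 1 ∧ (w : ℤ) ∣ v * β - 1 ∧ (v : ℤ) ^ 3 ∣ E₁ - 1 ∧
      (w : ℤ) ∣ E₁ ∧ (g : ℤ) ∣ E₁ ∧ (w : ℤ) ∣ E₂ - 1 ∧ (v : ℤ) ^ 3 ∣ E₂ ∧ (g : ℤ) ∣ E₂ ∧
      (g : ℤ) ∣ E₃ - 1 ∧ (v : ℤ) ^ 3 ∣ E₃ ∧ (w : ℤ) ∣ E₃ := by
  have h1 : IsCoprime (v : ℤ) w := Nat.isCoprime_iff_coprime.2 hvw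
  have h2 : IsCoprime (g : ℤ) v := Nat.isCoprime_iff_coprime.2 (Nat.Coprime.coprime_mul_right_right hg)
  have h3 : IsCoprime (g : ℤ) w := Nat.isCoprime_iff_coprime.2 (Nat.Coprime.coprime_mul_left_right hg)
  have h4 : IsCoprime ((v : ℤ) ^ 3) w := h1.pow_left
  have h5 : IsCoprime ((v : ℤ) ^ 3) g := h2.symm.pow_left
  obtain ⟨α, hα⟩ : ∃ α : ℤ, (v : ℤ) ^ 3 ∣ w * α - 1 := by
    obtain ⟨u, z, h⟩ := h4
    exact ⟨z, ⟨-u, by linear_combination h⟩⟩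
  obtain ⟨β, hβ⟩ : ∃ β : ℤ, (w : ℤ) ∣ v * β - 1 := by
    obtain ⟨u, z, h⟩ := h1
    exact ⟨u, ⟨-z, by linear_combination h⟩⟩
  obtain ⟨E₁, hE1, hE1'⟩ := crt1 ((v : ℤ) ^ 3) (w * g) (h4.mul_right h5)
  obtain ⟨E₂, hE2, hE2'⟩ := crt1 (w : ℤ) ((v : ℤ) ^ 3 * g) (h4.symm.mul_right h3.symm)
  obtain ⟨E₃, hE3, hE3'⟩ := crt1 (g : ℤ) ((v : ℤ) ^ 3 * w) (h5.symm.mul_right h3)
  exact ⟨α, β, E₁, E₂, E₃, hα, hβ, hE1, dvd_of_mul_right_dvd hE1', dvd_of_mul_left_dvd hE1', hE2,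
    dvd_of_mul_right_dvd hE2', dvd_of_mul_left_dvd hE2', hE3, dvd_of_mul_right_dvd hE3',
    dvd_of_mul_left_dvd hE3'⟩

/-- the residue class -/
def ph (ρ v E₁ E₂ E₃ α β μ s t : ℤ) : ℤ :=
  E₁ * (ρ * (t ^ 2 * v ^ 2 * α ^ 4 - s * t * α ^ 2)) + E₂ * (ρ * s ^ 2 * β ^ 2) + E₃ * μ

theorem ph_dvd {g v w ρ : ℕ} (hvw : v.Coprime w) (hg : g.Coprime (v * w))
    {α β E₁ E₂ E₃ : ℤ} (hα : (v : ℤ) ^ 3 ∣ w * α - 1) (hβ : (w : ℤ) ∣ v * β - 1)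
    (h1 : (v : ℤ) ^ 3 ∣ E₁ - 1) (h2 : (w : ℤ) ∣ E₁) (h3 : (g : ℤ) ∣ E₁) (h4 : (w : ℤ) ∣ E₂ - 1)
    (h5 : (v : ℤ) ^ 3 ∣ E₂) (h6 : (g : ℤ) ∣ E₂) (h7 : (g : ℤ) ∣ E₃ - 1) (h8 : (v : ℤ) ^ 3 ∣ E₃)
    (h9 : (w : ℤ) ∣ E₃) {s t m μ : ℤ} (hm : (g : ℤ) ∣ m - μ) (hC : Cong ρ v w s t m) :
    (((g * v ^ 3 * w : ℕ) : ℕ) : ℤ) ∣ m - ph ρ v E₁ E₂ E₃ α β μ s t := by
  have c1 : IsCoprime (v : ℤ) w := Nat.isCoprime_iff_coprime.2 hvw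
  have c2 : IsCoprime (g : ℤ) v := Nat.isCoprime_iff_coprime.2 (Nat.Coprime.coprime_mul_right_right hg)
  have c3 : IsCoprime (g : ℤ) w := Nat.isCoprime_iff_coprime.2 (Nat.Coprime.coprime_mul_left_right hg)
  have c4 : IsCoprime ((v : ℤ) ^ 3) w := c1.pow_left
  have c5 : IsCoprime ((v : ℤ) ^ 3) g := c2.symm.pow_left
  obtain ⟨hC1, hC2⟩ := hC
  have d1 : (g : ℤ) ∣ m - ph ρ v E₁ E₂ E₃ α β μ s t := by
    unfold ph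
    obtain ⟨a1, ha1⟩ := h3
    obtain ⟨a2, ha2⟩ := h6
    obtain ⟨a3, ha3⟩ := h7
    obtain ⟨a4, ha4⟩ := hm
    refine ⟨a4 - a1 * (ρ * (t ^ 2 * v ^ 2 * α ^ 4 - s * t * α ^ 2)) - a2 * (ρ * s ^ 2 * β ^ 2) -
      a3 * μ, ?_⟩
    linear_combination ha4 - (ρ * (t ^ 2 * v ^ 2 * α ^ 4 - s * t * α ^ 2)) * ha1 -
      (ρ * s ^ 2 * β ^ 2) * ha2 - μ * ha3
  have d2 : (v : ℤ) ^ 3 ∣ m - ph ρ v E₁ E₂ E₃ α β μ s t := by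
    unfold ph
    obtain ⟨a0, ha0⟩ := hα
    obtain ⟨a1, ha1⟩ := h1
    obtain ⟨a2, ha2⟩ := h5
    obtain ⟨a3, ha3⟩ := h8
    obtain ⟨a4, ha4⟩ := hC1
    refine ⟨-α ^ 4 * a4 - m * a0 * (w * α + 1) * ((w * α) ^ 2 + 1) -
      ρ * s * t * α ^ 2 * (a0 * (w * α + 1)) -
      a1 * (ρ * (t ^ 2 * v ^ 2 * α ^ 4 - s * t * α ^ 2)) - a2 * (ρ * s ^ 2 * β ^ 2) - a3 * μ, ?_⟩
    linear_combination (-α ^ 4) * ha4 - (m * (w * α + 1) * ((w * α) ^ 2 + 1) +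
      ρ * s * t * α ^ 2 * (w * α + 1)) * ha0 -
      (ρ * (t ^ 2 * v ^ 2 * α ^ 4 - s * t * α ^ 2)) * ha1 - (ρ * s ^ 2 * β ^ 2) * ha2 - μ * ha3
  have d3 : (w : ℤ) ∣ m - ph ρ v E₁ E₂ E₃ α β μ s t := by
    unfold ph
    obtain ⟨a0, ha0⟩ := hβ
    obtain ⟨a1, ha1⟩ := h2
    obtain ⟨a2, ha2⟩ := h4
    obtain ⟨a3, ha3⟩ := h9
    obtain ⟨a4, ha4⟩ := hC2
    refine ⟨-β ^ 2 * a4 - m * a0 * (v * β + 1) -
      a1 * (ρ * (t ^ 2 * v ^ 2 * α ^ 4 - s * t * α ^ 2)) - a2 * (ρ * s ^ 2 * β ^ 2) - a3 * μ, ?_⟩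
    linear_combination (-β ^ 2) * ha4 - (m * (v * β + 1)) * ha0 -
      (ρ * (t ^ 2 * v ^ 2 * α ^ 4 - s * t * α ^ 2)) * ha1 - (ρ * s ^ 2 * β ^ 2) * ha2 - μ * ha3
  have d4 : (g : ℤ) * (v : ℤ) ^ 3 ∣ m - ph ρ v E₁ E₂ E₃ α β μ s t := c5.symm.mul_dvd d1 d2
  have c6 : IsCoprime ((g : ℤ) * (v : ℤ) ^ 3) w := c3.mul_left c4
  have d5 := c6.mul_dvd d4 d3
  push_cast
  exact d5

/-- symmetric sums -/
theorem sym_sum (f : ℤ → ℝ) (hf : ∀ h, f (-h) = f h) (K : ℕ) :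
    ∑ h ∈ Icc (-(K : ℤ)) K, f h = f 0 + 2 * ∑ h ∈ Icc 1 K, f (h : ℕ) := by
  induction K with
  | zero => simp
  | succ K ih =>
    have e1 : Icc (-((K + 1 : ℕ) : ℤ)) ((K + 1 : ℕ) : ℤ) =
        insert (-((K + 1 : ℕ) : ℤ)) (insert ((K + 1 : ℕ) : ℤ) (Icc (-(K : ℤ)) K)) := by
      ext x
      simp only [Finset.mem_Icc, Finset.mem_insert]
      push_cast
      omega
    rw [e1, Finset.sum_insert, Finset.sum_insert, ih, Finset.sum_Icc_succ_top (by omega), hf]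
    · ring
    · rw [Finset.mem_Icc]
      push_cast
      omega
    · rw [Finset.mem_insert, Finset.mem_Icc]
      push_cast
      omega

/-- the exponential sum for one frequency -/
theorem freq (hDC : S_DC) (C : ℝ) (hC : 0 < C)
    (hW : ∀ (a b c p q : ℝ) (s₀ t₀ : ℤ) (n₁ n₂ Ns Nt : ℕ),
      1 ≤ Ns → 1 ≤ Nt → n₁ ≤ Ns → n₂ ≤ Nt →
      ‖∑ s ∈ Ico s₀ (s₀ + n₁), ∑ t ∈ Ico t₀ (t₀ + n₂),
        ee (a * (s : ℝ) ^ 2 + b * s * t + c * (t : ℝ) ^ 2 + p * s + q * t)‖ ^ 2 ≤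
      C * Ns * Nt * (1 + Real.log Ns) * (1 + Real.log Nt) * (DW a b c Ns Nt : ℝ))
    {N ρ M A G V W : ℕ} (hP : Par N ρ M A G V W) {g v w : ℕ} (g1 : G ≤ g) (g2 : g < 2 * G)
    (v1 : V ≤ v) (v2 : v < 2 * V) (w1 : W ≤ w) (w2 : w < 2 * W) (hvw : v.Coprime w)
    {α β E₁ E₂ E₃ : ℤ} (hα : (v : ℤ) ^ 3 ∣ w * α - 1) (hβ : (w : ℤ) ∣ v * β - 1)
    (h1 : (v : ℤ) ^ 3 ∣ E₁ - 1) (h2 : (w : ℤ) ∣ E₁) (h4 : (w : ℤ) ∣ E₂ - 1)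
    (h5 : (v : ℤ) ^ 3 ∣ E₂) (σ τ μ : ℤ) (s₀ t₀ : ℤ) (n₁ n₂ : ℕ) (hn1 : n₁ ≤ iS ρ M G V)
    (hn2 : n₂ ≤ iT ρ M A G V) (h : ℕ) (hh : 1 ≤ h) (hhM : h * M ≤ g * v ^ 3 * w) :
    ‖∑ z ∈ Ico s₀ (s₀ + n₁) ×ˢ Ico t₀ (t₀ + n₂),
      ee (((h : ℤ) : ℝ) * ph ρ v E₁ E₂ E₃ α β μ (σ + g * z.1) (τ + g * z.2) /
        (g * v ^ 3 * w : ℕ))‖ ≤
    Real.sqrt (800 * C) * (1 + Real.log 640) * ((1 + Real.log N) *
      Real.sqrt (nS ρ M G V * nT ρ M A G V) *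
        Real.sqrt (1 + (KP ρ M A G V W (h * g * ρ) v w : ℝ))) := by
  have hN := hP.1
  have hG := hP.2.2.2.2.1
  have hV := hP.2.2.2.2.2.1
  have hW' := hP.2.2.2.2.2.2.1
  obtain ⟨iS1, iS2, iS3⟩ := iS_bd hP
  obtain ⟨iT1, iT2, iT3⟩ := iT_bd hP
  have hD := hDC N ρ M A G V W hP g v w h g1 g2 v1 v2 w1 w2 hvw hh hhM α β E₁ E₂ hα hβ h1 h2 h4 h5
  obtain ⟨a, ha⟩ : ∃ a : ℝ, a = ((h * g * ρ : ℕ) : ℝ) * E₂ * β ^ 2 / (v ^ 3 * w) := ⟨_, rfl⟩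
  obtain ⟨b, hb⟩ : ∃ b : ℝ, b = -(((h * g * ρ : ℕ) : ℝ) * E₁ * α ^ 2 / (v ^ 3 * w)) := ⟨_, rfl⟩
  obtain ⟨c, hc⟩ : ∃ c : ℝ, c = ((h * g * ρ : ℕ) : ℝ) * E₁ * v ^ 2 * α ^ 4 / (v ^ 3 * w) := ⟨_, rfl⟩
  rw [← ha, ← hb, ← hc] at hD
  have gR : (0 : ℝ) < g := by
    have : 0 < g := by omega
    exact_mod_cast this
  have vR : (0 : ℝ) < v := by
    have : 0 < v := by omega
    exact_mod_cast this
  have wR : (0 : ℝ) < w := by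
    have : 0 < w := by omega
    exact_mod_cast this
  -- linear terms
  obtain ⟨p, hp⟩ : ∃ p : ℝ, p = h * (2 * σ * E₂ * ρ * β ^ 2 - τ * E₁ * ρ * α ^ 2) / (v ^ 3 * w) :=
    ⟨_, rfl⟩
  obtain ⟨q, hq⟩ : ∃ q : ℝ, q = h * (E₁ * ρ * (2 * τ * v ^ 2 * α ^ 4 - σ * α ^ 2)) / (v ^ 3 * w) :=
    ⟨_, rfl⟩
  obtain ⟨k, hk⟩ : ∃ k : ℝ, k = h * (E₁ * (ρ * (τ ^ 2 * v ^ 2 * α ^ 4 - σ * τ * α ^ 2)) +
      E₂ * (ρ * σ ^ 2 * β ^ 2) + E₃ * μ) / (g * v ^ 3 * w) := ⟨_, rfl⟩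
  have e1 : ∀ z : ℤ × ℤ, ((h : ℤ) : ℝ) * ph ρ v E₁ E₂ E₃ α β μ (σ + g * z.1) (τ + g * z.2) /
        (g * v ^ 3 * w : ℕ) =
      (a * (z.1 : ℝ) ^ 2 + b * z.1 * z.2 + c * (z.2 : ℝ) ^ 2 + p * z.1 + q * z.2) + k := by
    intro z
    rw [ha, hb, hc, hp, hq, hk]
    unfold ph
    push_cast
    field_simp
    ring
  simp only [e1]
  rw [norm_sum_shift, Finset.sum_product]
  have hw := hW a b c p q s₀ t₀ n₁ n₂ (iS ρ M G V) (iT ρ M A G V) iS1 iT1 hn1 hn2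
  obtain ⟨X, hX⟩ : ∃ X : ℝ, X = ‖∑ s ∈ Ico s₀ (s₀ + (n₁ : ℤ)), ∑ t ∈ Ico t₀ (t₀ + (n₂ : ℤ)),
        ee (a * (s : ℝ) ^ 2 + b * s * t + c * (t : ℝ) ^ 2 + p * s + q * t)‖ := ⟨_, rfl⟩
  rw [← hX] at hw ⊢
  have hX0 : 0 ≤ X := by rw [hX]; exact norm_nonneg _
  obtain ⟨l1, l1'⟩ := log_bd N (iS ρ M G V) hN iS1 iS3
  obtain ⟨l2, l2'⟩ := log_bd N (iT ρ M A G V) hN iT1 iT3
  have n1 := nS_nonneg ρ M G V
  have n2 := nT_nonneg ρ M A G V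
  have hDR : (DW a b c (iS ρ M G V) (iT ρ M A G V) : ℝ) ≤
      1 + (KP ρ M A G V W (h * g * ρ) v w : ℝ) := by exact_mod_cast hD
  have hlN : 0 ≤ 1 + Real.log N := by
    have : 0 ≤ Real.log N := Real.log_nonneg (by exact_mod_cast hN)
    linarith
  have hl6 : 0 ≤ 1 + Real.log 640 := by
    have : (0 : ℝ) ≤ Real.log 640 := Real.log_nonneg (by norm_num)
    linarith
  have hKP : (0 : ℝ) ≤ 1 + (KP ρ M A G V W (h * g * ρ) v w : ℝ) := by positivity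
  have m1 : (iS ρ M G V : ℝ) * (iT ρ M A G V : ℝ) ≤
      (20 * nS ρ M G V) * (40 * nT ρ M A G V) :=
    mul_le_mul iS2 iT2 (Nat.cast_nonneg _) (by positivity)
  have m2 : (1 + Real.log (iS ρ M G V)) * (1 + Real.log (iT ρ M A G V)) ≤
      ((1 + Real.log 640) * (1 + Real.log N)) * ((1 + Real.log 640) * (1 + Real.log N)) :=
    mul_le_mul l1 l2 l2' (mul_nonneg hl6 hlN)
  have m3 : ((iS ρ M G V : ℝ) * (iT ρ M A G V : ℝ)) * ((1 + Real.log (iS ρ M G V)) *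
      (1 + Real.log (iT ρ M A G V))) ≤ ((20 * nS ρ M G V) * (40 * nT ρ M A G V)) *
      (((1 + Real.log 640) * (1 + Real.log N)) * ((1 + Real.log 640) * (1 + Real.log N))) :=
    mul_le_mul m1 m2 (mul_nonneg l1' l2') (by positivity)
  have m4 : ((iS ρ M G V : ℝ) * (iT ρ M A G V : ℝ)) * ((1 + Real.log (iS ρ M G V)) *
      (1 + Real.log (iT ρ M A G V))) * (DW a b c (iS ρ M G V) (iT ρ M A G V) : ℝ) ≤
      ((20 * nS ρ M G V) * (40 * nT ρ M A G V)) *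
      (((1 + Real.log 640) * (1 + Real.log N)) * ((1 + Real.log 640) * (1 + Real.log N))) *
      (1 + (KP ρ M A G V W (h * g * ρ) v w : ℝ)) := by
    refine mul_le_mul m3 hDR (Nat.cast_nonneg _) ?_
    have := mul_nonneg hl6 hlN
    positivity
  have m5 : X ^ 2 ≤ (Real.sqrt (800 * C) * (1 + Real.log 640) * ((1 + Real.log N) *
      Real.sqrt (nS ρ M G V * nT ρ M A G V) *
        Real.sqrt (1 + (KP ρ M A G V W (h * g * ρ) v w : ℝ)))) ^ 2 := by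
    have e2 : (Real.sqrt (800 * C) * (1 + Real.log 640) * ((1 + Real.log N) *
      Real.sqrt (nS ρ M G V * nT ρ M A G V) *
        Real.sqrt (1 + (KP ρ M A G V W (h * g * ρ) v w : ℝ)))) ^ 2 =
        C * (((20 * nS ρ M G V) * (40 * nT ρ M A G V)) *
      (((1 + Real.log 640) * (1 + Real.log N)) * ((1 + Real.log 640) * (1 + Real.log N))) *
      (1 + (KP ρ M A G V W (h * g * ρ) v w : ℝ))) := by
      rw [mul_pow, mul_pow, mul_pow, mul_pow, Real.sq_sqrt (by positivity),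
        Real.sq_sqrt (by positivity), Real.sq_sqrt hKP]
      ring
    rw [e2]
    refine hw.trans ?_
    calc _ = C * (((iS ρ M G V : ℝ) * (iT ρ M A G V : ℝ)) * ((1 + Real.log (iS ρ M G V)) *
      (1 + Real.log (iT ρ M A G V))) * (DW a b c (iS ρ M G V) (iT ρ M A G V) : ℝ)) := by ring
      _ ≤ _ := mul_le_mul_of_nonneg_left m4 hC.le
  refine (abs_le_of_sq_le_sq' m5 ?_).2
  have := mul_nonneg hl6 hlN
  have s1 := Real.sqrt_nonneg (800 * C)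
  have s2 := Real.sqrt_nonneg (nS ρ M G V * nT ρ M A G V)
  have s3 := Real.sqrt_nonneg (1 + (KP ρ M A G V W (h * g * ρ) v w : ℝ))
  exact mul_nonneg (mul_nonneg s1 hl6) (mul_nonneg (mul_nonneg hlN s2) s3)

end INN

open INN

theorem t_INN (hFEJ : S_FEJ) (hWEY : S_WEY) (hDC : S_DC) : S_INN := by
  classical
  obtain ⟨C, hC, hW⟩ := hWEY
  obtain ⟨c₁, hc₁⟩ : ∃ c₁ : ℝ, c₁ = Real.sqrt (800 * C) * (1 + Real.log 640) := ⟨_, rfl⟩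
  have hc0 : 0 ≤ c₁ := by
    rw [hc₁]
    have : (0 : ℝ) ≤ Real.log 640 := Real.log_nonneg (by norm_num)
    positivity
  refine ⟨24 * (800 + 2 * c₁), by positivity, ?_⟩
  intro N ρ M A G V W hP g v w g1 g2 v1 v2 w1 w2 hvw hg σ τ μ F hF
  obtain ⟨α, β, E₁, E₂, E₃, hα, hβ, e1, e2, e3, e4, e5, e6, e7, e8, e9⟩ := crt hvw hg
  obtain ⟨s₀, n₁, hn1, hs⟩ := intS hP g g1 σ
  obtain ⟨t₀, n₂, hn2, ht⟩ := intT hP g g1 τ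
  have hN := hP.1
  have hM := hP.2.2.1
  have hG := hP.2.2.2.2.1
  have hV := hP.2.2.2.2.2.1
  have hW' := hP.2.2.2.2.2.2.1
  obtain ⟨iS1, iS2, iS3⟩ := iS_bd hP
  obtain ⟨iT1, iT2, iT3⟩ := iT_bd hP
  have n1 := nS_nonneg ρ M G V
  have n2 := nT_nonneg ρ M A G V
  have g0 : 0 < g := by omega
  have v0 : 0 < v := by omega
  have w0 : 0 < w := by omega
  have q0 : 0 < g * v ^ 3 * w := by positivity
  -- the injection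
  have hcard : F.card ≤ (((Ico s₀ (s₀ + (n₁ : ℤ)) ×ˢ Ico t₀ (t₀ + (n₂ : ℤ))) ×ˢ
      Ico (M : ℤ) (M + M)).filter (fun x : (ℤ × ℤ) × ℤ => ((g * v ^ 3 * w : ℕ) : ℤ) ∣
        x.2 - ph ρ v E₁ E₂ E₃ α β μ (σ + g * x.1.1) (τ + g * x.1.2))).card := by
    refine Finset.card_le_card_of_injOn
      (fun x : ℤ × ℤ × ℤ => (((x.1 - σ) / g, (x.2.1 - τ) / g), x.2.2)) ?_ ?_
    · rintro ⟨s, t, m⟩ hx
      obtain ⟨f1, f2, f3, f4, f5, f6, f7, f8⟩ := hF _ hx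
      simp only at f1 f2 f3 f4 f5 f6 f7 f8
      have es : σ + (g : ℤ) * ((s - σ) / g) = s := by
        rw [Int.mul_ediv_cancel' f5]
        ring
      have et : τ + (g : ℤ) * ((t - τ) / g) = t := by
        rw [Int.mul_ediv_cancel' f6]
        ring
      rw [Finset.mem_coe, Finset.mem_filter, Finset.mem_product, Finset.mem_product]
      simp only
      refine ⟨⟨⟨hs _ ?_, ht _ ?_⟩, ?_⟩, ?_⟩
      · rw [es]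
        exact f1
      · rw [et]
        exact f2
      · rw [Finset.mem_Ico]
        constructor
        · exact f3
        · linarith
      · rw [es, et]
        exact ph_dvd hvw hg hα hβ e1 e2 e3 e4 e5 e6 e7 e8 e9 f7 f8
    · rintro ⟨s, t, m⟩ hx ⟨s', t', m'⟩ hx' hxx
      obtain ⟨f1, f2, f3, f4, f5, f6, f7, f8⟩ := hF _ hx
      obtain ⟨f1', f2', f3', f4', f5', f6', f7', f8'⟩ := hF _ hx'
      simp only at f5 f6 f5' f6'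
      simp only [Prod.mk.injEq] at hxx
      obtain ⟨⟨x1, x2⟩, x3⟩ := hxx
      have y1 : s - σ = s' - σ := by
        rw [← Int.mul_ediv_cancel' f5, ← Int.mul_ediv_cancel' f5', x1]
      have y2 : t - τ = t' - τ := by
        rw [← Int.mul_ediv_cancel' f6, ← Int.mul_ediv_cancel' f6', x2]
      rw [Prod.mk.injEq, Prod.mk.injEq]
      exact ⟨by linarith, by linarith, x3⟩
  have hfej := hFEJ (ℤ × ℤ) (Ico s₀ (s₀ + (n₁ : ℤ)) ×ˢ Ico t₀ (t₀ + (n₂ : ℤ)))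
    (fun z => ph ρ v E₁ E₂ E₃ α β μ (σ + g * z.1) (τ + g * z.2)) (g * v ^ 3 * w) M M q0 hM
  have hcardR : (F.card : ℝ) ≤ (((((Ico s₀ (s₀ + (n₁ : ℤ)) ×ˢ Ico t₀ (t₀ + (n₂ : ℤ))) ×ˢ
      Ico (M : ℤ) (M + M)).filter (fun x : (ℤ × ℤ) × ℤ => ((g * v ^ 3 * w : ℕ) : ℤ) ∣
        x.2 - ph ρ v E₁ E₂ E₃ α β μ (σ + g * x.1.1) (τ + g * x.1.2))).card : ℕ) : ℝ) := by
    exact_mod_cast hcard
  refine hcardR.trans (hfej.trans ?_)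
  rw [sym_sum (fun h : ℤ => ‖∑ i ∈ Ico s₀ (s₀ + (n₁ : ℤ)) ×ˢ Ico t₀ (t₀ + (n₂ : ℤ)),
    ee ((h : ℝ) * (ph ρ v E₁ E₂ E₃ α β μ (σ + g * i.1) (τ + g * i.2) : ℤ) /
      ((g * v ^ 3 * w : ℕ) : ℝ))‖)]
  swap
  · intro h
    have : ∀ i : ℤ × ℤ, (((-h : ℤ) : ℝ) * (ph ρ v E₁ E₂ E₃ α β μ (σ + g * i.1) (τ + g * i.2) : ℤ) /
      ((g * v ^ 3 * w : ℕ) : ℝ)) = -((h : ℝ) * (ph ρ v E₁ E₂ E₃ α β μ (σ + g * i.1) (τ + g * i.2) : ℤ) /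
      ((g * v ^ 3 * w : ℕ) : ℝ)) := by
      intro i
      push_cast
      ring
    simp only [this]
    exact norm_sum_neg _ _
  have hqM : (0 : ℝ) ≤ (M : ℝ) / ((g * v ^ 3 * w : ℕ) : ℝ) := by positivity
  have hz : ‖∑ i ∈ Ico s₀ (s₀ + (n₁ : ℤ)) ×ˢ Ico t₀ (t₀ + (n₂ : ℤ)),
    ee (((0 : ℤ) : ℝ) * (ph ρ v E₁ E₂ E₃ α β μ (σ + g * i.1) (τ + g * i.2) : ℤ) /
      ((g * v ^ 3 * w : ℕ) : ℝ))‖ ≤ 800 * (nS ρ M G V * nT ρ M A G V) := by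
    refine (norm_sum_le_card _ _).trans ?_
    rw [Finset.card_product, Int.card_Ico, Int.card_Ico]
    have c1 : (s₀ + (n₁ : ℤ) - s₀).toNat = n₁ := by omega
    have c2 : (t₀ + (n₂ : ℤ) - t₀).toNat = n₂ := by omega
    rw [c1, c2]
    push_cast
    have d1 : (n₁ : ℝ) ≤ 20 * nS ρ M G V := by
      have : (n₁ : ℝ) ≤ (iS ρ M G V : ℝ) := by exact_mod_cast hn1
      linarith
    have d2 : (n₂ : ℝ) ≤ 40 * nT ρ M A G V := by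
      have : (n₂ : ℝ) ≤ (iT ρ M A G V : ℝ) := by exact_mod_cast hn2
      linarith
    calc (n₁ : ℝ) * n₂ ≤ (20 * nS ρ M G V) * (40 * nT ρ M A G V) :=
          mul_le_mul d1 d2 (Nat.cast_nonneg _) (by positivity)
      _ = _ := by ring
  have hh : ∑ h ∈ Icc 1 (g * v ^ 3 * w / M),
      ‖∑ i ∈ Ico s₀ (s₀ + (n₁ : ℤ)) ×ˢ Ico t₀ (t₀ + (n₂ : ℤ)),
    ee ((((h : ℕ) : ℤ) : ℝ) * (ph ρ v E₁ E₂ E₃ α β μ (σ + g * i.1) (τ + g * i.2) : ℤ) /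
      ((g * v ^ 3 * w : ℕ) : ℝ))‖ ≤ ∑ h ∈ Icc 1 (g * v ^ 3 * w / M), c₁ * ((1 + Real.log N) *
      Real.sqrt (nS ρ M G V * nT ρ M A G V) *
        Real.sqrt (1 + (KP ρ M A G V W (h * g * ρ) v w : ℝ))) := by
    refine Finset.sum_le_sum fun h hmem => ?_
    rw [Finset.mem_Icc] at hmem
    have hhM : h * M ≤ g * v ^ 3 * w := (Nat.le_div_iff_mul_le hM).1 hmem.2
    have := freq hDC C hC hW hP g1 g2 v1 v2 w1 w2 hvw hα hβ e1 e2 e4 e5 σ τ μ s₀ t₀ n₁ n₂ hn1 hn2 h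
      hmem.1 hhM (E₃ := E₃)
    rw [← hc₁] at this
    exact this
  rw [← Finset.mul_sum] at hh
  simp only [mul_assoc (1 + Real.log (N : ℝ))] at hh
  rw [← Finset.mul_sum, ← Finset.mul_sum] at hh
  obtain ⟨Y, hY⟩ : ∃ Y : ℝ, Y = ∑ h ∈ Icc 1 (g * v ^ 3 * w / M),
    Real.sqrt (1 + (KP ρ M A G V W (h * g * ρ) v w : ℝ)) := ⟨_, rfl⟩
  rw [← hY] at hh ⊢
  have hY0 : 0 ≤ Y := by rw [hY]; exact Finset.sum_nonneg fun _ _ => Real.sqrt_nonneg _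
  obtain ⟨Z, hZ⟩ : ∃ Z : ℝ, Z = (1 + Real.log N) * (Real.sqrt (nS ρ M G V * nT ρ M A G V) * Y) :=
    ⟨_, rfl⟩
  rw [← hZ] at hh
  have hZ0 : 0 ≤ Z := by
    rw [hZ]
    have : 0 ≤ Real.log N := Real.log_nonneg (by exact_mod_cast hN)
    positivity
  have hZ' : (1 + Real.log N) * Real.sqrt (nS ρ M G V * nT ρ M A G V) * Y = Z := by
    rw [hZ]
    ring
  rw [hZ']
  have hnn : 0 ≤ nS ρ M G V * nT ρ M A G V := mul_nonneg n1 n2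
  have hMq : (M : ℝ) / ((g * v ^ 3 * w : ℕ) : ℝ) = (M : ℝ) / (g * v ^ 3 * w) := by
    push_cast
    rfl
  rw [hMq] at hqM ⊢
  obtain ⟨T, hT⟩ : ∃ T : ℝ, T = (M : ℝ) / (g * v ^ 3 * w) := ⟨_, rfl⟩
  rw [← hT] at hqM ⊢
  calc _ ≤ 24 * T * (800 * (nS ρ M G V * nT ρ M A G V) + 2 * (c₁ * Z)) := by
        refine mul_le_mul_of_nonneg_left ?_ (by positivity)
        exact add_le_add hz (mul_le_mul_of_nonneg_left hh (by norm_num))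
    _ ≤ 24 * (800 + 2 * c₁) * T * (nS ρ M G V * nT ρ M A G V + Z) := by
        have f1 : 0 ≤ T * Z := mul_nonneg hqM hZ0
        have f2 : 0 ≤ c₁ * (T * (nS ρ M G V * nT ρ M A G V)) :=
          mul_nonneg hc0 (mul_nonneg hqM hnn)
        nlinarith

end Pool.Agent.T2h80.F5
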