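import Pool.Agent.T2h80.F5.Stm

/-! Task MIN of project F5. -/

set_option autoImplicit false

namespace Pool.Agent.T2h80.F5

open NumberField

theorem t_MIN : S_MIN := by
  intro K _ _ d hK hd hd0 c
  classical
  have hsign := NumberField.sign_discr K
  rw [hd] at hsign
  have hs : (-(d : ℤ)).sign = -1 := Int.sign_eq_neg_one_of_neg (by omega)
  rw [hs] at hsign
  have hr := InfinitePlace.card_add_two_mul_card_eq_rank K
  rw [hK] at hr
  have hr2 : InfinitePlace.nrComplexPlaces K = 1 := by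
    have h1 : InfinitePlace.nrComplexPlaces K ≤ 1 := by omega
    rcases Nat.le_one_iff_eq_zero_or_eq_one.mp h1 with h | h
    · rw [h] at hsign
      norm_num at hsign
    · exact h
  obtain ⟨I0, hI0, hN0⟩ := NumberField.exists_ideal_in_class_of_norm_le c
  rw [hr2, hK, hd] at hN0
  have hN1 : (Ideal.absNorm (I0 : Ideal (𝓞 K)) : ℝ) ^ 2 ≤ d := by
    have hpi := Real.pi_gt_three
    have h1 : (Ideal.absNorm (I0 : Ideal (𝓞 K)) : ℝ) ≤ Real.sqrt d := by
      refine hN0.trans ?_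
      have e1 : |((-(d : ℤ) : ℤ) : ℝ)| = d := by
        push_cast
        rw [abs_neg, Nat.abs_cast]
      rw [e1]
      have e2 : ((2 : ℕ).factorial : ℝ) / ((2 : ℕ) : ℝ) ^ 2 = 1 / 2 := by norm_num [Nat.factorial]
      rw [e2]
      have h2 : (4 / Real.pi) ^ 1 * (1 / 2) ≤ 1 := by
        rw [pow_one, div_mul_div_comm, div_le_one (by positivity)]
        linarith
      have h3 := Real.sqrt_nonneg (d : ℝ)
      nlinarith
    have h4 : (0 : ℝ) ≤ Ideal.absNorm (I0 : Ideal (𝓞 K)) := Nat.cast_nonneg _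
    have h5 := pow_le_pow_left₀ h4 h1 2
    rwa [Real.sq_sqrt (Nat.cast_nonneg _)] at h5
  have hN2 : Ideal.absNorm (I0 : Ideal (𝓞 K)) ^ 2 ≤ d := by exact_mod_cast hN1
  let S : ℕ → Prop := fun n => ∃ (I : Ideal (𝓞 K)) (hI : I ∈ nonZeroDivisors (Ideal (𝓞 K))),
    ClassGroup.mk0 ⟨I, hI⟩ = c ∧ Ideal.absNorm I = n
  have hS : ∃ n, S n := ⟨_, I0.1, I0.2, hI0, rfl⟩
  obtain ⟨I, hI, hIc, hIn⟩ := Nat.find_spec hS
  have hmin : ∀ m, S m → Nat.find hS ≤ m := fun m hm => Nat.find_min' hS hm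
  refine ⟨I, hI, hIc, ?_, ?_⟩
  · have h1 := hmin _ ⟨I0.1, I0.2, hI0, rfl⟩
    rw [← hIn] at h1
    exact (Nat.pow_le_pow_left h1 2).trans hN2
  · intro n hn hle
    obtain ⟨J, hJ⟩ := Ideal.dvd_iff_le.mpr hle
    have hn0 : (n : 𝓞 K) ≠ 0 := by
      have : n ≠ 0 := by omega
      exact_mod_cast this
    have hI0' : I ≠ ⊥ := nonZeroDivisors.ne_zero hI
    have hJ0 : J ≠ ⊥ := by
      rintro rfl
      rw [Ideal.mul_bot] at hJ
      exact hI0' hJ
    have hJm : J ∈ nonZeroDivisors (Ideal (𝓞 K)) := mem_nonZeroDivisors_of_ne_zero hJ0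
    have hJc : ClassGroup.mk0 ⟨J, hJm⟩ = c := by
      rw [← hIc]
      rw [ClassGroup.mk0_eq_mk0_iff]
      refine ⟨(n : 𝓞 K), 1, hn0, one_ne_zero, ?_⟩
      simp only
      rw [← hJ, Ideal.span_singleton_one, Ideal.top_mul]
    have h1 := hmin _ ⟨J, hJm, hJc, rfl⟩
    rw [← hIn, hJ, map_mul] at h1
    have h2 : Ideal.absNorm (Ideal.span {(n : 𝓞 K)}) = n ^ 2 := by
      rw [Ideal.absNorm_span_singleton]
      have : Algebra.norm ℤ ((n : ℤ) : 𝓞 K) = (n : ℤ) ^ 2 := by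
        have h := Algebra.norm_algebraMap_of_basis (NumberField.RingOfIntegers.basis K) (n : ℤ)
        rw [← Module.finrank_eq_card_basis (NumberField.RingOfIntegers.basis K),
          NumberField.RingOfIntegers.rank K, hK] at h
        simpa using h
      rw [Int.cast_natCast] at this
      rw [this]
      simp
    rw [h2] at h1
    have h3 : 0 < Ideal.absNorm J := by
      rw [Nat.pos_iff_ne_zero]
      intro h
      rw [Ideal.absNorm_eq_zero_iff] at h
      exact hJ0 h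
    have h4 : 4 ≤ n ^ 2 := by nlinarith
    have h5 : 4 * Ideal.absNorm J ≤ n ^ 2 * Ideal.absNorm J := Nat.mul_le_mul_right _ h4
    omega

end Pool.Agent.T2h80.F5
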