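import Pool.Agent.T2h80.F5.Stm

set_option autoImplicit false

namespace Pool.Agent.T2h80.F5

open Finset

namespace NUMaux

variable {R M A G V W n : ℝ}

lemma gvw (hG : 1 ≤ G) (_hV : 1 ≤ V) (hW : 1 ≤ W) (hn : 1 ≤ n) (hR : 1 ≤ R) (hM : 1 ≤ M)
    (hA : 1 ≤ A) (c : n ^ 2 * (G * V) ≤ 6 * (R * M ^ 2 * A)) (d : n ^ 2 * (G * W) ≤ 6 * (R * A ^ 2 * M)) :
    G ^ 2 * V * W ≤ 36 * (R ^ 2 * M ^ 3 * A ^ 3) / n ^ 4 := by
  rw [le_div_iff₀ (by positivity)]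
  calc G ^ 2 * V * W * n ^ 4 = (n ^ 2 * (G * V)) * (n ^ 2 * (G * W)) := by ring
    _ ≤ (6 * (R * M ^ 2 * A)) * (6 * (R * A ^ 2 * M)) :=
        mul_le_mul c d (by positivity) (by positivity)
    _ = 36 * (R ^ 2 * M ^ 3 * A ^ 3) := by ring

lemma gvv (hG : 1 ≤ G) (hV : 1 ≤ V) (hn : 1 ≤ n) (hR : 1 ≤ R) (hM : 1 ≤ M)
    (hA : 1 ≤ A) (c : n ^ 2 * (G * V) ≤ 6 * (R * M ^ 2 * A)) :
    G ^ 2 * V ^ 2 ≤ 36 * (R ^ 2 * M ^ 4 * A ^ 2) / n ^ 4 := by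
  rw [le_div_iff₀ (by positivity)]
  calc G ^ 2 * V ^ 2 * n ^ 4 = (n ^ 2 * (G * V)) * (n ^ 2 * (G * V)) := by ring
    _ ≤ (6 * (R * M ^ 2 * A)) * (6 * (R * M ^ 2 * A)) :=
        mul_le_mul c c (by positivity) (by positivity)
    _ = 36 * (R ^ 2 * M ^ 4 * A ^ 2) := by ring

/-- monomials -/
lemma mono (hR : 1 ≤ R) (hM : 1 ≤ M) (hA : 1 ≤ A) (a : R * M ≤ 2 * n) (b : R * A ≤ 2 * n)
    (i j : ℕ) : M ^ i * A ^ j ≤ (2 * n) ^ (i + j) / R ^ (i + j) := by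
  rw [le_div_iff₀ (by positivity)]
  calc M ^ i * A ^ j * R ^ (i + j) = (R * M) ^ i * (R * A) ^ j := by
        rw [mul_pow, mul_pow, pow_add]; ring
    _ ≤ (2 * n) ^ i * (2 * n) ^ j := by
        have : 0 ≤ R * M := by positivity
        have : 0 ≤ n := by linarith
        gcongr
    _ = (2 * n) ^ (i + j) := by rw [pow_add]

theorem sizes (hG : 1 ≤ G) (hV : 1 ≤ V) (hW : 1 ≤ W) (hn : 1 ≤ n) (hR : 1 ≤ R) (hM : 1 ≤ M)
    (hA : 1 ≤ A) (a : R * M ≤ 2 * n) (b : R * A ≤ 2 * n)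
    (c : n ^ 2 * (G * V) ≤ 6 * (R * M ^ 2 * A)) (d : n ^ 2 * (G * W) ≤ 6 * (R * A ^ 2 * M)) :
    G * R * V * W * A ^ 2 / (M ^ 2 * M) ≤ 1152 * n ∧ G * R * V * W / M ≤ 1152 * n ∧
      G * R * V ^ 2 / M ≤ 1152 * n ∧ G * R * V ^ 2 * M / A ^ 2 ≤ 1152 * n := by
  have g1 := gvw hG hV hW hn hR hM hA c d
  have g2 := gvv hG hV hn hR hM hA c
  have hGG : G ≤ G ^ 2 := by nlinarith
  have t1 : G * V * W ≤ 36 * (R ^ 2 * M ^ 3 * A ^ 3) / n ^ 4 := by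
    refine le_trans ?_ g1
    gcongr
  have t2 : G * V ^ 2 ≤ 36 * (R ^ 2 * M ^ 4 * A ^ 2) / n ^ 4 := by
    refine le_trans ?_ g2
    gcongr
  have hnp : 0 < n := by linarith
  have fin : ∀ i j : ℕ, i + j = 5 → 36 * (R ^ 3 * (M ^ i * A ^ j)) / n ^ 4 ≤ 1152 * n := by
    intro i j hij
    have m1 := mono hR hM hA a b i j
    rw [hij] at m1
    calc 36 * (R ^ 3 * (M ^ i * A ^ j)) / n ^ 4 ≤ 36 * (R ^ 3 * ((2 * n) ^ 5 / R ^ 5)) / n ^ 4 := by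
          gcongr
      _ = 1152 * n / R ^ 2 := by field_simp; ring
      _ ≤ 1152 * n := div_le_self (by positivity) (one_le_pow₀ hR)
  refine ⟨?_, ?_, ?_, ?_⟩
  · calc G * R * V * W * A ^ 2 / (M ^ 2 * M) = (G * V * W) * (R * A ^ 2 / M ^ 3) := by
          field_simp
      _ ≤ (36 * (R ^ 2 * M ^ 3 * A ^ 3) / n ^ 4) * (R * A ^ 2 / M ^ 3) := by gcongr
      _ = 36 * (R ^ 3 * (M ^ 0 * A ^ 5)) / n ^ 4 := by field_simp
      _ ≤ 1152 * n := fin 0 5 rfl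
  · calc G * R * V * W / M = (G * V * W) * (R / M) := by
          field_simp
      _ ≤ (36 * (R ^ 2 * M ^ 3 * A ^ 3) / n ^ 4) * (R / M) := by gcongr
      _ = 36 * (R ^ 3 * (M ^ 2 * A ^ 3)) / n ^ 4 := by field_simp
      _ ≤ 1152 * n := fin 2 3 rfl
  · calc G * R * V ^ 2 / M = (G * V ^ 2) * (R / M) := by
          field_simp
      _ ≤ (36 * (R ^ 2 * M ^ 4 * A ^ 2) / n ^ 4) * (R / M) := by gcongr
      _ = 36 * (R ^ 3 * (M ^ 3 * A ^ 2)) / n ^ 4 := by field_simp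
      _ ≤ 1152 * n := fin 3 2 rfl
  · calc G * R * V ^ 2 * M / A ^ 2 = (G * V ^ 2) * (R * M / A ^ 2) := by
          field_simp
      _ ≤ (36 * (R ^ 2 * M ^ 4 * A ^ 2) / n ^ 4) * (R * M / A ^ 2) := by gcongr
      _ = 36 * (R ^ 3 * (M ^ 5 * A ^ 0)) / n ^ 4 := by field_simp
      _ ≤ 1152 * n := fin 5 0 rfl

theorem p5 (hG : 1 ≤ G) (hV : 1 ≤ V) (hW : 1 ≤ W) (hn : 1 ≤ n) (hR : 1 ≤ R) (hM : 1 ≤ M)
    (hA : 1 ≤ A) (a : R * M ≤ 2 * n) (b : R * A ≤ 2 * n)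
    (c : n ^ 2 * (G * V) ≤ 6 * (R * M ^ 2 * A)) (d : n ^ 2 * (G * W) ≤ 6 * (R * A ^ 2 * M)) :
    G ^ 2 * V ^ 2 * W * A / R ≤ 10 ^ 12 * n ^ 4 / R ^ 2 := by
  have g2 := gvv hG hV hn hR hM hA c
  have hnp : 0 < n := by linarith
  have g3 : W ≤ 6 * (R * A ^ 2 * M) / n ^ 2 := by
    rw [le_div_iff₀ (by positivity)]
    refine le_trans ?_ d
    have : W ≤ G * W := le_mul_of_one_le_left (by linarith) hG
    nlinarith [sq_nonneg n]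
  have m1 := mono hR hM hA a b 5 5
  calc G ^ 2 * V ^ 2 * W * A / R ≤ (36 * (R ^ 2 * M ^ 4 * A ^ 2) / n ^ 4) *
        (6 * (R * A ^ 2 * M) / n ^ 2) * A / R := by gcongr
    _ = 216 * R ^ 2 * (M ^ 5 * A ^ 5) / n ^ 6 := by field_simp; ring
    _ ≤ 216 * R ^ 2 * ((2 * n) ^ (5 + 5) / R ^ (5 + 5)) / n ^ 6 := by gcongr
    _ = 221184 * n ^ 4 / R ^ 2 / R ^ 6 := by field_simp; ring
    _ ≤ 221184 * n ^ 4 / R ^ 2 := div_le_self (by positivity) (one_le_pow₀ hR)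
    _ ≤ 10 ^ 12 * n ^ 4 / R ^ 2 := by gcongr; norm_num

theorem p4 (hG : 1 ≤ G) (hV : 1 ≤ V) (hW : 1 ≤ W) (hn : 1 ≤ n) (hR : 1 ≤ R) (hM : 1 ≤ M)
    (hA : 1 ≤ A) (a : R * M ≤ 2 * n) (b : R * A ≤ 2 * n)
    (c : n ^ 2 * (G * V) ≤ 6 * (R * M ^ 2 * A)) (d : n ^ 2 * (G * W) ≤ 6 * (R * A ^ 2 * M)) :
    M ^ 4 * A ^ 2 / (R ^ 2 * V ^ 2) * ((1 + G * R * V * W * A ^ 2 / (M ^ 2 * M)) *
      (1 + G * R * V ^ 2 / M)) ≤ 40000 * n ^ 6 / R ^ 8 := by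
  have g1 := gvw hG hV hW hn hR hM hA c d
  have hnp : 0 < n := by linarith
  have g3 : G * W ≤ 6 * (R * A ^ 2 * M) / n ^ 2 := by
    rw [le_div_iff₀ (by positivity), mul_comm]
    exact d
  have g4 : G ≤ 6 * (R * M ^ 2 * A) / n ^ 2 := by
    rw [le_div_iff₀ (by positivity)]
    refine le_trans ?_ c
    have : G ≤ G * V := le_mul_of_one_le_right (by linarith) hV
    nlinarith [sq_nonneg n]
  have q0 : M ^ 4 * A ^ 2 / (R ^ 2 * V ^ 2) ≤ 64 * (n ^ 6 / R ^ 8) := by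
    have m1 := mono hR hM hA a b 4 2
    calc M ^ 4 * A ^ 2 / (R ^ 2 * V ^ 2) ≤ ((2 * n) ^ (4 + 2) / R ^ (4 + 2)) / (R ^ 2 * V ^ 2) := by
          gcongr
      _ = 64 * (n ^ 6 / R ^ 8) / V ^ 2 := by field_simp; ring
      _ ≤ 64 * (n ^ 6 / R ^ 8) := div_le_self (by positivity) (one_le_pow₀ hV)
  have q1 : M ^ 4 * A ^ 2 / (R ^ 2 * V ^ 2) * (G * R * V * W * A ^ 2 / (M ^ 2 * M)) ≤
      1536 * (n ^ 6 / R ^ 8) := by
    have m1 := mono hR hM hA a b 2 6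
    calc M ^ 4 * A ^ 2 / (R ^ 2 * V ^ 2) * (G * R * V * W * A ^ 2 / (M ^ 2 * M)) =
          M * A ^ 4 / R * (G * W) / V := by field_simp
      _ ≤ M * A ^ 4 / R * (G * W) := div_le_self (by positivity) hV
      _ ≤ M * A ^ 4 / R * (6 * (R * A ^ 2 * M) / n ^ 2) := by gcongr
      _ = 6 * (M ^ 2 * A ^ 6) / n ^ 2 := by field_simp
      _ ≤ 6 * ((2 * n) ^ (2 + 6) / R ^ (2 + 6)) / n ^ 2 := by gcongr
      _ = 1536 * (n ^ 6 / R ^ 8) := by field_simp; ring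
  have q2 : M ^ 4 * A ^ 2 / (R ^ 2 * V ^ 2) * (G * R * V ^ 2 / M) ≤ 1536 * (n ^ 6 / R ^ 8) := by
    have m1 := mono hR hM hA a b 5 3
    calc M ^ 4 * A ^ 2 / (R ^ 2 * V ^ 2) * (G * R * V ^ 2 / M) =
          M ^ 3 * A ^ 2 / R * G := by field_simp
      _ ≤ M ^ 3 * A ^ 2 / R * (6 * (R * M ^ 2 * A) / n ^ 2) := by gcongr
      _ = 6 * (M ^ 5 * A ^ 3) / n ^ 2 := by field_simp
      _ ≤ 6 * ((2 * n) ^ (5 + 3) / R ^ (5 + 3)) / n ^ 2 := by gcongr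
      _ = 1536 * (n ^ 6 / R ^ 8) := by field_simp; ring
  have q3 : M ^ 4 * A ^ 2 / (R ^ 2 * V ^ 2) * ((G * R * V * W * A ^ 2 / (M ^ 2 * M)) *
      (G * R * V ^ 2 / M)) ≤ 36864 * (n ^ 6 / R ^ 8) := by
    have m1 := mono hR hM hA a b 3 7
    calc M ^ 4 * A ^ 2 / (R ^ 2 * V ^ 2) * ((G * R * V * W * A ^ 2 / (M ^ 2 * M)) *
          (G * R * V ^ 2 / M)) = A ^ 4 * (G ^ 2 * V * W) := by field_simp
      _ ≤ A ^ 4 * (36 * (R ^ 2 * M ^ 3 * A ^ 3) / n ^ 4) := by gcongr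
      _ = 36 * R ^ 2 * (M ^ 3 * A ^ 7) / n ^ 4 := by ring
      _ ≤ 36 * R ^ 2 * ((2 * n) ^ (3 + 7) / R ^ (3 + 7)) / n ^ 4 := by gcongr
      _ = 36864 * (n ^ 6 / R ^ 8) := by field_simp; ring
  have e : M ^ 4 * A ^ 2 / (R ^ 2 * V ^ 2) * ((1 + G * R * V * W * A ^ 2 / (M ^ 2 * M)) *
      (1 + G * R * V ^ 2 / M)) = M ^ 4 * A ^ 2 / (R ^ 2 * V ^ 2) +
      M ^ 4 * A ^ 2 / (R ^ 2 * V ^ 2) * (G * R * V * W * A ^ 2 / (M ^ 2 * M)) +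
      M ^ 4 * A ^ 2 / (R ^ 2 * V ^ 2) * (G * R * V ^ 2 / M) +
      M ^ 4 * A ^ 2 / (R ^ 2 * V ^ 2) * ((G * R * V * W * A ^ 2 / (M ^ 2 * M)) *
      (G * R * V ^ 2 / M)) := by ring
  rw [e]
  have : 40000 * n ^ 6 / R ^ 8 = 40000 * (n ^ 6 / R ^ 8) := by ring
  rw [this]
  linarith

end NUMaux

open NUMaux

set_option maxHeartbeats 1000000 in
/-- **NUM.** -/
theorem t_NUM : S_NUM := by
  refine ⟨10 ^ 12, by norm_num, ?_⟩
  intro N ρ M A G V W hP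
  obtain ⟨h0, h1, h2, h3, h4, h5, h6, h7, h8, h9, h10, h11⟩ := hP
  have c0 : (1 : ℝ) ≤ N := by exact_mod_cast h0
  have c1 : (1 : ℝ) ≤ ρ := by exact_mod_cast h1
  have c2 : (1 : ℝ) ≤ M := by exact_mod_cast h2
  have c3 : (1 : ℝ) ≤ A := by exact_mod_cast h3
  have c4 : (1 : ℝ) ≤ G := by exact_mod_cast h4
  have c5 : (1 : ℝ) ≤ V := by exact_mod_cast h5
  have c6 : (1 : ℝ) ≤ W := by exact_mod_cast h6
  have c7 : ((ρ : ℝ) * M) ^ 2 ≤ 2 * N := by exact_mod_cast h7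
  have c8 : ((ρ : ℝ) * A) ^ 2 ≤ 2 * N := by exact_mod_cast h8
  have c9 : (N : ℝ) * G ^ 2 * V ^ 2 ≤ 32 * ρ * M ^ 2 * A := by exact_mod_cast h9
  have c10 : (N : ℝ) * G ^ 2 * W ^ 2 ≤ 32 * ρ * A ^ 2 * M := by exact_mod_cast h10
  have hN : (ρ : ℝ) ^ 2 * M * A ≤ 2 * N := by
    nlinarith [sq_nonneg ((ρ : ℝ) * M - ρ * A)]
  have P1 : (ρ : ℝ) * G ^ 2 * V ^ 2 ≤ 64 * M := by
    have e1 : (ρ : ℝ) ^ 2 * M * A * (G ^ 2 * V ^ 2) ≤ 2 * N * (G ^ 2 * V ^ 2) :=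
      mul_le_mul_of_nonneg_right hN (by positivity)
    have e2 : ((ρ : ℝ) * M * A) * ((ρ : ℝ) * G ^ 2 * V ^ 2) ≤ ((ρ : ℝ) * M * A) * (64 * M) := by
      calc ((ρ : ℝ) * M * A) * ((ρ : ℝ) * G ^ 2 * V ^ 2) =
            (ρ : ℝ) ^ 2 * M * A * (G ^ 2 * V ^ 2) := by ring
        _ ≤ 2 * (N : ℝ) * ((G : ℝ) ^ 2 * (V : ℝ) ^ 2) := e1
        _ = 2 * ((N : ℝ) * G ^ 2 * V ^ 2) := by ring
        _ ≤ 2 * (32 * (ρ : ℝ) * M ^ 2 * A) := by linarith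
        _ = ((ρ : ℝ) * M * A) * (64 * M) := by ring
    exact le_of_mul_le_mul_left e2 (by positivity)
  have P2 : (ρ : ℝ) * G ^ 2 * W ^ 2 ≤ 64 * A := by
    have e1 : (ρ : ℝ) ^ 2 * M * A * (G ^ 2 * W ^ 2) ≤ 2 * N * (G ^ 2 * W ^ 2) :=
      mul_le_mul_of_nonneg_right hN (by positivity)
    have e2 : ((ρ : ℝ) * M * A) * ((ρ : ℝ) * G ^ 2 * W ^ 2) ≤ ((ρ : ℝ) * M * A) * (64 * A) := by
      calc ((ρ : ℝ) * M * A) * ((ρ : ℝ) * G ^ 2 * W ^ 2) =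
            (ρ : ℝ) ^ 2 * M * A * (G ^ 2 * W ^ 2) := by ring
        _ ≤ 2 * (N : ℝ) * ((G : ℝ) ^ 2 * (W : ℝ) ^ 2) := e1
        _ = 2 * ((N : ℝ) * G ^ 2 * W ^ 2) := by ring
        _ ≤ 2 * (32 * (ρ : ℝ) * A ^ 2 * M) := by linarith
        _ = ((ρ : ℝ) * M * A) * (64 * A) := by ring
    exact le_of_mul_le_mul_left e2 (by positivity)
  -- square roots
  obtain ⟨n, hn1, hn4⟩ : ∃ n : ℝ, 1 ≤ n ∧ n ^ 4 = N := by
    refine ⟨Real.sqrt (Real.sqrt N), ?_, ?_⟩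
    · rw [Real.one_le_sqrt, Real.one_le_sqrt]; exact c0
    · rw [show (4 : ℕ) = 2 * 2 by norm_num, pow_mul, Real.sq_sqrt (Real.sqrt_nonneg _),
        Real.sq_sqrt (by linarith)]
  obtain ⟨R, hR1, hR2, hRs⟩ : ∃ R : ℝ, 1 ≤ R ∧ R ^ 2 = ρ ∧ Real.sqrt ρ = R :=
    ⟨Real.sqrt ρ, by rw [Real.one_le_sqrt]; exact c1, Real.sq_sqrt (by linarith), rfl⟩
  obtain ⟨m, hm1, hm2, hms⟩ : ∃ m : ℝ, 1 ≤ m ∧ m ^ 2 = M ∧ Real.sqrt M = m :=
    ⟨Real.sqrt M, by rw [Real.one_le_sqrt]; exact c2, Real.sq_sqrt (by linarith), rfl⟩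
  obtain ⟨a, ha1, ha2, has⟩ : ∃ a : ℝ, 1 ≤ a ∧ a ^ 2 = A ∧ Real.sqrt A = a :=
    ⟨Real.sqrt A, by rw [Real.one_le_sqrt]; exact c3, Real.sq_sqrt (by linarith), rfl⟩
  have np : 0 < n := by linarith
  have Rp : 0 < R := by linarith
  have mp : 0 < m := by linarith
  have ap : 0 < a := by linarith
  have Gp : (0 : ℝ) < G := by linarith
  have Vp : (0 : ℝ) < V := by linarith
  have Wp : (0 : ℝ) < W := by linarith
  have ha : R * m ≤ 2 * n := by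
    rw [← pow_le_pow_iff_left₀ (by positivity) (by positivity) (show (4 : ℕ) ≠ 0 by norm_num)]
    calc (R * m) ^ 4 = (R ^ 2 * m ^ 2) ^ 2 := by ring
      _ = ((ρ : ℝ) * M) ^ 2 := by rw [hR2, hm2]
      _ ≤ 2 * N := c7
      _ = 2 * n ^ 4 := by rw [hn4]
      _ ≤ (2 * n) ^ 4 := by nlinarith [pow_pos np 4]
  have hb : R * a ≤ 2 * n := by
    rw [← pow_le_pow_iff_left₀ (by positivity) (by positivity) (show (4 : ℕ) ≠ 0 by norm_num)]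
    calc (R * a) ^ 4 = (R ^ 2 * a ^ 2) ^ 2 := by ring
      _ = ((ρ : ℝ) * A) ^ 2 := by rw [hR2, ha2]
      _ ≤ 2 * N := c8
      _ = 2 * n ^ 4 := by rw [hn4]
      _ ≤ (2 * n) ^ 4 := by nlinarith [pow_pos np 4]
  have hc : n ^ 2 * ((G : ℝ) * V) ≤ 6 * (R * m ^ 2 * a) := by
    rw [← pow_le_pow_iff_left₀ (by positivity) (by positivity) (show (2 : ℕ) ≠ 0 by norm_num)]
    calc (n ^ 2 * ((G : ℝ) * V)) ^ 2 = n ^ 4 * G ^ 2 * V ^ 2 := by ring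
      _ = (N : ℝ) * G ^ 2 * V ^ 2 := by rw [hn4]
      _ ≤ 32 * ρ * M ^ 2 * A := c9
      _ = 32 * (R ^ 2 * (m ^ 2) ^ 2 * a ^ 2) := by rw [hR2, hm2, ha2]; ring
      _ ≤ 36 * (R ^ 2 * (m ^ 2) ^ 2 * a ^ 2) := by
          have : 0 < R ^ 2 * (m ^ 2) ^ 2 * a ^ 2 := by positivity
          linarith
      _ = (6 * (R * m ^ 2 * a)) ^ 2 := by ring
  have hd : n ^ 2 * ((G : ℝ) * W) ≤ 6 * (R * a ^ 2 * m) := by
    rw [← pow_le_pow_iff_left₀ (by positivity) (by positivity) (show (2 : ℕ) ≠ 0 by norm_num)]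
    calc (n ^ 2 * ((G : ℝ) * W)) ^ 2 = n ^ 4 * G ^ 2 * W ^ 2 := by ring
      _ = (N : ℝ) * G ^ 2 * W ^ 2 := by rw [hn4]
      _ ≤ 32 * ρ * A ^ 2 * M := c10
      _ = 32 * (R ^ 2 * (a ^ 2) ^ 2 * m ^ 2) := by rw [hR2, hm2, ha2]; ring
      _ ≤ 36 * (R ^ 2 * (a ^ 2) ^ 2 * m ^ 2) := by
          have : 0 < R ^ 2 * (a ^ 2) ^ 2 * m ^ 2 := by positivity
          linarith
      _ = (6 * (R * a ^ 2 * m)) ^ 2 := by ring
  obtain ⟨s1, s2, s3, s4⟩ := sizes c4 c5 c6 hn1 hR1 hm1 ha1 ha hb hc hd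
  have t5 := p5 c4 c5 c6 hn1 hR1 hm1 ha1 ha hb hc hd
  have t4 := p4 c4 c5 c6 hn1 hR1 hm1 ha1 ha hb hc hd
  have bk : (bK ρ M A G V W : ℝ) ≤ 2000 * ((G : ℝ) * R * V * W * a ^ 2 / (m ^ 2 * m)) := by
    unfold bK
    rw [hRs, hms, ← hm2, ← ha2]
    exact Nat.floor_le (by positivity)
  have bl : (bL ρ M G V W : ℝ) ≤ 2000 * ((G : ℝ) * R * V * W / m) := by
    unfold bL
    rw [hRs, hms]
    exact Nat.floor_le (by positivity)
  have bj : (bJ ρ M G V : ℝ) ≤ 2000 * ((G : ℝ) * R * V ^ 2 / m) := by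
    unfold bJ
    rw [hRs, hms]
    exact Nat.floor_le (by positivity)
  have br : (bR ρ M A G V : ℝ) ≤ 2000 * ((G : ℝ) * R * V ^ 2 * m / a ^ 2) := by
    unfold bR
    rw [hRs, hms, ← ha2]
    exact Nat.floor_le (by positivity)
  have hn4' : n ≤ n ^ 4 := le_self_pow₀ hn1 (by norm_num)
  have hNR : (10 : ℝ) ^ 12 * N / ρ = 10 ^ 12 * n ^ 4 / R ^ 2 := by rw [hn4, hR2]
  set k := (bK ρ M A G V W : ℝ) with hk
  set l := (bL ρ M G V W : ℝ) with hl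
  set j := (bJ ρ M G V : ℝ) with hj
  set r := (bR ρ M A G V : ℝ) with hr
  have k0 : 0 ≤ k := Nat.cast_nonneg _
  have l0 : 0 ≤ l := Nat.cast_nonneg _
  have j0 : 0 ≤ j := Nat.cast_nonneg _
  have r0 : 0 ≤ r := Nat.cast_nonneg _
  refine ⟨by exact_mod_cast P1, by exact_mod_cast P2, by exact_mod_cast hN, ?_, ?_, ?_,
    by rw [← hn4]; linarith, by rw [← hn4]; linarith, by rw [← hn4]; linarith,
    by rw [← hn4]; linarith⟩
  · rw [hNR, hRs, has, ← hm2]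
    have f1 : (1 + k) * (1 + j) ≤ 4 * 10 ^ 6 * ((1 + (G : ℝ) * R * V * W * a ^ 2 / (m ^ 2 * m)) *
        (1 + (G : ℝ) * R * V ^ 2 / m)) := by
      have g1 : 0 ≤ (G : ℝ) * R * V * W * a ^ 2 / (m ^ 2 * m) := by positivity
      have g2 : 0 ≤ (G : ℝ) * R * V ^ 2 / m := by positivity
      calc (1 + k) * (1 + j) ≤ (2000 * (1 + (G : ℝ) * R * V * W * a ^ 2 / (m ^ 2 * m))) *
            (2000 * (1 + (G : ℝ) * R * V ^ 2 / m)) :=
            mul_le_mul (by linarith) (by linarith) (by linarith) (by positivity)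
        _ = _ := by ring
    have f2 : (1 + l) * (1 + r) ≤ (2304001 * n) * (2304001 * n) :=
      mul_le_mul (by linarith) (by linarith) (by linarith) (by positivity)
    have f3 : (m ^ 2 * a / (V * R)) ^ 2 * ((1 + k) * (1 + l) * (1 + j) * (1 + r)) ≤
        (10 ^ 12 * n ^ 4 / R ^ 4) ^ 2 := by
      calc (m ^ 2 * a / (V * R)) ^ 2 * ((1 + k) * (1 + l) * (1 + j) * (1 + r)) =
            m ^ 4 * a ^ 2 / (R ^ 2 * V ^ 2) * ((1 + k) * (1 + j)) * ((1 + l) * (1 + r)) := by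
            field_simp
        _ ≤ m ^ 4 * a ^ 2 / (R ^ 2 * V ^ 2) * (4 * 10 ^ 6 *
              ((1 + (G : ℝ) * R * V * W * a ^ 2 / (m ^ 2 * m)) * (1 + (G : ℝ) * R * V ^ 2 / m))) *
              ((2304001 * n) * (2304001 * n)) := by
            apply mul_le_mul _ f2 (by positivity) (by positivity)
            exact mul_le_mul_of_nonneg_left f1 (by positivity)
        _ = (m ^ 4 * a ^ 2 / (R ^ 2 * V ^ 2) *
              ((1 + (G : ℝ) * R * V * W * a ^ 2 / (m ^ 2 * m)) * (1 + (G : ℝ) * R * V ^ 2 / m))) *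
              (4 * 10 ^ 6 * ((2304001 * n) * (2304001 * n))) := by ring
        _ ≤ (40000 * n ^ 6 / R ^ 8) * (4 * 10 ^ 6 * ((2304001 * n) * (2304001 * n))) := by
            exact mul_le_mul_of_nonneg_right t4 (by positivity)
        _ = (40000 * (4 * 10 ^ 6) * 2304001 ^ 2) * (n ^ 8 / R ^ 8) := by ring
        _ ≤ 10 ^ 24 * (n ^ 8 / R ^ 8) := by
            apply mul_le_mul_of_nonneg_right _ (by positivity)
            norm_num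
        _ = (10 ^ 12 * n ^ 4 / R ^ 4) ^ 2 := by field_simp
    have f4 : m ^ 2 * a / (V * R) * Real.sqrt ((1 + k) * (1 + l) * (1 + j) * (1 + r)) ≤
        10 ^ 12 * n ^ 4 / R ^ 4 := by
      rw [← pow_le_pow_iff_left₀ (by positivity) (by positivity) (show (2 : ℕ) ≠ 0 by norm_num),
        mul_pow, Real.sq_sqrt (by positivity)]
      exact f3
    refine f4.trans ?_
    have : R ^ 2 ≤ R ^ 4 := pow_le_pow_right₀ hR1 (by norm_num)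
    gcongr
  · rw [hNR, hRs, has]
    exact t5
  · rw [hNR]
    have e1 : Real.sqrt ((M : ℝ) * A / ρ) = m * a / R := by
      rw [← hm2, ← ha2, ← hR2, show m ^ 2 * a ^ 2 / R ^ 2 = (m * a / R) ^ 2 by ring]
      exact Real.sqrt_sq (by positivity)
    have g1 : R * G * V ≤ 8 * m := by
      rw [← pow_le_pow_iff_left₀ (by positivity) (by positivity) (show (2 : ℕ) ≠ 0 by norm_num)]
      calc (R * G * V) ^ 2 = R ^ 2 * G ^ 2 * V ^ 2 := by ring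
        _ ≤ 64 * m ^ 2 := by rw [hR2, hm2]; exact P1
        _ = (8 * m) ^ 2 := by ring
    have g2 : R * G * W ≤ 8 * a := by
      rw [← pow_le_pow_iff_left₀ (by positivity) (by positivity) (show (2 : ℕ) ≠ 0 by norm_num)]
      calc (R * G * W) ^ 2 = R ^ 2 * G ^ 2 * W ^ 2 := by ring
        _ ≤ 64 * a ^ 2 := by rw [hR2, ha2]; exact P2
        _ = (8 * a) ^ 2 := by ring
    have g3 : (V : ℝ) * W * G ^ 2 ≤ 256 * n ^ 2 / R ^ 4 := by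
      rw [le_div_iff₀ (by positivity)]
      calc (V : ℝ) * W * G ^ 2 * R ^ 4 = ((R * G * V) * (R * G * W)) * R ^ 2 := by ring
        _ ≤ ((8 * m) * (8 * a)) * R ^ 2 := by
            apply mul_le_mul_of_nonneg_right _ (by positivity)
            exact mul_le_mul g1 g2 (by positivity) (by positivity)
        _ = 64 * ((R * m) * (R * a)) := by ring
        _ ≤ 64 * ((2 * n) * (2 * n)) := by
            apply mul_le_mul_of_nonneg_left _ (by norm_num)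
            exact mul_le_mul ha hb (by positivity) (by positivity)
        _ = 256 * n ^ 2 := by ring
    have g4 : Real.sqrt ((V : ℝ) * W * G ^ 2) ≤ 16 * n / R ^ 2 := by
      rw [← pow_le_pow_iff_left₀ (by positivity) (by positivity) (show (2 : ℕ) ≠ 0 by norm_num),
        Real.sq_sqrt (by positivity)]
      refine g3.trans (le_of_eq ?_)
      field_simp; ring
    have g5 : m * a / R ≤ 4 * n ^ 2 / R ^ 3 := by
      have := mono hR1 hm1 ha1 ha hb 1 1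
      calc m * a / R = m ^ 1 * a ^ 1 / R := by ring
        _ ≤ ((2 * n) ^ (1 + 1) / R ^ (1 + 1)) / R := by gcongr
        _ = 4 * n ^ 2 / R ^ 3 := by field_simp; ring
    have g6 : 1 + k + l + j + r ≤ 9216001 * n := by linarith
    rw [e1]
    calc m * a / R * Real.sqrt ((V : ℝ) * W * G ^ 2) * (1 + k + l + j + r) ≤
          (4 * n ^ 2 / R ^ 3) * (16 * n / R ^ 2) * (9216001 * n) := by gcongr
      _ = 589824064 * n ^ 4 / R ^ 2 / R ^ 3 := by field_simp; ring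
      _ ≤ 589824064 * n ^ 4 / R ^ 2 := div_le_self (by positivity) (one_le_pow₀ hR1)
      _ ≤ 10 ^ 12 * n ^ 4 / R ^ 2 := by gcongr; norm_num

end Pool.Agent.T2h80.F5
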