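import Pool.Agent.T2h80.F5.OM0

set_option autoImplicit false

/-! Task OM: the integral generator and the conjugation. -/

namespace Pool.Agent.T2h80.F5

open Finset NumberField Pool.Agent.Y159.QS

variable {K : Type} [Field K] [NumberField K]

omit [NumberField K] in
/-- the conjugation -/
theorem exists_conj {ω : 𝓞 K} {t n : ℤ} (h1 : ω ^ 2 = (t : 𝓞 K) * ω - (n : 𝓞 K))
    (h2 : ∀ x : 𝓞 K, ∃ a b : ℤ, x = (a : 𝓞 K) + (b : 𝓞 K) * ω)
    (h3 : ∀ a b : ℤ, (a : 𝓞 K) + (b : 𝓞 K) * ω = 0 → a = 0 ∧ b = 0) :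
    ∃ σ : 𝓞 K →+* 𝓞 K, ∀ a b : ℤ, σ ((a : 𝓞 K) + (b : 𝓞 K) * ω) =
      (a : 𝓞 K) + (b : 𝓞 K) * ((t : 𝓞 K) - ω) := by
  choose A B hAB using h2
  have hu : ∀ a b : ℤ, A ((a : 𝓞 K) + (b : 𝓞 K) * ω) = a ∧ B ((a : 𝓞 K) + (b : 𝓞 K) * ω) = b := by
    intro a b
    have e := hAB ((a : 𝓞 K) + (b : 𝓞 K) * ω)
    generalize A ((a : 𝓞 K) + (b : 𝓞 K) * ω) = a' at e ⊢
    generalize B ((a : 𝓞 K) + (b : 𝓞 K) * ω) = b' at e ⊢
    have e2 := h3 (a' - a) (b' - b) (by push_cast; linear_combination -e)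
    exact ⟨by linarith [e2.1], by linarith [e2.2]⟩
  obtain ⟨f, hf⟩ : ∃ f : 𝓞 K → 𝓞 K, ∀ x, f x = (A x : 𝓞 K) + (B x : 𝓞 K) * ((t : 𝓞 K) - ω) :=
    ⟨_, fun _ => rfl⟩
  have hf2 : ∀ a b : ℤ, f ((a : 𝓞 K) + (b : 𝓞 K) * ω) =
      (a : 𝓞 K) + (b : 𝓞 K) * ((t : 𝓞 K) - ω) := by
    intro a b
    rw [hf, (hu a b).1, (hu a b).2]
  have h0 : f 0 = 0 := by
    have := hf2 0 0
    simpa using this
  have h10 : f 1 = 1 := by
    have := hf2 1 0
    simpa using this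
  have hadd : ∀ x y, f (x + y) = f x + f y := by
    intro x y
    rw [hf x, hf y]
    have e : x + y = ((A x + A y : ℤ) : 𝓞 K) + ((B x + B y : ℤ) : 𝓞 K) * ω := by
      conv_lhs => rw [hAB x, hAB y]
      push_cast
      ring
    rw [e, hf2]
    push_cast
    ring
  have hmul : ∀ x y, f (x * y) = f x * f y := by
    intro x y
    rw [hf x, hf y]
    have e : x * y = ((A x * A y - n * (B x * B y) : ℤ) : 𝓞 K) +
        ((A x * B y + B x * A y + t * (B x * B y) : ℤ) : 𝓞 K) * ω := by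
      conv_lhs => rw [hAB x, hAB y]
      push_cast
      linear_combination (B x : 𝓞 K) * (B y : 𝓞 K) * h1
    rw [e, hf2]
    push_cast
    linear_combination -(B x : 𝓞 K) * (B y : 𝓞 K) * h1
  exact ⟨⟨⟨⟨f, h10⟩, hmul⟩, h0, hadd⟩, hf2⟩

theorem absNorm_map {σ : 𝓞 K →+* 𝓞 K} (h : ∀ x, σ (σ x) = x) (I : Ideal (𝓞 K)) :
    Ideal.absNorm (I.map σ) = Ideal.absNorm I := by
  obtain ⟨e, he⟩ : ∃ e : 𝓞 K ≃+* 𝓞 K, (e : 𝓞 K →+* 𝓞 K) = σ := by
    refine ⟨RingEquiv.ofRingHom σ σ ?_ ?_, ?_⟩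
    · ext x; simp [h]
    · ext x; simp [h]
    · ext x; rfl
  rw [Ideal.absNorm_apply, Ideal.absNorm_apply, Submodule.cardQuot_apply, Submodule.cardQuot_apply]
  exact (Nat.card_congr (Ideal.quotientEquiv I (I.map σ) e (by rw [← he])).toEquiv).symm

theorem mul_map {σ : 𝓞 K →+* 𝓞 K} (hK : Module.finrank ℚ K = 2) (h : ∀ x, σ (σ x) = x)
    (hN : ∀ x : 𝓞 K, x * σ x = ((Algebra.norm ℤ x : ℤ) : 𝓞 K)) (I : Ideal (𝓞 K)) :
    I * I.map σ = Ideal.span {((Ideal.absNorm I : ℕ) : 𝓞 K)} := by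
  by_cases hI : I = ⊥
  · rw [hI, Ideal.absNorm_bot]
    simp
  obtain ⟨n, hn⟩ : ∃ n, n = Ideal.absNorm I := ⟨_, rfl⟩
  have hn0 : n ≠ 0 := by
    rw [hn, Ne, Ideal.absNorm_eq_zero_iff]
    exact hI
  rw [← hn]
  obtain ⟨S, hS⟩ : ∃ S : Ideal (𝓞 K), S = Ideal.span {((n : ℕ) : 𝓞 K)} := ⟨_, rfl⟩
  rw [← hS]
  have hS0 : S ≠ ⊥ := by
    rw [hS, Ne, Ideal.span_singleton_eq_bot]
    exact_mod_cast hn0
  have hSσ : S.map σ = S := by
    rw [hS, Ideal.map_span, Set.image_singleton, map_natCast]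
  -- an element
  obtain ⟨a, ha⟩ := IsDedekindDomain.exists_sup_span_eq (I := I * S) (J := I) Ideal.mul_le_left
    (mul_ne_zero hI hS0)
  have haI : Ideal.span {a} ≤ I := by
    conv_rhs => rw [← ha]
    exact le_sup_right
  obtain ⟨J, hJ⟩ := Ideal.dvd_iff_le.2 haI
  have hcop : S ⊔ J = ⊤ := by
    rw [hJ, ← Ideal.mul_sup] at ha
    have h1 : I * (S ⊔ J) = I * ⊤ := by rw [ha, Ideal.mul_top]
    exact mul_left_cancel₀ (show I ≠ 0 from hI) h1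
  have hcop2 : S ⊔ J.map σ = ⊤ := by
    rw [← hSσ, ← Ideal.map_sup, hcop, Ideal.map_top]
  -- the product
  obtain ⟨m, hm⟩ : ∃ m : ℤ, Algebra.norm ℤ a = m * n := by
    have h1 : ((n : ℕ) : ℤ) ∣ Algebra.norm ℤ a := by
      rw [hn]
      exact Ideal.absNorm_dvd_norm_of_mem (haI (Ideal.mem_span_singleton_self a))
    obtain ⟨m, hm⟩ := h1
    exact ⟨m, by rw [hm]; ring⟩
  have hprod : (I * I.map σ) * (J * J.map σ) = Ideal.span {(m : 𝓞 K)} * S := by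
    have h1 : (I * I.map σ) * (J * J.map σ) = (I * J) * (I * J).map σ := by
      rw [Ideal.map_mul]
      ring
    rw [h1, ← hJ, Ideal.map_span, Set.image_singleton, Ideal.span_singleton_mul_span_singleton,
      hN, hm, hS, Ideal.span_singleton_mul_span_singleton]
    push_cast
    rfl
  have hdvd : S ∣ I * I.map σ := by
    have h1 : S ∣ (I * I.map σ) * (J * J.map σ) := by
      rw [hprod]
      exact dvd_mul_left _ _
    have h2 : IsCoprime S (J * J.map σ) := by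
      apply IsCoprime.mul_right
      · exact Ideal.isCoprime_iff_sup_eq.2 hcop
      · exact Ideal.isCoprime_iff_sup_eq.2 hcop2
    exact h2.dvd_of_dvd_mul_right h1
  obtain ⟨B, hB⟩ := hdvd
  have h1 : Ideal.absNorm S = n ^ 2 := by
    rw [hS, Ideal.absNorm_span_natCast, RingOfIntegers.rank, hK]
  have h2 : Ideal.absNorm (I * I.map σ) = n ^ 2 := by
    rw [map_mul, absNorm_map h, ← hn]
    ring
  have h3 : Ideal.absNorm B = 1 := by
    rw [hB, map_mul, h1] at h2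
    have h4 : n ^ 2 * Ideal.absNorm B = n ^ 2 * 1 := by rw [h2, mul_one]
    exact Nat.eq_of_mul_eq_mul_left (Nat.pos_of_ne_zero (pow_ne_zero 2 hn0)) h4
  rw [Ideal.absNorm_eq_one_iff] at h3
  rw [hB, h3, Ideal.mul_top]

theorem t_OM : S_OM := by
  intro K _ _ d hK hd hd0
  obtain ⟨T, m, hTm⟩ := stick hK
  rw [hd] at hTm
  have hd4 := d_mod hTm
  refine ⟨hd4, ?_⟩
  obtain ⟨ω, h1, h2, h3, h4⟩ := exists_om hK d hd hd0 hd4
  obtain ⟨σ, hσ⟩ := exists_conj h1 h2 h3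
  have h5 : σ ω = (th d : 𝓞 K) - ω := by
    have := hσ 0 1
    simpa using this
  have h6 : ∀ x, σ (σ x) = x := by
    intro x
    obtain ⟨a, b, rfl⟩ := h2 x
    rw [hσ]
    have e : (a : 𝓞 K) + (b : 𝓞 K) * ((th d : 𝓞 K) - ω) =
        ((a + b * th d : ℤ) : 𝓞 K) + ((-b : ℤ) : 𝓞 K) * ω := by
      push_cast
      ring
    rw [e, hσ]
    push_cast
    ring
  have h7 : ∀ x : 𝓞 K, x * σ x = ((Algebra.norm ℤ x : ℤ) : 𝓞 K) := by
    intro x
    obtain ⟨a, b, rfl⟩ := h2 x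
    rw [hσ, h4]
    push_cast
    linear_combination -(b : 𝓞 K) ^ 2 * h1
  exact ⟨ω, σ, h1, h5, h2, h3, h6, h4, h7, mul_map hK h6 h7, absNorm_map h6⟩

end Pool.Agent.T2h80.F5
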