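import Pool.Agent.T2h80.TL.Field
import Pool.Agent.T2h80.F5.Stm

set_option autoImplicit false

/-! The discriminant of a quadratic field modulo 4, and the coordinates of integers. -/

namespace Pool.Agent.T2h80.F5

open Finset NumberField Pool.Agent.Y159.QS

variable {K : Type} [Field K] [NumberField K]

/-- Stickelberger's theorem for quadratic fields -/
theorem stick (hK : Module.finrank ℚ K = 2) : ∃ T m : ℤ, discr K = T ^ 2 - 4 * m := by
  have hc : Fintype.card (Module.Free.ChooseBasisIndex ℤ (𝓞 K)) = 2 := by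
    rw [← Module.finrank_eq_card_basis (RingOfIntegers.basis K), RingOfIntegers.rank, hK]
  let e : Module.Free.ChooseBasisIndex ℤ (𝓞 K) ≃ Fin 2 := Fintype.equivFinOfCardEq hc
  let b : Module.Basis (Fin 2) ℚ K := (integralBasis K).reindex e
  obtain ⟨x, hx⟩ : ∃ x : 𝓞 K, x = RingOfIntegers.basis K (e.symm 0) := ⟨_, rfl⟩
  obtain ⟨y, hy⟩ : ∃ y : 𝓞 K, y = RingOfIntegers.basis K (e.symm 1) := ⟨_, rfl⟩
  have hb0 : b 0 = (x : K) := by
    rw [hx]
    change ((integralBasis K).reindex e) 0 = _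
    rw [Module.Basis.reindex_apply, integralBasis_apply]
  have hb1 : b 1 = (y : K) := by
    rw [hy]
    change ((integralBasis K).reindex e) 1 = _
    rw [Module.Basis.reindex_apply, integralBasis_apply]
  have h4 : Algebra.discr ℚ (b : Fin 2 → K) = (discr K : ℚ) := by
    rw [coe_discr]
    have := Algebra.discr_reindex ℚ (integralBasis K) e
    rw [← this]
    congr 1
    exact Module.Basis.coe_reindex _ _
  have h5 : Algebra.discr ℚ (b : Fin 2 → K) =
      Algebra.trace ℚ K ((x : K) * x) * Algebra.trace ℚ K ((y : K) * y) -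
        Algebra.trace ℚ K ((x : K) * y) * Algebra.trace ℚ K ((y : K) * x) := by
    rw [Algebra.discr_def, Matrix.det_fin_two]
    simp only [Algebra.traceMatrix_apply, Algebra.traceForm_apply]
    rw [hb0, hb1]
  obtain ⟨σ, τ, h1, h2⟩ := two_emb hK
  refine ⟨Algebra.trace ℤ (𝓞 K) x * Algebra.trace ℤ (𝓞 K) y - Algebra.trace ℤ (𝓞 K) (x * y),
    Algebra.norm ℤ x * Algebra.norm ℤ y, ?_⟩
  have h6 : ((discr K : ℚ) : ℂ) = ((((Algebra.trace ℤ (𝓞 K) x * Algebra.trace ℤ (𝓞 K) y -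
      Algebra.trace ℤ (𝓞 K) (x * y)) ^ 2 -
      4 * (Algebra.norm ℤ x * Algebra.norm ℤ y) : ℤ) : ℚ) : ℂ) := by
    rw [← h4, h5]
    push_cast
    have e1 : ((Algebra.trace ℤ (𝓞 K) x : ℤ) : ℂ) = σ x + τ x := by
      rw [← h1, ← Algebra.coe_trace_int]
      push_cast
      rfl
    have e2 : ((Algebra.trace ℤ (𝓞 K) y : ℤ) : ℂ) = σ y + τ y := by
      rw [← h1, ← Algebra.coe_trace_int]
      push_cast
      rfl
    have e3 : ((Algebra.trace ℤ (𝓞 K) (x * y) : ℤ) : ℂ) = σ (x * y : 𝓞 K) + τ (x * y : 𝓞 K) := by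
      rw [← h1, ← Algebra.coe_trace_int]
      push_cast
      rfl
    have e4 : ((Algebra.norm ℤ x : ℤ) : ℂ) = σ x * τ x := by
      rw [← h2, ← Algebra.coe_norm_int]
      push_cast
      rfl
    have e5 : ((Algebra.norm ℤ y : ℤ) : ℂ) = σ y * τ y := by
      rw [← h2, ← Algebra.coe_norm_int]
      push_cast
      rfl
    rw [e1, e2, e3, e4, e5, h1, h1, h1, h1]
    push_cast
    simp only [map_mul]
    ring
  exact_mod_cast h6

theorem d_mod {d : ℕ} {T m : ℤ} (h : -(d : ℤ) = T ^ 2 - 4 * m) : d % 4 = 0 ∨ d % 4 = 3 := by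
  rcases Int.even_or_odd' T with ⟨k, rfl | rfl⟩
  · left
    have : (d : ℤ) = 4 * (m - k ^ 2) := by linarith
    omega
  · right
    have : (d : ℤ) = 4 * (m - k ^ 2 - k - 1) + 3 := by linarith
    omega

theorem four_n0 {d : ℕ} (h : d % 4 = 0 ∨ d % 4 = 3) : 4 * n0 d = (d : ℤ) + th d := by
  unfold n0 th
  rcases h with h | h
  · have h1 : d % 2 = 0 := by omega
    rw [h1]
    push_cast
    omega
  · have h1 : d % 2 = 1 := by omega
    rw [h1]
    push_cast
    omega

theorem th_sq (d : ℕ) : th d * th d = th d := by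
  unfold th
  rcases Nat.mod_two_eq_zero_or_one d with h | h
  · rw [h]; rfl
  · rw [h]; rfl

omit [NumberField K] in
theorem isInt_quad {b : K} {x c : ℤ} (h : b ^ 2 - (x : K) * b + c = 0) : IsIntegral ℤ b := by
  refine ⟨Polynomial.X ^ 2 + (Polynomial.C (-x) * Polynomial.X + Polynomial.C c), ?_, ?_⟩
  · apply Polynomial.monic_X_pow_add
    refine (Polynomial.degree_linear_le).trans_lt ?_
    norm_num
  · simp only [Polynomial.eval₂_add, Polynomial.eval₂_mul, Polynomial.eval₂_pow,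
      Polynomial.eval₂_X, Polynomial.eval₂_C]
    simp only [algebraMap_int_eq, eq_intCast, Int.cast_neg]
    linear_combination h

/-- the integral generator with its first properties -/
theorem exists_om (hK : Module.finrank ℚ K = 2) (d : ℕ) (hd : discr K = -(d : ℤ)) (hd0 : 0 < d)
    (hd4 : d % 4 = 0 ∨ d % 4 = 3) : ∃ ω : 𝓞 K, ω ^ 2 = (th d : 𝓞 K) * ω - (n0 d : 𝓞 K) ∧
    (∀ x : 𝓞 K, ∃ a b : ℤ, x = (a : 𝓞 K) + (b : 𝓞 K) * ω) ∧
    (∀ a b : ℤ, (a : 𝓞 K) + (b : 𝓞 K) * ω = 0 → a = 0 ∧ b = 0) ∧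
    (∀ a b : ℤ, Algebra.norm ℤ ((a : 𝓞 K) + (b : 𝓞 K) * ω) =
      a ^ 2 + th d * a * b + n0 d * b ^ 2) := by
  obtain ⟨α, hα, hr0⟩ := TL.rep hK
  have hr : ∀ γ : 𝓞 K, ∃ t k : ℤ, 2 * algebraMap (𝓞 K) K γ = t + k * α ∧
      4 * Algebra.norm ℤ γ = t ^ 2 - discr K * k ^ 2 := hr0
  clear hr0
  rw [hd] at hα hr
  have h4 := four_n0 hd4
  have hth := th_sq d
  have h4K : 4 * ((n0 d : ℤ) : K) = (d : K) + ((th d : ℤ) : K) := by exact_mod_cast h4
  have hthK : ((th d : ℤ) : K) * ((th d : ℤ) : K) = ((th d : ℤ) : K) := by exact_mod_cast hth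
  have hαK : α ^ 2 = -(d : K) := by rw [hα]; push_cast; rfl
  have hω : IsIntegral ℤ ((((th d : ℤ) : K) + α) / 2) := by
    apply isInt_quad (x := th d) (c := n0 d)
    linear_combination hαK / 4 - hthK / 4 + h4K / 4
  obtain ⟨ω, hωc⟩ : ∃ ω : 𝓞 K, algebraMap (𝓞 K) K ω = (((th d : ℤ) : K) + α) / 2 :=
    ⟨⟨_, hω⟩, rfl⟩
  -- independence over the integers
  have hind : ∀ t k : ℤ, (t : K) + k * α = 0 → t = 0 ∧ k = 0 := by
    intro t k h
    have h1 : (t : K) ^ 2 = -(d : K) * (k : K) ^ 2 := by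
      have : (t : K) = -(k * α) := by linear_combination h
      rw [this, ← hαK]
      ring
    have h2 : t ^ 2 = -(d : ℤ) * k ^ 2 := by exact_mod_cast h1
    have hdz : (0 : ℤ) < d := by exact_mod_cast hd0
    have hk : k = 0 := by
      by_contra hk
      have h3 : 0 < k ^ 2 := by positivity
      nlinarith [sq_nonneg t]
    rw [hk] at h2
    refine ⟨?_, hk⟩
    have h3 : t ^ 2 = 0 := by rw [h2]; ring
    exact pow_eq_zero_iff (two_ne_zero) |>.mp h3
  refine ⟨ω, ?_, ?_, ?_, ?_⟩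
  · apply RingOfIntegers.coe_injective
    simp only [map_pow, map_sub, map_mul, map_intCast]
    rw [hωc]
    linear_combination hαK / 4 - hthK / 4 + h4K / 4
  · intro x
    obtain ⟨t, k, h1, h2⟩ := hr x
    have h3 : (2 : ℤ) ∣ t - th d * k := by
      have h5 : (2 : ℤ) ∣ t ^ 2 - (th d * k) ^ 2 := by
        have h6 : t ^ 2 - (th d * k) ^ 2 = 4 * (Algebra.norm ℤ x - n0 d * k ^ 2) := by
          linear_combination -h2 + k ^ 2 * h4 - k ^ 2 * hth
        rw [h6]
        exact ⟨2 * (Algebra.norm ℤ x - n0 d * k ^ 2), by ring⟩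
      have h6 : t ^ 2 - (th d * k) ^ 2 = (t - th d * k) * (t + th d * k) := by ring
      rw [h6] at h5
      rcases Int.prime_two.dvd_or_dvd h5 with h7 | h7
      · exact h7
      · have h8 : t - th d * k = (t + th d * k) - 2 * (th d * k) := by ring
        rw [h8]
        exact dvd_sub h7 (dvd_mul_right _ _)
    obtain ⟨a, ha⟩ := h3
    refine ⟨a, k, ?_⟩
    apply RingOfIntegers.coe_injective
    simp only [map_add, map_mul, map_intCast]
    rw [hωc]
    have h5 : (t : K) - ((th d : ℤ) : K) * k = 2 * (a : K) := by exact_mod_cast ha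
    linear_combination h1 / 2 + h5 / 2
  · intro a b h
    have h1 := congrArg (fun x : 𝓞 K => algebraMap (𝓞 K) K x) h
    simp only [map_add, map_mul, map_intCast, map_zero] at h1
    rw [hωc] at h1
    have h2 := hind (2 * a + b * th d) b (by push_cast; linear_combination 2 * h1)
    obtain ⟨h3, h4⟩ := h2
    rw [h4] at h3
    exact ⟨by linarith, h4⟩
  · intro a b
    obtain ⟨t, k, h1, h2⟩ := hr ((a : 𝓞 K) + (b : 𝓞 K) * ω)
    simp only [map_add, map_mul, map_intCast] at h1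
    rw [hωc] at h1
    have h3 := hind (2 * a + b * th d - t) (b - k) (by push_cast; linear_combination h1)
    obtain ⟨h5, h6⟩ := h3
    have h7 : t = 2 * a + b * th d := by linarith
    have h8 : k = b := by linarith
    rw [h7, h8] at h2
    have h9 : 4 * Algebra.norm ℤ ((a : 𝓞 K) + (b : 𝓞 K) * ω) =
        4 * (a ^ 2 + th d * a * b + n0 d * b ^ 2) := by
      rw [h2]
      linear_combination -b ^ 2 * h4 + b ^ 2 * hth
    linarith

end Pool.Agent.T2h80.F5
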