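import Pool.Agent.T2h80.F5.Stm

set_option autoImplicit false

namespace Pool.Agent.T2h80.F5

open Finset

theorem t_RAD (hSMO : S_SMO) : S_RAD := by
  intro ε hε
  obtain ⟨C, hC, hS⟩ := hSMO (ε / 4) (by positivity)
  -- `1 + log x ≤ D x ^ (ε / 4)`
  set D : ℝ := 1 + 1 / (ε / 4) with hD
  have hDpos : 0 < D := by positivity
  refine ⟨C * D, by positivity, fun x hx => ?_⟩
  have hx1 : (1 : ℝ) ≤ x := by exact_mod_cast hx
  have hx0 : (0 : ℝ) < x := by linarith
  have hrad1 : ∀ n ∈ Icc 1 x, rad n ∈ Icc 1 x := by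
    intro n hn
    rw [mem_Icc] at hn ⊢
    constructor
    · exact Nat.one_le_iff_ne_zero.2
        (prod_ne_zero_iff.2 fun p hp => (Nat.prime_of_mem_primeFactors hp).ne_zero)
    · exact (Nat.le_of_dvd (by omega) (Nat.prod_primeFactors_dvd n)).trans hn.2
  have h1 : ∑ n ∈ Icc 1 x, 1 / (rad n : ℝ) =
      ∑ r ∈ Icc 1 x, ∑ n ∈ (Icc 1 x).filter (fun n => rad n = r), 1 / (rad n : ℝ) :=
    (sum_fiberwise_of_maps_to hrad1 _).symm
  have h2 : ∀ r ∈ Icc 1 x, ∑ n ∈ (Icc 1 x).filter (fun n => rad n = r), 1 / (rad n : ℝ) ≤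
      C * (x : ℝ) ^ (ε / 2) * (1 / (r : ℝ)) := by
    intro r hr
    rw [mem_Icc] at hr
    have hr1 : (1 : ℝ) ≤ r := by exact_mod_cast hr.1
    have e1 : ∑ n ∈ (Icc 1 x).filter (fun n => rad n = r), 1 / (rad n : ℝ) =
        (((Icc 1 x).filter (fun n => rad n = r)).card : ℝ) * (1 / (r : ℝ)) := by
      rw [← nsmul_eq_mul, ← sum_const]
      apply sum_congr rfl
      intro n hn
      rw [(mem_filter.1 hn).2]
    rw [e1]
    apply mul_le_mul_of_nonneg_right _ (by positivity)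
    have e2 : (((Icc 1 x).filter (fun n => rad n = r)).card : ℝ) ≤
        (((Icc 1 x).filter (fun w => w.primeFactors ⊆ r.primeFactors)).card : ℝ) := by
      norm_cast
      apply card_le_card
      intro n hn
      rw [mem_filter] at hn ⊢
      refine ⟨hn.1, ?_⟩
      rw [← hn.2, rad, Nat.primeFactors_prod_primeFactors]
    refine e2.trans ((hS r x hr.1 hx).trans ?_)
    apply mul_le_mul_of_nonneg_left _ hC.le
    have e3 : (r : ℝ) * x ≤ (x : ℝ) ^ (2 : ℝ) := by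
      rw [Real.rpow_two, sq]
      exact mul_le_mul_of_nonneg_right (by exact_mod_cast hr.2) hx0.le
    calc ((r : ℝ) * x) ^ (ε / 4) ≤ ((x : ℝ) ^ (2 : ℝ)) ^ (ε / 4) :=
          Real.rpow_le_rpow (by positivity) e3 (by positivity)
      _ = (x : ℝ) ^ (ε / 2) := by
          rw [← Real.rpow_mul hx0.le]
          congr 1
          ring
  have h3 : ∑ r ∈ Icc 1 x, 1 / (r : ℝ) ≤ 1 + Real.log x := by
    have := harmonic_le_one_add_log x
    rw [harmonic_eq_sum_Icc] at this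
    push_cast at this
    simpa [one_div] using this
  have h4 : 1 + Real.log x ≤ D * (x : ℝ) ^ (ε / 4) := by
    have h5 := Real.log_le_rpow_div hx0.le (show 0 < ε / 4 by positivity)
    have h6 : (1 : ℝ) ≤ (x : ℝ) ^ (ε / 4) := Real.one_le_rpow hx1 (by positivity)
    rw [hD, add_mul, one_mul, one_div_mul_eq_div]
    linarith
  calc ∑ n ∈ Icc 1 x, 1 / (rad n : ℝ)
      ≤ ∑ r ∈ Icc 1 x, C * (x : ℝ) ^ (ε / 2) * (1 / (r : ℝ)) := by
        rw [h1]
        exact sum_le_sum h2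
    _ = C * (x : ℝ) ^ (ε / 2) * ∑ r ∈ Icc 1 x, 1 / (r : ℝ) := by rw [mul_sum]
    _ ≤ C * (x : ℝ) ^ (ε / 2) * (D * (x : ℝ) ^ (ε / 4)) := by
        apply mul_le_mul_of_nonneg_left (h3.trans h4) (by positivity)
    _ = C * D * (x : ℝ) ^ (ε / 2 + ε / 4) := by
        rw [Real.rpow_add hx0]
        ring
    _ ≤ C * D * (x : ℝ) ^ ε := by
        apply mul_le_mul_of_nonneg_left _ (by positivity)
        exact Real.rpow_le_rpow_of_exponent_le hx1 (by linarith)

end Pool.Agent.T2h80.F5
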