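import Pool.Agent.T2h80.F5.Stm

/-! Task RES of project F5. -/

set_option autoImplicit false

namespace Pool.Agent.T2h80.F5

theorem t_RES : S_RES := by
  intro k l j r v w e hc h1 h2
  have e1 : e ∣ RS k l j r * v ^ 5 := by
    have : RS k l j r * v ^ 5 =
        ((-625 * k ^ 2 * j * r ^ 2 + 50 * k * l * j ^ 2 * r - 40 * l ^ 4 * r - 5 * l ^ 2 * j ^ 3) * v ^ 2 +
        (-500 * k * l ^ 2 * r ^ 2 + 50 * k * j ^ 3 * r - 80 * l ^ 3 * j * r - 10 * l * j ^ 4) * v * w +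
        (-250 * k * l * j * r ^ 2 - 30 * l ^ 2 * j ^ 2 * r - 4 * j ^ 5) * w ^ 2) * G1 k l j r v w +
        ((3125 * k ^ 2 * r ^ 3 + 750 * k * l * j * r ^ 2 + 65 * l ^ 2 * j ^ 2 * r + 8 * j ^ 5) * v ^ 2 +
        (-250 * k * j ^ 2 * r ^ 2 + 100 * l ^ 3 * r ^ 2 + 10 * l * j ^ 3 * r) * v * w +
        (1250 * k * l * r ^ 3 + 150 * l ^ 2 * j * r ^ 2 + 20 * j ^ 4 * r) * w ^ 2) * G2 k l j r v w := by
      unfold RS G1 G2
      ring
    rw [this]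
    exact dvd_add (h1.mul_left _) (h2.mul_left _)
  have e2 : e ∣ RS k l j r * w ^ 5 := by
    have : RS k l j r * w ^ 5 =
        ((1250 * k ^ 3 * j * r + 150 * k ^ 2 * l * j ^ 2 - 20 * k * l ^ 4) * v ^ 2 +
        (-250 * k ^ 2 * l ^ 2 * r - 100 * k ^ 2 * j ^ 3 + 10 * k * l ^ 3 * j) * v * w +
        (-3125 * k ^ 3 * r ^ 2 - 750 * k ^ 2 * l * j * r - 65 * k * l ^ 2 * j ^ 2 + 8 * l ^ 5) * w ^ 2) *
          G1 k l j r v w +
        ((-250 * k ^ 2 * l * j * r - 30 * k * l ^ 2 * j ^ 2 + 4 * l ^ 5) * v ^ 2 +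
        (500 * k ^ 2 * j ^ 2 * r + 50 * k * l ^ 3 * r + 80 * k * l * j ^ 3 - 10 * l ^ 4 * j) * v * w +
        (625 * k ^ 2 * l * r ^ 2 - 50 * k * l ^ 2 * j * r - 40 * k * j ^ 4 + 5 * l ^ 3 * j ^ 2) * w ^ 2) *
          G2 k l j r v w := by
      unfold RS G1 G2
      ring
    rw [this]
    exact dvd_add (h1.mul_left _) (h2.mul_left _)
  obtain ⟨a, b, hab⟩ := (hc.pow (m := 5) (n := 5))
  have : RS k l j r = a * (RS k l j r * v ^ 5) + b * (RS k l j r * w ^ 5) := by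
    linear_combination (-RS k l j r) * hab
  rw [this]
  exact dvd_add (e1.mul_left _) (e2.mul_left _)

end Pool.Agent.T2h80.F5
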