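import Pool.Agent.T2h80.F5.Stm

set_option autoImplicit false
set_option linter.all false

/-! # ROO: the number of the roots modulo `e` in a box (helper60) -/

namespace Pool.Agent.T2h80.F5

open Finset

namespace ROO

/-- the primes which divide neither `10` nor the content do not divide all coefficients -/
lemma not_all {k l j r : ℤ} {p : ℕ} (hp : p.Prime) (h : ¬ p ∣ 10 * ct k l j r) :
    ¬ ((p : ℤ) ∣ l ∧ (p : ℤ) ∣ -2 * j ∧ (p : ℤ) ∣ 0 ∧ (p : ℤ) ∣ -5 * r) ∨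
      ¬ ((p : ℤ) ∣ 5 * k ∧ (p : ℤ) ∣ 0 ∧ (p : ℤ) ∣ -2 * l ∧ (p : ℤ) ∣ -j) := by
  by_contra hc
  push Not at hc
  obtain ⟨⟨h1, -, -, h2⟩, ⟨h3, -, -, h4⟩⟩ := hc
  have hpz : Prime (p : ℤ) := Nat.prime_iff_prime_int.1 hp
  have h10 : ¬ (p : ℤ) ∣ 5 := by
    intro h5
    have h6 : p ∣ 5 := by exact_mod_cast h5
    exact h ((h6.trans (by norm_num : 5 ∣ 10)).mul_right _)
  have hk : (p : ℤ) ∣ k := (hpz.dvd_or_dvd h3).resolve_left h10
  have hr : (p : ℤ) ∣ r := by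
    rw [neg_mul, dvd_neg] at h2
    exact (hpz.dvd_or_dvd h2).resolve_left h10
  have hj : (p : ℤ) ∣ j := (dvd_neg).1 h4
  apply h
  refine Dvd.dvd.mul_left ?_ _
  unfold ct
  rw [Nat.dvd_gcd_iff, Nat.dvd_gcd_iff, Nat.dvd_gcd_iff]
  exact ⟨⟨Int.natCast_dvd.1 hk, Int.natCast_dvd.1 h1⟩, ⟨Int.natCast_dvd.1 hj, Int.natCast_dvd.1 hr⟩⟩

/-- the colouring for one prime -/
lemma colour (hCUB : S_CUB) {k l j r : ℤ} {p : ℕ} (hp : p.Prime) (h : ¬ p ∣ 10 * ct k l j r) :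
    ∃ χ : ℕ × ℕ → Fin 3, ∀ x y : ℕ × ℕ, x.1.Coprime x.2 → y.1.Coprime y.2 →
      (p : ℤ) ∣ G1 k l j r x.1 x.2 → (p : ℤ) ∣ G2 k l j r x.1 x.2 →
      (p : ℤ) ∣ G1 k l j r y.1 y.2 → (p : ℤ) ∣ G2 k l j r y.1 y.2 →
      χ x = χ y → (p : ℤ) ∣ (x.1 : ℤ) * y.2 - x.2 * y.1 := by
  have hcop : ∀ x : ℕ × ℕ, x.1.Coprime x.2 → ¬ ((p : ℤ) ∣ (x.1 : ℤ) ∧ (p : ℤ) ∣ (x.2 : ℤ)) := by
    rintro x hx ⟨h1, h2⟩
    have h3 : p ∣ x.1 := by exact_mod_cast h1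
    have h4 : p ∣ x.2 := by exact_mod_cast h2
    have h5 := Nat.dvd_gcd h3 h4
    rw [hx] at h5
    exact hp.one_lt.ne' (Nat.dvd_one.1 h5)
  rcases not_all hp h with h1 | h1
  · obtain ⟨χ, hχ⟩ := hCUB p hp _ _ _ _ h1
    refine ⟨fun x => χ ((x.1 : ℤ), (x.2 : ℤ)), fun x y hx hy hx1 hx2 hy1 hy2 hxy => ?_⟩
    refine hχ _ _ (hcop x hx) (hcop y hy) ?_ ?_ hxy
    · have e : l * (x.1 : ℤ) ^ 3 + -2 * j * (x.1 : ℤ) ^ 2 * x.2 + 0 * (x.1 : ℤ) * (x.2 : ℤ) ^ 2 +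
          -5 * r * (x.2 : ℤ) ^ 3 = G1 k l j r x.1 x.2 := by
        unfold G1
        ring
      simp only
      rw [e]
      exact hx1
    · have e : l * (y.1 : ℤ) ^ 3 + -2 * j * (y.1 : ℤ) ^ 2 * y.2 + 0 * (y.1 : ℤ) * (y.2 : ℤ) ^ 2 +
          -5 * r * (y.2 : ℤ) ^ 3 = G1 k l j r y.1 y.2 := by
        unfold G1
        ring
      simp only
      rw [e]
      exact hy1
  · obtain ⟨χ, hχ⟩ := hCUB p hp _ _ _ _ h1
    refine ⟨fun x => χ ((x.1 : ℤ), (x.2 : ℤ)), fun x y hx hy hx1 hx2 hy1 hy2 hxy => ?_⟩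
    refine hχ _ _ (hcop x hx) (hcop y hy) ?_ ?_ hxy
    · have e : 5 * k * (x.1 : ℤ) ^ 3 + 0 * (x.1 : ℤ) ^ 2 * x.2 + -2 * l * (x.1 : ℤ) * (x.2 : ℤ) ^ 2 +
          -j * (x.2 : ℤ) ^ 3 = G2 k l j r x.1 x.2 := by
        unfold G2
        ring
      simp only
      rw [e]
      exact hx2
    · have e : 5 * k * (y.1 : ℤ) ^ 3 + 0 * (y.1 : ℤ) ^ 2 * y.2 + -2 * l * (y.1 : ℤ) * (y.2 : ℤ) ^ 2 +
          -j * (y.2 : ℤ) ^ 3 = G2 k l j r y.1 y.2 := by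
        unfold G2
        ring
      simp only
      rw [e]
      exact hy2

end ROO

theorem t_ROO (hCUB : S_CUB) (hSLO : S_SLO) : S_ROO := by
  classical
  intro k l j r h0 e V W he hV hW F hF
  have hct : 0 < ct k l j r := by
    rw [Nat.pos_iff_ne_zero]
    intro h
    unfold ct at h
    rw [Nat.gcd_eq_zero_iff, Nat.gcd_eq_zero_iff, Nat.gcd_eq_zero_iff] at h
    simp only [Int.natAbs_eq_zero] at h
    exact h0 ⟨h.1.1, h.1.2, h.2.1, h.2.2⟩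
  obtain ⟨P, hP⟩ : ∃ P : Finset ℕ, P = e.primeFactors := ⟨_, rfl⟩
  obtain ⟨B, hB⟩ : ∃ B : Finset ℕ, B = P.filter (fun p => ¬ p ∣ 10 * ct k l j r) := ⟨_, rfl⟩
  have hPp : ∀ p ∈ P, p.Prime := fun p hp => by
    rw [hP] at hp
    exact Nat.prime_of_mem_primeFactors hp
  have hBP : B ⊆ P := by rw [hB]; exact Finset.filter_subset _ _
  obtain ⟨b, hb⟩ : ∃ b : ℕ, b = ∏ p ∈ B, p := ⟨_, rfl⟩
  obtain ⟨b', hb'⟩ : ∃ b' : ℕ, b' = ∏ p ∈ P.filter (fun p => p ∣ 10 * ct k l j r), p := ⟨_, rfl⟩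
  have hrad : rad e = b' * b := by
    unfold rad
    rw [← hP, hb, hb', hB]
    exact (Finset.prod_filter_mul_prod_filter_not P _ _).symm
  have hb'le : b' ≤ 10 * ct k l j r := by
    apply Nat.le_of_dvd (by positivity)
    rw [hb']
    refine Finset.prod_primes_dvd _ (fun p hp => (hPp p (Finset.mem_of_mem_filter p hp)).prime)
      fun p hp => (Finset.mem_filter.1 hp).2
  have hbpos : 0 < b := by
    rw [hb]
    exact Finset.prod_pos fun p hp => (hPp p (hBP hp)).pos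
  have hb'pos : 0 < b' := by
    rw [hb']
    exact Finset.prod_pos fun p hp => (hPp p (Finset.mem_of_mem_filter p hp)).pos
  -- the colouring
  have hcol : ∀ p : B, ∃ χ : ℕ × ℕ → Fin 3, ∀ x ∈ F, ∀ y ∈ F, χ x = χ y →
      ((p : ℕ) : ℤ) ∣ (x.1 : ℤ) * y.2 - x.2 * y.1 := by
    intro p
    have hp : (p : ℕ) ∈ P ∧ ¬ (p : ℕ) ∣ 10 * ct k l j r := by
      have h1 : ∀ q ∈ B, q ∈ P ∧ ¬ q ∣ 10 * ct k l j r := fun q hq => by
        rw [hB, Finset.mem_filter] at hq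
        exact hq
      exact h1 p p.2
    obtain ⟨χ, hχ⟩ := ROO.colour hCUB (hPp p hp.1) hp.2
    have hpe : ((p : ℕ) : ℤ) ∣ (e : ℤ) := by
      have h1 := hp.1
      rw [hP] at h1
      exact_mod_cast Nat.dvd_of_mem_primeFactors h1
    refine ⟨χ, fun x hx y hy hxy => ?_⟩
    obtain ⟨-, -, -, -, hx1, hx2, hx3⟩ := hF x hx
    obtain ⟨-, -, -, -, hy1, hy2, hy3⟩ := hF y hy
    exact hχ x y hx1 hy1 (hpe.trans hx2) (hpe.trans hx3) (hpe.trans hy2) (hpe.trans hy3) hxy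
  choose χ hχ using hcol
  obtain ⟨Φ, hΦ⟩ : ∃ Φ : ℕ × ℕ → (B → Fin 3), Φ = fun x p => χ p x := ⟨_, rfl⟩
  have hfib : ∀ c : B → Fin 3, (F.filter (fun x => Φ x = c)).card * b ≤ b + 6 * V * W := by
    intro c
    refine hSLO b V W hbpos hV hW _ (fun x hx => ?_) (fun x hx y hy => ?_)
    · obtain ⟨h1, h2, h3, h4, h5, -, -⟩ := hF x (Finset.mem_of_mem_filter x hx)
      exact ⟨h1, h2, h3, h4, h5⟩
    · rw [Finset.mem_filter] at hx hy
      have h1 : ∀ p : B, ((p : ℕ) : ℤ) ∣ (x.1 : ℤ) * y.2 - x.2 * y.1 := by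
        intro p
        refine hχ p x hx.1 y hy.1 ?_
        have h2 := congrFun (hx.2.trans hy.2.symm) p
        rw [hΦ] at h2
        exact h2
      rw [hb]
      have h2 : ∏ p ∈ B, p ∣ ((x.1 : ℤ) * y.2 - x.2 * y.1).natAbs := by
        refine Finset.prod_primes_dvd _ (fun p hp => (hPp p (hBP hp)).prime) fun p hp => ?_
        exact Int.natCast_dvd.1 (h1 ⟨p, hp⟩)
      exact Int.natCast_dvd.2 h2
  have hsum : F.card * b ≤ 3 ^ B.card * (b + 6 * V * W) := by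
    have h1 : F.card = ∑ c : B → Fin 3, (F.filter (fun x => Φ x = c)).card :=
      Finset.card_eq_sum_card_fiberwise (fun x _ => Finset.mem_coe.2 (Finset.mem_univ _))
    rw [h1, Finset.sum_mul]
    refine (Finset.sum_le_sum fun c _ => hfib c).trans ?_
    rw [Finset.sum_const, Finset.card_univ, smul_eq_mul]
    refine Nat.mul_le_mul_right _ (le_of_eq ?_)
    rw [Fintype.card_fun, Fintype.card_fin, Fintype.card_coe]
  have hBc : 3 ^ B.card ≤ 3 ^ e.primeFactors.card := by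
    refine Nat.pow_le_pow_right (by norm_num) ?_
    rw [← hP]
    exact Finset.card_le_card hBP
  calc F.card * rad e = F.card * b * b' := by rw [hrad]; ring
    _ ≤ 3 ^ B.card * (b + 6 * V * W) * b' := Nat.mul_le_mul_right _ hsum
    _ = 3 ^ B.card * (rad e + 6 * V * W * b') := by rw [hrad]; ring
    _ ≤ 3 ^ B.card * (rad e + 6 * V * W * (10 * ct k l j r)) := by gcongr
    _ ≤ 3 ^ e.primeFactors.card * (rad e + 6 * V * W * (10 * ct k l j r)) := by gcongr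
    _ = 3 ^ e.primeFactors.card * (rad e + 60 * ct k l j r * V * W) := by ring

end Pool.Agent.T2h80.F5
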