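import Pool.Agent.T2h80.F5.Stm

set_option autoImplicit false
set_option linter.all false

/-! # SLO: primitive vectors with determinants divisible by `b` (helper60) -/

namespace Pool.Agent.T2h80.F5

open Finset

namespace SLO

/-- two primitive vectors with determinant zero are equal -/
lemma eq_of_det {x y : ℕ × ℕ} (hx : x.1.Coprime x.2) (hy : y.1.Coprime y.2)
    (h : x.1 * y.2 = x.2 * y.1) (hx1 : 0 < x.1) : x = y := by
  have h1 : x.1 ∣ y.1 := by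
    have h2 : x.1 ∣ x.2 * y.1 := ⟨y.2, h.symm⟩
    exact hx.dvd_of_dvd_mul_left h2
  have h2 : y.1 ∣ x.1 := by
    have h3 : y.1 ∣ x.1 * y.2 := ⟨x.2, by rw [h, mul_comm]⟩
    exact hy.dvd_of_dvd_mul_right h3
  have h3 : x.1 = y.1 := Nat.dvd_antisymm h1 h2
  have h4 : x.2 = y.2 := by
    rw [← h3, mul_comm x.2] at h
    exact (Nat.eq_of_mul_eq_mul_left hx1 h).symm
  exact Prod.ext h3 h4

end SLO

theorem t_SLO : S_SLO := by
  intro b V W hb hV hW F hF hdet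
  rcases F.eq_empty_or_nonempty with rfl | hne
  · simp
  obtain ⟨x0, hx0, hmin⟩ := F.exists_min_image (fun x => (x.2 : ℝ) / x.1) hne
  have hbR : (0 : ℝ) < b := by exact_mod_cast hb
  have hVR : (0 : ℝ) < V := by exact_mod_cast hV
  have hWR : (0 : ℝ) < W := by exact_mod_cast hW
  have hpos : ∀ x ∈ F, (0 : ℝ) < x.1 := fun x hx => by
    have := (hF x hx).1
    exact_mod_cast lt_of_lt_of_le hV this
  obtain ⟨f, hf⟩ : ∃ f : ℕ × ℕ → ℕ, f = fun x =>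
    ⌊((x.2 : ℝ) / x.1 - (x0.2 : ℝ) / x0.1) * (4 * (V : ℝ) ^ 2 / b)⌋₊ := ⟨_, rfl⟩
  have hinj : Set.InjOn f F := by
    intro x hx y hy hxy
    by_contra hne'
    have hx1 := hpos x hx
    have hy1 := hpos y hy
    have hd0 : (x.1 : ℤ) * y.2 - x.2 * y.1 ≠ 0 := by
      intro h
      apply hne'
      have h2 : x.1 * y.2 = x.2 * y.1 := by
        have h3 : (x.1 : ℤ) * y.2 = x.2 * y.1 := by linarith
        exact_mod_cast h3
      exact SLO.eq_of_det (hF x hx).2.2.2.2 (hF y hy).2.2.2.2 h2 (by exact_mod_cast hx1)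
    have hdb : (b : ℝ) ≤ |(x.1 : ℝ) * y.2 - x.2 * y.1| := by
      have h1 := Int.le_of_dvd (abs_pos.2 hd0) ((dvd_abs _ _).2 (hdet x hx y hy))
      exact_mod_cast h1
    have hxV : (x.1 : ℝ) < 2 * V := by exact_mod_cast (hF x hx).2.1
    have hyV : (y.1 : ℝ) < 2 * V := by exact_mod_cast (hF y hy).2.1
    have hprod : (x.1 : ℝ) * y.1 < 4 * (V : ℝ) ^ 2 := by nlinarith
    have hdiff : 1 < |((x.2 : ℝ) / x.1 - (x0.2 : ℝ) / x0.1) * (4 * (V : ℝ) ^ 2 / b) -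
        ((y.2 : ℝ) / y.1 - (x0.2 : ℝ) / x0.1) * (4 * (V : ℝ) ^ 2 / b)| := by
      have e : ((x.2 : ℝ) / x.1 - (x0.2 : ℝ) / x0.1) * (4 * (V : ℝ) ^ 2 / b) -
          ((y.2 : ℝ) / y.1 - (x0.2 : ℝ) / x0.1) * (4 * (V : ℝ) ^ 2 / b) =
          -((x.1 : ℝ) * y.2 - x.2 * y.1) * ((4 * (V : ℝ) ^ 2) / (b * (x.1 * y.1))) := by
        field_simp
        ring
      rw [e, abs_mul, abs_neg, abs_of_pos (by positivity : 0 < (4 * (V : ℝ) ^ 2) / (b * (x.1 * y.1)))]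
      have h2 : 1 < (b : ℝ) * ((4 * (V : ℝ) ^ 2) / (b * (x.1 * y.1))) := by
        rw [mul_div_assoc', one_lt_div (by positivity)]
        exact mul_lt_mul_of_pos_left hprod hbR
      exact h2.trans_le (mul_le_mul_of_nonneg_right hdb (by positivity))
    have hxn : 0 ≤ ((x.2 : ℝ) / x.1 - (x0.2 : ℝ) / x0.1) * (4 * (V : ℝ) ^ 2 / b) :=
      mul_nonneg (sub_nonneg.2 (hmin x hx)) (by positivity)
    have hyn : 0 ≤ ((y.2 : ℝ) / y.1 - (x0.2 : ℝ) / x0.1) * (4 * (V : ℝ) ^ 2 / b) :=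
      mul_nonneg (sub_nonneg.2 (hmin y hy)) (by positivity)
    rw [hf] at hxy
    simp only at hxy
    have h3 := Nat.floor_le hxn
    have h4 := Nat.lt_floor_add_one (((x.2 : ℝ) / x.1 - (x0.2 : ℝ) / x0.1) * (4 * (V : ℝ) ^ 2 / b))
    have h5 := Nat.floor_le hyn
    have h6 := Nat.lt_floor_add_one (((y.2 : ℝ) / y.1 - (x0.2 : ℝ) / x0.1) * (4 * (V : ℝ) ^ 2 / b))
    rw [hxy] at h3 h4
    have h7 : |((x.2 : ℝ) / x.1 - (x0.2 : ℝ) / x0.1) * (4 * (V : ℝ) ^ 2 / b) -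
        ((y.2 : ℝ) / y.1 - (x0.2 : ℝ) / x0.1) * (4 * (V : ℝ) ^ 2 / b)| < 1 := by
      rw [abs_lt]
      constructor <;> linarith
    linarith
  have hmaps : ∀ x ∈ F, f x ∈ Finset.range (6 * V * W / b + 1) := by
    intro x hx
    rw [Finset.mem_range, Nat.lt_succ_iff, Nat.le_div_iff_mul_le hb]
    have hx1 := hpos x hx
    have hx01 := hpos x0 hx0
    have hxn : 0 ≤ ((x.2 : ℝ) / x.1 - (x0.2 : ℝ) / x0.1) * (4 * (V : ℝ) ^ 2 / b) :=
      mul_nonneg (sub_nonneg.2 (hmin x hx)) (by positivity)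
    have h1 : (f x : ℝ) ≤ ((x.2 : ℝ) / x.1 - (x0.2 : ℝ) / x0.1) * (4 * (V : ℝ) ^ 2 / b) := by
      rw [hf]
      exact Nat.floor_le hxn
    have h2 : (x.2 : ℝ) / x.1 ≤ 2 * W / V := by
      rw [div_le_div_iff₀ hx1 hVR]
      have h3 : (x.2 : ℝ) ≤ 2 * W := by exact_mod_cast (hF x hx).2.2.2.1.le
      have h4 : (V : ℝ) ≤ x.1 := by exact_mod_cast (hF x hx).1
      exact mul_le_mul h3 h4 hVR.le (by positivity)
    have h3 : (W : ℝ) / (2 * V) ≤ (x0.2 : ℝ) / x0.1 := by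
      rw [div_le_div_iff₀ (by positivity) hx01]
      have h3 : (W : ℝ) ≤ x0.2 := by exact_mod_cast (hF x0 hx0).2.2.1
      have h4 : (x0.1 : ℝ) ≤ 2 * V := by exact_mod_cast (hF x0 hx0).2.1.le
      exact mul_le_mul h3 h4 hx01.le (by positivity)
    have h4 : ((x.2 : ℝ) / x.1 - (x0.2 : ℝ) / x0.1) * (4 * (V : ℝ) ^ 2 / b) ≤
        (2 * W / V - W / (2 * V)) * (4 * (V : ℝ) ^ 2 / b) :=
      mul_le_mul_of_nonneg_right (by linarith) (by positivity)
    have h5 : (2 * (W : ℝ) / V - W / (2 * V)) * (4 * (V : ℝ) ^ 2 / b) = 6 * V * W / b := by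
      field_simp
      ring
    have h6 : (f x : ℝ) * b ≤ 6 * V * W := by
      rw [← le_div_iff₀ hbR]
      linarith
    exact_mod_cast h6
  have hcard := Finset.card_le_card_of_injOn f hmaps hinj
  rw [Finset.card_range] at hcard
  calc F.card * b ≤ (6 * V * W / b + 1) * b := Nat.mul_le_mul_right _ hcard
    _ = 6 * V * W / b * b + b := by ring
    _ ≤ 6 * V * W + b := Nat.add_le_add_right (Nat.div_mul_le_self _ _) _
    _ = b + 6 * V * W := by ring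

end Pool.Agent.T2h80.F5
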