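import Pool.Agent.T2h80.F5.Stm
import Pool.Agent.H374R2.Z.Q2

set_option autoImplicit false

namespace Pool.Agent.T2h80.F5

open Finset

/-- `m ↦ m ^ (-ε)` as a multiplicative function -/
noncomputable def pwH (ε : ℝ) : ℕ →* ℝ where
  toFun m := (m : ℝ) ^ (-ε)
  map_one' := by simp
  map_mul' a b := by
    rw [Nat.cast_mul, Real.mul_rpow (Nat.cast_nonneg _) (Nat.cast_nonneg _)]

theorem t_SMO : S_SMO := by
  intro ε hε
  have h2 : (2 : ℝ) ^ (-ε) < 1 := Real.rpow_lt_one_of_one_lt_of_neg (by norm_num) (by linarith)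
  have hA : 1 ≤ (1 - (2 : ℝ) ^ (-ε))⁻¹ := by
    apply (one_le_inv₀ (by linarith)).2
    have : 0 < (2 : ℝ) ^ (-ε) := by positivity
    linarith
  obtain ⟨C, hC, ho⟩ := Pool.Agent.H374R2.Z.Q2.pow_omega hA hε
  refine ⟨C, by linarith, fun n x hn hx => ?_⟩
  have hlt : ∀ {p : ℕ}, p.Prime → ‖pwH ε p‖ < 1 := by
    intro p hp
    have hp1 : (1 : ℝ) < p := by exact_mod_cast hp.one_lt
    change ‖(p : ℝ) ^ (-ε)‖ < 1
    rw [Real.norm_of_nonneg (by positivity)]
    exact Real.rpow_lt_one_of_one_lt_of_neg hp1 (by linarith)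
  obtain ⟨hs, hsum⟩ := EulerProduct.summable_and_hasSum_factoredNumbers_prod_filter_prime_geometric
    (f := pwH ε) hlt n.primeFactors
  set F : Finset ℕ := (Icc 1 x).filter (fun w => w.primeFactors ⊆ n.primeFactors) with hF
  have hmem : ∀ w ∈ F, w ∈ Nat.factoredNumbers n.primeFactors := by
    intro w hw
    rw [hF, mem_filter, mem_Icc] at hw
    rw [Nat.mem_factoredNumbers]
    refine ⟨by omega, fun p hp => ?_⟩
    apply hw.2
    rw [Nat.mem_primeFactors_iff_mem_primeFactorsList]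
    exact hp
  have hx0 : (0 : ℝ) < x := by exact_mod_cast hx
  have hle : ∑ w ∈ F, (w : ℝ) ^ (-ε) ≤ ∏ p ∈ n.primeFactors with p.Prime, (1 - pwH ε p)⁻¹ := by
    have h3 := sum_le_hasSum (F.subtype (· ∈ Nat.factoredNumbers n.primeFactors))
      (fun i _ => (by
        change (0 : ℝ) ≤ ((i : ℕ) : ℝ) ^ (-ε)
        positivity)) hsum
    rw [← Finset.sum_subtype_of_mem (fun w : ℕ => (w : ℝ) ^ (-ε)) hmem]
    exact h3
  have hprod : ∏ p ∈ n.primeFactors with p.Prime, (1 - pwH ε p)⁻¹ ≤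
      ((1 - (2 : ℝ) ^ (-ε))⁻¹) ^ n.primeFactors.card := by
    have hfe : n.primeFactors.filter (fun p => p.Prime) = n.primeFactors :=
      filter_true_of_mem fun p hp => Nat.prime_of_mem_primeFactors hp
    rw [hfe, ← prod_const]
    apply prod_le_prod
    · intro p hp
      have := hlt (Nat.prime_of_mem_primeFactors hp)
      have h4 := (abs_lt.1 this).2
      apply inv_nonneg.2
      linarith
    · intro p hp
      have hp2 : (2 : ℝ) ≤ p := by exact_mod_cast (Nat.prime_of_mem_primeFactors hp).two_le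
      have h5 : pwH ε p ≤ (2 : ℝ) ^ (-ε) := by
        change (p : ℝ) ^ (-ε) ≤ _
        exact Real.rpow_le_rpow_of_nonpos (by norm_num) hp2 (by linarith)
      exact inv_anti₀ (by linarith) (by linarith)
  have hcard : (F.card : ℝ) ≤ (x : ℝ) ^ ε * ∑ w ∈ F, (w : ℝ) ^ (-ε) := by
    rw [mul_sum, card_eq_sum_ones, Nat.cast_sum]
    apply sum_le_sum
    intro w hw
    rw [hF, mem_filter, mem_Icc] at hw
    have hw1 : (0 : ℝ) < w := by exact_mod_cast hw.1.1
    have hwx : (w : ℝ) ≤ x := by exact_mod_cast hw.1.2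
    rw [Real.rpow_neg hw1.le, ← div_eq_mul_inv, Nat.cast_one, one_le_div (by positivity)]
    exact Real.rpow_le_rpow hw1.le hwx hε.le
  calc (F.card : ℝ) ≤ (x : ℝ) ^ ε * ∑ w ∈ F, (w : ℝ) ^ (-ε) := hcard
    _ ≤ (x : ℝ) ^ ε * (C * (n : ℝ) ^ ε) := by
        apply mul_le_mul_of_nonneg_left _ (by positivity)
        exact hle.trans (hprod.trans (ho n (by omega)))
    _ = C * ((n : ℝ) * x) ^ ε := by
        rw [Real.mul_rpow (Nat.cast_nonneg _) (Nat.cast_nonneg _)]
        ring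

end Pool.Agent.T2h80.F5
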