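import Mathlib
import Pool.Agent.T2h80.F5.Stm
import Pool.Agent.T2h80.F5.EE

/-!
# WEY (helper38)
-/

set_option autoImplicit false
set_option linter.all false

namespace Pool.Agent.T2h80.F5

open Finset EE

namespace WEY

theorem sum_Ico_int {M : Type*} [AddCommMonoid M] (f : ℤ → M) (a : ℤ) (n : ℕ) :
    ∑ s ∈ Ico a (a + n), f s = ∑ k ∈ range n, f (a + k) := by
  refine Finset.sum_nbij' (fun s => (s - a).toNat) (fun k => a + k) ?_ ?_ ?_ ?_ ?_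
  · intro s hs
    rw [Finset.mem_Ico] at hs
    simp only [Finset.mem_range]
    omega
  · intro k hk
    rw [Finset.mem_range] at hk
    rw [Finset.mem_Ico]
    constructor <;> omega
  · intro s hs
    rw [Finset.mem_Ico] at hs
    omega
  · intro k hk
    omega
  · intro s hs
    rw [Finset.mem_Ico] at hs
    congr 1
    omega

theorem tele (α : ℝ) (a : ℤ) (n : ℕ) :
    (∑ s ∈ Ico a (a + n), ee (α * s)) * (ee α - 1) = ee (α * (a + n)) - ee (α * a) := by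
  rw [sum_Ico_int]
  induction n with
  | zero => simp
  | succ n ih =>
    rw [Finset.sum_range_succ, add_mul, ih]
    have e1 : ee (α * (a + ((n + 1 : ℕ) : ℝ))) = ee (α * ((a + (n : ℤ) : ℤ) : ℝ)) * ee α := by
      rw [← ee_add]
      congr 1
      push_cast
      ring
    rw [e1]
    push_cast
    ring

theorem norm_ee_sub_one (θ : ℝ) (h0 : 0 ≤ θ) (h1 : θ ≤ 1) : ‖ee θ - 1‖ = 2 * Real.sin (Real.pi * θ) := by
  have e1 : ee θ = Complex.exp (Complex.I * ((2 * Real.pi * θ : ℝ) : ℂ)) := by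
    rw [ee_eq, mul_comm]
  rw [e1, Complex.norm_exp_I_mul_ofReal_sub_one, Real.norm_of_nonneg]
  · congr 2
    ring
  · have : 0 ≤ Real.sin (2 * Real.pi * θ / 2) := by
      apply Real.sin_nonneg_of_nonneg_of_le_pi
      · have := Real.pi_pos
        positivity
      · nlinarith [Real.pi_pos]
    linarith

theorem sin_lower (θ : ℝ) (h0 : 0 ≤ θ) (h1 : θ ≤ 1) : 2 * min θ (1 - θ) ≤ Real.sin (Real.pi * θ) := by
  have hpi := Real.pi_pos
  rcases le_total θ (1 / 2) with h | h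
  · have e := Real.mul_le_sin (x := Real.pi * θ) (by positivity) (by nlinarith)
    have e2 : 2 / Real.pi * (Real.pi * θ) = 2 * θ := by field_simp
    rw [e2] at e
    linarith [min_le_left θ (1 - θ)]
  · have e := Real.mul_le_sin (x := Real.pi * (1 - θ)) (mul_nonneg hpi.le (by linarith)) (by nlinarith)
    have e2 : 2 / Real.pi * (Real.pi * (1 - θ)) = 2 * (1 - θ) := by field_simp
    rw [e2] at e
    have e3 : Real.sin (Real.pi * (1 - θ)) = Real.sin (Real.pi * θ) := by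
      rw [← Real.sin_pi_sub]
      congr 1
      ring
    rw [e3] at e
    linarith [min_le_right θ (1 - θ)]

/-- the cell -/
noncomputable def pc (N : ℕ) (α : ℝ) : ℕ := ⌊(N : ℝ) * Int.fract α⌋₊

/-- the weight of a cell -/
noncomputable def wt (N P : ℕ) : ℝ := (N : ℝ) / (1 + P) + (N : ℝ) / (1 + ((N - 1 - P : ℕ) : ℝ))

theorem wt_nonneg (N P : ℕ) : 0 ≤ wt N P := by
  unfold wt
  positivity

theorem pc_le (N : ℕ) (α : ℝ) : (pc N α : ℝ) ≤ N * Int.fract α :=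
  Nat.floor_le (mul_nonneg (Nat.cast_nonneg _) (Int.fract_nonneg _))

theorem lt_pc (N : ℕ) (α : ℝ) : (N : ℝ) * Int.fract α < pc N α + 1 := Nat.lt_floor_add_one _

theorem pc_lt (N : ℕ) (hN : 0 < N) (α : ℝ) : pc N α < N := by
  have h1 := pc_le N α
  have h2 := Int.fract_lt_one α
  have hNR : (0 : ℝ) < N := by exact_mod_cast hN
  have : (pc N α : ℝ) < N := by nlinarith
  exact_mod_cast this

theorem geo (N : ℕ) (hN : 0 < N) (α : ℝ) (a b : ℤ) (hab : b - a ≤ N) :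
    ‖∑ s ∈ Ico a b, ee (α * s)‖ ≤ wt N (pc N α) := by
  have hNR : (0 : ℝ) < N := by exact_mod_cast hN
  rcases le_or_gt b a with hba | hba
  · rw [Finset.Ico_eq_empty (by omega), Finset.sum_empty, norm_zero]
    exact wt_nonneg _ _
  obtain ⟨n, hn⟩ : ∃ n : ℕ, b = a + n := ⟨(b - a).toNat, by omega⟩
  subst hn
  have hnN : n ≤ N := by omega
  have hnR : (n : ℝ) ≤ N := by exact_mod_cast hnN
  obtain ⟨θ, hθ⟩ : ∃ θ : ℝ, θ = Int.fract α := ⟨_, rfl⟩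
  have e1 : ∑ s ∈ Ico a (a + (n : ℤ)), ee (α * s) = ∑ s ∈ Ico a (a + (n : ℤ)), ee (θ * s) := by
    refine Finset.sum_congr rfl fun s _ => ?_
    have : α * (s : ℝ) = θ * s + ((⌊α⌋ * s : ℤ) : ℝ) := by
      rw [hθ]
      push_cast
      have := Int.self_sub_floor α
      rw [← this]
      ring
    rw [this, ee_add_int]
  rw [e1]
  have hcard : ‖∑ s ∈ Ico a (a + (n : ℤ)), ee (θ * s)‖ ≤ N := by
    refine (norm_sum_le_card _ _).trans ?_
    rw [Int.card_Ico]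
    have : ((a + n - a).toNat : ℝ) = n := by
      have : (a + (n : ℤ) - a).toNat = n := by omega
      rw [this]
    rw [this]
    exact hnR
  have hP := pc_lt N hN α
  have h0θ : 0 ≤ θ := by rw [hθ]; exact Int.fract_nonneg _
  have h1θ : θ < 1 := by rw [hθ]; exact Int.fract_lt_one _
  have hP1 : (pc N α : ℝ) ≤ N * θ := by rw [hθ]; exact pc_le N α
  have hP2 : (N : ℝ) * θ < pc N α + 1 := by rw [hθ]; exact lt_pc N α
  obtain ⟨P, hPd⟩ : ∃ P : ℕ, P = pc N α := ⟨_, rfl⟩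
  rw [← hPd] at hP hP1 hP2 ⊢
  have hw1 : (0 : ℝ) ≤ (N : ℝ) / (1 + P) := by positivity
  have hw2 : (0 : ℝ) ≤ (N : ℝ) / (1 + ((N - 1 - P : ℕ) : ℝ)) := by positivity
  rcases Nat.eq_zero_or_pos P with hP0 | hP0
  · unfold wt
    subst hP0
    have : (N : ℝ) / (1 + ((0 : ℕ) : ℝ)) = N := by simp
    rw [this]
    linarith
  · rcases Nat.eq_zero_or_pos (N - 1 - P) with hQ0 | hQ0
    · unfold wt
      rw [hQ0]
      have : (N : ℝ) / (1 + ((0 : ℕ) : ℝ)) = N := by simp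
      rw [this]
      linarith
    · -- the main case
      obtain ⟨Q, hQ⟩ : ∃ Q : ℕ, Q = N - 1 - P := ⟨_, rfl⟩
      rw [← hQ] at hQ0
      have hNQ : (N : ℝ) = 1 + P + Q := by
        have : N = 1 + P + Q := by omega
        exact_mod_cast this
      have hPR : (1 : ℝ) ≤ P := by exact_mod_cast hP0
      have hQR : (1 : ℝ) ≤ Q := by exact_mod_cast hQ0
      have hθ0 : 0 < θ := by
        by_contra h
        push Not at h
        nlinarith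
      have h1 : ‖∑ s ∈ Ico a (a + (n : ℤ)), ee (θ * s)‖ * ‖ee θ - 1‖ ≤ 2 := by
        rw [← norm_mul, tele]
        refine (norm_sub_le _ _).trans ?_
        rw [norm_ee, norm_ee]
        norm_num
      rw [norm_ee_sub_one θ h0θ h1θ.le] at h1
      have h2 := sin_lower θ h0θ h1θ.le
      have hmin : 0 < min θ (1 - θ) := lt_min hθ0 (by linarith)
      have hX0 : 0 ≤ ‖∑ s ∈ Ico a (a + (n : ℤ)), ee (θ * s)‖ := norm_nonneg _
      have h3 : ‖∑ s ∈ Ico a (a + (n : ℤ)), ee (θ * s)‖ * (2 * min θ (1 - θ)) ≤ 1 := by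
        nlinarith
      unfold wt
      rw [← hQ]
      rcases le_total θ (1 - θ) with hm | hm
      · rw [min_eq_left hm] at h3
        have h4 : ‖∑ s ∈ Ico a (a + (n : ℤ)), ee (θ * s)‖ ≤ (N : ℝ) / (1 + P) := by
          rw [le_div_iff₀ (by positivity)]
          have h5 : (1 + P : ℝ) ≤ N * (2 * θ) := by nlinarith
          calc _ ≤ ‖∑ s ∈ Ico a (a + (n : ℤ)), ee (θ * s)‖ * (N * (2 * θ)) := by gcongr
            _ = N * (‖∑ s ∈ Ico a (a + (n : ℤ)), ee (θ * s)‖ * (2 * θ)) := by ring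
            _ ≤ N * 1 := by gcongr
            _ = N := mul_one _
        have : (0 : ℝ) ≤ (N : ℝ) / (1 + Q) := by positivity
        linarith
      · rw [min_eq_right hm] at h3
        have h4 : ‖∑ s ∈ Ico a (a + (n : ℤ)), ee (θ * s)‖ ≤ (N : ℝ) / (1 + Q) := by
          rw [le_div_iff₀ (by positivity)]
          have h5 : (1 + Q : ℝ) ≤ N * (2 * (1 - θ)) := by nlinarith
          calc _ ≤ ‖∑ s ∈ Ico a (a + (n : ℤ)), ee (θ * s)‖ * (N * (2 * (1 - θ))) := by gcongr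
            _ = N * (‖∑ s ∈ Ico a (a + (n : ℤ)), ee (θ * s)‖ * (2 * (1 - θ))) := by ring
            _ ≤ N * 1 := by gcongr
            _ = N := mul_one _
        have : (0 : ℝ) ≤ (N : ℝ) / (1 + P) := by positivity
        linarith

theorem harm (N : ℕ) : ∑ P ∈ range N, (N : ℝ) / (1 + P) ≤ N * (1 + Real.log N) := by
  have h1 := harmonic_le_one_add_log N
  have h2 : ((harmonic N : ℚ) : ℝ) = ∑ P ∈ range N, ((1 : ℝ) + P)⁻¹ := by
    unfold harmonic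
    push_cast
    refine Finset.sum_congr rfl fun P _ => ?_
    rw [add_comm]
  rw [h2] at h1
  calc ∑ P ∈ range N, (N : ℝ) / (1 + P) = N * ∑ P ∈ range N, ((1 : ℝ) + P)⁻¹ := by
        rw [Finset.mul_sum]
        rfl
    _ ≤ _ := by gcongr

theorem sum_wt (N : ℕ) : ∑ P ∈ range N, wt N P ≤ 2 * N * (1 + Real.log N) := by
  unfold wt
  rw [Finset.sum_add_distrib]
  have h1 := harm N
  have h2 : ∑ P ∈ range N, (N : ℝ) / (1 + ((N - 1 - P : ℕ) : ℝ)) =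
      ∑ P ∈ range N, (N : ℝ) / (1 + (P : ℝ)) :=
    Finset.sum_range_reflect (fun P : ℕ => (N : ℝ) / (1 + (P : ℝ))) N
  rw [h2]
  linarith

/-- a cell has at most `DW` elements -/
theorem cell_card (a b c : ℝ) (Ns Nt : ℕ) (hNs : 1 ≤ Ns) (hNt : 1 ≤ Nt) (P P' : ℕ) :
    ((((Icc (-(Ns : ℤ)) Ns) ×ˢ (Icc (-(Nt : ℤ)) Nt)).filter (fun x : ℤ × ℤ =>
      pc Ns (2 * a * x.1 + b * x.2) = P ∧ pc Nt (b * x.1 + 2 * c * x.2) = P')).card) ≤
    DW a b c Ns Nt := by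
  classical
  have hNsR : (0 : ℝ) < Ns := by exact_mod_cast hNs
  have hNtR : (0 : ℝ) < Nt := by exact_mod_cast hNt
  have key : ∀ (N : ℕ) (hN : (0 : ℝ) < N) (α β : ℝ) (R : ℕ), pc N α = R → pc N β = R →
      ∃ n : ℤ, |α - β - n| ≤ 1 / N := by
    intro N hN α β R h1 h2
    refine ⟨⌊α⌋ - ⌊β⌋, ?_⟩
    have e : α - β - ((⌊α⌋ - ⌊β⌋ : ℤ) : ℝ) = Int.fract α - Int.fract β := by
      push_cast
      rw [← Int.self_sub_floor α, ← Int.self_sub_floor β]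
      ring
    rw [e, abs_le]
    have a1 := pc_le N α
    have a2 := lt_pc N α
    have b1 := pc_le N β
    have b2 := lt_pc N β
    rw [h1] at a1 a2
    rw [h2] at b1 b2
    constructor
    · rw [neg_le, div_eq_mul_inv, one_mul]
      rw [← mul_le_mul_iff_right₀ hN, mul_inv_cancel₀ hN.ne']
      nlinarith
    · rw [le_div_iff₀ hN]
      nlinarith
  rcases Finset.eq_empty_or_nonempty (((Icc (-(Ns : ℤ)) Ns) ×ˢ (Icc (-(Nt : ℤ)) Nt)).filter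
    (fun x : ℤ × ℤ => pc Ns (2 * a * x.1 + b * x.2) = P ∧
      pc Nt (b * x.1 + 2 * c * x.2) = P')) with h | ⟨d, hd⟩
  · rw [h, card_empty]
    exact Nat.zero_le _
  · unfold DW
    rw [Finset.mem_filter, Finset.mem_product, Finset.mem_Icc, Finset.mem_Icc] at hd
    obtain ⟨⟨⟨d1, d2⟩, d3, d4⟩, d5, d6⟩ := hd
    refine Finset.card_le_card_of_injOn (fun x => x - d) ?_ ?_
    · intro x hx
      rw [Finset.mem_coe, Finset.mem_filter, Finset.mem_product, Finset.mem_Icc,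
        Finset.mem_Icc] at hx
      obtain ⟨⟨⟨x1, x2⟩, x3, x4⟩, x5, x6⟩ := hx
      rw [Finset.mem_coe, Finset.mem_filter, Finset.mem_product, Finset.mem_Icc,
        Finset.mem_Icc]
      simp only [Prod.fst_sub, Prod.snd_sub]
      refine ⟨⟨⟨by omega, by omega⟩, by omega, by omega⟩, ?_, ?_⟩
      · obtain ⟨n, hn⟩ := key Ns hNsR _ _ P x5 d5
        refine ⟨n, ?_⟩
        convert hn using 2
        push_cast
        ring
      · obtain ⟨n, hn⟩ := key Nt hNtR _ _ P' x6 d6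
        refine ⟨n, ?_⟩
        convert hn using 2
        push_cast
        ring
    · intro x _ y _ hxy
      simpa using hxy

/-- the sum of the weights -/
theorem weights (a b c : ℝ) (Ns Nt : ℕ) (hNs : 1 ≤ Ns) (hNt : 1 ≤ Nt) :
    ∑ x ∈ (Icc (-(Ns : ℤ)) Ns) ×ˢ (Icc (-(Nt : ℤ)) Nt),
      wt Ns (pc Ns (2 * a * x.1 + b * x.2)) * wt Nt (pc Nt (b * x.1 + 2 * c * x.2)) ≤
    4 * Ns * Nt * (1 + Real.log Ns) * (1 + Real.log Nt) * (DW a b c Ns Nt : ℝ) := by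
  classical
  have h1 : ∑ x ∈ (Icc (-(Ns : ℤ)) Ns) ×ˢ (Icc (-(Nt : ℤ)) Nt),
      wt Ns (pc Ns (2 * a * x.1 + b * x.2)) * wt Nt (pc Nt (b * x.1 + 2 * c * x.2)) =
      ∑ R ∈ range Ns ×ˢ range Nt, ∑ x ∈ ((Icc (-(Ns : ℤ)) Ns) ×ˢ (Icc (-(Nt : ℤ)) Nt)).filter
        (fun x : ℤ × ℤ => (pc Ns (2 * a * x.1 + b * x.2), pc Nt (b * x.1 + 2 * c * x.2)) = R),
        wt Ns (pc Ns (2 * a * x.1 + b * x.2)) * wt Nt (pc Nt (b * x.1 + 2 * c * x.2)) := by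
    rw [Finset.sum_fiberwise_of_maps_to]
    intro x _
    rw [Finset.mem_product, Finset.mem_range, Finset.mem_range]
    exact ⟨pc_lt _ hNs _, pc_lt _ hNt _⟩
  rw [h1]
  have h2 : ∀ R ∈ range Ns ×ˢ range Nt, ∑ x ∈ ((Icc (-(Ns : ℤ)) Ns) ×ˢ (Icc (-(Nt : ℤ)) Nt)).filter
        (fun x : ℤ × ℤ => (pc Ns (2 * a * x.1 + b * x.2), pc Nt (b * x.1 + 2 * c * x.2)) = R),
        wt Ns (pc Ns (2 * a * x.1 + b * x.2)) * wt Nt (pc Nt (b * x.1 + 2 * c * x.2)) ≤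
      wt Ns R.1 * wt Nt R.2 * (DW a b c Ns Nt : ℝ) := by
    rintro ⟨P, P'⟩ _
    have e1 : ∑ x ∈ ((Icc (-(Ns : ℤ)) Ns) ×ˢ (Icc (-(Nt : ℤ)) Nt)).filter
        (fun x : ℤ × ℤ => (pc Ns (2 * a * x.1 + b * x.2), pc Nt (b * x.1 + 2 * c * x.2)) = (P, P')),
        wt Ns (pc Ns (2 * a * x.1 + b * x.2)) * wt Nt (pc Nt (b * x.1 + 2 * c * x.2)) =
        ∑ x ∈ ((Icc (-(Ns : ℤ)) Ns) ×ˢ (Icc (-(Nt : ℤ)) Nt)).filter
        (fun x : ℤ × ℤ => (pc Ns (2 * a * x.1 + b * x.2), pc Nt (b * x.1 + 2 * c * x.2)) = (P, P')),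
        wt Ns P * wt Nt P' := by
      refine Finset.sum_congr rfl fun x hx => ?_
      rw [Finset.mem_filter, Prod.mk.injEq] at hx
      rw [hx.2.1, hx.2.2]
    rw [e1, Finset.sum_const, nsmul_eq_mul, mul_comm]
    refine mul_le_mul_of_nonneg_left ?_ (mul_nonneg (wt_nonneg _ _) (wt_nonneg _ _))
    have e2 := cell_card a b c Ns Nt hNs hNt P P'
    have e3 : ((Icc (-(Ns : ℤ)) Ns) ×ˢ (Icc (-(Nt : ℤ)) Nt)).filter
        (fun x : ℤ × ℤ => (pc Ns (2 * a * x.1 + b * x.2), pc Nt (b * x.1 + 2 * c * x.2)) = (P, P')) =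
        ((Icc (-(Ns : ℤ)) Ns) ×ˢ (Icc (-(Nt : ℤ)) Nt)).filter (fun x : ℤ × ℤ =>
      pc Ns (2 * a * x.1 + b * x.2) = P ∧ pc Nt (b * x.1 + 2 * c * x.2) = P') := by
      refine Finset.filter_congr fun x _ => ?_
      rw [Prod.mk.injEq]
    rw [e3]
    exact_mod_cast e2
  refine (Finset.sum_le_sum h2).trans ?_
  rw [← Finset.sum_mul, Finset.sum_product]
  simp only
  rw [← Finset.sum_mul_sum]
  have e1 := sum_wt Ns
  have e2 := sum_wt Nt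
  have e3 : 0 ≤ ∑ P ∈ range Nt, wt Nt P := Finset.sum_nonneg fun _ _ => wt_nonneg _ _
  have e4 : 0 ≤ ∑ P ∈ range Ns, wt Ns P := Finset.sum_nonneg fun _ _ => wt_nonneg _ _
  have e5 : (0 : ℝ) ≤ (DW a b c Ns Nt : ℝ) := Nat.cast_nonneg _
  calc (∑ P ∈ range Ns, wt Ns P) * (∑ P ∈ range Nt, wt Nt P) * (DW a b c Ns Nt : ℝ) ≤
        (2 * Ns * (1 + Real.log Ns)) * (2 * Nt * (1 + Real.log Nt)) * (DW a b c Ns Nt : ℝ) :=
        mul_le_mul_of_nonneg_right (mul_le_mul e1 e2 e3 (e4.trans e1)) e5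
    _ = _ := by ring

/-- the sum for one difference -/
theorem diff_sum (a b c p q : ℝ) (s₀ t₀ : ℤ) (n₁ n₂ Ns Nt : ℕ) (hNs : 1 ≤ Ns) (hNt : 1 ≤ Nt)
    (h1 : n₁ ≤ Ns) (h2 : n₂ ≤ Nt) (d : ℤ × ℤ) :
    ‖∑ z ∈ ((Ico s₀ (s₀ + n₁) ×ˢ Ico t₀ (t₀ + n₂)) ×ˢ (Ico s₀ (s₀ + n₁) ×ˢ Ico t₀ (t₀ + n₂))).filter
        (fun z : (ℤ × ℤ) × (ℤ × ℤ) => z.1 - z.2 = d),
      ee ((a * (z.1.1 : ℝ) ^ 2 + b * z.1.1 * z.1.2 + c * (z.1.2 : ℝ) ^ 2 + p * z.1.1 + q * z.1.2) -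
        (a * (z.2.1 : ℝ) ^ 2 + b * z.2.1 * z.2.2 + c * (z.2.2 : ℝ) ^ 2 + p * z.2.1 + q * z.2.2))‖ ≤
    wt Ns (pc Ns (2 * a * d.1 + b * d.2)) * wt Nt (pc Nt (b * d.1 + 2 * c * d.2)) := by
  classical
  obtain ⟨x, y⟩ := d
  simp only
  have e1 : ∑ z ∈ ((Ico s₀ (s₀ + n₁) ×ˢ Ico t₀ (t₀ + n₂)) ×ˢ
        (Ico s₀ (s₀ + n₁) ×ˢ Ico t₀ (t₀ + n₂))).filter
        (fun z : (ℤ × ℤ) × (ℤ × ℤ) => z.1 - z.2 = (x, y)),
      ee ((a * (z.1.1 : ℝ) ^ 2 + b * z.1.1 * z.1.2 + c * (z.1.2 : ℝ) ^ 2 + p * z.1.1 + q * z.1.2) -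
        (a * (z.2.1 : ℝ) ^ 2 + b * z.2.1 * z.2.2 + c * (z.2.2 : ℝ) ^ 2 + p * z.2.1 + q * z.2.2)) =
      ∑ u ∈ (Ico (max s₀ (s₀ - x)) (min (s₀ + n₁) (s₀ + n₁ - x))) ×ˢ
        (Ico (max t₀ (t₀ - y)) (min (t₀ + n₂) (t₀ + n₂ - y))),
        ee (((2 * a * x + b * y) * u.1 + (b * x + 2 * c * y) * u.2) +
          (a * x ^ 2 + b * x * y + c * y ^ 2 + p * x + q * y)) := by
    refine Finset.sum_nbij' (fun z => z.2) (fun u => (u + (x, y), u)) ?_ ?_ ?_ ?_ ?_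
    · rintro ⟨⟨z1, z2⟩, ⟨w1, w2⟩⟩ hz
      simp only [Finset.mem_filter, Finset.mem_product, Finset.mem_Ico, Prod.mk_sub_mk,
        Prod.mk.injEq] at hz
      simp only [Finset.mem_product, Finset.mem_Ico]
      omega
    · rintro ⟨u1, u2⟩ hu
      simp only [Finset.mem_product, Finset.mem_Ico] at hu
      simp only [Finset.mem_filter, Finset.mem_product, Finset.mem_Ico, Prod.mk_sub_mk,
        Prod.mk.injEq, Prod.mk_add_mk]
      omega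
    · rintro ⟨⟨z1, z2⟩, ⟨w1, w2⟩⟩ hz
      simp only [Finset.mem_filter, Finset.mem_product, Finset.mem_Ico, Prod.mk_sub_mk,
        Prod.mk.injEq] at hz
      simp only [Prod.mk.injEq, Prod.mk_add_mk, and_true]
      omega
    · rintro ⟨u1, u2⟩ hu
      rfl
    · rintro ⟨⟨z1, z2⟩, ⟨w1, w2⟩⟩ hz
      simp only [Finset.mem_filter, Finset.mem_product, Finset.mem_Ico, Prod.mk_sub_mk,
        Prod.mk.injEq] at hz
      obtain ⟨_, h3, h4⟩ := hz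
      have h5 : z1 = w1 + x := by omega
      have h6 : z2 = w2 + y := by omega
      subst h5 h6
      simp only
      congr 1
      push_cast
      ring
  rw [e1, norm_sum_shift, Finset.sum_product]
  simp only [ee_add]
  rw [← Finset.sum_mul_sum, norm_mul]
  refine mul_le_mul (geo Ns hNs _ _ _ ?_) (geo Nt hNt _ _ _ ?_) (norm_nonneg _) (wt_nonneg _ _)
  · have e2 := min_le_left (s₀ + (n₁ : ℤ)) (s₀ + n₁ - x)
    have e3 := le_max_left s₀ (s₀ - x)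
    omega
  · have e2 := min_le_left (t₀ + (n₂ : ℤ)) (t₀ + n₂ - y)
    have e3 := le_max_left t₀ (t₀ - y)
    omega

end WEY

open WEY

theorem t_WEY : S_WEY := by
  classical
  refine ⟨4, by norm_num, ?_⟩
  intro a b c p q s₀ t₀ n₁ n₂ Ns Nt hNs hNt hn1 hn2
  refine le_trans ?_ (weights a b c Ns Nt hNs hNt)
  obtain ⟨f, hf⟩ : ∃ f : ℤ × ℤ → ℝ, ∀ z, f z =
    a * (z.1 : ℝ) ^ 2 + b * z.1 * z.2 + c * (z.2 : ℝ) ^ 2 + p * z.1 + q * z.2 := ⟨_, fun _ => rfl⟩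
  obtain ⟨A, hA⟩ : ∃ A : Finset (ℤ × ℤ), A = Ico s₀ (s₀ + n₁) ×ˢ Ico t₀ (t₀ + n₂) := ⟨_, rfl⟩
  have e0 : ∑ s ∈ Ico s₀ (s₀ + (n₁ : ℤ)), ∑ t ∈ Ico t₀ (t₀ + (n₂ : ℤ)),
      ee (a * (s : ℝ) ^ 2 + b * s * t + c * (t : ℝ) ^ 2 + p * s + q * t) = ∑ z ∈ A, ee (f z) := by
    rw [hA, Finset.sum_product]
    simp only [hf]
  rw [e0]
  have e1 : ((‖∑ z ∈ A, ee (f z)‖ ^ 2 : ℝ) : ℂ) =
      ∑ d ∈ (Icc (-(Ns : ℤ)) Ns) ×ˢ (Icc (-(Nt : ℤ)) Nt),
        ∑ z ∈ (A ×ˢ A).filter (fun z : (ℤ × ℤ) × (ℤ × ℤ) => z.1 - z.2 = d),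
          ee (f z.1 - f z.2) := by
    rw [sq_norm_sum, ← Finset.sum_product', Finset.sum_fiberwise_of_maps_to]
    rintro ⟨⟨z1, z2⟩, ⟨w1, w2⟩⟩ hz
    rw [hA] at hz
    simp only [Finset.mem_product, Finset.mem_Ico] at hz
    simp only [Prod.mk_sub_mk, Finset.mem_product, Finset.mem_Icc]
    omega
  calc ‖∑ z ∈ A, ee (f z)‖ ^ 2 = ‖((‖∑ z ∈ A, ee (f z)‖ ^ 2 : ℝ) : ℂ)‖ := by
        rw [Complex.norm_real, Real.norm_of_nonneg (by positivity)]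
    _ ≤ ∑ d ∈ (Icc (-(Ns : ℤ)) Ns) ×ˢ (Icc (-(Nt : ℤ)) Nt),
        ‖∑ z ∈ (A ×ˢ A).filter (fun z : (ℤ × ℤ) × (ℤ × ℤ) => z.1 - z.2 = d),
          ee (f z.1 - f z.2)‖ := by
        rw [e1]
        exact norm_sum_le _ _
    _ ≤ _ := by
        refine Finset.sum_le_sum fun d _ => ?_
        have := diff_sum a b c p q s₀ t₀ n₁ n₂ Ns Nt hNs hNt hn1 hn2 d
        rw [hA]
        simp only [hf]
        exact this

end Pool.Agent.T2h80.F5
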