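import Pool.Agent.T2h80.F5.Stm

/-! Project F5, part ZA: the structure when `u₁ = 0`. -/

set_option autoImplicit false

namespace Pool.Agent.T2h80.F5

namespace ZA

theorem four_n0 (d : ℕ) (hd : d % 4 = 0 ∨ d % 4 = 3) : 4 * n0 d = (d : ℤ) + th d := by
  unfold n0 th
  push_cast
  omega

theorem th_sq (d : ℕ) : th d ^ 2 = th d := by
  have h : d % 2 = 0 ∨ d % 2 = 1 := by omega
  unfold th
  rcases h with h | h <;> rw [h] <;> norm_num

theorem norm_four (d : ℕ) (hd : d % 4 = 0 ∨ d % 4 = 3) (x u : ℤ) :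
    4 * (x ^ 2 + th d * x * u + n0 d * u ^ 2) = (2 * x + th d * u) ^ 2 + d * u ^ 2 := by
  have h1 := four_n0 d hd
  have h2 := th_sq d
  linear_combination u ^ 2 * h1 - u ^ 2 * h2

end ZA

open ZA in
theorem t_ZA : S_ZA := by
  intro d ρ m a x₁ x₂ u₂ hd hR hu
  obtain ⟨hρ, hm, ha, _, hu2, hc1, hc2, _, _, hN1, hN2, hD1, hD2, hD3, _⟩ := hR
  have hg : Int.gcd 0 u₂ = u₂.natAbs := Int.gcd_zero_left u₂
  rw [hg] at hc2
  -- coprimality in ℤ
  have cu : IsCoprime ((ρ * m * a : ℕ) : ℤ) u₂ := by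
    rw [Int.isCoprime_iff_gcd_eq_one]
    exact hc2
  push_cast at cu
  have cρa : IsCoprime ((ρ : ℤ) * a) u₂ := by
    have : ((ρ : ℤ) * m * a) = (ρ * a) * m := by ring
    rw [this] at cu
    exact cu.of_mul_left_left
  have cρm : IsCoprime ((ρ : ℤ) * m) u₂ := cu.of_mul_left_left
  have cm : IsCoprime (m : ℤ) u₂ := cρm.of_mul_left_right
  have e1 : (ρ : ℤ) * a ∣ x₁ := by
    have : ((ρ * a : ℕ) : ℤ) ∣ x₁ * u₂ := by
      have h := hD1
      simp only [mul_zero, add_zero, zero_mul] at h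
      exact h
    push_cast at this
    exact cρa.dvd_of_dvd_mul_right this
  have hx1 : x₁ ^ 2 = ρ * m ^ 2 * a := by
    have h := hN1
    simp only [mul_zero, add_zero, ne_eq, OfNat.ofNat_ne_zero, not_false_eq_true, zero_pow] at h
    exact h
  -- ρ = 1
  have e2 : ρ * a ∣ m ^ 2 := by
    have h1 : ((ρ : ℤ) * a) ^ 2 ∣ x₁ ^ 2 := pow_dvd_pow_of_dvd e1 2
    rw [hx1] at h1
    have h2 : ((ρ : ℤ) * a) * ((ρ : ℤ) * a) ∣ ((ρ : ℤ) * a) * m ^ 2 := by
      have e3 : ((ρ : ℤ) * a) * m ^ 2 = ρ * m ^ 2 * a := by ring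
      rw [e3, ← sq]
      exact h1
    have h3 : ((ρ : ℤ) * a) ≠ 0 := by positivity
    have h4 := (mul_dvd_mul_iff_left h3).1 h2
    exact_mod_cast h4
  have hρ1 : ρ = 1 := by
    have h1 : ρ ∣ m ^ 2 := (dvd_mul_right ρ a).trans e2
    have h2 : ρ.Coprime (m ^ 2) := (Nat.Coprime.coprime_mul_right_right hc1).pow_right 2
    exact Nat.Coprime.eq_one_of_dvd h2 h1
  subst hρ1
  refine ⟨rfl, ?_⟩
  -- a is a square
  have hx1' : x₁.natAbs ^ 2 = m ^ 2 * a := by
    have h1 : ((x₁.natAbs ^ 2 : ℕ) : ℤ) = ((m ^ 2 * a : ℕ) : ℤ) := by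
      push_cast
      rw [sq_abs, hx1]
      push_cast
      ring
    exact_mod_cast h1
  have hmx : m ∣ x₁.natAbs := by
    have : m ^ 2 ∣ x₁.natAbs ^ 2 := ⟨a, hx1'⟩
    exact (Nat.pow_dvd_pow_iff two_ne_zero).1 this
  obtain ⟨b, hb⟩ := hmx
  have hab : a = b ^ 2 := by
    rw [hb, mul_pow] at hx1'
    exact (Nat.eq_of_mul_eq_mul_left (by positivity) hx1').symm
  have hb0 : 0 < b := by
    rcases Nat.eq_zero_or_pos b with h | h
    · rw [h] at hab
      simp at hab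
      omega
    · exact h
  have hbm : b ∣ m := by
    have h1 : b ^ 2 ∣ m ^ 2 := by
      have h2 := e2
      rw [one_mul, hab] at h2
      exact h2
    exact (Nat.pow_dvd_pow_iff two_ne_zero).1 h1
  obtain ⟨q, hq⟩ := hbm
  have hq0 : 0 < q := by
    rcases Nat.eq_zero_or_pos q with h | h
    · rw [h] at hq
      omega
    · exact h
  have hx1b : x₁ ^ 2 = ((b : ℤ) ^ 2 * q) ^ 2 := by
    rw [hx1, hab, hq]
    push_cast
    ring
  -- q divides 2 x₂ + th u₂
  have cq : IsCoprime (q : ℤ) u₂ := by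
    have : (m : ℤ) = b * q := by rw [hq]; push_cast; ring
    rw [this] at cm
    exact cm.of_mul_left_right
  have e5 : (q : ℤ) ∣ 2 * x₂ + th d * u₂ := by
    have h1 : ((m : ℤ)) ^ 2 ∣ x₁ * (u₂ * (2 * x₂ + th d * u₂)) := by
      have h := hD3
      push_cast at h
      have e : (0 : ℤ) * x₂ ^ 2 - 2 * x₁ * x₂ * u₂ - th d * x₁ * u₂ ^ 2 - n0 d * 0 * u₂ ^ 2 =
        -(x₁ * (u₂ * (2 * x₂ + th d * u₂))) := by ring
      rw [e, dvd_neg, one_mul] at h
      exact h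
    have h2 : ((m : ℤ)) ^ 2 ∣ (m * b) * (u₂ * (2 * x₂ + th d * u₂)) := by
      have h3 : (x₁.natAbs : ℤ) = m * b := by rw [hb]; push_cast; ring
      rcases Int.natAbs_eq x₁ with h4 | h4
      · rw [h3] at h4
        rw [← h4]
        exact h1
      · rw [h3] at h4
        rw [h4] at h1
        have e : -((m : ℤ) * b) * (u₂ * (2 * x₂ + th d * u₂)) =
          -((m * b) * (u₂ * (2 * x₂ + th d * u₂))) := by ring
        rw [e, dvd_neg] at h1
        exact h1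
    have hmb : (m : ℤ) * b ≠ 0 := by positivity
    have h5 : (m : ℤ) * b * q ∣ (m * b) * (u₂ * (2 * x₂ + th d * u₂)) := by
      have e : (m : ℤ) * b * q = m ^ 2 := by
        have : (m : ℤ) = b * q := by rw [hq]; push_cast; ring
        rw [mul_assoc, ← this]
        ring
      rw [e]
      exact h2
    have h6 := (mul_dvd_mul_iff_left hmb).1 h5
    exact cq.dvd_of_dvd_mul_left h6
  obtain ⟨y, hy⟩ := e5
  have h4 := norm_four d hd x₂ u₂
  rw [hN2, hy] at h4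
  have h5 : 4 * (b : ℤ) ^ 5 * q = q * (q * y ^ 2) + d * u₂ ^ 2 := by
    have e : 4 * (((1 : ℕ) : ℤ) * (a : ℤ) ^ 2 * (m : ℤ)) = 4 * (b : ℤ) ^ 5 * q := by
      rw [hab, hq]
      push_cast
      ring
    rw [← e, h4]
    ring
  have e6 : (q : ℤ) ∣ d := by
    have h6 : (q : ℤ) ∣ d * u₂ ^ 2 := by
      have : (d : ℤ) * u₂ ^ 2 = q * (4 * (b : ℤ) ^ 5 - q * y ^ 2) := by linear_combination -h5
      exact ⟨_, this⟩
    exact (cq.pow_right (n := 2)).dvd_of_dvd_mul_right h6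
  obtain ⟨d', hd'⟩ : q ∣ d := by exact_mod_cast e6
  refine ⟨b, q, d', y, hb0, hq0, hq, hab, hx1b, hy, hd', ?_, ?_⟩
  · have hq0' : (q : ℤ) ≠ 0 := by positivity
    apply mul_left_cancel₀ hq0'
    rw [hd'] at h5
    push_cast at h5
    linear_combination h5
  · have h7 : (1 * m * a).Coprime u₂.natAbs := hc2
    rw [one_mul, hq] at h7
    exact (Nat.Coprime.coprime_mul_right h7).symm

end Pool.Agent.T2h80.F5
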