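import Pool.Agent.T2h80.F5.Stm

/-! Project F5, part ZB: the tuples `(b, q, y, u, d')`. -/

set_option autoImplicit false

namespace Pool.Agent.T2h80.F5

open Finset

namespace ZB

/-- the conditions -/
def Cd (N b q : ℕ) (y : ℤ) (u d' : ℕ) : Prop :=
  0 < b ∧ 0 < q ∧ 0 < u ∧ u.Coprime (b * q) ∧
    4 * (b : ℤ) ^ 5 = q * y ^ 2 + d' * u ^ 2 ∧ N < q * d' ∧ q * d' ≤ 2 * N ∧
    (b * q) ^ 2 ≤ 2 * N ∧ (b ^ 2) ^ 2 ≤ 2 * N

theorem exists_T (N : ℕ) (hN : 1 ≤ N) : ∃ T : ℕ, 1 ≤ T ∧ 2 * N ≤ T ^ 4 ∧ T ^ 4 ≤ 32 * N := by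
  have hex : ∃ T : ℕ, 2 * N ≤ T ^ 4 := ⟨2 * N, by
    calc 2 * N = (2 * N) ^ 1 := (pow_one _).symm
      _ ≤ (2 * N) ^ 4 := Nat.pow_le_pow_right (by omega) (by norm_num)⟩
  classical
  refine ⟨Nat.find hex, ?_, Nat.find_spec hex, ?_⟩
  · by_contra h
    have h0 : Nat.find hex = 0 := by omega
    have h1 := Nat.find_spec hex
    rw [h0] at h1
    norm_num at h1
    omega
  · by_contra h
    push Not at h
    have h1 : 1 < Nat.find hex := by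
      by_contra h2
      push Not at h2
      have : Nat.find hex ^ 4 ≤ 1 ^ 4 := Nat.pow_le_pow_left h2 4
      omega
    have h2 : ¬ 2 * N ≤ (Nat.find hex - 1) ^ 4 := Nat.find_min hex (by omega)
    have h3 : Nat.find hex ≤ 2 * (Nat.find hex - 1) := by omega
    have h4 := Nat.pow_le_pow_left h3 4
    rw [mul_pow] at h4
    omega

/-- the square of `u` divides `4 (q - q')` -/
theorem dvd4 (b q q' u : ℕ) (y : ℤ) (d d' : ℕ) (hc : u.Coprime (b * q))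
    (h1 : 4 * (b : ℤ) ^ 5 = q * y ^ 2 + d * u ^ 2) (h2 : 4 * (b : ℤ) ^ 5 = q' * y ^ 2 + d' * u ^ 2) :
    (u : ℤ) ^ 2 ∣ 4 * ((q : ℤ) - q') := by
  have hub : IsCoprime (u : ℤ) (b : ℤ) :=
    Nat.isCoprime_iff_coprime.2 (Nat.Coprime.coprime_mul_right_right hc)
  have h3 : (u : ℤ) ^ 2 ∣ ((q : ℤ) - q') * y ^ 2 := ⟨d' - d, by linear_combination h2 - h1⟩
  have h4 : (u : ℤ) ^ 2 ∣ (b : ℤ) ^ 5 * (4 * ((q : ℤ) - q')) := by
    have e : (b : ℤ) ^ 5 * (4 * ((q : ℤ) - q')) =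
      q * (((q : ℤ) - q') * y ^ 2) + u ^ 2 * (d * ((q : ℤ) - q')) := by
      linear_combination ((q : ℤ) - q') * h1
    rw [e]
    exact dvd_add (Dvd.dvd.mul_left h3 _) (dvd_mul_right _ _)
  exact (IsCoprime.pow hub (m := 2) (n := 5)).dvd_of_dvd_mul_left h4

theorem bounds (N b q : ℕ) (y : ℤ) (u d' T : ℕ) (hT1 : 1 ≤ T) (hT : 2 * N ≤ T ^ 4)
    (hT2 : T ^ 4 ≤ 32 * N) (h : Cd N b q y u d') :
    b ≤ T ∧ q ≤ T ^ 2 ∧ q * y.natAbs ≤ 2 * T ^ 3 ∧ y.natAbs * u ≤ 23 * T ^ 3 := by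
  obtain ⟨hb, hq, hu, hc, he, hN1, hN2, hbq, hb4⟩ := h
  have e1 : b ≤ T := by
    have : b ^ 4 ≤ T ^ 4 := by
      calc b ^ 4 = (b ^ 2) ^ 2 := by ring
        _ ≤ 2 * N := hb4
        _ ≤ T ^ 4 := hT
    exact (Nat.pow_le_pow_iff_left (by norm_num)).1 this
  have e2 : b * q ≤ T ^ 2 := by
    have : (b * q) ^ 2 ≤ (T ^ 2) ^ 2 := by
      calc (b * q) ^ 2 ≤ 2 * N := hbq
        _ ≤ T ^ 4 := hT
        _ = (T ^ 2) ^ 2 := by ring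
    exact (Nat.pow_le_pow_iff_left (by norm_num)).1 this
  have e3 : q ≤ T ^ 2 := le_trans (Nat.le_mul_of_pos_left q hb) e2
  have he' : 4 * b ^ 5 = q * y.natAbs ^ 2 + d' * u ^ 2 := by
    have : ((4 * b ^ 5 : ℕ) : ℤ) = ((q * y.natAbs ^ 2 + d' * u ^ 2 : ℕ) : ℤ) := by
      push_cast
      rw [sq_abs]
      exact he
    exact_mod_cast this
  refine ⟨e1, e3, ?_, ?_⟩
  · have h1 : (q * y.natAbs) ^ 2 ≤ (2 * T ^ 3) ^ 2 := by
      calc (q * y.natAbs) ^ 2 = q * (q * y.natAbs ^ 2) := by ring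
        _ ≤ q * (4 * b ^ 5) := Nat.mul_le_mul_left _ (by omega)
        _ = 4 * b ^ 4 * (b * q) := by ring
        _ ≤ 4 * T ^ 4 * T ^ 2 :=
          Nat.mul_le_mul (Nat.mul_le_mul_left _ (Nat.pow_le_pow_left e1 4)) e2
        _ = (2 * T ^ 3) ^ 2 := by ring
    exact (Nat.pow_le_pow_iff_left (by norm_num)).1 h1
  · have h1 : (y.natAbs * u) ^ 2 * T ^ 4 ≤ (23 * T ^ 3) ^ 2 * T ^ 4 := by
      calc (y.natAbs * u) ^ 2 * T ^ 4 ≤ (y.natAbs * u) ^ 2 * (32 * (q * d')) :=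
            Nat.mul_le_mul_left _ (by omega)
        _ = 32 * ((q * y.natAbs ^ 2) * (d' * u ^ 2)) := by ring
        _ ≤ 32 * ((4 * b ^ 5) * (4 * b ^ 5)) :=
            Nat.mul_le_mul_left _ (Nat.mul_le_mul (by omega) (by omega))
        _ = 512 * b ^ 10 := by ring
        _ ≤ 512 * T ^ 10 := Nat.mul_le_mul_left _ (Nat.pow_le_pow_left e1 10)
        _ ≤ (23 * T ^ 3) ^ 2 * T ^ 4 := by
            have : (23 * T ^ 3) ^ 2 * T ^ 4 = 529 * T ^ 10 := by ring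
            rw [this]
            exact Nat.mul_le_mul_right _ (by norm_num)
    have hT4 : 0 < T ^ 4 := by positivity
    exact (Nat.pow_le_pow_iff_left (by norm_num)).1 (Nat.le_of_mul_le_mul_right h1 hT4)

/-- if `y = 0` then `u ≤ 2` -/
theorem u_le (b q u d' : ℕ) (hc : u.Coprime (b * q))
    (he : 4 * (b : ℤ) ^ 5 = q * (0 : ℤ) ^ 2 + d' * u ^ 2) : u ≤ 2 := by
  have he' : 4 * b ^ 5 = d' * u ^ 2 := by
    have : ((4 * b ^ 5 : ℕ) : ℤ) = ((d' * u ^ 2 : ℕ) : ℤ) := by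
      push_cast
      rw [he]
      ring
    exact_mod_cast this
  have h1 : u ^ 2 ∣ 4 * b ^ 5 := ⟨d', by rw [he']; ring⟩
  have h2 : (u ^ 2).Coprime (b ^ 5) :=
    Nat.Coprime.pow 2 5 (Nat.Coprime.coprime_mul_right_right hc)
  have h3 : u ^ 2 ∣ 4 := h2.dvd_of_dvd_mul_right h1
  have h4 := Nat.le_of_dvd (by norm_num) h3
  nlinarith

/-- numbers in an interval with `m ∣ 4 (q - q')` -/
theorem card_class (S : Finset ℕ) (m X : ℕ) (hm : 0 < m) (hX : ∀ q ∈ S, q ≤ X)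
    (h : ∀ q ∈ S, ∀ q' ∈ S, (m : ℤ) ∣ 4 * ((q : ℤ) - q')) : (S.card : ℝ) ≤ 4 * X / m + 1 := by
  rcases S.eq_empty_or_nonempty with hS | hS
  · rw [hS]
    simp only [card_empty, Nat.cast_zero]
    positivity
  · set q₀ := S.min' hS with hq₀
    have hmem : q₀ ∈ S := S.min'_mem hS
    have hle : ∀ q ∈ S, q₀ ≤ q := fun q hq => S.min'_le q hq
    have hdv : ∀ q ∈ S, m ∣ 4 * (q - q₀) := by
      intro q hq
      have h1 := h q hq q₀ hmem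
      have h2 : ((4 * (q - q₀) : ℕ) : ℤ) = 4 * ((q : ℤ) - q₀) := by
        push_cast [hle q hq]
        ring
      rw [← h2] at h1
      exact_mod_cast h1
    have hinj : Set.InjOn (fun q => 4 * (q - q₀) / m) (S : Set ℕ) := by
      intro q hq q' hq' hqq
      simp only at hqq
      have h1 := Nat.div_mul_cancel (hdv q hq)
      have h2 := Nat.div_mul_cancel (hdv q' hq')
      rw [hqq, h2] at h1
      have h3 := hle q hq
      have h4 := hle q' hq'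
      omega
    have hmap : ∀ q ∈ S, 4 * (q - q₀) / m ∈ Finset.range (4 * X / m + 1) := by
      intro q hq
      rw [Finset.mem_range, Nat.lt_succ_iff]
      apply Nat.div_le_div_right
      have := hX q hq
      omega
    have hcard : S.card ≤ 4 * X / m + 1 := by
      have := Finset.card_le_card_of_injOn _ hmap hinj
      rwa [Finset.card_range] at this
    have h5 : ((4 * X / m : ℕ) : ℝ) ≤ 4 * X / m := by
      have := @Nat.cast_div_le ℝ _ _ _ (4 * X) m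
      push_cast at this
      exact this
    calc (S.card : ℝ) ≤ ((4 * X / m + 1 : ℕ) : ℝ) := by exact_mod_cast hcard
      _ = ((4 * X / m : ℕ) : ℝ) + 1 := by push_cast; ring
      _ ≤ 4 * X / m + 1 := by linarith

theorem harm (Y : ℕ) : ∑ y ∈ Icc 1 Y, ((y : ℝ))⁻¹ ≤ 1 + Real.log Y := by
  have h := harmonic_le_one_add_log Y
  rw [harmonic_eq_sum_Icc] at h
  push_cast at h
  exact h

theorem logb (ε : ℝ) (hε : 0 < ε) : ∃ C : ℝ, 0 < C ∧ ∀ N : ℕ, 1 ≤ N →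
    (1 + Real.log (736 * N)) ^ 2 ≤ C * (N : ℝ) ^ ε := by
  refine ⟨(1 + (736 : ℝ) ^ (ε / 2) / (ε / 2)) ^ 2, by positivity, fun N hN => ?_⟩
  have hN1 : (1 : ℝ) ≤ N := by exact_mod_cast hN
  have hN0 : (0 : ℝ) ≤ N := by linarith
  have h1 : Real.log (736 * N) ≤ (736 * (N : ℝ)) ^ (ε / 2) / (ε / 2) :=
    Real.log_le_rpow_div (by positivity) (by positivity)
  have h2 : (1 : ℝ) ≤ (N : ℝ) ^ (ε / 2) := Real.one_le_rpow hN1 (by positivity)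
  have h3 : (736 * (N : ℝ)) ^ (ε / 2) = 736 ^ (ε / 2) * (N : ℝ) ^ (ε / 2) :=
    Real.mul_rpow (by norm_num) hN0
  have h0 : 0 ≤ Real.log (736 * N) := Real.log_nonneg (by linarith)
  have h4 : 1 + Real.log (736 * N) ≤ (1 + (736 : ℝ) ^ (ε / 2) / (ε / 2)) * (N : ℝ) ^ (ε / 2) := by
    rw [h3] at h1
    have : (736 : ℝ) ^ (ε / 2) * (N : ℝ) ^ (ε / 2) / (ε / 2) =
      (736 : ℝ) ^ (ε / 2) / (ε / 2) * (N : ℝ) ^ (ε / 2) := by ring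
    rw [this] at h1
    linarith
  have h5 : (N : ℝ) ^ ε = ((N : ℝ) ^ (ε / 2)) ^ 2 := by
    rw [← Real.rpow_natCast, ← Real.rpow_mul hN0]
    congr 1
    push_cast
    ring
  rw [h5, ← mul_pow]
  exact pow_le_pow_left₀ (by linarith) h4 2

/-- the tuples with `y = 0` -/
theorem part0 (N T : ℕ) (hT1 : 1 ≤ T) (hT : 2 * N ≤ T ^ 4) (hT2 : T ^ 4 ≤ 32 * N)
    (F : Finset (ℕ × ℕ × ℤ × ℕ × ℕ))
    (hF : ∀ x ∈ F, Cd N x.1 x.2.1 x.2.2.1 x.2.2.2.1 x.2.2.2.2 ∧ x.2.2.1 = 0) :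
    F.card ≤ 2 * T ^ 3 := by
  have hmap : ∀ x ∈ F, (fun x : ℕ × ℕ × ℤ × ℕ × ℕ => (x.1, x.2.1, x.2.2.2.1)) x ∈
      (Icc 1 T) ×ˢ (Icc 1 (T ^ 2)) ×ˢ (Icc 1 2) := by
    intro x hx
    obtain ⟨h, h0⟩ := hF x hx
    obtain ⟨h1, h2, -, -⟩ := bounds N _ _ _ _ _ T hT1 hT hT2 h
    have h3 := u_le x.1 x.2.1 x.2.2.2.1 x.2.2.2.2 h.2.2.2.1 (by rw [← h0]; exact h.2.2.2.2.1)
    simp only [mem_product, mem_Icc]
    exact ⟨⟨h.1, h1⟩, ⟨h.2.1, h2⟩, h.2.2.1, h3⟩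
  have hinj : Set.InjOn (fun x : ℕ × ℕ × ℤ × ℕ × ℕ => (x.1, x.2.1, x.2.2.2.1))
      (F : Set (ℕ × ℕ × ℤ × ℕ × ℕ)) := by
    rintro ⟨b, q, y, u, d⟩ hx ⟨b', q', y', u', d'⟩ hx' hxx
    obtain ⟨h, h0⟩ := hF _ hx
    obtain ⟨h', h0'⟩ := hF _ hx'
    simp only [Prod.mk.injEq] at hxx h0 h0' h h'
    obtain ⟨rfl, rfl, rfl⟩ := hxx
    subst h0 h0'
    have h1 := h.2.2.2.2.1
    have h2 := h'.2.2.2.2.1
    have hu : (u : ℤ) ^ 2 ≠ 0 := by have := h.2.2.1; positivity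
    have h3 : (d : ℤ) = d' := mul_right_cancel₀ hu (by linarith)
    have h4 : d = d' := by exact_mod_cast h3
    rw [h4]
  have h := Finset.card_le_card_of_injOn _ hmap hinj
  rw [card_product, card_product, Nat.card_Icc, Nat.card_Icc, Nat.card_Icc] at h
  calc F.card ≤ _ := h
    _ = 2 * T ^ 3 := by simp only [Nat.add_sub_cancel]; ring

/-- one fibre -/
theorem fibre (N T : ℕ) (hT1 : 1 ≤ T) (hT : 2 * N ≤ T ^ 4) (hT2 : T ^ 4 ≤ 32 * N)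
    (b y u : ℕ) (hy : 0 < y) (F : Finset (ℕ × ℕ × ℤ × ℕ × ℕ))
    (hF : ∀ x ∈ F, Cd N x.1 x.2.1 x.2.2.1 x.2.2.2.1 x.2.2.2.2 ∧ x.1 = b ∧ x.2.2.1.natAbs = y ∧
      x.2.2.2.1 = u) :
    (F.card : ℝ) ≤ 62 * T ^ 3 * ((y : ℝ)⁻¹ * (u : ℝ)⁻¹) := by
  classical
  rcases F.eq_empty_or_nonempty with hE | ⟨x₀, hx₀⟩
  · rw [hE]
    simp only [card_empty, Nat.cast_zero]
    positivity
  obtain ⟨c0, c1, c2, c3⟩ := hF x₀ hx₀
  have hu : 0 < u := by rw [← c3]; exact c0.2.2.1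
  have hyu : y * u ≤ 23 * T ^ 3 := by
    have h := (bounds N _ _ _ _ _ T hT1 hT hT2 c0).2.2.2
    rw [c2, c3] at h
    exact h
  set S : Finset ℕ := F.image (fun x => x.2.1) with hS
  have hS1 : ∀ q ∈ S, q ≤ 2 * T ^ 3 / y := by
    intro q hq
    obtain ⟨x, hx, rfl⟩ := mem_image.1 hq
    obtain ⟨e0, e1, e2, e3⟩ := hF x hx
    have h := (bounds N _ _ _ _ _ T hT1 hT hT2 e0).2.2.1
    rw [e2] at h
    exact (Nat.le_div_iff_mul_le hy).2 h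
  have hS2 : ∀ q ∈ S, ∀ q' ∈ S, ((u ^ 2 : ℕ) : ℤ) ∣ 4 * ((q : ℤ) - q') := by
    intro q hq q' hq'
    obtain ⟨x, hx, rfl⟩ := mem_image.1 hq
    obtain ⟨x', hx', rfl⟩ := mem_image.1 hq'
    obtain ⟨e0, e1, e2, e3⟩ := hF x hx
    obtain ⟨f0, f1, f2, f3⟩ := hF x' hx'
    have h1 := e0.2.2.2.2.1
    have h2 := f0.2.2.2.2.1
    have h3 := e0.2.2.2.1
    have hsq : x'.2.2.1 ^ 2 = x.2.2.1 ^ 2 := by
      rw [← Int.natAbs_sq x'.2.2.1, ← Int.natAbs_sq x.2.2.1, e2, f2]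
    rw [hsq, f1, f3] at h2
    rw [e1, e3] at h1 h3
    have := dvd4 b x.2.1 x'.2.1 u x.2.2.1 x.2.2.2.2 x'.2.2.2.2 h3 h1 h2
    push_cast
    exact this
  have hc := card_class S (u ^ 2) (2 * T ^ 3 / y) (by positivity) hS1 hS2
  -- two signs
  have hcard : F.card ≤ S.card * 2 := by
    have hmap : ∀ x ∈ F, (fun x : ℕ × ℕ × ℤ × ℕ × ℕ => (x.2.1, decide (0 < x.2.2.1))) x ∈
        S ×ˢ (Finset.univ : Finset Bool) := by
      intro x hx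
      simp only [mem_product, mem_univ, and_true]
      exact mem_image_of_mem _ hx
    have hinj : Set.InjOn (fun x : ℕ × ℕ × ℤ × ℕ × ℕ => (x.2.1, decide (0 < x.2.2.1)))
        (F : Set (ℕ × ℕ × ℤ × ℕ × ℕ)) := by
      rintro ⟨b₁, q₁, y₁, u₁, d₁⟩ hx ⟨b₂, q₂, y₂, u₂, d₂⟩ hx' hxx
      obtain ⟨e0, e1, e2, e3⟩ := hF _ hx
      obtain ⟨f0, f1, f2, f3⟩ := hF _ hx'
      simp only [Prod.mk.injEq, decide_eq_decide] at hxx e0 e1 e2 e3 f0 f1 f2 f3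
      obtain ⟨rfl, hyy⟩ := hxx
      subst e1 f1 e3 f3
      have hy12 : y₁ = y₂ := by omega
      subst hy12
      have h1 := e0.2.2.2.2.1
      have h2 := f0.2.2.2.2.1
      have hu : (u₂ : ℤ) ^ 2 ≠ 0 := by have := e0.2.2.1; positivity
      have h3 : (d₁ : ℤ) = d₂ := mul_right_cancel₀ hu (by linarith)
      have h4 : d₁ = d₂ := by exact_mod_cast h3
      rw [h4]
    have h := Finset.card_le_card_of_injOn _ hmap hinj
    rwa [card_product, Finset.card_univ, Fintype.card_bool] at h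
  have hy' : (0 : ℝ) < y := by exact_mod_cast hy
  have hu' : (0 : ℝ) < u := by exact_mod_cast hu
  have hu1 : (1 : ℝ) ≤ u := by exact_mod_cast hu
  have hX : ((2 * T ^ 3 / y : ℕ) : ℝ) ≤ 2 * T ^ 3 / y := by
    have := @Nat.cast_div_le ℝ _ _ _ (2 * T ^ 3) y
    push_cast at this
    exact this
  have h1 : (1 : ℝ) ≤ 23 * T ^ 3 * ((y : ℝ)⁻¹ * (u : ℝ)⁻¹) := by
    have : (y : ℝ) * u ≤ 23 * T ^ 3 := by exact_mod_cast hyu
    rw [← mul_inv, ← div_eq_mul_inv, le_div_iff₀ (by positivity)]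
    linarith
  have h2 : 4 * ((2 * T ^ 3 / y : ℕ) : ℝ) / ((u ^ 2 : ℕ) : ℝ) ≤
      8 * T ^ 3 * ((y : ℝ)⁻¹ * (u : ℝ)⁻¹) := by
    push_cast
    rw [div_le_iff₀ (by positivity)]
    calc 4 * ((2 * T ^ 3 / y : ℕ) : ℝ) ≤ 4 * (2 * T ^ 3 / y) := by gcongr
      _ = 8 * T ^ 3 * (y : ℝ)⁻¹ * 1 := by rw [div_eq_mul_inv]; ring
      _ ≤ 8 * T ^ 3 * (y : ℝ)⁻¹ * u := by gcongr
      _ = 8 * T ^ 3 * ((y : ℝ)⁻¹ * (u : ℝ)⁻¹) * (u : ℝ) ^ 2 := by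
          field_simp
  have h3 : (F.card : ℝ) ≤ S.card * 2 := by exact_mod_cast hcard
  linarith

/-- the tuples with `y ≠ 0` -/
theorem part1 (N T : ℕ) (hT1 : 1 ≤ T) (hT : 2 * N ≤ T ^ 4) (hT2 : T ^ 4 ≤ 32 * N)
    (F : Finset (ℕ × ℕ × ℤ × ℕ × ℕ))
    (hF : ∀ x ∈ F, Cd N x.1 x.2.1 x.2.2.1 x.2.2.2.1 x.2.2.2.2 ∧ x.2.2.1 ≠ 0) :
    (F.card : ℝ) ≤ 62 * T ^ 4 * (1 + Real.log ((23 * T ^ 3 : ℕ) : ℝ)) ^ 2 := by
  classical
  set Y := 23 * T ^ 3 with hY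
  set Zs : Finset (ℕ × ℕ × ℕ) := (Icc 1 T) ×ˢ (Icc 1 Y) ×ˢ (Icc 1 Y) with hZs
  have hmap : ∀ x ∈ F, (fun x : ℕ × ℕ × ℤ × ℕ × ℕ => (x.1, x.2.2.1.natAbs, x.2.2.2.1)) x ∈ Zs := by
    intro x hx
    obtain ⟨h, h0⟩ := hF x hx
    obtain ⟨h1, -, -, h2⟩ := bounds N _ _ _ _ _ T hT1 hT hT2 h
    have h3 : 0 < x.2.2.1.natAbs := Int.natAbs_pos.2 h0
    have h4 : 0 < x.2.2.2.1 := h.2.2.1
    simp only [hZs, mem_product, mem_Icc]
    refine ⟨⟨h.1, h1⟩, ⟨h3, ?_⟩, h4, ?_⟩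
    · exact le_trans (Nat.le_mul_of_pos_right _ h4) h2
    · exact le_trans (Nat.le_mul_of_pos_left _ h3) h2
  rw [Finset.card_eq_sum_card_fiberwise hmap]
  push_cast
  calc ∑ z ∈ Zs, ((F.filter (fun x => (x.1, x.2.2.1.natAbs, x.2.2.2.1) = z)).card : ℝ)
      ≤ ∑ z ∈ Zs, 62 * T ^ 3 * ((z.2.1 : ℝ)⁻¹ * (z.2.2 : ℝ)⁻¹) := by
        refine Finset.sum_le_sum fun z hz => ?_
        simp only [hZs, mem_product, mem_Icc] at hz
        refine fibre N T hT1 hT hT2 z.1 z.2.1 z.2.2 hz.2.1.1 _ fun x hx => ?_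
        obtain ⟨h1, h2⟩ := mem_filter.1 hx
        refine ⟨(hF x h1).1, ?_, ?_, ?_⟩
        · exact congrArg (fun z => z.1) h2
        · exact congrArg (fun z => z.2.1) h2
        · exact congrArg (fun z => z.2.2) h2
    _ = 62 * T ^ 4 * ((∑ y ∈ Icc 1 Y, (y : ℝ)⁻¹) * (∑ u ∈ Icc 1 Y, (u : ℝ)⁻¹)) := by
        have e : ∑ z ∈ (Icc 1 Y) ×ˢ (Icc 1 Y), (62 : ℝ) * T ^ 3 * ((z.1 : ℝ)⁻¹ * (z.2 : ℝ)⁻¹) =
            62 * T ^ 3 * ((∑ y ∈ Icc 1 Y, (y : ℝ)⁻¹) * (∑ u ∈ Icc 1 Y, (u : ℝ)⁻¹)) := by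
          rw [← mul_sum, sum_mul_sum, sum_product]
        rw [hZs, sum_product]
        simp only
        rw [e, sum_const, Nat.card_Icc, Nat.add_sub_cancel, nsmul_eq_mul]
        ring
    _ ≤ 62 * T ^ 4 * ((1 + Real.log (Y : ℝ)) * (1 + Real.log (Y : ℝ))) := by
        have h1 := harm Y
        have h0 : 0 ≤ ∑ y ∈ Icc 1 Y, (y : ℝ)⁻¹ := Finset.sum_nonneg fun y _ => by positivity
        gcongr
    _ = _ := by ring

end ZB

open ZB in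
theorem t_ZB : S_ZB := by
  intro ε hε
  obtain ⟨C, hC, hlog⟩ := logb ε hε
  refine ⟨2048 * C, by positivity, fun N hN F hF => ?_⟩
  classical
  obtain ⟨T, hT1, hT, hT2⟩ := exists_T N hN
  have hF' : ∀ x ∈ F, Cd N x.1 x.2.1 x.2.2.1 x.2.2.2.1 x.2.2.2.2 := fun x hx => hF x hx
  have h0 := part0 N T hT1 hT hT2 (F.filter (fun x => x.2.2.1 = 0)) fun x hx =>
    ⟨hF' x (mem_filter.1 hx).1, (mem_filter.1 hx).2⟩
  have h1 := part1 N T hT1 hT hT2 (F.filter (fun x => ¬ x.2.2.1 = 0)) fun x hx =>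
    ⟨hF' x (mem_filter.1 hx).1, (mem_filter.1 hx).2⟩
  have h2 := Finset.card_filter_add_card_filter_not (s := F) (fun x => x.2.2.1 = 0)
  have h3 : (F.card : ℝ) = ((F.filter (fun x => x.2.2.1 = 0)).card : ℝ) +
      ((F.filter (fun x => ¬ x.2.2.1 = 0)).card : ℝ) := by
    rw [← h2]
    push_cast
    rfl
  have hN1 : (1 : ℝ) ≤ N := by exact_mod_cast hN
  have hT1' : (1 : ℝ) ≤ T := by exact_mod_cast hT1
  have hT4 : (T : ℝ) ^ 4 ≤ 32 * N := by exact_mod_cast hT2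
  have hT3 : (T : ℝ) ^ 3 ≤ (T : ℝ) ^ 4 := pow_le_pow_right₀ hT1' (by norm_num)
  have h0' : ((F.filter (fun x => x.2.2.1 = 0)).card : ℝ) ≤ 2 * T ^ 3 := by exact_mod_cast h0
  have hlog1 : 1 + Real.log ((23 * T ^ 3 : ℕ) : ℝ) ≤ 1 + Real.log (736 * N) := by
    have h5 : ((23 * T ^ 3 : ℕ) : ℝ) ≤ 736 * N := by
      push_cast
      linarith
    have h6 : (0 : ℝ) < ((23 * T ^ 3 : ℕ) : ℝ) := by
      push_cast
      positivity
    have := Real.log_le_log h6 h5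
    linarith
  have hlog0 : 1 ≤ 1 + Real.log ((23 * T ^ 3 : ℕ) : ℝ) := by
    have h6 : (1 : ℝ) ≤ ((23 * T ^ 3 : ℕ) : ℝ) := by
      push_cast
      have : (1 : ℝ) ≤ (T : ℝ) ^ 3 := one_le_pow₀ hT1'
      linarith
    have := Real.log_nonneg h6
    linarith
  have hsq : (1 + Real.log ((23 * T ^ 3 : ℕ) : ℝ)) ^ 2 ≤ (1 + Real.log (736 * N)) ^ 2 :=
    pow_le_pow_left₀ (by linarith) hlog1 2
  have hsq1 : 1 ≤ (1 + Real.log (736 * N)) ^ 2 := by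
    have : 1 ≤ (1 + Real.log ((23 * T ^ 3 : ℕ) : ℝ)) ^ 2 := one_le_pow₀ hlog0
    linarith
  have hrp : (N : ℝ) ^ (1 + ε) = N * (N : ℝ) ^ ε := by
    rw [Real.rpow_add (by linarith), Real.rpow_one]
  calc (F.card : ℝ) ≤ 2 * T ^ 3 + 62 * T ^ 4 * (1 + Real.log ((23 * T ^ 3 : ℕ) : ℝ)) ^ 2 := by
        rw [h3]
        exact add_le_add h0' h1
    _ ≤ 2 * T ^ 4 * (1 + Real.log (736 * N)) ^ 2 + 62 * T ^ 4 * (1 + Real.log (736 * N)) ^ 2 := by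
        have e1 : 2 * (T : ℝ) ^ 3 ≤ 2 * T ^ 4 * (1 + Real.log (736 * N)) ^ 2 := by
          calc 2 * (T : ℝ) ^ 3 ≤ 2 * T ^ 4 * 1 := by linarith
            _ ≤ _ := by gcongr
        have e2 : 62 * (T : ℝ) ^ 4 * (1 + Real.log ((23 * T ^ 3 : ℕ) : ℝ)) ^ 2 ≤
            62 * T ^ 4 * (1 + Real.log (736 * N)) ^ 2 := by gcongr
        linarith
    _ = 64 * (T : ℝ) ^ 4 * (1 + Real.log (736 * N)) ^ 2 := by ring
    _ ≤ 64 * (32 * N) * (C * (N : ℝ) ^ ε) := by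
        gcongr
        exact hlog N hN
    _ = 2048 * C * (N : ℝ) ^ (1 + ε) := by
        rw [hrp]
        ring

end Pool.Agent.T2h80.F5
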