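import Pool.Agent.T2h80.F5.ZA
import Pool.Agent.T2h80.F5.ZB

/-! Project F5, part ZER: the tuples with `u₁ = 0` or `u₂ = 0`. -/

set_option autoImplicit false

namespace Pool.Agent.T2h80.F5

open Finset

namespace ZER

/-- the symmetry -/
theorem REL_symm (d ρ m a : ℕ) (x₁ u₁ x₂ u₂ : ℤ) (h : REL d ρ m a x₁ u₁ x₂ u₂) :
    REL d ρ a m x₂ u₂ (-x₁ - th d * u₁) u₁ := by
  obtain ⟨hρ, hm, ha, hu1, hu2, hc1, hc2, hB1, hB2, hN1, hN2, hD1, hD2, hD3, hD4⟩ := h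
  have hth := ZA.th_sq d
  refine ⟨hρ, ha, hm, hu2, hu1, by rwa [mul_comm a m], ?_, hB2, hB1, hN2, ?_, ?_, ?_, ?_, ?_⟩
  · rw [Int.gcd_comm, mul_right_comm]
    exact hc2
  · rw [← hN1]
    ring
  · have e : x₂ * u₁ + (-x₁ - th d * u₁) * u₂ + th d * u₂ * u₁ = x₂ * u₁ - x₁ * u₂ := by ring
    rw [e]
    exact hD2
  · have e : (-x₁ - th d * u₁) * u₂ - x₂ * u₁ = -(x₁ * u₂ + x₂ * u₁ + th d * u₁ * u₂) := by ring
    rw [e, dvd_neg]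
    exact hD1
  · have e : u₂ * (-x₁ - th d * u₁) ^ 2 - 2 * x₂ * (-x₁ - th d * u₁) * u₁ - th d * x₂ * u₁ ^ 2 -
        n0 d * u₂ * u₁ ^ 2 = x₁ ^ 2 * u₂ + 2 * x₁ * x₂ * u₁ + 2 * th d * x₁ * u₁ * u₂ +
          th d * x₂ * u₁ ^ 2 + th d * u₁ ^ 2 * u₂ - n0 d * u₁ ^ 2 * u₂ := by
      linear_combination (u₂ * u₁ ^ 2) * hth
    rw [e]
    exact hD4
  · have e : x₂ ^ 2 * u₁ + 2 * x₂ * (-x₁ - th d * u₁) * u₂ + 2 * th d * x₂ * u₂ * u₁ +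
        th d * (-x₁ - th d * u₁) * u₂ ^ 2 + th d * u₂ ^ 2 * u₁ - n0 d * u₂ ^ 2 * u₁ =
        u₁ * x₂ ^ 2 - 2 * x₁ * x₂ * u₂ - th d * x₁ * u₂ ^ 2 - n0 d * u₁ * u₂ ^ 2 := by
      linear_combination (-(u₁ * u₂ ^ 2)) * hth
    rw [e]
    exact hD3

abbrev Tp := ℕ × ℕ × ℕ × ℕ × ℤ × ℤ × ℤ × ℤ

/-- the symmetry on tuples -/
def tau (x : Tp) : Tp := (x.1, x.2.1, x.2.2.2.1, x.2.2.1, x.2.2.2.2.2.2.1, x.2.2.2.2.2.2.2,
  -x.2.2.2.2.1 - th x.1 * x.2.2.2.2.2.1, x.2.2.2.2.2.1)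

theorem tau_inj : Function.Injective tau := by
  rintro ⟨d, ρ, m, a, x₁, u₁, x₂, u₂⟩ ⟨d', ρ', m', a', x₁', u₁', x₂', u₂'⟩ h
  simp only [tau, Prod.mk.injEq] at h
  obtain ⟨rfl, rfl, rfl, rfl, rfl, rfl, h1, rfl⟩ := h
  have : x₁ = x₁' := by linarith
  rw [this]

theorem RelT_tau (N : ℕ) (x : Tp) (h : RelT N x) : RelT N (tau x) := by
  obtain ⟨h1, h2, h3, h4⟩ := h
  exact ⟨h1, h2, h3, REL_symm _ _ _ _ _ _ _ _ h4⟩

/-- the map of ZA -/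
def Sp (N : ℕ) (x : Tp) (z : ℕ × ℕ × ℤ × ℕ × ℕ) : Prop :=
  ZB.Cd N z.1 z.2.1 z.2.2.1 z.2.2.2.1 z.2.2.2.2 ∧ x.2.1 = 1 ∧ x.2.2.1 = z.1 * z.2.1 ∧
  x.2.2.2.1 = z.1 ^ 2 ∧ x.2.2.2.2.1 ^ 2 = ((z.1 : ℤ) ^ 2 * z.2.1) ^ 2 ∧
  2 * x.2.2.2.2.2.2.1 + th x.1 * x.2.2.2.2.2.2.2 = z.2.1 * z.2.2.1 ∧ x.1 = z.2.1 * z.2.2.2.2 ∧
  x.2.2.2.2.2.2.2 = z.2.2.2.1

theorem exists_Sp (hZA : S_ZA) (N : ℕ) (x : Tp) (h : RelT N x) (h1 : x.2.2.2.2.2.1 = 0)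
    (h2 : x.2.2.2.2.2.2.2 ≠ 0) : ∃ z, Sp N x z := by
  obtain ⟨d, ρ, m, a, x₁, u₁, x₂, u₂⟩ := x
  obtain ⟨hN1, hN2, hd4, hR⟩ := h
  simp only at hN1 hN2 hd4 hR h1 h2
  subst h1
  obtain ⟨hρ, b, q, d', y, hb, hq, hm, ha, hx, hy, hd, he, hc⟩ :=
    hZA d ρ m a x₁ x₂ u₂ hd4 hR h2
  subst hρ
  have hu2 : 0 ≤ u₂ := hR.2.2.2.2.1
  have hB1 := hR.2.2.2.2.2.2.2.1
  have hB2 := hR.2.2.2.2.2.2.2.2.1
  have hun : (u₂.natAbs : ℤ) = u₂ := Int.natAbs_of_nonneg hu2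
  refine ⟨(b, q, y, u₂.natAbs, d'), ⟨hb, hq, Int.natAbs_pos.2 h2, hc, ?_, ?_, ?_, ?_, ?_⟩,
    rfl, hm, ha, hx, hy, hd, hun.symm⟩
  · rw [hun]
    exact he
  · rw [← hd]
    exact hN1
  · rw [← hd]
    exact hN2
  · rw [one_mul, hm] at hB1
    exact hB1.trans hN2
  · rw [one_mul, ha] at hB2
    exact hB2.trans hN2

/-- the tuples with `u₁ = 0`, `u₂ ≠ 0` -/
theorem partA (hZA : S_ZA) (N : ℕ) (B : ℝ)
    (hB : ∀ G : Finset (ℕ × ℕ × ℤ × ℕ × ℕ),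
      (∀ z ∈ G, ZB.Cd N z.1 z.2.1 z.2.2.1 z.2.2.2.1 z.2.2.2.2) → (G.card : ℝ) ≤ B)
    (F : Finset Tp) (hF : ∀ x ∈ F, RelT N x ∧ x.2.2.2.2.2.1 = 0 ∧ x.2.2.2.2.2.2.2 ≠ 0) :
    (F.card : ℝ) ≤ 2 * B := by
  classical
  let Ψ : Tp → ℕ × ℕ × ℤ × ℕ × ℕ := fun x =>
    if h : ∃ z, Sp N x z then h.choose else default
  have hΨ : ∀ x ∈ F, Sp N x (Ψ x) := by
    intro x hx
    have h : ∃ z, Sp N x z := exists_Sp hZA N x (hF x hx).1 (hF x hx).2.1 (hF x hx).2.2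
    have e : Ψ x = h.choose := dif_pos h
    rw [e]
    exact h.choose_spec
  have hG := hB (F.image Ψ) (by
    intro z hz
    obtain ⟨x, hx, rfl⟩ := mem_image.1 hz
    exact (hΨ x hx).1)
  have hmap : ∀ x ∈ F, (fun x : Tp => (Ψ x, decide (0 < x.2.2.2.2.1))) x ∈
      (F.image Ψ) ×ˢ (Finset.univ : Finset Bool) := by
    intro x hx
    simp only [mem_product, mem_univ, and_true]
    exact mem_image_of_mem _ hx
  have hinj : Set.InjOn (fun x : Tp => (Ψ x, decide (0 < x.2.2.2.2.1))) (F : Set Tp) := by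
    intro x hx x' hx' hxx
    simp only [Prod.mk.injEq, decide_eq_decide] at hxx
    have s1 := hΨ x hx
    have s2 := hΨ x' hx'
    have t1 := hF x hx
    have t2 := hF x' hx'
    rw [← hxx.1] at s2
    obtain ⟨d, ρ, m, a, x₁, u₁, x₂, u₂⟩ := x
    obtain ⟨d', ρ', m', a', x₁', u₁', x₂', u₂'⟩ := x'
    obtain ⟨p0, p1, p2, p3, p4, p5, p6, p7⟩ := s1
    obtain ⟨q0, q1, q2, q3, q4, q5, q6, q7⟩ := s2
    have hsg := hxx.2
    have v1 := t1.2.1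
    have v2 := t2.2.1
    simp only at p1 p2 p3 p4 p5 p6 p7 q1 q2 q3 q4 q5 q6 q7 hsg v1 v2
    have g1 : ρ = ρ' := by rw [p1, q1]
    have g2 : m = m' := by rw [p2, q2]
    have g3 : a = a' := by rw [p3, q3]
    have g4 : d = d' := by rw [p6, q6]
    have g5 : u₂ = u₂' := by rw [p7, q7]
    have g6 : u₁ = u₁' := by rw [v1, v2]
    subst g1 g2 g3 g4 g5 g6
    have g7 : x₂ = x₂' := by linarith
    have g8 : x₁ ^ 2 = x₁' ^ 2 := by rw [p4, q4]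
    have hne : x₁ ≠ 0 := by
      intro h0
      have h1 := p0.1
      have h2 := p0.2.1
      have h3 : (0 : ℤ) < x₁ ^ 2 := by rw [p4]; positivity
      rw [h0] at h3
      norm_num at h3
    have g9 : x₁ = x₁' := by
      rcases sq_eq_sq_iff_eq_or_eq_neg.1 g8 with h | h
      · exact h
      · omega
    rw [g7, g9]
  have h := Finset.card_le_card_of_injOn _ hmap hinj
  rw [card_product, Finset.card_univ, Fintype.card_bool] at h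
  have h' : (F.card : ℝ) ≤ ((F.image Ψ).card : ℝ) * 2 := by exact_mod_cast h
  linarith

theorem sq1 (x : ℤ) (h : x ^ 2 = 1) : x = 1 ∨ x = -1 := by
  have h1 : (x - 1) * (x + 1) = 0 := by linear_combination h
  rcases mul_eq_zero.1 h1 with h2 | h2
  · left; omega
  · right; omega

/-- the tuples with `u₁ = u₂ = 0` -/
theorem part0 (N : ℕ) (F : Finset Tp)
    (hF : ∀ x ∈ F, RelT N x ∧ x.2.2.2.2.2.1 = 0 ∧ x.2.2.2.2.2.2.2 = 0) :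
    F.card ≤ 4 * N := by
  classical
  have hsub : F ⊆ (Icc (N + 1) (2 * N)) ×ˢ ({1} : Finset ℕ) ×ˢ ({1} : Finset ℕ) ×ˢ
      ({1} : Finset ℕ) ×ˢ ({1, -1} : Finset ℤ) ×ˢ ({0} : Finset ℤ) ×ˢ ({1, -1} : Finset ℤ) ×ˢ
      ({0} : Finset ℤ) := by
    rintro ⟨d, ρ, m, a, x₁, u₁, x₂, u₂⟩ hx
    obtain ⟨⟨hN1, hN2, hd4, hR⟩, h1, h2⟩ := hF _ hx
    simp only at hN1 hN2 hd4 hR h1 h2
    subst h1 h2
    obtain ⟨hρ, hm, ha, _, _, hc1, hc2, hB1, hB2, hN1', hN2', _, _, _, _⟩ := hR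
    have h3 : ρ * m * a = 1 := by
      have : Int.gcd 0 0 = 0 := rfl
      rw [this, Nat.coprime_zero_right] at hc2
      exact hc2
    have h4 : ρ * m = 1 ∧ a = 1 := by
      rw [mul_eq_one] at h3
      exact h3
    have h5 : ρ = 1 ∧ m = 1 := by
      have := h4.1
      rw [mul_eq_one] at this
      exact this
    obtain ⟨h6, h7⟩ := h5
    have h8 := h4.2
    subst h6 h7 h8
    have h9 : x₁ ^ 2 = 1 := by
      have := hN1'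
      push_cast at this
      linarith
    have h10 : x₂ ^ 2 = 1 := by
      have := hN2'
      push_cast at this
      linarith
    simp only [mem_product, mem_Icc, mem_singleton, mem_insert]
    refine ⟨⟨by omega, hN2⟩, trivial, trivial, trivial, sq1 x₁ h9, trivial,
      sq1 x₂ h10, trivial⟩
  have h := card_le_card hsub
  simp only [card_product, card_singleton, Nat.card_Icc] at h
  have h2 : ({1, -1} : Finset ℤ).card = 2 := by decide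
  rw [h2] at h
  omega

end ZER

open ZER in
theorem t_ZER (hZA : S_ZA) (hZB : S_ZB) : S_ZER := by
  intro ε hε
  obtain ⟨C, hC, h⟩ := hZB ε hε
  refine ⟨4 + 4 * C, by positivity, fun N hN F hF => ?_⟩
  classical
  have hB : ∀ G : Finset (ℕ × ℕ × ℤ × ℕ × ℕ),
      (∀ z ∈ G, ZB.Cd N z.1 z.2.1 z.2.2.1 z.2.2.2.1 z.2.2.2.2) →
        (G.card : ℝ) ≤ C * (N : ℝ) ^ (1 + ε) := fun G hG => h N hN G hG
  set F0 := F.filter (fun x => x.2.2.2.2.2.1 = 0 ∧ x.2.2.2.2.2.2.2 = 0) with hF0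
  set FA := F.filter (fun x => x.2.2.2.2.2.1 = 0 ∧ x.2.2.2.2.2.2.2 ≠ 0) with hFA
  set FB := F.filter (fun x => x.2.2.2.2.2.1 ≠ 0 ∧ x.2.2.2.2.2.2.2 = 0) with hFB
  have hU : F ⊆ F0 ∪ (FA ∪ FB) := by
    intro x hx
    simp only [mem_union, hF0, hFA, hFB, mem_filter]
    have := (hF x hx).2
    tauto
  have h0 : F0.card ≤ 4 * N := part0 N F0 fun x hx => by
    obtain ⟨h1, h2⟩ := mem_filter.1 hx
    exact ⟨(hF x h1).1, h2⟩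
  have hA : (FA.card : ℝ) ≤ 2 * (C * (N : ℝ) ^ (1 + ε)) := partA hZA N _ hB FA fun x hx => by
    obtain ⟨h1, h2⟩ := mem_filter.1 hx
    exact ⟨(hF x h1).1, h2⟩
  have hBB : (FB.card : ℝ) ≤ 2 * (C * (N : ℝ) ^ (1 + ε)) := by
    have e : FB.card = (FB.image tau).card := (card_image_of_injective _ tau_inj).symm
    rw [e]
    refine partA hZA N _ hB _ fun x hx => ?_
    obtain ⟨x', hx', rfl⟩ := mem_image.1 hx
    obtain ⟨h1, h2⟩ := mem_filter.1 hx'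
    exact ⟨RelT_tau N x' (hF x' h1).1, h2.2, h2.1⟩
  have hc : F.card ≤ F0.card + (FA.card + FB.card) :=
    (card_le_card hU).trans ((card_union_le _ _).trans (Nat.add_le_add_left (card_union_le _ _) _))
  have hc' : (F.card : ℝ) ≤ F0.card + (FA.card + FB.card) := by exact_mod_cast hc
  have h0' : (F0.card : ℝ) ≤ 4 * N := by exact_mod_cast h0
  have hN1 : (1 : ℝ) ≤ N := by exact_mod_cast hN
  have hNe : (N : ℝ) ≤ (N : ℝ) ^ (1 + ε) := by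
    calc (N : ℝ) = (N : ℝ) ^ (1 : ℝ) := (Real.rpow_one _).symm
      _ ≤ _ := Real.rpow_le_rpow_of_exponent_le hN1 (by linarith)
  calc (F.card : ℝ) ≤ 4 * N + (2 * (C * (N : ℝ) ^ (1 + ε)) + 2 * (C * (N : ℝ) ^ (1 + ε))) := by
        linarith
    _ ≤ (4 + 4 * C) * (N : ℝ) ^ (1 + ε) := by linarith

end Pool.Agent.T2h80.F5
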