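import Pool.Agent.T2h80.F5.FIN
import Pool.Agent.T2h80.F5.INT
import Pool.Agent.T2h80.F5.CNT
import Pool.Agent.T2h80.F5.CN1
import Pool.Agent.T2h80.F5.CN2
import Pool.Agent.T2h80.F5.BOX
import Pool.Agent.T2h80.F5.INN
import Pool.Agent.T2h80.F5.FEJ
import Pool.Agent.T2h80.F5.WEY
import Pool.Agent.T2h80.F5.DC
import Pool.Agent.T2h80.F5.DUA
import Pool.Agent.T2h80.F5.AVG
import Pool.Agent.T2h80.F5.RES
import Pool.Agent.T2h80.F5.ROO
import Pool.Agent.T2h80.F5.SLO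
import Pool.Agent.T2h80.F5.CUB
import Pool.Agent.T2h80.F5.DEG
import Pool.Agent.T2h80.F5.CONT
import Pool.Agent.T2h80.F5.RAD
import Pool.Agent.T2h80.F5.SMO
import Pool.Agent.T2h80.F5.DIV
import Pool.Agent.T2h80.F5.DER
import Pool.Agent.T2h80.F5.ZA
import Pool.Agent.T2h80.F5.ZB
import Pool.Agent.T2h80.F5.ZER
import Pool.Agent.T2h80.F5.MIN
import Pool.Agent.T2h80.F5.SPL
import Pool.Agent.T2h80.F5.COP
import Pool.Agent.T2h80.F5.ALG
import Pool.Agent.T2h80.F5.NUM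
import Pool.Agent.T2h80.F5.OM

set_option autoImplicit false

namespace Pool.Agent.T2h80.F5

theorem top_CNT : S_CNT :=
  t_CNT (t_CN2 (t_CN1 (t_BOX (t_INN t_FEJ t_WEY (t_DC t_DUA))
    (t_AVG t_RES (t_ROO t_CUB t_SLO) (t_DEG t_DIV) t_CON (t_RAD t_SMO) t_DIV) t_NUM)) t_SMO)

theorem top : S_FIN :=
  t_FIN (t_ALG t_OM t_MIN t_SPL t_COP) (t_INT t_DER top_CNT (t_ZER t_ZA t_ZB))

end Pool.Agent.T2h80.F5
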